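import Pool.Agent.P.MP_7cb106_nt.GK.IfaceA

section
/-! Step UNI. -/

set_option autoImplicit false

namespace Pool.Agent.P.MP_7cb106_nt.GK

theorem uni_pow {L : Type} [NormedField L] {ϖ : L} (h0 : 0 < ‖ϖ‖) (h1 : ‖ϖ‖ < 1)
    (hm : ∀ c : L, ‖c‖ < 1 → ‖c‖ ≤ ‖ϖ‖) (c : L) (hc : c ≠ 0) (hc1 : ‖c‖ ≤ 1) :
    ∃ k : ℕ, ‖c‖ = ‖ϖ‖ ^ k := by
  obtain ⟨k, hk1, hk2⟩ := exists_nat_pow_near_of_lt_one (norm_pos_iff.2 hc) hc1 h0 h1
  refine ⟨k, le_antisymm hk2 ?_⟩
  by_contra hlt
  rw [not_le] at hlt
  have hp : 0 < ‖ϖ‖ ^ k := pow_pos h0 k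
  have h2 : ‖c / ϖ ^ k‖ < 1 := by
    rw [norm_div, norm_pow, div_lt_one hp]
    exact hlt
  have h3 := hm _ h2
  rw [norm_div, norm_pow, div_le_iff₀ hp] at h3
  rw [pow_succ] at hk1
  nlinarith

theorem p_UNI :
    S_UNI := by
  intro p _ L _ _ _ _
  have hp : ‖(p : L)‖ = (p : ℝ)⁻¹ := by
    have h : (p : L) = algebraMap ℚ_[p] L (p : ℚ_[p]) := by simp
    rw [h, norm_algebraMap', Padic.norm_p]
  refine ⟨hp, ?_⟩
  have : ProperSpace L := FiniteDimensional.proper ℚ_[p] L
  have hp1 : (1 : ℝ) < p := by exact_mod_cast (Fact.out : p.Prime).one_lt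
  have hlt : ‖(p : L)‖ < 1 := by
    rw [hp]
    exact inv_lt_one_of_one_lt₀ hp1
  have hpos : 0 < ‖(p : L)‖ := by
    rw [hp]
    positivity
  have hK : IsCompact (Metric.ball (0 : L) 1) :=
    (isCompact_closedBall (0 : L) 1).of_isClosed_subset
      (IsUltrametricDist.isClosed_ball (0 : L) 1) Metric.ball_subset_closedBall
  obtain ⟨ϖ, hϖ, hmax⟩ := hK.exists_isMaxOn ⟨0, by simp⟩ continuous_norm.continuousOn
  have hm : ∀ c : L, ‖c‖ < 1 → ‖c‖ ≤ ‖ϖ‖ := fun c hc => hmax (by simpa using hc)
  have h1 : ‖ϖ‖ < 1 := by simpa using hϖ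
  have h0 : 0 < ‖ϖ‖ := hpos.trans_le (hm _ hlt)
  exact ⟨ϖ, h0, h1, hm, uni_pow h0 h1 hm⟩

end Pool.Agent.P.MP_7cb106_nt.GK
end

section
/-! Step RES. -/

set_option autoImplicit false

namespace Pool.Agent.P.MP_7cb106_nt.GK

/-- the maximal ideal of the ring of integers -/
def res_m (L : Type) [NormedField L] [IsUltrametricDist L] : Ideal (Ob L) where
  carrier := {c | ‖(c : L)‖ < 1}
  add_mem' := fun {a b} ha hb => by
    have ha' : ‖(a : L)‖ < 1 := ha
    have hb' : ‖(b : L)‖ < 1 := hb
    change ‖((a + b : Ob L) : L)‖ < 1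
    rw [Subring.coe_add]
    exact (IsUltrametricDist.norm_add_le_max _ _).trans_lt (max_lt ha' hb')
  zero_mem' := by
    change ‖((0 : Ob L) : L)‖ < 1
    simp
  smul_mem' := fun c x hx => by
    have hx' : ‖(x : L)‖ < 1 := hx
    change ‖((c * x : Ob L) : L)‖ < 1
    rw [Subring.coe_mul, norm_mul]
    have h1 := Ob.norm_le c
    have h2 := norm_nonneg (x : L)
    nlinarith [norm_nonneg (c : L)]

theorem res_mem {L : Type} [NormedField L] [IsUltrametricDist L] (c : Ob L) :
    c ∈ res_m L ↔ ‖(c : L)‖ < 1 := Iff.rfl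

theorem res_max (L : Type) [NormedField L] [IsUltrametricDist L] : (res_m L).IsMaximal := by
  rw [Ideal.isMaximal_iff]
  constructor
  · rw [res_mem]
    simp
  · intro J x _ hx hxJ
    rw [res_mem, not_lt] at hx
    have h1 : ‖(x : L)‖ = 1 := le_antisymm (Ob.norm_le x) hx
    have h0 : (x : L) ≠ 0 := by
      intro h
      rw [h] at h1
      simp at h1
    have hinv : (x : L)⁻¹ ∈ Ob L := by
      rw [mem_Ob, norm_inv, h1]
      simp
    have h2 : (⟨(x : L)⁻¹, hinv⟩ : Ob L) * x = 1 := by
      apply Subtype.ext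
      simp [h0]
    rw [← h2]
    exact J.mul_mem_left _ hxJ

theorem res_fin (L : Type) [NormedField L] [IsUltrametricDist L] [ProperSpace L] :
    Finite (Ob L ⧸ res_m L) := by
  have hc : IsCompact (Metric.closedBall (0 : L) 1) := isCompact_closedBall 0 1
  obtain ⟨t, hts, htf, hcov⟩ := hc.finite_cover_balls (e := (1 : ℝ)) one_pos
  have : Finite t := htf
  have hm : ∀ y : t, (y : L) ∈ Ob L := fun y => by
    have := hts y.2
    rw [mem_Ob]
    simpa using this
  refine Finite.of_surjective (fun y : t => Ideal.Quotient.mk (res_m L) ⟨(y : L), hm y⟩) ?_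
  intro z
  obtain ⟨c, rfl⟩ := Ideal.Quotient.mk_surjective z
  have hcb : (c : L) ∈ Metric.closedBall (0 : L) 1 := by
    simpa using Ob.norm_le c
  have := hcov hcb
  simp only [Set.mem_iUnion] at this
  obtain ⟨y, hy, hcy⟩ := this
  refine ⟨⟨y, hy⟩, ?_⟩
  rw [Ideal.Quotient.eq, res_mem]
  rw [Metric.mem_ball, dist_comm, dist_eq_norm] at hcy
  simpa using hcy

theorem p_RES :
    S_RES := by
  intro p hp L _ _ _ _
  haveI : ProperSpace L := FiniteDimensional.proper ℚ_[p] L
  haveI := res_max L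
  letI : Field (Ob L ⧸ res_m L) := Ideal.Quotient.field (res_m L)
  have hpn : ‖(p : L)‖ < 1 := by
    have h : (p : L) = algebraMap ℚ_[p] L (p : ℚ_[p]) := by simp
    rw [h, norm_algebraMap']
    exact Padic.norm_p_lt_one
  have hp0 : ((p : ℕ) : Ob L ⧸ res_m L) = 0 := by
    have h : ((p : ℕ) : Ob L ⧸ res_m L) = Ideal.Quotient.mk (res_m L) (p : Ob L) := by simp
    rw [h, Ideal.Quotient.eq_zero_iff_mem, res_mem]
    simpa using hpn
  have hch : CharP (Ob L ⧸ res_m L) p := (CharP.charP_iff_prime_eq_zero hp.out).2 hp0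
  refine ⟨Ob L ⧸ res_m L, inferInstance, res_fin L, hch, Ideal.Quotient.mk (res_m L),
    Ideal.Quotient.mk_surjective, fun c => ?_⟩
  rw [Ideal.Quotient.eq_zero_iff_mem, res_mem]

end Pool.Agent.P.MP_7cb106_nt.GK
end

section
/-! Step RED. -/

set_option autoImplicit false

namespace Pool.Agent.P.MP_7cb106_nt.GK



/-- the closed unit ball -/
def red_U (L B : Type) [NormedField L] [IsUltrametricDist L] [NormedAddCommGroup B]
    [NormedSpace L B] [IsUltrametricDist B] : Submodule (Ob L) B where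
  carrier := {v | ‖v‖ ≤ 1}
  add_mem' := fun {a b} ha hb => (IsUltrametricDist.norm_add_le_max a b).trans (max_le ha hb)
  zero_mem' := by simp
  smul_mem' := fun c v hv => by
    have hv' : ‖v‖ ≤ 1 := hv
    change ‖(c : L) • v‖ ≤ 1
    rw [norm_smul]
    exact mul_le_one₀ (Ob.norm_le c) (norm_nonneg _) hv'

/-- the open unit ball -/
def red_O (L B : Type) [NormedField L] [IsUltrametricDist L] [NormedAddCommGroup B]
    [NormedSpace L B] [IsUltrametricDist B] : Submodule (Ob L) (red_U L B) where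
  carrier := {v | ‖(v : B)‖ < 1}
  add_mem' := fun {a b} ha hb =>
    (IsUltrametricDist.norm_add_le_max (a : B) (b : B)).trans_lt (max_lt ha hb)
  zero_mem' := by simp
  smul_mem' := fun c v hv => by
    have hv' : ‖(v : B)‖ < 1 := hv
    change ‖(c : L) • (v : B)‖ < 1
    rw [norm_smul]
    exact mul_lt_one_of_nonneg_of_lt_one_right (Ob.norm_le c) (norm_nonneg _) hv'

/-- a contraction acts on the quotient -/
noncomputable def red_q {L B : Type} [NormedField L] [IsUltrametricDist L] [NormedAddCommGroup B]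
    [NormedSpace L B] [IsUltrametricDist B] (a : Module.End L B) (h : ∀ v, ‖a v‖ ≤ ‖v‖) :
    (red_U L B ⧸ red_O L B) →ₗ[Ob L] (red_U L B ⧸ red_O L B) :=
  Submodule.mapQ (red_O L B) (red_O L B)
    ((LinearMap.restrictScalars (Ob L) a).restrict (p := red_U L B) (q := red_U L B)
      fun v hv => (h v).trans hv)
    fun v hv => (h v).trans_lt hv

theorem p_RED :
    S_RED := by
  classical
  intro L B F _ _ _ _ _ _ res hs hz
  letI : SMul F (red_U L B ⧸ red_O L B) := ⟨fun c x => Function.surjInv hs c • x⟩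
  have hsmul : ∀ (c : Ob L) (x : red_U L B ⧸ red_O L B), res c • x = c • x := by
    intro c x
    obtain ⟨v, rfl⟩ := Submodule.Quotient.mk_surjective _ x
    change Function.surjInv hs (res c) • (Submodule.Quotient.mk v : red_U L B ⧸ red_O L B) =
      c • (Submodule.Quotient.mk v : red_U L B ⧸ red_O L B)
    rw [← sub_eq_zero, ← sub_smul, ← Submodule.Quotient.mk_smul, Submodule.Quotient.mk_eq_zero]
    have h1 : ‖((Function.surjInv hs (res c) - c : Ob L) : L)‖ < 1 :=
      (hz _).1 (by rw [map_sub, Function.surjInv_eq hs, sub_self])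
    change ‖((Function.surjInv hs (res c) - c : Ob L) : L) • (v : B)‖ < 1
    rw [norm_smul]
    exact mul_lt_one_of_nonneg_of_lt_one_left (norm_nonneg _) h1 v.2
  letI : Module F (red_U L B ⧸ red_O L B) := Function.Surjective.moduleLeft res hs hsmul
  refine ⟨red_U L B ⧸ red_O L B, inferInstance, inferInstance,
    { res := res
      res_surj := hs
      res_zero := hz
      red := fun v => if h : ‖v‖ ≤ 1 then Submodule.Quotient.mk ⟨v, h⟩ else 0
      red_add := fun v w hv hw => ?_
      red_smul := fun c v hv => ?_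
      red_zero := fun v hv => ?_
      red_surj := fun u => ?_
      bar := fun a => if h : ∀ v, ‖a v‖ ≤ ‖v‖ then
        { toFun := red_q a h
          map_add' := map_add (red_q a h)
          map_smul' := fun c x => (red_q a h).map_smul (Function.surjInv hs c) x } else 0
      bar_red := fun a ha v hv => ?_ }, rfl⟩
  · have h : ‖v + w‖ ≤ 1 := (red_U L B).add_mem hv hw
    rw [dif_pos h, dif_pos hv, dif_pos hw, ← Submodule.Quotient.mk_add]
    rfl
  · have h : ‖(c : L) • v‖ ≤ 1 := (red_U L B).smul_mem c hv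
    rw [dif_pos h, dif_pos hv, hsmul, ← Submodule.Quotient.mk_smul]
    rfl
  · rw [dif_pos hv, Submodule.Quotient.mk_eq_zero]
    rfl
  · obtain ⟨v, rfl⟩ := Submodule.Quotient.mk_surjective _ u
    have hv : ‖(v : B)‖ ≤ 1 := v.2
    exact ⟨v, hv, by rw [dif_pos hv]⟩
  · rw [dif_pos ha, dif_pos hv, dif_pos ((ha v).trans hv)]
    rfl

end Pool.Agent.P.MP_7cb106_nt.GK
end

section
/-! Step ORT. -/

set_option autoImplicit false

namespace Pool.Agent.P.MP_7cb106_nt.GK

theorem ort_sum {L B F V : Type} [NormedField L] [IsUltrametricDist L] [NormedAddCommGroup B]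
    [NormedSpace L B] [IsUltrametricDist B] [Field F] [AddCommGroup V] [Module F V]
    (R : Red L B F V) {m : ℕ} (v : Fin m → B) (hv : ∀ i, ‖v i‖ ≤ 1) (c : Fin m → Ob L)
    (s : Finset (Fin m)) :
    ‖∑ j ∈ s, (c j : L) • v j‖ ≤ 1 ∧
      R.red (∑ j ∈ s, (c j : L) • v j) = ∑ j ∈ s, R.res (c j) • R.red (v j) := by
  classical
  induction s using Finset.induction_on with
  | empty =>
    refine ⟨by simp, ?_⟩
    simp only [Finset.sum_empty]
    exact (R.red_zero 0 (by simp)).2 (by simp)
  | insert a s ha ih =>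
    rw [Finset.sum_insert ha, Finset.sum_insert ha]
    have h1 : ‖(c a : L) • v a‖ ≤ 1 := by
      rw [norm_smul]
      exact mul_le_one₀ (Ob.norm_le _) (norm_nonneg _) (hv a)
    refine ⟨(IsUltrametricDist.norm_add_le_max _ _).trans (max_le h1 ih.1), ?_⟩
    rw [R.red_add _ _ h1 ih.1, R.red_smul _ _ (hv a), ih.2]

theorem p_ORT :
    S_ORT := by
  intro L B F V _ _ _ _ _ _ _ _ R m v hv
  constructor
  · intro h
    rw [Fintype.linearIndependent_iff]
    intro g hg i
    choose c hc using fun j => R.res_surj (g j)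
    obtain ⟨h1, h2⟩ := ort_sum R v hv c Finset.univ
    have h3 : R.red (∑ j, (c j : L) • v j) = 0 := by
      rw [h2]
      simpa only [hc] using hg
    have h4 := (R.red_zero _ h1).1 h3
    rw [← hc i]
    exact (R.res_zero _).2 ((h (fun j => (c j : L)) i).trans_lt h4)
  · intro h c i
    rw [Fintype.linearIndependent_iff] at h
    obtain ⟨k, -, hk⟩ := Finset.exists_max_image Finset.univ (fun j => ‖c j‖)
      ⟨i, Finset.mem_univ i⟩
    by_cases h0 : c k = 0
    · have := hk i (Finset.mem_univ i)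
      rw [h0, norm_zero] at this
      exact this.trans (norm_nonneg _)
    have hpos : 0 < ‖c k‖ := norm_pos_iff.2 h0
    have hmem : ∀ j, c j / c k ∈ Ob L := fun j => by
      rw [mem_Ob, norm_div]
      exact div_le_one_of_le₀ (hk j (Finset.mem_univ j)) hpos.le
    obtain ⟨h1, h2⟩ := ort_sum R v hv (fun j => ⟨c j / c k, hmem j⟩) Finset.univ
    have h3 : 1 ≤ ‖∑ j, (c j / c k) • v j‖ := by
      by_contra hlt
      have h4 := (R.red_zero _ h1).2 (not_le.1 hlt)
      rw [h2] at h4
      have h5 := (R.res_zero _).1 (h _ h4 k)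
      simp only [div_self h0, norm_one] at h5
      exact lt_irrefl _ h5
    have h6 : ∑ j, c j • v j = c k • ∑ j, (c j / c k) • v j := by
      rw [Finset.smul_sum]
      refine Finset.sum_congr rfl fun j _ => ?_
      rw [smul_smul, mul_div_cancel₀ _ h0]
    rw [h6, norm_smul]
    exact (hk i (Finset.mem_univ i)).trans (le_mul_of_one_le_right hpos.le h3)

end Pool.Agent.P.MP_7cb106_nt.GK
end

section
/-! Step MUL. -/

set_option autoImplicit false

namespace Pool.Agent.P.MP_7cb106_nt.GK

/-- the ordered word of a monomial -/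
noncomputable def mul_lst {ι : Type} [Fintype ι] (α : ι →₀ ℕ) : List ι :=
  (Finset.univ : Finset ι).toList.flatMap fun i => List.replicate (α i) i

theorem mul_lst_prod {ι A : Type} [Fintype ι] [Monoid A] (b : ι → A) (α : ι →₀ ℕ) :
    ((mul_lst α).map b).prod = mono b α := by
  have key : ∀ l : List ι, ((l.flatMap fun i => List.replicate (α i) i).map b).prod =
      (l.map fun i => b i ^ α i).prod := by
    intro l
    induction l with
    | nil => simp
    | cons a l ih =>
      rw [List.flatMap_cons, List.map_append, List.prod_append, ih, List.map_cons, List.prod_cons,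
        List.map_replicate, List.prod_replicate]
  exact key _

theorem mul_lst_sum {ι : Type} [Fintype ι] (μ : ι → ℕ) (α : ι →₀ ℕ) :
    ((mul_lst α).map μ).sum = wt μ α := by
  have key : ∀ l : List ι, ((l.flatMap fun i => List.replicate (α i) i).map μ).sum =
      (l.map fun i => α i * μ i).sum := by
    intro l
    induction l with
    | nil => simp
    | cons a l ih =>
      rw [List.flatMap_cons, List.map_append, List.sum_append, ih, List.map_cons, List.sum_cons,
        List.map_replicate, List.sum_replicate, smul_eq_mul]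
  rw [mul_lst, key, Finset.sum_map_toList, wt, Finsupp.weight_apply, Finsupp.sum_fintype]
  · simp
  · simp

theorem mul_lst_count {ι : Type} [Fintype ι] [DecidableEq ι] (α : ι →₀ ℕ) (j : ι) :
    (mul_lst α).count j = α j := by
  have key : ∀ l : List ι, (l.flatMap fun i => List.replicate (α i) i).count j =
      (l.map fun i => if i = j then α j else 0).sum := by
    intro l
    induction l with
    | nil => simp
    | cons a l ih =>
      rw [List.flatMap_cons, List.count_append, ih, List.map_cons, List.sum_cons,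
        List.count_replicate]
      by_cases h : a = j
      · subst h
        simp
      · simp [h]
  rw [mul_lst, key, Finset.sum_map_toList]
  simp

theorem mul_lst_add {ι : Type} [Fintype ι] (α α' : ι →₀ ℕ) :
    (mul_lst α ++ mul_lst α').Perm (mul_lst (α + α')) := by
  classical
  rw [List.perm_iff_count]
  intro j
  rw [List.count_append, mul_lst_count, mul_lst_count, mul_lst_count, Finsupp.add_apply]

theorem mul_lst_ex {ι : Type} [Fintype ι] (w : List ι) :
    ∃ α : ι →₀ ℕ, w.Perm (mul_lst α) := by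
  classical
  refine ⟨Finsupp.equivFunOnFinite.symm fun i => w.count i, ?_⟩
  rw [List.perm_iff_count]
  intro j
  rw [mul_lst_count]
  simp

section
variable {L B ι : Type} [NormedField L] [IsUltrametricDist L] [NormedAddCommGroup B]
  [NormedSpace L B] {ϖ : L} {b : ι → Module.End L B} {μ : ι → ℕ} {N : ℕ}
  {Fil : ℕ → Submodule (Ob L) (Module.End L B)}

theorem mul_word (h : FS ϖ b μ N Fil) (w : List ι) : (w.map b).prod ∈ Fil (w.map μ).sum := by
  induction w with
  | nil => simpa using h.one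
  | cons a l ih =>
    simp only [List.map_cons, List.prod_cons, List.sum_cons]
    exact h.mul (h.gen a) ih

theorem mul_perm (h : FS ϖ b μ N Fil) {w w' : List ι} (hp : w.Perm w') :
    (w.map b).prod - (w'.map b).prod ∈ Fil ((w.map μ).sum + 1) := by
  induction hp with
  | nil => simp
  | cons a _ ih =>
    simp only [List.map_cons, List.prod_cons, List.sum_cons]
    rw [← mul_sub, add_assoc]
    exact h.mul (h.gen a) ih
  | swap a c l =>
    simp only [List.map_cons, List.prod_cons, List.sum_cons]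
    rw [← mul_assoc, ← mul_assoc, ← sub_mul]
    have h1 := h.mul (h.perm c a) (mul_word h l)
    have e : μ c + μ a + 1 + (l.map μ).sum = μ c + (μ a + (l.map μ).sum) + 1 := by ring
    rwa [e] at h1
  | @trans l₁ l₂ l₃ h12 _ ih1 ih2 =>
    have e : (l₁.map μ).sum = (l₂.map μ).sum := (h12.map μ).sum_eq
    have h1 := (Fil _).add_mem ih1 (e ▸ ih2)
    rwa [sub_add_sub_cancel] at h1

theorem mul_pow (h : FS ϖ b μ N Fil) (k : ℕ) {t : ℕ} {a : Module.End L B} (ha : a ∈ Fil t) :
    ϖ ^ k • a ∈ Fil (k * N + t) := by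
  induction k with
  | zero => simpa using ha
  | succ k ih =>
    have h1 := h.pi ih
    rw [smul_smul, ← pow_succ'] at h1
    have e : k * N + t + N = (k + 1) * N + t := by ring
    rwa [e] at h1

theorem mul_step [Fintype ι] (h : FS ϖ b μ N Fil) (t : ℕ) :
    Fil t ≤ Submodule.span (Ob L) {a | ∃ (k : ℕ) (α : ι →₀ ℕ),
      t ≤ k * N + wt μ α ∧ a = ϖ ^ k • mono b α} ⊔ Fil (t + 1) := by
  refine (h.span t).trans (sup_le ?_ le_sup_right)
  rw [Submodule.span_le]
  rintro a ⟨k, w, hw, rfl⟩
  obtain ⟨α, hα⟩ := mul_lst_ex w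
  have e : (w.map μ).sum = wt μ α := by rw [← mul_lst_sum]; exact (hα.map μ).sum_eq
  have h1 := mul_pow h k (mul_perm h hα)
  rw [mul_lst_prod] at h1
  have h2 : ϖ ^ k • ((w.map b).prod - mono b α) ∈ Fil (t + 1) :=
    h.anti (by omega) h1
  have e2 : ϖ ^ k • (w.map b).prod =
      ϖ ^ k • mono b α + ϖ ^ k • ((w.map b).prod - mono b α) := by
    rw [← smul_add, add_sub_cancel]
  rw [e2]
  exact Submodule.add_mem_sup (Submodule.subset_span ⟨k, α, e ▸ hw, rfl⟩) h2

theorem mul_span [Fintype ι] (h : FS ϖ b μ N Fil) (t T : ℕ) :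
    Fil t ≤ Submodule.span (Ob L) {a | ∃ (k : ℕ) (α : ι →₀ ℕ),
      t ≤ k * N + wt μ α ∧ a = ϖ ^ k • mono b α} ⊔ Fil T := by
  have key : ∀ d : ℕ, Fil t ≤ Submodule.span (Ob L) {a | ∃ (k : ℕ) (α : ι →₀ ℕ),
      t ≤ k * N + wt μ α ∧ a = ϖ ^ k • mono b α} ⊔ Fil (t + d) := by
    intro d
    induction d with
    | zero => exact le_sup_right
    | succ d ih =>
      refine ih.trans (sup_le le_sup_left ((mul_step h (t + d)).trans (sup_le_sup ?_ le_rfl)))
      refine Submodule.span_mono ?_
      rintro a ⟨k, α, hk, rfl⟩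
      exact ⟨k, α, by omega, rfl⟩
  exact (key T).trans (sup_le_sup_left (h.anti (by omega)) _)

end

theorem p_MUL :
    S_MUL := by
  intro L B ι _ _ _ _ _ ϖ b μ N Fil h
  refine ⟨h, fun α => ?_, fun α α' => ?_, fun t T => mul_span h t T⟩
  · have h1 := mul_word h (mul_lst α)
    rwa [mul_lst_prod, mul_lst_sum] at h1
  · have h1 := mul_perm h (mul_lst_add α α')
    simpa only [List.map_append, List.prod_append, List.sum_append, mul_lst_prod,
      mul_lst_sum] using h1

end Pool.Agent.P.MP_7cb106_nt.GK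
end

section
/-! Step KILL. -/

set_option autoImplicit false

namespace Pool.Agent.P.MP_7cb106_nt.GK

section
variable {L B ι F V : Type} [NormedField L] [IsUltrametricDist L]
  [NormedAddCommGroup B] [NormedSpace L B] [Field F] [AddCommGroup V] [Module F V]

theorem kill_pow (R : Red L B F V) (a : Module.End L B) (ha : ∀ v, ‖a v‖ ≤ ‖v‖) (k : ℕ) (v : B)
    (hv : ‖v‖ ≤ 1) : ‖(a ^ k) v‖ ≤ 1 ∧ (R.bar a ^ k) (R.red v) = R.red ((a ^ k) v) := by
  induction k with
  | zero => simpa using hv
  | succ k ih =>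
    rw [pow_succ', pow_succ', Module.End.mul_apply, Module.End.mul_apply, ih.2,
      R.bar_red a ha _ ih.1]
    exact ⟨(ha _).trans ih.1, rfl⟩

theorem kill_list (R : Red L B F V) (b : ι → Module.End L B) (hb : ∀ i v, ‖b i v‖ ≤ ‖v‖)
    (α : ι →₀ ℕ) (l : List ι) (v : B) (hv : ‖v‖ ≤ 1) :
    ‖(l.map fun i => b i ^ α i).prod v‖ ≤ 1 ∧
      (l.map fun i => R.bar (b i) ^ α i).prod (R.red v) =
        R.red ((l.map fun i => b i ^ α i).prod v) := by
  induction l with
  | nil => simpa using hv
  | cons i l ih =>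
    rw [List.map_cons, List.map_cons, List.prod_cons, List.prod_cons, Module.End.mul_apply,
      Module.End.mul_apply, ih.2]
    exact kill_pow R (b i) (hb i) (α i) _ ih.1

theorem kill_smul (c : Ob L) (a : Module.End L B) (v : B) : (c • a) v = (c : L) • a v := rfl

theorem kill_smul_le (c : Ob L) (w : B) : ‖(c : L) • w‖ ≤ ‖w‖ := by
  rw [norm_smul]
  exact mul_le_of_le_one_left (norm_nonneg _) (Ob.norm_le c)

end

theorem p_KILL :
    S_KILL := by
  intro L B ι F V _ _ _ _ _ _ _ _ _ R ϖ b μ N Fil hϖ h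
  have hb : ∀ i v, ‖b i v‖ ≤ ‖v‖ := fun i => h.norm (h.gen i)
  have h0 : ∀ α v, ‖v‖ ≤ 1 → ‖mono b α v‖ ≤ 1 := fun α v hv => (kill_list R b hb α _ v hv).1
  have h1 : ∀ α v, ‖v‖ ≤ 1 → mono (fun i => R.bar (b i)) α (R.red v) = R.red (mono b α v) :=
    fun α v hv => (kill_list R b hb α _ v hv).2
  have h3 : ∀ s, ∀ a ∈ Fil s, ∀ v, ‖v‖ ≤ 1 → R.red v ∈ Vs (fun i => R.bar (b i)) μ s →
      ‖a v‖ < 1 := by
    intro s a ha v hv hs
    obtain ⟨T, hT⟩ := h.cont v (1 / 2) (by norm_num)
    obtain ⟨a1, ha1, a2, ha2, rfl⟩ := Submodule.mem_sup.1 (h.span_mono s T ha)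
    have e2 : ‖a2 v‖ < 1 := (hT a2 ha2).trans_lt (by norm_num)
    have e1 : ‖a1 v‖ < 1 := by
      clear ha
      induction ha1 using Submodule.span_induction with
      | mem a ha =>
        obtain ⟨k, α, hk, rfl⟩ := ha
        rcases k with _ | k
        · rw [pow_zero, one_smul, ← R.red_zero _ (h0 α v hv), ← h1 α v hv]
          exact hs α (by simpa using hk)
        · rw [LinearMap.smul_apply, norm_smul, norm_pow]
          exact (mul_le_of_le_one_right (by positivity) (h0 α v hv)).trans_lt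
            (pow_lt_one₀ (norm_nonneg _) hϖ (Nat.succ_ne_zero k))
      | zero => simp
      | add x y _ _ hx hy =>
        rw [LinearMap.add_apply]
        exact (IsUltrametricDist.norm_add_le_max _ _).trans_lt (max_lt hx hy)
      | smul c x _ hx =>
        rw [kill_smul]
        exact (kill_smul_le c _).trans_lt hx
    rw [LinearMap.add_apply]
    exact (IsUltrametricDist.norm_add_le_max _ _).trans_lt (max_lt e1 e2)
  refine ⟨h1, fun P v hv => ?_, h3, h.pos, fun α α' s u hu hs => ?_, fun α α' u hu => ?_⟩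
  · suffices H : ‖ev (Ob L) b P v‖ ≤ 1 ∧ ev F (fun i => R.bar (b i)) (MvPolynomial.map R.res P)
        (R.red v) = R.red (ev (Ob L) b P v) from H.2
    induction P using MvPolynomial.induction_on' with
    | monomial α c =>
      rw [MvPolynomial.map_monomial, ev_monomial, ev_monomial, kill_smul, LinearMap.smul_apply,
        R.red_smul c _ (h0 α v hv), h1 α v hv]
      exact ⟨(kill_smul_le c _).trans (h0 α v hv), rfl⟩
    | add P Q hP hQ =>
      rw [map_add, map_add, map_add, LinearMap.add_apply, LinearMap.add_apply,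
        R.red_add _ _ hP.1 hQ.1, hP.2, hQ.2]
      exact ⟨(IsUltrametricDist.norm_add_le_max _ _).trans (max_le hP.1 hQ.1), rfl⟩
  · obtain ⟨v, hv, rfl⟩ := R.red_surj u
    rw [h1 α' v hv, h1 α _ (h0 α' v hv), R.red_zero _ (h0 α _ (h0 α' v hv))]
    exact h3 s _ (h.anti hs (h.mul (h.mono_mem α) (h.mono_mem α'))) v hv hu
  · obtain ⟨v, hv, rfl⟩ := R.red_surj u
    have e := h3 _ _ (h.mono_mul α α') v hv hu
    have e' : mono b α (mono b α' v) =
        (mono b α * mono b α' - mono b (α + α')) v + mono b (α + α') v := by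
      rw [LinearMap.sub_apply, sub_add_cancel, Module.End.mul_apply]
    rw [h1 α' v hv, h1 α _ (h0 α' v hv), h1 _ v hv, e', R.red_add _ _ e.le (h0 _ v hv),
      (R.red_zero _ e.le).2 e, zero_add]

end Pool.Agent.P.MP_7cb106_nt.GK
end

section
/-! Step W. -/

set_option autoImplicit false

namespace Pool.Agent.P.MP_7cb106_nt.GK

theorem w_succ (e J : ℕ) (he : 0 < e) :
    ((J + 1) / e = J / e ∧ (J + 1) % e = J % e + 1) ∨
      ((J + 1) / e = J / e + 1 ∧ (J + 1) % e = 0 ∧ J % e + 1 = e) := by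
  have h1 := Nat.div_add_mod J e
  have h2 := Nat.mod_lt J he
  rcases Nat.lt_or_ge (J % e + 1) e with h | h
  · exact .inl ((Nat.div_mod_unique he).2 ⟨by omega, h⟩)
  · have := (Nat.div_mod_unique he (a := J + 1) (d := J / e + 1) (c := 0)).2
      ⟨by rw [mul_add]; omega, he⟩
    exact .inr ⟨this.1, this.2, by omega⟩

/-- the differences of the weights -/
def w_d (p e J : ℕ) : ℕ := (p - 1) * p ^ (J / e) * (e + J % e)

/-- the weights -/
def w_w (p e J : ℕ) : ℕ := ∑ j ∈ Finset.range e, (e + j) + ∑ j ∈ Finset.range J, w_d p e j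

theorem w_w_succ (p e J : ℕ) : w_w p e (J + 1) = w_w p e J + w_d p e J := by
  rw [w_w, w_w, Finset.sum_range_succ _ J, add_assoc]

theorem w_d_pos {p e : ℕ} (hp : 2 ≤ p) (he : 0 < e) (J : ℕ) : 0 < w_d p e J :=
  Nat.mul_pos (Nat.mul_pos (by omega) (Nat.pow_pos (by omega))) (by omega)

theorem w_d_lt {p e : ℕ} (hp : 2 ≤ p) (he : 0 < e) (J : ℕ) : w_d p e J < w_d p e (J + 1) := by
  have h0 : 0 < (p - 1) * p ^ (J / e) := Nat.mul_pos (by omega) (Nat.pow_pos (by omega))
  rcases w_succ e J he with ⟨h1, h2⟩ | ⟨h1, h2, h3⟩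
  · rw [w_d, w_d, h1, h2]
    exact Nat.mul_lt_mul_of_pos_left (by omega) h0
  · rw [w_d, w_d, h1, h2, pow_succ, ← mul_assoc, mul_assoc _ p]
    refine Nat.mul_lt_mul_of_pos_left ?_ h0
    have := Nat.mul_le_mul_right (e + 0) hp
    omega

theorem w_per {p e : ℕ} (hp : 2 ≤ p) (he : 0 < e) (J : ℕ) : w_w p e (J + e) = p * w_w p e J := by
  induction J with
  | zero =>
    have : ∑ j ∈ Finset.range e, w_d p e j = (p - 1) * ∑ j ∈ Finset.range e, (e + j) := by
      rw [Finset.mul_sum]
      refine Finset.sum_congr rfl fun j hj => ?_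
      have hj := Finset.mem_range.1 hj
      rw [w_d, Nat.div_eq_of_lt hj, Nat.mod_eq_of_lt hj, pow_zero, mul_one]
    rw [zero_add, w_w, w_w, this, Finset.sum_range_zero, add_zero]
    obtain ⟨q, rfl⟩ : ∃ q, p = q + 1 := ⟨p - 1, by omega⟩
    rw [Nat.add_sub_cancel]
    ring
  | succ J ih =>
    rw [add_right_comm, w_w_succ, w_w_succ, ih, w_d, w_d, Nat.add_div_right _ he,
      Nat.add_mod_right]
    ring

theorem w_low {p N x : ℕ} (hp : 2 ≤ p) (hN : 0 < N) (hx : 0 < x) (m : ℕ) :
    m < (fun z => min (p * z) (z + N))^[m] x ∧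
      N * m ≤ (fun z => min (p * z) (z + N))^[m] x + N * N := by
  induction m with
  | zero => exact ⟨hx, by simp⟩
  | succ m ih =>
    rw [Function.iterate_succ_apply']
    generalize (fun z => min (p * z) (z + N))^[m] x = z at ih
    have h1 := Nat.mul_le_mul_right z hp
    refine ⟨by omega, ?_⟩
    rcases Nat.lt_or_ge m N with h | h
    · exact (Nat.mul_le_mul_left N h).trans (Nat.le_add_left _ _)
    · rw [mul_add]
      omega

theorem p_W :
    S_W := by
  intro p e hp he
  refine ⟨fun a ha => ⟨fun J => a * w_w p e J, ?_, fun J => ?_, fun J => Dvd.intro _ rfl,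
    fun J => ?_, fun J => ?_⟩, fun a N w hw hN => ?_⟩
  · refine Nat.mul_pos ha (Nat.add_pos_left (Finset.sum_pos (fun j _ => by omega) ?_) _)
    exact ⟨0, Finset.mem_range.2 he⟩
  · rw [w_per hp he, mul_left_comm]
  · refine Nat.mul_lt_mul_of_pos_left ?_ ha
    have := w_d_pos hp he J
    rw [w_w_succ]
    omega
  · rw [mul_left_comm, ← mul_add]
    refine Nat.mul_lt_mul_of_pos_left ?_ ha
    have := w_d_lt hp he J
    rw [w_w_succ p e (J + 1), w_w_succ]
    omega
  · have hφ : StrictMono fun z => min (p * z) (z + N) := fun u v h =>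
      min_lt_min (Nat.mul_lt_mul_of_pos_left h (by omega)) (by omega)
    have hm : StrictMono w := strictMono_nat_of_lt_succ hw.lt
    refine ⟨fun J => (fun z => min (p * z) (z + N))^[J / e] (w (J % e)), ?_, fun j hj => ?_,
      fun J => ?_, strictMono_nat_of_lt_succ fun J => ?_, N * N, fun J => ?_⟩
    · simpa using hw.pos
    · simp [Nat.div_eq_of_lt hj, Nat.mod_eq_of_lt hj]
    · simp only [Nat.add_div_right _ he, Nat.add_mod_right, Function.iterate_succ_apply']
    · rcases w_succ e J he with ⟨h1, h2⟩ | ⟨h1, h2, h3⟩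
      · simp only [h1, h2]
        exact hφ.iterate _ (hw.lt _)
      · simp only [h1, h2, Function.iterate_succ_apply]
        refine hφ.iterate _ (lt_min ?_ ?_)
        · rw [← hw.per 0]
          exact hm (by omega)
        · have := hN (J % e) (by omega)
          omega
    · exact (w_low hp ((Nat.zero_le _).trans_lt (hN 0 he))
        (hw.pos.trans_le (hm.monotone (Nat.zero_le _))) _).2

end Pool.Agent.P.MP_7cb106_nt.GK
end

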