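import Pool.Agent.P.MP_7cb106_nt.GK.IfaceA

section
/-! Step LIFT1. -/

set_option autoImplicit false

namespace Pool.Agent.P.MP_7cb106_nt.GK

theorem lift1_sub_le {B : Type} [NormedAddCommGroup B] [IsUltrametricDist B] (x y : B) :
    ‖x - y‖ ≤ max ‖x‖ ‖y‖ := by
  have h := IsUltrametricDist.norm_add_le_max x (-y)
  rwa [norm_neg, ← sub_eq_add_neg] at h

theorem lift1_red_eq {L B F V : Type} [NormedField L] [IsUltrametricDist L]
    [NormedAddCommGroup B] [NormedSpace L B] [IsUltrametricDist B] [Field F]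
    [AddCommGroup V] [Module F V] (R : Red L B F V) {x y : B} (hx : ‖x‖ ≤ 1) (hy : ‖y‖ ≤ 1) :
    R.red x = R.red y ↔ ‖x - y‖ < 1 := by
  have hxy : ‖x - y‖ ≤ 1 := (lift1_sub_le x y).trans (max_le hx hy)
  have h := R.red_add (x - y) y hxy hy
  rw [sub_add_cancel] at h
  rw [← R.red_zero _ hxy, h]
  simp

theorem p_LIFT1 (hKILL : S_KILL) :
    S_LIFT1 := by
  intro L B ι F V _ _ _ _ _ _ _ _ _ R ϖ b μ N D Fil hU hF hE hDN s k t v ht h1 h2
  obtain ⟨K1, -, K3, -⟩ := hKILL L B ι F V R ϖ b μ N Fil hU.lt hF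
  have hpos : 0 < ‖ϖ‖ ^ (k + 1) := pow_pos hU.pos _
  have hc : ϖ ^ (k + 1) ≠ 0 := pow_ne_zero _ (norm_pos_iff.mp hU.pos)
  set v' : B := (ϖ ^ (k + 1))⁻¹ • v with hv'
  have hvv : v = ϖ ^ (k + 1) • v' := by
    rw [hv', smul_smul, mul_inv_cancel₀ hc, one_smul]
  have hn : ∀ (a : Module.End L B) (z : B), ‖a (ϖ ^ (k + 1) • z)‖ = ‖ϖ‖ ^ (k + 1) * ‖a z‖ := by
    intro a z
    rw [map_smul, norm_smul, norm_pow]
  have g1 : ∀ r, s + k * N + 1 ≤ r → ∀ a ∈ Fil r, ‖a v'‖ ≤ 1 := by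
    intro r hr a ha
    have h := h1 a (hF.anti hr ha)
    rw [hvv, hn] at h
    exact (mul_le_iff_le_one_right hpos).mp h
  have g2 : ∀ r, t + 1 ≤ r → ∀ a ∈ Fil r, ‖a v'‖ < 1 := by
    intro r hr a ha
    have h := h2 a (hF.anti hr ha)
    rw [hvv, hn, pow_succ _ (k + 1)] at h
    exact (le_of_mul_le_mul_left h hpos).trans_lt hU.lt
  have ht' : s + k * N + N ≤ t := by
    have : (k + 1) * N = k * N + N := by ring
    omega
  have hA : ∀ (γ : ι →₀ ℕ) (t' : ℕ), t' ≤ D → wt μ γ + t' = t →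
      R.red (mono b γ v') ∈ Vs (fun i => R.bar (b i)) μ (t' + 1) := by
    intro γ t' hD hγ α hα
    have hb : ‖mono b γ v'‖ ≤ 1 := g1 _ (by omega) _ (hF.mono_mem γ)
    have hlt : ‖(mono b α * mono b γ) v'‖ < 1 :=
      g2 _ (by omega) _ (hF.mul (hF.mono_mem α) (hF.mono_mem γ))
    rw [K1 α _ hb]
    exact (R.red_zero _ hlt.le).mpr hlt
  obtain ⟨u₀, hu₀, hΨ⟩ := hE t (fun α => R.red (mono b α v'))
    (fun α hα => hA α 0 (Nat.zero_le _) (by omega)) (by
      intro γ t' hD hγ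
      refine ⟨_, hA γ t' hD hγ, fun α hα => ?_⟩
      have hb : ‖mono b γ v'‖ ≤ 1 := g1 _ (by omega) _ (hF.mono_mem γ)
      have hw : wt μ (α + γ) = wt μ α + wt μ γ := map_add _ _ _
      have hb1 : ‖mono b (α + γ) v'‖ ≤ 1 := g1 _ (by omega) _ (hF.mono_mem (α + γ))
      have hb2 : ‖mono b α (mono b γ v')‖ ≤ 1 := (hF.norm (hF.mono_mem α) _).trans hb
      have hlt : ‖(mono b α * mono b γ - mono b (α + γ)) v'‖ < 1 :=
        g2 _ (by omega) _ (hF.mono_mul α γ)
      rw [K1 α _ hb]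
      exact ((lift1_red_eq R hb2 hb1).mpr hlt).symm)
  obtain ⟨u₁, hu₁, rfl⟩ := R.red_surj u₀
  have hsum : v + -(ϖ ^ (k + 1) • u₁) = ϖ ^ (k + 1) • (v' - u₁) := by
    rw [smul_sub, ← hvv, sub_eq_add_neg]
  have fin : ∀ a : Module.End L B, ‖a v' - a u₁‖ < 1 →
      ‖a (v + -(ϖ ^ (k + 1) • u₁))‖ ≤ ‖ϖ‖ ^ (k + 2) := by
    intro a ha
    rw [hsum, hn, map_sub, pow_succ _ (k + 1)]
    exact mul_le_mul_of_nonneg_left (hU.le _ ha) hpos.le
  refine ⟨-(ϖ ^ (k + 1) • u₁), ?_, fun a ha => fin a ?_, fun α hα => fin _ ?_⟩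
  · rw [norm_neg, norm_smul, norm_pow]
    exact mul_le_of_le_one_right hpos.le hu₁
  · exact (lift1_sub_le _ _).trans_lt (max_lt (g2 _ le_rfl a ha) (K3 _ a ha u₁ hu₁ hu₀))
  · have hb : ‖mono b α v'‖ ≤ 1 := g1 _ (by omega) _ (hF.mono_mem α)
    have hb' : ‖mono b α u₁‖ ≤ 1 := (hF.norm (hF.mono_mem α) _).trans hu₁
    refine (lift1_red_eq R hb hb').mp ?_
    rw [← K1 α _ hu₁]
    exact (hΨ α hα).symm

end Pool.Agent.P.MP_7cb106_nt.GK
end

section
/-! Step LIFT2. -/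

set_option autoImplicit false

namespace Pool.Agent.P.MP_7cb106_nt.GK

section
variable {L B ι : Type} [NormedField L] [IsUltrametricDist L] [NormedAddCommGroup B]
  [NormedSpace L B] [IsUltrametricDist B] [Fintype ι] {ϖ : L} {b : ι → Module.End L B}
  {μ : ι → ℕ} {N : ℕ} {Fil : ℕ → Submodule (Ob L) (Module.End L B)}

/-- operators sending `w` into the ball of radius `C` -/
def lift2_sub (L : Type) [NormedField L] [IsUltrametricDist L] [NormedSpace L B] (w : B) (C : ℝ)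
    (hC : 0 ≤ C) : Submodule (Ob L) (Module.End L B) where
  carrier := {a | ‖a w‖ ≤ C}
  add_mem' := fun {a a'} ha ha' =>
    (IsUltrametricDist.norm_add_le_max (a w) (a' w)).trans (max_le ha ha')
  zero_mem' := by simpa using hC
  smul_mem' := fun c a ha => by
    have ha' : ‖a w‖ ≤ C := ha
    change ‖(c : L) • a w‖ ≤ C
    rw [norm_smul]
    exact (mul_le_of_le_one_left (norm_nonneg _) (Ob.norm_le c)).trans ha'

omit [IsUltrametricDist B] in
theorem lift2_pow (h : FS2 ϖ b μ N Fil) {t : ℕ} {a : Module.End L B} (ha : a ∈ Fil t) (j : ℕ) :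
    ϖ ^ j • a ∈ Fil (t + j * N) := by
  induction j with
  | zero => simpa using ha
  | succ j ih =>
    have h1 := h.pi ih
    rw [smul_smul, ← pow_succ'] at h1
    have h2 : t + (j + 1) * N = t + j * N + N := by ring
    rw [h2]; exact h1

theorem lift2_add (h : FS2 ϖ b μ N Fil) {t : ℕ} {C : ℝ} {v u : B}
    (hv : ∀ a ∈ Fil t, ‖a v‖ ≤ C) (hu : ‖u‖ ≤ C) : ∀ a ∈ Fil t, ‖a (v + u)‖ ≤ C := by
  intro a ha
  rw [map_add]
  exact (IsUltrametricDist.norm_add_le_max _ _).trans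
    (max_le (hv a ha) ((h.norm ha u).trans hu))

theorem lift2_down (h : FS2 ϖ b μ N Fil) {r t k : ℕ} {w : B} (hrt : r + N ≤ t)
    (h1 : ∀ a ∈ Fil r, ‖a w‖ ≤ ‖ϖ‖ ^ (k + 1))
    (h2 : ∀ a ∈ Fil (t + 1), ‖a w‖ ≤ ‖ϖ‖ ^ (k + 2))
    (h3 : ∀ α, wt μ α = t → ‖mono b α w‖ ≤ ‖ϖ‖ ^ (k + 2)) :
    ∀ a ∈ Fil t, ‖a w‖ ≤ ‖ϖ‖ ^ (k + 2) := by
  intro a ha
  have key : Fil t ≤ lift2_sub L w (‖ϖ‖ ^ (k + 2)) (by positivity) := by
    refine (h.span_mono t (t + 1)).trans (sup_le ?_ fun a ha => h2 a ha)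
    rw [Submodule.span_le]
    rintro _ ⟨j, α, hj, rfl⟩
    change ‖(ϖ ^ j • mono b α) w‖ ≤ ‖ϖ‖ ^ (k + 2)
    rcases j with _ | j
    · rw [pow_zero, one_smul]
      rcases eq_or_lt_of_le (show t ≤ wt μ α by simpa using hj) with he | hl
      · exact h3 α he.symm
      · exact h2 _ (h.anti (show t + 1 ≤ wt μ α from hl) (h.mono_mem α))
    · have h4 : ϖ ^ j • mono b α ∈ Fil r := by
        refine h.anti ?_ (lift2_pow h (h.mono_mem α) j)
        have : (j + 1) * N = j * N + N := by ring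
        omega
      rw [pow_succ', ← smul_smul, LinearMap.smul_apply, norm_smul, pow_succ' _ (k + 1)]
      exact mul_le_mul_of_nonneg_left (h1 _ h4) (norm_nonneg _)
  exact key ha

end

theorem p_LIFT2 (hLIFT1 : S_LIFT1) :
    S_LIFT2 := by
  intro L B ι F V _ _ _ _ _ _ _ _ _ R ϖ b μ N D Fil hU h hE hD s k v hv
  have hN : (k + 1) * N = k * N + N := by ring
  have step : ∀ d t : ℕ, s + (k + 1) * N ≤ t →
      (∃ u : B, ‖u‖ ≤ ‖ϖ‖ ^ (k + 1) ∧ ∀ a ∈ Fil (t + d + 1), ‖a (v + u)‖ ≤ ‖ϖ‖ ^ (k + 2)) →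
      ∃ u : B, ‖u‖ ≤ ‖ϖ‖ ^ (k + 1) ∧ ∀ a ∈ Fil (t + 1), ‖a (v + u)‖ ≤ ‖ϖ‖ ^ (k + 2) := by
    intro d
    induction d with
    | zero => exact fun t _ hu => hu
    | succ d ih =>
      rintro t ht ⟨u, hu, hu'⟩
      apply ih t ht
      obtain ⟨u', h1, h2, h3⟩ := hLIFT1 L B ι F V R ϖ b μ N D Fil hU h hE hD s k (t + (d + 1))
        (v + u) (by omega) (lift2_add h hv hu) hu'
      refine ⟨u + u', (IsUltrametricDist.norm_add_le_max _ _).trans (max_le hu h1), ?_⟩
      rw [← add_assoc v]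
      exact lift2_down h (r := s + k * N + 1) (by omega) (lift2_add h (lift2_add h hv hu) h1) h2 h3
  obtain ⟨T, hT⟩ := h.cont v (‖ϖ‖ ^ (k + 2)) (pow_pos hU.pos _)
  obtain ⟨u, hu, hu'⟩ := step T (s + (k + 1) * N) le_rfl
    ⟨0, by simp, fun a ha => by
      rw [add_zero]
      exact hT a (h.anti (by omega) ha)⟩
  obtain ⟨u', h1, h2, h3⟩ := hLIFT1 L B ι F V R ϖ b μ N D Fil hU h hE hD s k (s + (k + 1) * N)
    (v + u) le_rfl (lift2_add h hv hu) hu'
  refine ⟨u + u', (IsUltrametricDist.norm_add_le_max _ _).trans (max_le hu h1), ?_, ?_⟩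
  · rw [← add_assoc v]; exact h2
  · intro α hα
    rw [← add_assoc v]
    rcases eq_or_lt_of_le hα with he | hl
    · exact h3 α he.symm
    · exact h2 _ (h.anti (show s + (k + 1) * N + 1 ≤ wt μ α from hl) (h.mono_mem α))

end Pool.Agent.P.MP_7cb106_nt.GK
end

section
/-! Step LIFT. -/

set_option autoImplicit false

namespace Pool.Agent.P.MP_7cb106_nt.GK

/-- the limit of a sequence with increments of norm `≤ r ^ (k+1)` in an ultrametric Banach space -/
theorem lift_lim {B : Type} [NormedAddCommGroup B] [IsUltrametricDist B] [CompleteSpace B]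
    (r : ℝ) (h0 : 0 ≤ r) (h1 : r < 1) (y : ℕ → B) (hy : ∀ k, ‖y (k + 1) - y k‖ ≤ r ^ (k + 1)) :
    ∃ v : B, ∀ k, ‖v - y k‖ ≤ r ^ (k + 1) := by
  have hc : CauchySeq y := by
    refine cauchySeq_of_le_geometric r r h1 fun n => ?_
    rw [dist_comm, dist_eq_norm]
    calc ‖y (n + 1) - y n‖ ≤ r ^ (n + 1) := hy n
      _ = r * r ^ n := by ring
  obtain ⟨v, hv⟩ := cauchySeq_tendsto_of_complete hc
  refine ⟨v, fun k => ?_⟩
  have hb : ∀ m, ‖y (k + m) - y k‖ ≤ r ^ (k + 1) := by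
    intro m
    induction m with
    | zero => simpa using pow_nonneg h0 _
    | succ m ih =>
      have e : y (k + (m + 1)) - y k = (y (k + m + 1) - y (k + m)) + (y (k + m) - y k) := by
        rw [← add_assoc]; abel
      rw [e]
      refine (IsUltrametricDist.norm_add_le_max _ _).trans (max_le ?_ ih)
      exact (hy (k + m)).trans (pow_le_pow_of_le_one h0 h1.le (by omega))
  have ht : Filter.Tendsto (fun m => ‖y m - y k‖) Filter.atTop (nhds ‖v - y k‖) :=
    (hv.sub_const (y k)).norm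
  refine le_of_tendsto ht ?_
  filter_upwards [Filter.eventually_ge_atTop k] with m hm
  obtain ⟨d, rfl⟩ := Nat.exists_eq_add_of_le hm
  exact hb d

theorem p_LIFT (hKILL : S_KILL) (hLIFT2 : S_LIFT2) :
    S_LIFT := by
  intro L B ι F V _ _ _ _ _ _ _ _ _ _ R ϖ b μ N D Fil hU hF hE hD s u hu
  obtain ⟨-, -, hk, -⟩ := hKILL L B ι F V R ϖ b μ N Fil hU.lt hF
  have h2 := hLIFT2 L B ι F V R ϖ b μ N D Fil hU hF hE hD s
  obtain ⟨v0, hv0, hr0⟩ := R.red_surj u
  have hstep : ∀ (k : ℕ) (v : B), ∃ w : B,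
      (∀ a ∈ Fil (s + k * N + 1), ‖a v‖ ≤ ‖ϖ‖ ^ (k + 1)) →
      ‖w‖ ≤ ‖ϖ‖ ^ (k + 1) ∧
        (∀ a ∈ Fil (s + (k + 1) * N + 1), ‖a (v + w)‖ ≤ ‖ϖ‖ ^ (k + 2)) ∧
        ∀ α, s + (k + 1) * N ≤ wt μ α → ‖mono b α (v + w)‖ ≤ ‖ϖ‖ ^ (k + 2) := by
    intro k v
    by_cases h : ∀ a ∈ Fil (s + k * N + 1), ‖a v‖ ≤ ‖ϖ‖ ^ (k + 1)
    · obtain ⟨w, hw⟩ := h2 k v h
      exact ⟨w, fun _ => hw⟩
    · exact ⟨0, fun h' => absurd h' h⟩
  choose f hf using hstep
  let y : ℕ → B := fun k => Nat.rec v0 (fun k v => v + f k v) k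
  have y0 : y 0 = v0 := rfl
  have ys : ∀ k, y (k + 1) = y k + f k (y k) := fun k => rfl
  have hP : ∀ k, ∀ a ∈ Fil (s + k * N + 1), ‖a (y k)‖ ≤ ‖ϖ‖ ^ (k + 1) := by
    intro k
    induction k with
    | zero =>
      intro a ha
      rw [y0, zero_add, pow_one]
      refine hU.le _ (hk (s + 1) a (by simpa using ha) v0 hv0 ?_)
      rw [hr0]
      exact hu
    | succ k ih =>
      rw [ys]
      exact (hf k (y k) ih).2.1
  have hinc : ∀ k, ‖y (k + 1) - y k‖ ≤ ‖ϖ‖ ^ (k + 1) := by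
    intro k
    rw [ys, add_sub_cancel_left]
    exact (hf k (y k) (hP k)).1
  obtain ⟨v, hv⟩ := lift_lim ‖ϖ‖ (norm_nonneg _) hU.lt y hinc
  have hcon : ∀ (k t : ℕ) (a : Module.End L B), a ∈ Fil t → ‖a (y k)‖ ≤ ‖ϖ‖ ^ (k + 1) →
      ‖a v‖ ≤ ‖ϖ‖ ^ (k + 1) := by
    intro k t a ha h
    have e : a v = a (y k) + a (v - y k) := by rw [map_sub]; abel
    rw [e]
    exact (IsUltrametricDist.norm_add_le_max _ _).trans
      (max_le h ((hF.norm ha _).trans (hv k)))
  have hd : ‖v - v0‖ < 1 := by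
    have := hv 0
    rw [y0, zero_add, pow_one] at this
    exact this.trans_lt hU.lt
  have ev : v = v0 + (v - v0) := by abel
  refine ⟨v, ?_, ?_, fun k a ha => hcon k _ a ha (hP k a ha), ?_⟩
  · rw [ev]
    exact (IsUltrametricDist.norm_add_le_max _ _).trans (max_le hv0 hd.le)
  · rw [ev, R.red_add _ _ hv0 hd.le, hr0, (R.red_zero _ hd.le).2 hd, add_zero]
  · intro k hk1 α hα
    obtain ⟨j, rfl⟩ : ∃ j, k = j + 1 := ⟨k - 1, by omega⟩
    refine hcon (j + 1) _ _ (hF.mono_mem α) ?_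
    rw [ys]
    exact (hf j (y j) (hP j)).2.2 α hα

end Pool.Agent.P.MP_7cb106_nt.GK
end

section
/-! Step FS1. -/

set_option autoImplicit false

namespace Pool.Agent.P.MP_7cb106_nt.GK

theorem p_FS1 :
    S_FS1 := by
  intro p e a L B G ι _ _ _ _ _ _ g Γ γ lev ρ x ϖ w lam N N' Nx hp hGD hRp hW hL hw hNx h1
  have hm : StrictMono w := strictMono_nat_of_lt_succ hW.lt
  have anti : Antitone (FilG ϖ Γ ρ x lam N Nx) := fun _ _ h =>
    Submodule.span_mono fun _ ⟨l, h1, h2, h3⟩ => ⟨l, h1, h.trans h2, h3⟩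
  have one : 1 ∈ FilG ϖ Γ ρ x lam N Nx 0 := Submodule.subset_span ⟨[], by simp, by simp, by simp⟩
  have mul : ∀ (t u : ℕ) (c c' : Module.End L B), c ∈ FilG ϖ Γ ρ x lam N Nx t →
      c' ∈ FilG ϖ Γ ρ x lam N Nx u → c * c' ∈ FilG ϖ Γ ρ x lam N Nx (t + u) := by
    intro t u c c' h h'
    induction h using Submodule.span_induction with
    | zero => rw [zero_mul]; exact zero_mem _
    | add x y _ _ hx hy => rw [add_mul]; exact add_mem hx hy
    | smul r x _ hx => rw [smul_mul_assoc]; exact Submodule.smul_mem _ _ hx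
    | mem y hy =>
      induction h' using Submodule.span_induction with
      | zero => rw [mul_zero]; exact zero_mem _
      | add x y _ _ hx hy => rw [mul_add]; exact add_mem hx hy
      | smul r x _ hx => rw [mul_smul_comm]; exact Submodule.smul_mem _ _ hx
      | mem z hz =>
        obtain ⟨l, k1, k2, rfl⟩ := hy
        obtain ⟨l', k1', k2', rfl⟩ := hz
        refine Submodule.subset_span ⟨l ++ l', fun y hy => ?_, ?_, ?_⟩
        · exact (List.mem_append.1 hy).elim (k1 y) (k1' y)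
        · rw [List.map_append, List.sum_append]
          omega
        · rw [List.map_append, List.prod_append]
  refine ⟨?_, anti, one, mul, ?_, fun t c hc => ?_, fun t c hc => ?_, ?_⟩
  · rintro (i | j)
    · exact hW.pos.trans_le (hm.monotone (Nat.zero_le _))
    · exact hNx
  · rintro (i | j)
    · change ρ (γ i) - 1 ∈ FilG ϖ Γ ρ x lam N Nx (w (lev i))
      rw [← hL.win _ (hGD.lev_lt i)]
      exact rho_mem ϖ ρ x lam N Nx (hGD.mem i)
    · exact Let.mem (y := (x j, Nx)) (.inr (.inl ⟨j, rfl⟩))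
  · have := mul N t _ _ (Let.mem (y := (ϖ • 1, N)) (.inl rfl)) hc
    rwa [smul_mul_assoc, one_mul, add_comm] at this
  · induction hc using Submodule.span_induction with
    | zero => intro v; simp
    | add y z _ _ hy hz =>
      exact fun v => (IsUltrametricDist.norm_add_le_max _ _).trans (max_le (hy v) (hz v))
    | smul r y _ hy =>
      intro v
      change ‖(r : L) • y v‖ ≤ _
      rw [norm_smul]
      exact (mul_le_of_le_one_left (norm_nonneg _) (Ob.norm_le r)).trans (hy v)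
    | mem y hy =>
      obtain ⟨l, k1, -, rfl⟩ := hy
      induction l with
      | nil => exact fun v => le_rfl
      | cons y l ih =>
        intro v
        rw [List.map_cons, List.prod_cons, Module.End.mul_apply]
        refine le_trans ?_ (ih (fun z hz => k1 z (List.mem_cons_of_mem _ hz)) v)
        generalize (l.map Prod.fst).prod v = u
        rcases k1 y List.mem_cons_self with rfl | ⟨j, rfl⟩ | ⟨J, h, -, rfl⟩
        · change ‖ϖ • u‖ ≤ _
          rw [norm_smul]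
          exact mul_le_of_le_one_left (norm_nonneg _) h1.le
        · exact hRp.x_le j u
        · change ‖ρ h u - u‖ ≤ _
          rw [sub_eq_add_neg]
          exact (IsUltrametricDist.norm_add_le_max _ _).trans
            (max_le (hRp.iso h u).le (norm_neg u).le)
  · rintro (i | i) (j | j)
    · change (ρ (γ i) - 1) * (ρ (γ j) - 1) - (ρ (γ j) - 1) * (ρ (γ i) - 1) ∈
        FilG ϖ Γ ρ x lam N Nx (w (lev i) + w (lev j) + 1)
      have e1 : (ρ (γ i) - 1) * (ρ (γ j) - 1) - (ρ (γ j) - 1) * (ρ (γ i) - 1) =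
          (ρ (γ i * γ j * (γ i)⁻¹ * (γ j)⁻¹) - 1) * (1 + (ρ (γ j * γ i) - 1)) := by
        rw [add_sub_cancel, sub_mul (ρ _) 1 (ρ _), ← map_mul, one_mul, ← mul_assoc,
          inv_mul_cancel_right, inv_mul_cancel_right, map_mul, map_mul]
        noncomm_ring
      have h2 : γ j * γ i ∈ Γ 0 := mul_mem (hGD.anti (Nat.zero_le _) (hGD.mem j))
        (hGD.anti (Nat.zero_le _) (hGD.mem i))
      rw [e1]
      refine anti ?_ (mul _ 0 _ _ (rho_mem ϖ ρ x lam N Nx
        (hGD.comm _ _ _ (hGD.mem i) _ (hGD.mem j)))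
        (add_mem one (anti (Nat.zero_le _) (rho_mem ϖ ρ x lam N Nx h2))))
      have key : ∀ s t, s < e → t < e → s ≤ t → w s + w t + 1 ≤ lam (s + t + e + 1) := by
        intro s t hs ht hst
        have a1 : lam (t + e) < lam (s + t + e + 1) := hL.mono (by omega)
        rw [hL.step, hL.win t ht] at a1
        have a2 := hm.monotone hst
        have a3 := hw s hs
        have a4 := Nat.mul_le_mul_right (w t) hp
        omega
      rcases le_total (lev i) (lev j) with h | h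
      · exact key _ _ (hGD.lev_lt i) (hGD.lev_lt j) h
      · rw [add_comm (w _), add_comm (lev i)]
        exact key _ _ (hGD.lev_lt j) (hGD.lev_lt i) h
    · have : Commute (x j) (ρ (γ i) - 1) := (hRp.x_rho j _).sub_right (Commute.one_right _)
      exact (sub_eq_zero.2 this.symm.eq).symm ▸ zero_mem _
    · have : Commute (x i) (ρ (γ j) - 1) := (hRp.x_rho i _).sub_right (Commute.one_right _)
      exact (sub_eq_zero.2 this.eq).symm ▸ zero_mem _
    · exact (sub_eq_zero.2 (hRp.x_x i j).eq).symm ▸ zero_mem _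

end Pool.Agent.P.MP_7cb106_nt.GK
end

section
/-! Step FS2. -/

set_option autoImplicit false

namespace Pool.Agent.P.MP_7cb106_nt.GK

section
variable {L B ι : Type} [NormedField L] [IsUltrametricDist L] [NormedAddCommGroup B]
  [NormedSpace L B]

/-- span of the words in the generators of weight at least `t` -/
def fs2_P (ϖ : L) (b : ι → Module.End L B) (μ : ι → ℕ) (N t : ℕ) :
    Submodule (Ob L) (Module.End L B) :=
  Submodule.span (Ob L) {c | ∃ (k : ℕ) (l : List ι),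
    t ≤ k * N + (l.map μ).sum ∧ c = ϖ ^ k • (l.map b).prod}

variable {ϖ : L} {b : ι → Module.End L B} {μ : ι → ℕ} {N : ℕ}

theorem fs2_anti : Antitone (fs2_P ϖ b μ N) := fun _ _ h =>
  Submodule.span_mono fun _ ⟨k, l, h1, h2⟩ => ⟨k, l, h.trans h1, h2⟩

theorem fs2_mul {t u : ℕ} {c c' : Module.End L B} (h : c ∈ fs2_P ϖ b μ N t)
    (h' : c' ∈ fs2_P ϖ b μ N u) : c * c' ∈ fs2_P ϖ b μ N (t + u) := by
  induction h using Submodule.span_induction with
  | zero => rw [zero_mul]; exact zero_mem _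
  | add x y _ _ hx hy => rw [add_mul]; exact add_mem hx hy
  | smul r x _ hx => rw [smul_mul_assoc]; exact Submodule.smul_mem _ _ hx
  | mem x hx =>
    induction h' using Submodule.span_induction with
    | zero => rw [mul_zero]; exact zero_mem _
    | add x y _ _ hx hy => rw [mul_add]; exact add_mem hx hy
    | smul r x _ hx => rw [mul_smul_comm]; exact Submodule.smul_mem _ _ hx
    | mem y hy =>
      obtain ⟨k, l, h1, rfl⟩ := hx
      obtain ⟨k', l', h2, rfl⟩ := hy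
      refine Submodule.subset_span ⟨k + k', l ++ l', ?_, ?_⟩
      · rw [List.map_append, List.sum_append, add_mul]
        omega
      · rw [List.map_append, List.prod_append, smul_mul_smul_comm, pow_add]

theorem fs2_pi (k : ℕ) : (ϖ ^ k • 1 : Module.End L B) ∈ fs2_P ϖ b μ N (k * N) :=
  Submodule.subset_span ⟨k, [], by simp, by simp⟩

theorem fs2_gen (i : ι) : b i ∈ fs2_P ϖ b μ N (μ i) :=
  Submodule.subset_span ⟨0, [i], by simp, by simp⟩

theorem fs2_one : (1 : Module.End L B) ∈ fs2_P ϖ b μ N 0 := by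
  simpa using fs2_pi (ϖ := ϖ) (b := b) (μ := μ) (N := N) 0

theorem fs2_pow {t : ℕ} {c : Module.End L B} (h : c ∈ fs2_P ϖ b μ N t) (k : ℕ) :
    c ^ k ∈ fs2_P ϖ b μ N (k * t) := by
  induction k with
  | zero => simpa using fs2_one
  | succ k ih =>
    rw [pow_succ, add_mul, one_mul]
    exact fs2_mul ih h

theorem fs2_frob {p m t : ℕ} (hp : p.Prime) (h0 : 0 < ‖ϖ‖) (hm : ‖(p : L)‖ = ‖ϖ‖ ^ m)
    {u : Module.End L B} (h : u - 1 ∈ fs2_P ϖ b μ N t) :
    u ^ p - 1 ∈ fs2_P ϖ b μ N (min (p * t) (t + m * N)) := by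
  obtain ⟨y, rfl⟩ : ∃ y, u = y + 1 := ⟨u - 1, (sub_add_cancel _ _).symm⟩
  rw [add_sub_cancel_right] at h
  rw [(Commute.one_right y).add_pow_prime_eq' hp, one_pow, add_right_comm, add_sub_cancel_right]
  refine add_mem (fs2_anti (min_le_left _ _) (fs2_pow h p)) (fs2_anti (min_le_right _ _) ?_)
  have hϖ : ϖ ^ m ≠ 0 := pow_ne_zero _ (norm_pos_iff.1 h0)
  have hc : (p : L) / ϖ ^ m ∈ Ob L := by
    rw [mem_Ob, norm_div, hm, norm_pow, div_self (pow_pos h0 m).ne']
  have hp' : (p : Module.End L B) = (⟨_, hc⟩ : Ob L) • (ϖ ^ m • 1 : Module.End L B) := by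
    change _ = ((p : L) / ϖ ^ m) • (ϖ ^ m • 1 : Module.End L B)
    rw [smul_smul, div_mul_cancel₀ _ hϖ, Nat.cast_smul_eq_nsmul, nsmul_one]
  rw [hp', add_comm t]
  refine fs2_mul (Submodule.smul_mem _ _ (fs2_pi m)) (Submodule.sum_mem _ fun k hk => ?_)
  rw [one_pow, mul_one, ← nsmul_eq_mul']
  refine nsmul_mem (fs2_anti ?_ (fs2_pow h k)) _
  exact Nat.le_mul_of_pos_left _ (Finset.mem_Ioo.1 hk).1

theorem fs2_le {Fil : ℕ → Submodule (Ob L) (Module.End L B)} (anti : Antitone Fil)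
    (one : 1 ∈ Fil 0)
    (mul : ∀ (t u : ℕ) (c c' : Module.End L B), c ∈ Fil t → c' ∈ Fil u → c * c' ∈ Fil (t + u))
    (gen : ∀ i, b i ∈ Fil (μ i))
    (pi : ∀ (t : ℕ) (c : Module.End L B), c ∈ Fil t → ϖ • c ∈ Fil (t + N)) (t : ℕ) :
    fs2_P ϖ b μ N t ≤ Fil t := by
  refine Submodule.span_le.2 ?_
  rintro _ ⟨k, l, h, rfl⟩
  refine anti h ?_
  clear h
  induction k with
  | zero =>
    rw [pow_zero, one_smul, zero_mul, zero_add]
    induction l with
    | nil => exact one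
    | cons i l ih =>
      rw [List.map_cons, List.map_cons, List.prod_cons, List.sum_cons]
      exact mul _ _ _ _ (gen i) ih
  | succ k ih =>
    rw [pow_succ', mul_smul, add_mul, one_mul, add_right_comm]
    exact pi _ _ ih

end

theorem p_FS2 (hFS1 : S_FS1) :
    S_FS2 := by
  intro p e a L B G ι _ _ _ _ _ _ g Γ γ lev ρ x ϖ w lam N Nx hp hGD hRp hW hL hw hNx h0 h1 hpn t
  obtain ⟨-, anti, one, mul, gen, pi, -, -⟩ := hFS1 p e a L B G ι g Γ γ lev ρ x ϖ w lam N
    (e * a * N) Nx hp.two_le hGD hRp hW hL hw hNx h1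
  set Fil := FilG ϖ Γ ρ x lam N Nx with hFil
  let P := fs2_P ϖ (bG ρ γ x) (muG g w lev Nx) N
  change Fil t ≤ P t ⊔ Fil (t + 1)
  have hPF : ∀ t, P t ≤ Fil t := fs2_le anti one mul gen pi
  have hQF : ∀ t, P t ⊔ Fil (t + 1) ≤ Fil t := fun t => sup_le (hPF t) (anti t.le_succ)
  have hQ : ∀ (t u : ℕ) (c c' : Module.End L B), c ∈ P t ⊔ Fil (t + 1) → c' ∈ P u ⊔ Fil (u + 1) →
      c * c' ∈ P (t + u) ⊔ Fil (t + u + 1) := by
    intro t u c c' h h'
    obtain ⟨c₁, h₁, c₂, h₂, rfl⟩ := Submodule.mem_sup.1 h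
    rw [add_mul]
    refine add_mem ?_ (Submodule.mem_sup_right ?_)
    · obtain ⟨d₁, k₁, d₂, k₂, rfl⟩ := Submodule.mem_sup.1 h'
      rw [mul_add]
      exact add_mem (Submodule.mem_sup_left (fs2_mul h₁ k₁))
        (Submodule.mem_sup_right (mul t (u + 1) _ _ (hPF _ h₁) k₂))
    · rw [add_right_comm]
      exact mul _ _ _ _ h₂ (hQF _ h')
  have hγ : ∀ i m, ρ (γ i ^ p ^ m) - 1 ∈ P (lam (lev i + e * m)) := by
    intro i m
    induction m with
    | zero =>
      rw [pow_zero, pow_one, mul_zero, add_zero, hL.win _ (hGD.lev_lt i)]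
      exact fs2_gen (b := bG ρ γ x) (μ := muG g w lev Nx) (Sum.inl i)
    | succ m ih =>
      rw [pow_succ, pow_mul, map_pow, mul_add, mul_one, ← add_assoc, hL.step]
      exact fs2_frob hp h0 hpn ih
  have hρ : ∀ J, ∀ h ∈ Γ J, ρ h - 1 ∈ P (lam J) ⊔ Fil (lam J + 1) := by
    intro J h hh
    have hpos : 0 < lam J := hL.pos.trans_le (hL.mono.monotone (Nat.zero_le _))
    refine Submonoid.closure_induction (motive := fun h _ => ρ h - 1 ∈ P (lam J) ⊔ Fil (lam J + 1))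
      ?_ ?_ ?_ (hGD.gen J h hh)
    · rintro h (hh | ⟨i, m, rfl, rfl⟩)
      · exact Submodule.mem_sup_right
          (anti (hL.mono J.lt_succ_self) (rho_mem ϖ ρ x lam N Nx hh))
      · exact Submodule.mem_sup_left (hγ i m)
    · rw [map_one, sub_self]
      exact zero_mem _
    · intro u v _ _ hu hv
      have : ρ (u * v) - 1 = (ρ u - 1) * (ρ v - 1) + (ρ u - 1) + (ρ v - 1) := by
        rw [map_mul]
        noncomm_ring
      rw [this]
      exact add_mem (add_mem (Submodule.mem_sup_right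
        (anti (by omega) (mul _ _ _ _ (hQF _ hu) (hQF _ hv)))) hu) hv
  have hlet : ∀ y, Let ϖ Γ ρ x lam N Nx y → y.1 ∈ P y.2 ⊔ Fil (y.2 + 1) := by
    rintro _ (rfl | ⟨j, rfl⟩ | ⟨J, h, hh, rfl⟩)
    · refine Submodule.mem_sup_left ?_
      simpa using fs2_pi (ϖ := ϖ) (b := bG ρ γ x) (μ := muG g w lev Nx) (N := N) 1
    · exact Submodule.mem_sup_left
        (fs2_gen (b := bG ρ γ x) (μ := muG g w lev Nx) (Sum.inr j))
    · exact hρ J h hh
  refine Submodule.span_le.2 ?_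
  rintro _ ⟨l, hl, ht, rfl⟩
  refine sup_le_sup (fs2_anti ht) (anti (Nat.succ_le_succ ht)) ?_
  clear ht
  induction l with
  | nil => exact Submodule.mem_sup_left fs2_one
  | cons y l ih =>
    rw [List.map_cons, List.map_cons, List.prod_cons, List.sum_cons]
    exact hQ _ _ _ _ (hlet y (hl y List.mem_cons_self))
      (ih fun z hz => hl z (List.mem_cons_of_mem _ hz))

end Pool.Agent.P.MP_7cb106_nt.GK
end

section
/-! Step FS3. -/

set_option autoImplicit false

namespace Pool.Agent.P.MP_7cb106_nt.GK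

section
variable {L B : Type} [Field L] [AddCommGroup B] [Module L B]

/-- long words in the letters `Λ` send `C` into `Z` -/
def fs3_Kill (Λ : Set (Module.End L B)) (Z : AddSubgroup B) (C : Set B) : Prop :=
  ∃ m : ℕ, ∀ w : List (Module.End L B), (∀ y ∈ w, y ∈ Λ) → m ≤ w.length → ∀ u ∈ C, w.prod u ∈ Z

theorem fs3_mono {Λ : Set (Module.End L B)} {Z : AddSubgroup B} {C C' : Set B}
    (hk : fs3_Kill Λ Z C') (h : ∀ u ∈ C, u ∈ C') : fs3_Kill Λ Z C := by
  obtain ⟨m, hm⟩ := hk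
  exact ⟨m, fun w hw hl u hu => hm w hw hl u (h u hu)⟩

theorem fs3_word {Λ : Set (Module.End L B)} {C : Set B} (hC : ∀ y ∈ Λ, ∀ u ∈ C, y u ∈ C)
    (w : List (Module.End L B)) (hw : ∀ y ∈ w, y ∈ Λ) : ∀ u ∈ C, w.prod u ∈ C := by
  induction w with
  | nil => intro u hu; simpa using hu
  | cons y w ih =>
    intro u hu
    rw [List.prod_cons, Module.End.mul_apply]
    exact hC y (hw y (by simp)) _ (ih (fun a ha => hw a (by simp [ha])) u hu)

theorem fs3_comm {Λ : Set (Module.End L B)} {Z : AddSubgroup B} {C : Set B}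
    (hZ : ∀ y ∈ Λ, ∀ u ∈ Z, y u ∈ Z) (hC : ∀ y ∈ Λ, ∀ u ∈ C, y u ∈ C) (z : Module.End L B)
    (hz : ∀ y ∈ Λ, ∀ u ∈ C, z (y u) - y (z u) ∈ Z) (w : List (Module.End L B))
    (hw : ∀ y ∈ w, y ∈ Λ) (u : B) (hu : u ∈ C) : z (w.prod u) - w.prod (z u) ∈ Z := by
  induction w with
  | nil => simp
  | cons y w ih =>
    have hw' : ∀ a ∈ w, a ∈ Λ := fun a ha => hw a (by simp [ha])
    have hy := hw y (by simp)
    have h1 := hz y hy _ (fs3_word hC w hw' u hu)
    have h2 := hZ y hy _ (ih hw')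
    rw [map_sub] at h2
    have h3 := Z.add_mem h1 h2
    rw [sub_add_sub_cancel] at h3
    simpa only [List.prod_cons, Module.End.mul_apply] using h3

theorem fs3_one {Λ : Set (Module.End L B)} {Z : AddSubgroup B} {C : Set B}
    (hZ : ∀ y ∈ Λ, ∀ u ∈ Z, y u ∈ Z) (hC : ∀ y ∈ Λ, ∀ u ∈ C, y u ∈ C) (z : Module.End L B)
    (hzΛ : z ∈ Λ) (hz : ∀ y ∈ Λ, ∀ u ∈ C, z (y u) - y (z u) ∈ Z) (k : ℕ)
    (hk : ∀ u ∈ C, (z ^ k) u ∈ Z) (h : fs3_Kill Λ Z {u | u ∈ C ∧ z u ∈ Z}) :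
    fs3_Kill Λ Z C := by
  have key : ∀ k : ℕ, fs3_Kill Λ Z {u | u ∈ C ∧ (z ^ k) u ∈ Z} := by
    intro k
    induction k with
    | zero =>
      exact ⟨0, fun w hw _ u hu => fs3_word (C := (Z : Set B)) hZ w hw u (by simpa using hu.2)⟩
    | succ k ih =>
      obtain ⟨m₀, h₀⟩ := h
      obtain ⟨m₁, h₁⟩ := ih
      refine ⟨m₀ + m₁, fun w hw hl u hu => ?_⟩
      have ht : ∀ y ∈ w.take m₀, y ∈ Λ := fun y hy => hw y (List.mem_of_mem_take hy)
      have hd : ∀ y ∈ w.drop m₀, y ∈ Λ := fun y hy => hw y (List.mem_of_mem_drop hy)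
      rw [← List.take_append_drop m₀ w, List.prod_append, Module.End.mul_apply]
      refine h₀ _ ht (by rw [List.length_take]; omega) _ ⟨fs3_word hC _ hd u hu.1, ?_⟩
      have h2 := h₁ (w.drop m₀) hd (by rw [List.length_drop]; omega) (z u)
        ⟨hC z hzΛ u hu.1, by simpa only [pow_succ, Module.End.mul_apply] using hu.2⟩
      simpa using Z.add_mem (fs3_comm hZ hC z hz _ hd u hu.1) h2
  exact fs3_mono (key k) fun u hu => ⟨hu, hk u hu⟩

theorem fs3_fin {Λ : Set (Module.End L B)} {Z : AddSubgroup B}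
    (hZ : ∀ y ∈ Λ, ∀ u ∈ Z, y u ∈ Z) (S : Set (Module.End L B)) (hS : S.Finite) :
    ∀ C : Set B, (∀ y ∈ Λ, ∀ u ∈ C, y u ∈ C) →
      (∀ z ∈ S, z ∈ Λ ∧ (∀ y ∈ Λ, ∀ u ∈ C, z (y u) - y (z u) ∈ Z) ∧
        ∃ k : ℕ, ∀ u ∈ C, (z ^ k) u ∈ Z) →
      fs3_Kill Λ Z {u | u ∈ C ∧ ∀ z ∈ S, z u ∈ Z} → fs3_Kill Λ Z C := by
  induction S, hS using Set.Finite.induction_on with
  | empty => exact fun C _ _ h => fs3_mono h fun u hu => ⟨hu, by simp⟩
  | @insert z S _ _ ih =>
    intro C hC hz h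
    obtain ⟨z1, z2, k, z3⟩ := hz z (by simp)
    refine fs3_one hZ hC z z1 z2 k z3 (ih _ (fun y hy u hu => ⟨hC y hy u hu.1, ?_⟩)
      (fun a ha => ?_) (fs3_mono h fun u hu => ⟨hu.1.1, ?_⟩))
    · simpa using Z.add_mem (z2 y hy u hu.1) (hZ y hy _ hu.2)
    · obtain ⟨a1, a2, k', a3⟩ := hz a (by simp [ha])
      exact ⟨a1, fun y hy u hu => a2 y hy u hu.1, k', fun u hu => a3 u hu.1⟩
    · intro a ha
      rcases ha with rfl | ha
      · exact hu.1.2
      · exact hu.2 a ha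

end

section
variable {L B : Type} [NormedField L] [NormedAddCommGroup B] [NormedSpace L B]
  [IsUltrametricDist B]

/-- the closed ball -/
def fs3_ball (B : Type) [NormedAddCommGroup B] [IsUltrametricDist B] (ε : ℝ) (hε : 0 < ε) :
    AddSubgroup B where
  carrier := {u | ‖u‖ ≤ ε}
  add_mem' := fun {a b} ha hb => (IsUltrametricDist.norm_add_le_max a b).trans (max_le ha hb)
  zero_mem' := by simpa using hε.le
  neg_mem' := fun {a} ha => by simpa using ha

/-- the contractions -/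
def fs3_ctr (L B : Type) [NormedField L] [NormedAddCommGroup B] [NormedSpace L B]
    [IsUltrametricDist B] : Subring (Module.End L B) where
  carrier := {a | ∀ v, ‖a v‖ ≤ ‖v‖}
  mul_mem' := fun {a b} ha hb v => (ha _).trans (hb v)
  one_mem' := fun v => le_rfl
  add_mem' := fun {a b} ha hb v =>
    (IsUltrametricDist.norm_add_le_max (a v) (b v)).trans (max_le (ha v) (hb v))
  zero_mem' := fun v => by simp
  neg_mem' := fun {a} ha v => by simpa using ha v

theorem fs3_pow {p : ℕ} (hp : p.Prime) (z : Module.End L B) (hz : z ∈ fs3_ctr L B) :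
    ∃ r ∈ fs3_ctr L B, z ^ p = ((z + 1) ^ p - 1) - r * p := by
  obtain ⟨r, hr⟩ := (Commute.one_right (⟨z, hz⟩ : fs3_ctr L B)).exists_add_pow_prime_eq hp
  have h := congrArg Subtype.val hr
  refine ⟨z * r.val, (fs3_ctr L B).mul_mem hz r.2, ?_⟩
  simp only [one_pow, mul_one, Subring.coe_add, Subring.coe_pow, Subring.coe_mul, Subring.coe_one,
    Subring.coe_natCast] at h
  rw [h, ← Nat.cast_comm, mul_assoc]
  abel

end

theorem p_FS3 :
    S_FS3 := by
  intro p e L B G ι _ _ _ _ _ _ _ g Γ γ lev ρ x ϖ lam N Nx hp he hG hR hlam hU hpϖ v ε hε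
  set Z := fs3_ball B ε hε with hZdef
  have mZ : ∀ u : B, u ∈ Z ↔ ‖u‖ ≤ ε := fun u => Iff.rfl
  set π : Module.End L B := ϖ • 1 with hπ
  set S₀ : Set (Module.End L B) := insert π (Set.range x) with hS₀
  set Λ : Set (Module.End L B) := S₀ ∪ {y | ∃ h ∈ Γ 0, y = ρ h - 1} with hΛ
  have cρ : ∀ h, ρ h ∈ fs3_ctr L B := fun h u => (hR.iso h u).le
  have cΛ : ∀ y ∈ Λ, y ∈ fs3_ctr L B := by
    rintro y ((rfl | ⟨j, rfl⟩) | ⟨h, -, rfl⟩)
    · intro u
      change ‖ϖ • u‖ ≤ ‖u‖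
      rw [norm_smul]
      exact mul_le_of_le_one_left (norm_nonneg _) hU.lt.le
    · exact hR.x_le j
    · exact (fs3_ctr L B).sub_mem (cρ h) (fs3_ctr L B).one_mem
  have cZ : ∀ y ∈ fs3_ctr L B, ∀ u ∈ Z, y u ∈ Z := fun y hy u hu => (hy u).trans hu
  have hZ : ∀ y ∈ Λ, ∀ u ∈ Z, y u ∈ Z := fun y hy => cZ y (cΛ y hy)
  have c0 : ∀ z ∈ S₀, (∀ y ∈ S₀, Commute z y) ∧ ∀ h, Commute z (ρ h) := by
    rintro z (rfl | ⟨j, rfl⟩)
    · exact ⟨fun y _ => (Commute.one_left y).smul_left ϖ, fun h => (Commute.one_left _).smul_left ϖ⟩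
    · refine ⟨?_, hR.x_rho j⟩
      rintro y (rfl | ⟨i, rfl⟩)
      · exact (Commute.one_right _).smul_right ϖ
      · exact hR.x_x j i
  have c1 : ∀ z ∈ S₀, ∀ y ∈ Λ, Commute z y := by
    rintro z hz y (hy | ⟨h, -, rfl⟩)
    · exact (c0 z hz).1 y hy
    · exact ((c0 z hz).2 h).sub_right (Commute.one_right z)
  have ap : ∀ {a b : Module.End L B}, Commute a b → ∀ u, a (b u) = b (a u) := fun h u =>
    LinearMap.congr_fun h.eq u
  let Fx : ℕ → Set B := fun j => {u | ∀ h ∈ Γ j, (ρ h - 1) u ∈ Z}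
  have Fρ : ∀ j, ∀ a ∈ Γ 0, ∀ u ∈ Fx j, ρ a u ∈ Fx j := by
    intro j a ha u hu h hh
    have h1 := hG.conj j h hh a⁻¹ ((Γ 0).inv_mem ha)
    have h2 := cZ _ (cρ a) _ (hu _ h1)
    have h3 : ρ a * (ρ (a⁻¹ * h * a⁻¹⁻¹) - 1) = (ρ h - 1) * ρ a := by
      rw [mul_sub, sub_mul, ← map_mul, ← map_mul, mul_one, one_mul]
      congr 2
      group
    rw [← Module.End.mul_apply, h3] at h2
    exact h2
  have FΛ : ∀ j, ∀ y ∈ Λ, ∀ u ∈ Fx j, y u ∈ Fx j := by
    rintro j y (hy | ⟨a, ha, rfl⟩) u hu h hh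
    · rw [← ap (((c0 y hy).2 h).sub_right (Commute.one_right y))]
      exact hZ y (Or.inl hy) _ (hu h hh)
    · have h1 := Z.sub_mem (Fρ j a ha u hu h hh) (hu h hh)
      rwa [← map_sub] at h1
  have pw : ∀ z ∈ S₀, ∀ k : ℕ, ∀ y ∈ Λ, ∀ u, (z ^ k) u ∈ Z → (z ^ k) (y u) ∈ Z := by
    intro z hz k y hy u hu
    rw [ap ((c1 z hz y hy).pow_left k)]
    exact hZ y hy _ hu
  let D : ℕ → Set B := fun j => {u | u ∈ Fx j ∧ ∀ z ∈ S₀, z u ∈ Z}
  have DΛ : ∀ j, ∀ y ∈ Λ, ∀ u ∈ D j, y u ∈ D j := fun j y hy u hu =>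
    ⟨FΛ j y hy u hu.1, fun z hz => by
      simpa only [pow_one] using pw z hz 1 y hy u (by simpa only [pow_one] using hu.2 z hz)⟩
  have KD : ∀ j, fs3_Kill Λ Z (D j) := by
    intro j
    induction j with
    | zero =>
      refine ⟨1, fun w hw hl u hu => ?_⟩
      rcases List.eq_nil_or_concat w with rfl | ⟨w', y, rfl⟩
      · simp at hl
      · rw [List.concat_eq_append] at hw ⊢
        rw [List.prod_append, List.prod_singleton, Module.End.mul_apply]
        refine fs3_word (C := (Z : Set B)) hZ w' (fun a ha => hw a (by simp [ha])) _ ?_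
        rcases hw y (by simp) with hy | ⟨h, hh, rfl⟩
        · exact hu.2 y hy
        · exact hu.1 h hh
    | succ j ih =>
      let T : Set G := {h | ∃ i m, lev i + e * m = j ∧ h = γ i ^ p ^ m}
      have Tfin : T.Finite := by
        refine ((Set.finite_univ (α := ι)).prod (Set.finite_le_nat j)).image
          (fun q : ι × ℕ => γ q.1 ^ p ^ q.2) |>.subset ?_
        rintro h ⟨i, m, h1, rfl⟩
        refine ⟨(i, m), ⟨trivial, ?_⟩, rfl⟩
        have : m ≤ e * m := Nat.le_mul_of_pos_left m he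
        change m ≤ j
        omega
      have TΓ : ∀ h ∈ T, h ∈ Γ j := by
        rintro h ⟨i, m, rfl, rfl⟩
        clear ih Tfin T
        induction m with
        | zero => simpa using hG.mem i
        | succ m ihm =>
          rw [pow_succ, pow_mul, mul_add, mul_one, ← add_assoc]
          exact hG.pow _ _ ihm
      refine fs3_fin hZ ((fun h => ρ h - 1) '' T) (Tfin.image _) _ (DΛ (j + 1)) ?_
        (fs3_mono ih ?_)
      · rintro z ⟨h, hT, rfl⟩
        have hh := TΓ h hT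
        have h0 : h ∈ Γ 0 := hG.anti (Nat.zero_le j) hh
        refine ⟨Or.inr ⟨h, h0, rfl⟩, ?_, p, fun u hu => ?_⟩
        · rintro y (hy | ⟨a, ha, rfl⟩) u hu
          · rw [ap (((c0 y hy).2 h).sub_right (Commute.one_right y)), sub_self]
            exact Z.zero_mem
          · have h1 : h * a * h⁻¹ * a⁻¹ ∈ Γ (j + 1) :=
              hG.anti (by omega) (hG.comm j 0 h hh a ha)
            have h2 := Fρ (j + 1) _ ((Γ 0).mul_mem ha h0) u hu.1 _ h1
            have h3 : (ρ (h * a * h⁻¹ * a⁻¹) - 1) * ρ (a * h) =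
                (ρ h - 1) * (ρ a - 1) - (ρ a - 1) * (ρ h - 1) := by
              rw [sub_mul, ← map_mul, one_mul, show h * a * h⁻¹ * a⁻¹ * (a * h) = h * a by group,
                map_mul, map_mul]
              noncomm_ring
            rw [← Module.End.mul_apply, h3] at h2
            exact h2
        · obtain ⟨r, hr, hz⟩ := fs3_pow hp (ρ h - 1) (cΛ _ (Or.inr ⟨h, h0, rfl⟩))
          change ((ρ h - 1) ^ p) u ∈ Z
          rw [hz, sub_add_cancel, ← map_pow, LinearMap.sub_apply, Module.End.mul_apply]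
          refine Z.sub_mem (hu.1 _ (hG.anti (by omega) (hG.pow j h hh))) (cZ r hr _ ?_)
          have h1 : ‖ϖ • u‖ ≤ ε := hu.2 π (by simp [hS₀])
          rw [mZ, Module.End.natCast_apply, ← Nat.cast_smul_eq_nsmul L, norm_smul]
          rw [norm_smul] at h1
          exact (mul_le_mul_of_nonneg_right hpϖ (norm_nonneg _)).trans h1
      · rintro u ⟨hu, hT⟩
        refine ⟨fun h hh => ?_, hu.2⟩
        have hc := hG.gen j h hh
        clear hh
        induction hc using Submonoid.closure_induction with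
        | mem a ha =>
          rcases ha with ha | ha
          · exact hu.1 a ha
          · exact hT _ ⟨a, ha, rfl⟩
        | one => simp
        | mul a b _ _ ha hb =>
          have h3 : ρ (a * b) - 1 = ρ a * (ρ b - 1) + (ρ a - 1) := by
            rw [map_mul]
            noncomm_ring
          rw [h3, LinearMap.add_apply, Module.End.mul_apply]
          exact Z.add_mem (cZ _ (cρ a) _ hb) ha
  obtain ⟨J, hJ⟩ := hR.cont v ε hε
  have vF : v ∈ Fx J := fun h hh => hJ h hh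
  have nil : ∀ z ∈ S₀, ∃ k : ℕ, (z ^ k) v ∈ Z := by
    have lim : ∀ f : ℕ → B, Filter.Tendsto f Filter.atTop (nhds 0) → ∃ k, f k ∈ Z := by
      intro f hf
      obtain ⟨k, hk⟩ := ((tendsto_zero_iff_norm_tendsto_zero.1 hf).eventually
        (ge_mem_nhds hε)).exists
      exact ⟨k, hk⟩
    rintro z (rfl | ⟨j, rfl⟩)
    · refine lim _ ?_
      have h1 := (tendsto_pow_atTop_nhds_zero_of_norm_lt_one hU.lt).smul_const v
      rw [zero_smul] at h1
      refine h1.congr fun k => ?_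
      rw [hπ, smul_pow, one_pow]
      rfl
    · exact lim _ (hR.x_nil j v)
  choose! k hk using nil
  let C : Set B := {u | u ∈ Fx J ∧ ∀ z ∈ S₀, (z ^ k z) u ∈ Z}
  obtain ⟨m, hm⟩ : fs3_Kill Λ Z C := by
    refine fs3_fin hZ S₀ ((Set.finite_range x).insert π) C
      (fun y hy u hu => ⟨FΛ J y hy u hu.1, fun z hz => pw z hz _ y hy u (hu.2 z hz)⟩)
      (fun z hz => ⟨Or.inl hz, fun y hy u _ => ?_, k z, fun u hu => hu.2 z hz⟩)
      (fs3_mono (KD J) fun u hu => ⟨hu.1.1, hu.2⟩)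
    rw [ap (c1 z hz y hy), sub_self]
    exact Z.zero_mem
  set c := max (max N Nx) (lam J) with hc
  refine ⟨m * c + 1, fun a ha => ?_⟩
  induction ha using Submodule.span_induction with
  | zero => simpa using hε.le
  | add a b _ _ ha hb => exact Z.add_mem ha hb
  | smul r a _ ha =>
    change ‖(r : L) • a v‖ ≤ ε
    rw [norm_smul]
    exact (mul_le_of_le_one_left (norm_nonneg _) (Ob.norm_le r)).trans ha
  | mem a ha =>
    obtain ⟨w, hw, hT, rfl⟩ := ha
    have wΛ : ∀ y ∈ w, y.1 ∈ Λ := by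
      intro y hy
      rcases hw y hy with rfl | ⟨j, rfl⟩ | ⟨j, h, hh, rfl⟩
      · exact Or.inl (Or.inl rfl)
      · exact Or.inl (Or.inr ⟨j, rfl⟩)
      · exact Or.inr ⟨h, hG.anti (Nat.zero_le j) hh, rfl⟩
    have mΛ : ∀ l : List (Module.End L B × ℕ), (∀ y ∈ l, y ∈ w) → ∀ y ∈ l.map Prod.fst, y ∈ Λ := by
      intro l hl y hy
      obtain ⟨q, hq, rfl⟩ := List.mem_map.1 hy
      exact wΛ q (hl q hq)
    by_cases hb : ∀ y ∈ w, y.2 ≤ c
    · refine hm _ (mΛ w fun _ h => h) ?_ v ⟨vF, hk⟩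
      have h1 : (w.map Prod.snd).sum ≤ (w.map Prod.snd).length • c :=
        List.sum_le_card_nsmul _ _ fun n hn => by
          obtain ⟨q, hq, rfl⟩ := List.mem_map.1 hn
          exact hb q hq
      rw [List.length_map, smul_eq_mul] at h1
      rw [List.length_map]
      by_contra hlt
      have : w.length * c ≤ m * c := Nat.mul_le_mul_right c (by omega)
      omega
    · push Not at hb
      obtain ⟨y, hy, hyc⟩ := hb
      obtain ⟨w₁, w₂, rfl⟩ := List.append_of_mem hy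
      rw [List.map_append, List.map_cons, List.prod_append, List.prod_cons, Module.End.mul_apply,
        Module.End.mul_apply]
      refine fs3_word (C := (Z : Set B)) hZ _ (mΛ w₁ fun a ha => by simp [ha]) _ ?_
      have h2 := fs3_word (FΛ J) _ (mΛ w₂ fun a ha => by simp [ha]) v vF
      rcases hw y hy with rfl | ⟨j, rfl⟩ | ⟨j, h, hh, rfl⟩
      · omega
      · omega
      · refine h2 h (hG.anti ?_ hh)
        by_contra hlt
        have := hlam (show j ≤ J by omega)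
        omega

end Pool.Agent.P.MP_7cb106_nt.GK
end

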