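import Pool.Agent.P.MP_7cb106_nt.GK.IfaceB

section
/-! Step KD. -/

set_option autoImplicit false

namespace Pool.Agent.P.MP_7cb106_nt.GK

open Filter Topology

/-- a basis of a finite field over its prime field, with natural number coordinates -/
theorem kd_basis (p : ℕ) [Fact p.Prime] (k : Type) [Field k] [Finite k] [CharP k p] :
    ∃ (f₀ : ℕ) (b : Fin f₀ → k), 0 < f₀ ∧
      (∀ x, ∃ c : Fin f₀ → ℕ, x = ∑ t, (c t : k) * b t) ∧
      (∀ c : Fin f₀ → ℕ, ∑ t, (c t : k) * b t = 0 → ∀ t, p ∣ c t) ∧ ∀ x : k, x ^ p ^ f₀ = x := by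
  let _ : Algebra (ZMod p) k := ZMod.algebra k p
  let _ : Fintype k := Fintype.ofFinite k
  have hc : ∀ (m : ℕ) (y : k), (m : k) * y = (m : ZMod p) • y := fun m y => by
    rw [Algebra.smul_def, map_natCast]
  let b := Module.finBasis (ZMod p) k
  refine ⟨Module.finrank (ZMod p) k, b, Module.finrank_pos, fun x => ?_, fun c h t => ?_,
    fun x => ?_⟩
  · refine ⟨fun t => (b.repr x t).val, ?_⟩
    simp only [hc, ZMod.natCast_zmod_val]
    exact (b.sum_repr x).symm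
  · simp only [hc] at h
    exact (ZMod.natCast_eq_zero_iff _ _).1
      (Fintype.linearIndependent_iff.1 b.linearIndependent (fun t => (c t : ZMod p)) h t)
  · have h : Fintype.card k = p ^ Module.finrank (ZMod p) k := by
      rw [Module.card_eq_pow_finrank (K := ZMod p), ZMod.card]
    rw [← h]
    exact FiniteField.pow_card x

/-- the uniformiser -/
theorem kd_unif (p : ℕ) [Fact p.Prime] (K L : Type) [Field K] [Algebra ℚ_[p] K]
    [NormedField L] [NormedAlgebra ℚ_[p] L] (σ : K →ₐ[ℚ_[p]] L) (ϖ : L) (h0 : 0 < ‖ϖ‖)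
    (h1 : ‖ϖ‖ < 1) (hd : ∀ c : L, c ≠ 0 → ‖c‖ ≤ 1 → ∃ k : ℕ, ‖c‖ = ‖ϖ‖ ^ k) :
    ∃ (e a : ℕ) (u : K), 0 < e ∧ 0 < a ∧ ‖σ u‖ = ‖ϖ‖ ^ a ∧ ‖σ u‖ ^ e = (p : ℝ)⁻¹ ∧
      ∀ z, ‖σ z‖ < 1 → ‖σ z‖ ≤ ‖σ u‖ := by
  classical
  have hp : (1 : ℝ) < p := by exact_mod_cast (Fact.out : p.Prime).one_lt
  have np : ‖σ (p : K)‖ = (p : ℝ)⁻¹ := by rw [map_natCast, norm_p_eq]
  have key : ∀ z, σ z ≠ 0 → ‖σ z‖ < 1 → ∃ k : ℕ, 0 < k ∧ ‖σ z‖ = ‖ϖ‖ ^ k := fun z hz hz1 => by
    obtain ⟨k, hk⟩ := hd _ hz hz1.le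
    refine ⟨k, Nat.pos_of_ne_zero ?_, hk⟩
    rintro rfl
    rw [pow_zero] at hk
    exact hz1.ne hk
  have hp0 : σ (p : K) ≠ 0 := by
    rw [← norm_pos_iff, np]
    positivity
  obtain ⟨k, hk0, hk⟩ := key (p : K) hp0 (by rw [np]; exact inv_lt_one_of_one_lt₀ hp)
  have ex : ∃ a : ℕ, 0 < a ∧ ∃ z, ‖σ z‖ = ‖ϖ‖ ^ a := ⟨k, hk0, _, hk⟩
  obtain ⟨ha, u, hu⟩ := Nat.find_spec ex
  have hmin : ∀ m : ℕ, 0 < m → ∀ z, ‖σ z‖ = ‖ϖ‖ ^ m → Nat.find ex ≤ m := fun m hm z hz =>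
    Nat.find_min' ex ⟨hm, z, hz⟩
  generalize Nat.find ex = a at ha hu hmin
  have hr : k % a = 0 := by
    by_contra hr
    have h2 : ‖σ ((p : K) / u ^ (k / a))‖ = ‖ϖ‖ ^ (k % a) := by
      rw [map_div₀, norm_div, map_pow, norm_pow, hk, hu, ← pow_mul,
        div_eq_iff (pow_pos h0 _).ne', ← pow_add, Nat.mod_add_div]
    exact absurd (hmin _ (Nat.pos_of_ne_zero hr) _ h2) (not_le.2 (Nat.mod_lt _ ha))
  have hk' : a * (k / a) = k := Nat.mul_div_cancel' (Nat.dvd_of_mod_eq_zero hr)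
  refine ⟨k / a, a, u, Nat.div_pos (hmin k hk0 _ hk) ha, ha, hu, ?_, fun z hz => ?_⟩
  · rw [hu, ← pow_mul, hk', ← hk, np]
  · by_cases hz0 : σ z = 0
    · rw [hz0, norm_zero]
      exact norm_nonneg _
    · obtain ⟨m, hm0, hm⟩ := key z hz0 hz
      rw [hm, hu]
      exact pow_le_pow_of_le_one h0.le h1.le (hmin m hm0 z hm)

theorem p_KD :
    S_KD := by
  intro p _ K L F _ _ _ _ _ _ _ _ σ ϖ res h0 h1 hd hres
  obtain ⟨e, a, u, he, ha, hu, hup, hmax⟩ := kd_unif p K L σ ϖ h0 h1 hd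
  let O : Subring K := (Ob L).comap (σ : K →+* L)
  let φ : O →+* F := res.comp ((σ : K →+* L).restrict O (Ob L) fun _ h => h)
  have hφ : ∀ z : O, φ z = 0 ↔ ‖σ (z : K)‖ < 1 := fun z => hres _
  have hO : ∀ z : O, ‖σ (z : K)‖ ≤ 1 := fun z => z.2
  have hinv : ∀ x ∈ φ.range, x⁻¹ ∈ φ.range := by
    rintro _ ⟨z, rfl⟩
    by_cases hz : φ z = 0
    · rw [hz, inv_zero]
      exact zero_mem _
    · have h2 : ‖σ (z : K)‖ = 1 := le_antisymm (hO z) (not_lt.1 fun h => hz ((hφ z).2 h))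
      have h3 : (z : K) ≠ 0 := fun h => by simp [h] at h2
      have h4 : (z : K)⁻¹ ∈ O := by
        change ‖σ (z : K)⁻¹‖ ≤ 1
        rw [map_inv₀, norm_inv, h2, inv_one]
      refine ⟨⟨_, h4⟩, eq_inv_of_mul_eq_one_left ?_⟩
      rw [← map_mul, ← map_one φ]
      exact congrArg φ (Subtype.ext (inv_mul_cancel₀ h3))
  let k : Subfield F := φ.range.toSubfield hinv
  let ψ : O →+* k := φ.codRestrict k fun z => ⟨z, rfl⟩
  have hψ : ∀ z : O, ψ z = 0 ↔ ‖σ (z : K)‖ < 1 := fun z => by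
    rw [← hφ, ← Subtype.coe_inj]
    exact Iff.rfl
  have hsurj : Function.Surjective ψ := by
    rintro ⟨_, z, rfl⟩
    exact ⟨z, rfl⟩
  obtain ⟨f₀, b, hf, hspan, hind, hfrob⟩ := kd_basis p k
  choose τ hτ using fun t => hsurj (b t)
  have hs : ∀ c : Fin f₀ → ℕ, ψ (∑ t, (c t : O) * τ t) = ∑ t, (c t : k) * b t := fun c => by
    simp only [map_sum, map_mul, map_natCast, hτ]
  refine ⟨e, f₀, a, u, fun t => τ t, he, hf, ha, hu, hup, hmax, fun t => hO _, fun z hz => ?_,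
    fun c hc => hind c ?_, fun z hz => ?_⟩
  · obtain ⟨c, hc⟩ := hspan (ψ ⟨z, hz⟩)
    refine ⟨c, ?_⟩
    have h := (hψ (⟨z, hz⟩ - ∑ t, (c t : O) * τ t)).1 (by rw [map_sub, hs, ← hc, sub_self])
    simpa using h
  · rw [← hs, hψ]
    simpa using hc
  · have h := (hψ (⟨z, hz⟩ ^ p ^ f₀ - ⟨z, hz⟩)).1 (by rw [map_sub, map_pow, hfrob, sub_self])
    simpa using h

end Pool.Agent.P.MP_7cb106_nt.GK
end

section
/-! Step GM. -/

set_option autoImplicit false

namespace Pool.Agent.P.MP_7cb106_nt.GK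

open Filter Topology

theorem gm_key {p : ℕ} [Fact p.Prime] {K L : Type} [Field K] [Algebra ℚ_[p] K]
    [NormedField L] [NormedAlgebra ℚ_[p] L] [IsUltrametricDist L] {σ : K →ₐ[ℚ_[p]] L} {n : ℕ}
    {c d : ℝ} (hc : 0 ≤ c) (hc1 : c < 1) (hd : 0 ≤ d) {X Y Z : Mat n K} (hX : Sm σ c X)
    (hZ : Sm σ d Z) (h : (1 + X) * Y = Z) : Sm σ d Y := by
  intro i j
  obtain ⟨q, -, hq⟩ := Finset.exists_max_image (Finset.univ : Finset (Fin n × Fin n))
    (fun q => ‖σ (Y q.1 q.2)‖) ⟨(i, j), Finset.mem_univ _⟩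
  have hM : Sm σ ‖σ (Y q.1 q.2)‖ Y := fun a b => hq (a, b) (Finset.mem_univ _)
  have h1 : Y = Z - X * Y := by rw [← h, add_mul, one_mul, add_sub_cancel_right]
  have h2 : Sm σ (max d (c * ‖σ (Y q.1 q.2)‖)) (Z - X * Y) :=
    (hZ.mono (le_max_left _ _)).sub ((hX.mul hM hc (norm_nonneg _)).mono (le_max_right _ _))
  rw [← h1] at h2
  refine (hM i j).trans ?_
  rcases le_max_iff.1 (h2 q.1 q.2) with h3 | h3
  · exact h3
  · nlinarith [norm_nonneg (σ (Y q.1 q.2))]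

theorem p_GM :
    S_GM := by
  intro p _ K L _ _ _ _ _ σ n c hc hc1
  refine ⟨fun X hX => ?_, fun h hh => ?_⟩
  · have hdet : (1 + X).det ≠ 0 := by
      intro h0
      obtain ⟨v, hv, hv0⟩ := Matrix.exists_mulVec_eq_zero_iff.2 h0
      have h1 : (1 + X) * (Matrix.of fun i _ => v i : Mat n K) = 0 := by
        ext i j
        exact congrFun hv0 i
      have h2 := gm_key hc hc1 le_rfl hX (fun i j => by simp) h1
      refine hv (funext fun i => ?_)
      have h3 : σ (v i) = 0 := norm_le_zero_iff.1 (h2 i i)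
      exact (map_eq_zero σ).1 h3
    exact ⟨Matrix.GeneralLinearGroup.mkOfDetNeZero _ hdet, rfl⟩
  · refine gm_key hc hc1 hc hh hh.neg ?_
    rw [add_sub_cancel, mul_sub, mul_one, Units.mul_inv, neg_sub]

end Pool.Agent.P.MP_7cb106_nt.GK
end

section
/-! Step GD0. -/

set_option autoImplicit false

namespace Pool.Agent.P.MP_7cb106_nt.GK

open Filter Topology

section
variable {p : ℕ} [Fact p.Prime] {K L : Type} [Field K] [Algebra ℚ_[p] K] [NormedField L]
  [NormedAlgebra ℚ_[p] L] {n : ℕ}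

theorem gd0_zero (σ : K →ₐ[ℚ_[p]] L) {c : ℝ} (hc : 0 ≤ c) : Sm σ c (0 : Mat n K) :=
  fun i j => by simpa using hc

theorem gd0_single (σ : K →ₐ[ℚ_[p]] L) {c : ℝ} (hc : 0 ≤ c) (a b : Fin n) {z : K}
    (hz : ‖σ z‖ ≤ c) : Sm σ c (Matrix.single a b z : Mat n K) := fun i j => by
  rw [Matrix.single_apply]
  split_ifs
  · exact hz
  · simpa using hc

theorem gd0_mul [IsUltrametricDist L] (σ : K →ₐ[ℚ_[p]] L) {c : ℝ} (hc : 0 ≤ c) (hc1 : c ≤ 1)
    {X Y : Mat n K} (hX : Sm σ c (X - 1)) (hY : Sm σ c (Y - 1)) : Sm σ c (X * Y - 1) := by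
  have h : X * Y - 1 = (X - 1) * (Y - 1) + (X - 1) + (Y - 1) := by noncomm_ring
  rw [h]
  exact (((hX.mul hY hc hc).mono (mul_le_of_le_one_right hc hc1)).add hX).add hY

end

theorem p_GD0 (hGM : S_GM) :
    S_GD0 := by
  intro p _ K L _ _ _ _ _ σ ϖ n e f₀ a J₀ u τ U hK hJ hU
  have h0 : 0 ≤ ‖σ u‖ := norm_nonneg _
  have h1 : ‖σ u‖ < 1 := hK.u_lt
  have hc0 : ∀ J : ℕ, 0 ≤ ‖σ u‖ ^ (J₀ + J) := fun J => pow_nonneg h0 _
  have hc1 : ∀ J : ℕ, ‖σ u‖ ^ (J₀ + J) < 1 := fun J => pow_lt_one₀ h0 h1 (by omega)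
  have hle : ∀ J : ℕ, ‖σ u‖ ^ (J₀ + J) ≤ ‖σ u‖ ^ J₀ := fun J =>
    pow_le_pow_of_le_one h0 h1.le (by omega)
  have hγ : ∀ x : Fin n × Fin n × Fin e × Fin f₀, ∃ h : U,
      h.val.val = 1 + Matrix.single x.1 x.2.1 (u ^ (J₀ + x.2.2.1.val) * τ x.2.2.2) := by
    rintro ⟨c, d, j, t⟩
    have hz : ‖σ (u ^ (J₀ + j.val) * τ t)‖ ≤ ‖σ u‖ ^ (J₀ + j.val) := by
      rw [map_mul, map_pow, norm_mul, norm_pow]
      exact mul_le_of_le_one_right (hc0 _) (hK.tau_le t)
    have hs := gd0_single σ (hc0 j.val) c d hz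
    obtain ⟨h, hh⟩ := (hGM p K L σ n _ (hc0 j.val) (hc1 j.val)).1 _ hs
    refine ⟨⟨h, hU h ?_⟩, hh⟩
    rw [hh, add_sub_cancel_left]
    exact hs.mono (hle _)
  choose γ hγ using hγ
  refine ⟨fun J =>
    { carrier := {h | Sm σ (‖σ u‖ ^ (J₀ + J)) (h.val.val - 1)}
      mul_mem' := fun {x y} hx hy => ?_
      one_mem' := ?_
      inv_mem' := fun {x} hx => ?_ }, γ, fun J h => Iff.rfl, fun c d j t => hγ (c, d, j, t)⟩
  · exact gd0_mul σ (hc0 J) (hc1 J).le hx hy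
  · change Sm σ _ ((1 : Mat n K) - 1)
    rw [sub_self]
    exact gd0_zero σ (hc0 J)
  · exact (hGM p K L σ n _ (hc0 J) (hc1 J)).2 x.val hx

end Pool.Agent.P.MP_7cb106_nt.GK
end

section
/-! Step GD1. -/

set_option autoImplicit false

namespace Pool.Agent.P.MP_7cb106_nt.GK

open Filter Topology

section
variable {p : ℕ} [Fact p.Prime] {K L : Type} [Field K] [Algebra ℚ_[p] K] [NormedField L]
  [NormedAlgebra ℚ_[p] L] [IsUltrametricDist L] {n : ℕ} {σ : K →ₐ[ℚ_[p]] L}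

theorem gd1_one {c : ℝ} {M : Mat n K} (h : Sm σ c (M - 1)) (hc : c ≤ 1) : Sm σ 1 M := by
  have h1 := (h.mono hc).add (sm_one σ)
  rwa [sub_add_cancel] at h1

theorem gd1_pow {c : ℝ} {X : Mat n K} (h : Sm σ c X) (h0 : 0 ≤ c) (hc : c ≤ 1) (k : ℕ) :
    Sm σ (c * c) ((1 + X) ^ k - 1 - (k : K) • X) := by
  induction k with
  | zero =>
    intro i j
    simpa using mul_nonneg h0 h0
  | succ k ih =>
    have e : (1 + X) ^ (k + 1) - 1 - ((k + 1 : ℕ) : K) • X =
        ((1 + X) ^ k - 1 - (k : K) • X) * (1 + X) + (k : K) • (X * X) := by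
      rw [pow_succ, Nat.cast_succ, add_smul, one_smul]
      simp only [sub_mul, mul_add, mul_one, one_mul, smul_mul_assoc]
      abel
    rw [e]
    have h1 : Sm σ 1 (1 + X) := (sm_one σ).add (h.mono hc)
    have h2 := ih.mul h1 (mul_nonneg h0 h0) zero_le_one
    rw [mul_one] at h2
    refine h2.add (((h.mul h h0 h0).smul (k : K)).mono ?_)
    have h3 : ‖σ (k : K)‖ ≤ 1 := by
      rw [map_natCast]
      exact IsUltrametricDist.norm_natCast_le_one L k
    exact mul_le_of_le_one_left (mul_nonneg h0 h0) h3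

end

theorem p_GD1 (hGM : S_GM) :
    S_GD1 := by
  intro p _ K L _ _ _ _ _ σ ϖ n e f₀ a J₀ u τ U Γ hK hJ hΓ
  have r0 := hK.u_pos
  have r1 := hK.u_lt
  have hp : ∀ {i j : ℕ}, i ≤ j → ‖σ u‖ ^ j ≤ ‖σ u‖ ^ i := fun h =>
    pow_le_pow_of_le_one r0.le r1.le h
  have hn : ∀ i : ℕ, 0 ≤ ‖σ u‖ ^ i := fun i => pow_nonneg r0.le i
  have h1 : ∀ i : ℕ, ‖σ u‖ ^ i ≤ 1 := fun i => pow_le_one₀ r0.le r1.le
  have hone : ∀ J, ∀ h ∈ Γ J, Sm σ 1 h.val.val := fun J h hh =>
    gd1_one ((hΓ J h).1 hh) (h1 _)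
  have hinv : ∀ h : U, h.val.val * (h⁻¹).val.val = 1 := fun h => by
    have e : (h * h⁻¹).val.val = (1 : U).val.val := by rw [mul_inv_cancel]
    exact e
  refine ⟨fun J J' hJJ h hh => (hΓ J h).2 (((hΓ J' h).1 hh).mono (hp (by omega))), ?_, ?_, ?_⟩
  · intro J h hh y hy
    rw [hΓ]
    have e : (y * h * y⁻¹).val.val - 1 = y.val.val * (h.val.val - 1) * (y⁻¹).val.val := by
      rw [mul_sub, sub_mul, mul_one, hinv]
      rfl
    rw [e]
    have h2 := ((hone 0 y hy).mul ((hΓ J h).1 hh) zero_le_one (hn _)).mul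
      (hone 0 _ ((Γ 0).inv_mem hy)) (mul_nonneg zero_le_one (hn _)) zero_le_one
    rwa [one_mul, mul_one] at h2
  · intro J J' h hh h' hh'
    rw [hΓ]
    have e : (h * h' * h⁻¹ * h'⁻¹).val.val - 1 =
        ((h.val.val - 1) * (h'.val.val - 1) - (h'.val.val - 1) * (h.val.val - 1)) *
          (h⁻¹).val.val * (h'⁻¹).val.val := by
      have e1 : (h.val.val - 1) * (h'.val.val - 1) - (h'.val.val - 1) * (h.val.val - 1) =
          h.val.val * h'.val.val - h'.val.val * h.val.val := by noncomm_ring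
      rw [e1, sub_mul, sub_mul, mul_assoc h'.val.val, hinv, mul_one, hinv]
      rfl
    rw [e]
    have a1 := (hΓ J h).1 hh
    have a2 := (hΓ J' h').1 hh'
    have b1 := a1.mul a2 (hn _) (hn _)
    have b2 := a2.mul a1 (hn _) (hn _)
    rw [mul_comm] at b2
    have h2 := ((b1.sub b2).mul (hone J _ ((Γ J).inv_mem hh)) (mul_nonneg (hn _) (hn _))
      zero_le_one).mul (hone J' _ ((Γ J').inv_mem hh'))
      (mul_nonneg (mul_nonneg (hn _) (hn _)) zero_le_one) zero_le_one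
    rw [mul_one, mul_one, ← pow_add] at h2
    exact h2.mono (hp (by omega))
  · intro J h hh
    rw [hΓ]
    have a1 := (hΓ J h).1 hh
    have b1 := gd1_pow a1 (hn _) (h1 _) p
    rw [add_sub_cancel, ← pow_add] at b1
    have b2 := a1.smul (p : K)
    rw [map_natCast, norm_p_eq p L, ← hK.norm_p, ← pow_add] at b2
    have e : (h ^ p).val.val - 1 =
        (h.val.val ^ p - 1 - (p : K) • (h.val.val - 1)) + (p : K) • (h.val.val - 1) := by
      rw [sub_add_cancel]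
      simp
    rw [e]
    exact (b1.mono (hp (by omega))).add (b2.mono (hp (by omega)))

end Pool.Agent.P.MP_7cb106_nt.GK
end

section
/-! Step POW. -/

set_option autoImplicit false

namespace Pool.Agent.P.MP_7cb106_nt.GK

open Filter Topology

theorem pow_mat {K : Type} [Field K] (n : ℕ) (c d : Fin n) (z : K) (k : ℕ) :
    (1 + Matrix.single c d z : Matrix (Fin n) (Fin n) K) ^ k =
      1 + Matrix.single c d (if c = d then (1 + z) ^ k - 1 else k * z) := by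
  induction k with
  | zero => simp
  | succ k ih =>
    rw [pow_succ, ih, add_mul, one_mul, mul_add, mul_one]
    by_cases h : c = d
    · subst h
      rw [Matrix.single_mul_single_same, if_pos rfl, if_pos rfl, add_assoc, ← Matrix.single_add,
        ← Matrix.single_add]
      have : z + ((1 + z) ^ k - 1 + ((1 + z) ^ k - 1) * z) = (1 + z) ^ (k + 1) - 1 := by ring
      rw [this]
    · rw [if_neg h, if_neg h, Matrix.single_mul_single_of_ne _ _ _ _ (Ne.symm h), add_zero,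
        add_assoc, ← Matrix.single_add]
      have : z + k * z = ((k + 1 : ℕ) : K) * z := by push_cast; ring
      rw [this]

theorem pow_sq {L : Type} [NormedField L] [IsUltrametricDist L] (w : L) (hw : ‖w‖ ≤ 1) (k : ℕ) :
    ‖(1 + w) ^ k - 1 - k * w‖ ≤ ‖w‖ ^ 2 := by
  induction k with
  | zero => simp
  | succ k ih =>
    have e : (1 + w) ^ (k + 1) - 1 - ((k + 1 : ℕ) : L) * w =
        (1 + w) * ((1 + w) ^ k - 1 - k * w) + k * w ^ 2 := by push_cast; ring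
    have h1 : ‖1 + w‖ ≤ 1 :=
      (IsUltrametricDist.norm_add_le_max _ _).trans (max_le (by simp) hw)
    rw [e]
    refine (IsUltrametricDist.norm_add_le_max _ _).trans (max_le ?_ ?_)
    · rw [norm_mul]
      exact (mul_le_of_le_one_left (norm_nonneg _) h1).trans ih
    · rw [norm_mul, norm_pow]
      exact mul_le_of_le_one_left (by positivity) (IsUltrametricDist.norm_natCast_le_one L k)

theorem pow_est {L : Type} [NormedField L] [IsUltrametricDist L] (p e i : ℕ) (r : ℝ) (h0 : 0 < r)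
    (h1 : r < 1) (hp : ‖(p : L)‖ = r ^ e) (hi : e + 1 ≤ i) (z : L) (hz : ‖z‖ ≤ r ^ i) (m : ℕ) :
    ‖(1 + z) ^ p ^ m - 1 - (p : L) ^ m * z‖ ≤ r ^ (i + e * m + 1) ∧
      ‖(1 + z) ^ p ^ (m + 1) - 1 - p * ((1 + z) ^ p ^ m - 1)‖ ≤ r ^ (2 * (i + e * m)) := by
  have key : ∀ m : ℕ, ‖(1 + z) ^ p ^ m - 1 - (p : L) ^ m * z‖ ≤ r ^ (i + e * m + 1) →
      ‖(1 + z) ^ p ^ (m + 1) - 1 - p * ((1 + z) ^ p ^ m - 1)‖ ≤ r ^ (2 * (i + e * m)) := by
    intro m h
    have a : ‖(1 + z) ^ p ^ m - 1‖ ≤ r ^ (i + e * m) := by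
      have e1 : (1 + z) ^ p ^ m - 1 =
          ((1 + z) ^ p ^ m - 1 - (p : L) ^ m * z) + (p : L) ^ m * z := by ring
      rw [e1]
      refine (IsUltrametricDist.norm_add_le_max _ _).trans (max_le ?_ ?_)
      · exact h.trans (pow_le_pow_of_le_one h0.le h1.le (by omega))
      · rw [norm_mul, norm_pow, hp, ← pow_mul, pow_add, mul_comm]
        exact mul_le_mul_of_nonneg_right hz (by positivity)
    have b := pow_sq _ (a.trans (pow_le_one₀ h0.le h1.le)) p
    rw [add_sub_cancel, ← pow_mul, ← pow_succ] at b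
    refine b.trans ?_
    rw [mul_comm 2, pow_mul]
    exact pow_le_pow_left₀ (norm_nonneg _) a 2
  have main : ∀ m : ℕ, ‖(1 + z) ^ p ^ m - 1 - (p : L) ^ m * z‖ ≤ r ^ (i + e * m + 1) := by
    intro m
    induction m with
    | zero => simpa using by positivity
    | succ m ih =>
      have e1 : (1 + z) ^ p ^ (m + 1) - 1 - (p : L) ^ (m + 1) * z =
          ((1 + z) ^ p ^ (m + 1) - 1 - p * ((1 + z) ^ p ^ m - 1)) +
            p * ((1 + z) ^ p ^ m - 1 - (p : L) ^ m * z) := by ring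
      rw [e1]
      refine (IsUltrametricDist.norm_add_le_max _ _).trans (max_le ?_ ?_)
      · exact (key m ih).trans (pow_le_pow_of_le_one h0.le h1.le (by rw [mul_add e]; omega))
      · rw [norm_mul, hp, show i + e * (m + 1) + 1 = e + (i + e * m + 1) by ring, pow_add r e]
        exact mul_le_mul_of_nonneg_left ih (by positivity)
  exact ⟨main m, key m (main m)⟩

theorem p_POW :
    S_POW := by
  intro p _ K L _ _ _ _ _ _ _ σ r e h0 h1 hr
  refine ⟨fun n c d z k => pow_mat n c d z k, fun i z hi hz => ?_⟩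
  have hp : ‖(p : L)‖ = r ^ e := by
    rw [hr, ← map_natCast (algebraMap ℚ_[p] L) p, norm_algebraMap', Padic.norm_p]
  have hp0 : (p : L) ≠ 0 := by
    intro h
    rw [h, norm_zero] at hp
    exact absurd hp (by positivity : r ^ e ≠ 0).symm
  have he : r ^ e < 1 := by
    rw [hr]
    exact inv_lt_one_of_one_lt₀ (by exact_mod_cast (Fact.out : p.Prime).one_lt)
  have est := pow_est p e i r h0 h1 hp hi (σ z) hz
  refine ⟨fun m => by simpa using (est m).1, ?_⟩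
  obtain ⟨j, rfl⟩ : ∃ j, i = e + j := ⟨i - e, by omega⟩
  set a : ℕ → L := fun m => ((p : L) ^ m)⁻¹ * ((1 + σ z) ^ p ^ m - 1) with ha
  have hc : CauchySeq a := by
    refine cauchySeq_of_le_geometric (r ^ e) (r ^ (e + 2 * j)) he fun m => ?_
    have e1 : a (m + 1) - a m = ((p : L) ^ (m + 1))⁻¹ *
        ((1 + σ z) ^ p ^ (m + 1) - 1 - p * ((1 + σ z) ^ p ^ m - 1)) := by
      simp only [ha]
      field_simp
      ring
    rw [dist_comm, dist_eq_norm, e1, norm_mul, norm_inv, norm_pow, hp,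
      inv_mul_le_iff₀ (by positivity)]
    refine (est m).2.trans_eq ?_
    rw [← pow_mul, ← pow_mul, ← pow_add, ← pow_add]
    exact congrArg _ (by ring)
  obtain ⟨l, hl⟩ := cauchySeq_tendsto_of_complete hc
  have hmem : ∀ m, a m ∈ (LinearMap.range σ.toLinearMap : Set L) := fun m =>
    ⟨((p : K) ^ m)⁻¹ * ((1 + z) ^ p ^ m - 1), by simp [ha]⟩
  obtain ⟨y, hy⟩ := (Submodule.closed_of_finiteDimensional
    (LinearMap.range σ.toLinearMap)).mem_of_tendsto hl (Eventually.of_forall hmem)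
  have hy' : σ y = l := hy
  refine ⟨y, ?_, ?_⟩
  · rw [map_sub, hy']
    refine le_of_tendsto' (hl.sub_const (σ z)).norm fun m => ?_
    have e1 : a m - σ z = ((p : L) ^ m)⁻¹ * ((1 + σ z) ^ p ^ m - 1 - (p : L) ^ m * σ z) := by
      simp only [ha]
      field_simp
    rw [e1, norm_mul, norm_inv, norm_pow, hp, inv_mul_le_iff₀ (by positivity)]
    refine (est m).1.trans_eq ?_
    rw [← pow_mul, ← pow_add]
    exact congrArg _ (by ring)
  · have := tendsto_iff_norm_sub_tendsto_zero.1 hl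
    refine this.congr fun m => ?_
    simp [ha, hy']

end Pool.Agent.P.MP_7cb106_nt.GK
end

section
/-! Step GD2. -/

set_option autoImplicit false

namespace Pool.Agent.P.MP_7cb106_nt.GK

open Filter Topology

theorem gd2_single {p : ℕ} [Fact p.Prime] {K L : Type} [Field K] [Algebra ℚ_[p] K] [NormedField L]
    [NormedAlgebra ℚ_[p] L] {n : ℕ} (σ : K →ₐ[ℚ_[p]] L) (c d : Fin n) (z : K) (R : ℝ)
    (hz : ‖σ z‖ ≤ R) : Sm σ R (Matrix.single c d z) := fun i j => by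
  rw [Matrix.single_apply]
  split_ifs
  · exact hz
  · rw [map_zero, norm_zero]
    exact (norm_nonneg _).trans hz

theorem p_GD2 (hGM : S_GM) (hGD1 : S_GD1) (hPOW : S_POW) :
    S_GD2 := by
  intro p _ K L _ _ _ _ _ _ _ σ ϖ n e f₀ a J₀ u τ U Γ γ hK hJ₀ hΓ hγ
  obtain ⟨h1, h2, h3, h4⟩ := hGD1 p K L σ ϖ n e f₀ a J₀ u τ U Γ hK hJ₀ hΓ
  have hr0 := hK.u_pos
  have hr1 := hK.u_lt
  obtain ⟨hP1, hP2⟩ := hPOW p K L σ ‖σ u‖ e hr0 hr1 hK.norm_p
  have hz : ∀ (j : ℕ) (t : Fin f₀), ‖σ (u ^ j * τ t)‖ ≤ ‖σ u‖ ^ j := fun j t => by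
    rw [map_mul, map_pow, norm_mul, norm_pow]
    exact mul_le_of_le_one_right (by positivity) (hK.tau_le t)
  refine ⟨h1, fun i => i.2.2.1.2, ?_, h2, h3, h4, ?_⟩
  · rintro ⟨c, d, j, t⟩
    rw [hΓ, hγ, add_sub_cancel_left]
    exact gd2_single σ c d _ _ (hz _ t)
  intro J h hh
  set M := Submonoid.closure ((Γ (J + 1) : Set U) ∪
    {h | ∃ (i : Fin n × Fin n × Fin e × Fin f₀) (m : ℕ), i.2.2.1.val + e * m = J ∧
      h = γ i ^ p ^ m}) with hM
  let j : Fin e := ⟨J % e, Nat.mod_lt _ hK.he⟩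
  have hJ : j.val + e * (J / e) = J := Nat.mod_add_div J e
  set m := J / e with hm
  have hle : ‖σ u‖ ^ (J₀ + (J + 1)) ≤ ‖σ u‖ ^ (J₀ + J) :=
    pow_le_pow_of_le_one hr0.le hr1.le (by omega)
  have hsq : ‖σ u‖ ^ (J₀ + J) * ‖σ u‖ ^ (J₀ + J) ≤ ‖σ u‖ ^ (J₀ + (J + 1)) := by
    rw [← pow_add]
    exact pow_le_pow_of_le_one hr0.le hr1.le (by omega)
  let s : K := (p : K) ^ m * u ^ (J₀ + j.val)
  have hs : ‖σ s‖ = ‖σ u‖ ^ (J₀ + J) := by
    simp only [s]
    rw [map_mul, map_pow, map_pow, map_natCast, norm_mul, norm_pow, norm_pow, norm_p_eq,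
      ← hK.norm_p, ← pow_mul, ← pow_add]
    congr 1
    omega
  have hs0 : s ≠ 0 := by
    intro h0
    rw [h0, map_zero, norm_zero] at hs
    exact absurd hs (pow_pos hr0 _).ne
  let Q : AddSubmonoid (Mat n K) :=
    { carrier := {X | ∃ g : U, g ∈ M ∧ g ∈ Γ J ∧ Sm σ (‖σ u‖ ^ (J₀ + (J + 1))) (g.val.val - 1 - X)}
      zero_mem' := ⟨1, one_mem _, one_mem _, fun i k => by simp⟩
      add_mem' := by
        rintro X Y ⟨g, hg1, hg2, hg3⟩ ⟨g', hg1', hg2', hg3'⟩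
        refine ⟨g * g', mul_mem hg1 hg1', mul_mem hg2 hg2', ?_⟩
        have e1 : (g * g').val.val - 1 - (X + Y) = (g.val.val - 1 - X) + (g'.val.val - 1 - Y) +
            (g.val.val - 1) * (g'.val.val - 1) := by
          rw [Subgroup.coe_mul, Units.val_mul]
          noncomm_ring
        rw [e1]
        exact (hg3.add hg3').add ((((hΓ J g).1 hg2).mul ((hΓ J g').1 hg2') (by positivity)
          (by positivity)).mono hsq) }
  have hQ : ∀ c d t, Matrix.single c d (s * τ t) ∈ Q := by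
    intro c d t
    have e1 : (γ (c, d, j, t) ^ p ^ m).val.val - 1 - Matrix.single c d (s * τ t) =
        Matrix.single c d (if c = d then (1 + u ^ (J₀ + j.val) * τ t) ^ p ^ m - 1 -
          (p : K) ^ m * (u ^ (J₀ + j.val) * τ t) else 0) := by
      rw [Subgroup.coe_pow, Units.val_pow_eq_pow_val, hγ, hP1, add_sub_cancel_left,
        sub_eq_iff_eq_add, ← Matrix.single_add]
      congr 1
      simp only [s]
      split_ifs
      · ring
      · push_cast
        ring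
    have e2 : Sm σ (‖σ u‖ ^ (J₀ + (J + 1)))
        ((γ (c, d, j, t) ^ p ^ m).val.val - 1 - Matrix.single c d (s * τ t)) := by
      rw [e1]
      refine gd2_single σ c d _ _ ?_
      split_ifs
      · refine ((hP2 (J₀ + j.val) _ (by omega) (hz _ t)).1 m).trans (le_of_eq ?_)
        congr 1
        omega
      · simp
    refine ⟨γ (c, d, j, t) ^ p ^ m, Submonoid.subset_closure (Or.inr ⟨_, m, hJ, rfl⟩), ?_, e2⟩
    rw [hΓ, ← sub_add_cancel ((γ (c, d, j, t) ^ p ^ m).val.val - 1) (Matrix.single c d (s * τ t))]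
    refine (e2.mono hle).add (gd2_single σ c d _ _ ?_)
    rw [map_mul, norm_mul, hs]
    exact mul_le_of_le_one_right (by positivity) (hK.tau_le t)
  have hh' := (hΓ J h).1 hh
  have hk : ∀ c d, ∃ k : Fin f₀ → ℕ,
      ‖σ ((h.val.val - 1) c d - s * ∑ t, (k t : K) * τ t)‖ ≤ ‖σ u‖ ^ (J₀ + (J + 1)) := by
    intro c d
    obtain ⟨k, hk⟩ := hK.span (s⁻¹ * (h.val.val - 1) c d) (by
      rw [map_mul, map_inv₀, norm_mul, norm_inv, hs, inv_mul_le_iff₀ (by positivity), mul_one]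
      exact hh' c d)
    refine ⟨k, ?_⟩
    have e1 : (h.val.val - 1) c d - s * ∑ t, (k t : K) * τ t =
        s * (s⁻¹ * (h.val.val - 1) c d - ∑ t, (k t : K) * τ t) := by
      rw [mul_sub, mul_inv_cancel_left₀ hs0]
    rw [e1, map_mul, norm_mul, hs, ← add_assoc, pow_succ]
    exact mul_le_mul_of_nonneg_left (hK.max _ hk) (by positivity)
  choose k hk using hk
  have hX : (Matrix.of fun c d => s * ∑ t, (k c d t : K) * τ t : Mat n K) ∈ Q := by
    rw [Matrix.matrix_eq_sum_single (Matrix.of fun c d => s * ∑ t, (k c d t : K) * τ t)]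
    refine sum_mem fun c _ => sum_mem fun d _ => ?_
    have e1 : Matrix.single c d ((Matrix.of fun c d => s * ∑ t, (k c d t : K) * τ t) c d) =
        ∑ t, k c d t • Matrix.single c d (s * τ t) := by
      ext i l
      simp only [Matrix.of_apply, Matrix.sum_apply, Matrix.smul_apply, Matrix.single_apply]
      split_ifs
      · rw [Finset.mul_sum]
        refine Finset.sum_congr rfl fun t _ => ?_
        rw [nsmul_eq_mul]
        ring
      · simp
    rw [e1]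
    exact sum_mem fun t _ => nsmul_mem (hQ c d t) _
  obtain ⟨g, hg1, hg2, hg3⟩ := hX
  have hd : Sm σ (‖σ u‖ ^ (J₀ + (J + 1))) (h.val.val - g.val.val) := by
    have e1 : h.val.val - g.val.val =
        (h.val.val - 1 - Matrix.of fun c d => s * ∑ t, (k c d t : K) * τ t) -
        (g.val.val - 1 - Matrix.of fun c d => s * ∑ t, (k c d t : K) * τ t) := by abel
    rw [e1]
    exact Sm.sub (fun c d => hk c d) hg3
  have hi : Sm σ 1 (g⁻¹).val.val := by
    rw [← sub_add_cancel (g⁻¹).val.val 1]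
    exact (((hΓ J _).1 (inv_mem hg2)).mono (pow_le_one₀ hr0.le hr1.le)).add (sm_one σ)
  have hgh : g⁻¹ * h ∈ Γ (J + 1) := by
    rw [hΓ]
    have e1 : (g⁻¹ * h).val.val - 1 = (g⁻¹).val.val * (h.val.val - g.val.val) := by
      rw [mul_sub, ← Units.val_mul, ← Units.val_mul, ← Subgroup.coe_mul, ← Subgroup.coe_mul,
        inv_mul_cancel]
      rfl
    rw [e1]
    simpa using hi.mul hd zero_le_one (by positivity)
  rw [← mul_inv_cancel_left g h]
  exact mul_mem hg1 (Submonoid.subset_closure (Or.inl hgh))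

end Pool.Agent.P.MP_7cb106_nt.GK
end

section
/-! Step OB1. -/

set_option autoImplicit false

namespace Pool.Agent.P.MP_7cb106_nt.GK

open Filter Topology

theorem ob1_pow {p : ℕ} [Fact p.Prime] {r : ℝ} {e : ℕ} (h : r ^ e = (p : ℝ)⁻¹) {c : ℚ_[p]}
    (hc : c ≠ 0) : ∃ a : ℤ, ‖c‖ = r ^ ((e : ℤ) * a) := by
  refine ⟨c.valuation, ?_⟩
  rw [Padic.norm_eq_zpow_neg_valuation hc, zpow_mul, zpow_natCast, h, inv_zpow', zpow_neg]

theorem ob1_ne {p : ℕ} [Fact p.Prime] {r : ℝ} {e : ℕ} (h0 : 0 < r) (h1 : r < 1)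
    (h : r ^ e = (p : ℝ)⁻¹) {c c' : ℚ_[p]} (hc' : c' ≠ 0) (J : ℕ) {j j' : Fin e}
    (hw : ‖c‖ * r ^ (J + j.val) = ‖c'‖ * r ^ (J + j'.val)) : j = j' := by
  have hc : c ≠ 0 := by
    rintro rfl
    rw [norm_zero, zero_mul] at hw
    exact absurd hw (mul_pos (norm_pos_iff.2 hc') (pow_pos h0 _)).ne
  obtain ⟨a, ha⟩ := ob1_pow h hc
  obtain ⟨a', ha'⟩ := ob1_pow h hc'
  rw [ha, ha', ← zpow_natCast, ← zpow_natCast, ← zpow_add₀ h0.ne', ← zpow_add₀ h0.ne'] at hw
  have h2 := zpow_right_injective₀ h0 h1.ne hw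
  have hj : (j.val : ℤ) < e := by exact_mod_cast j.isLt
  have hj' : (j'.val : ℤ) < e := by exact_mod_cast j'.isLt
  have h3 : (e : ℤ) * (a - a') = (j'.val : ℤ) - j.val := by
    push_cast at h2
    linarith
  have h4 : a - a' = 0 := by
    have hj0 : (0 : ℤ) ≤ j.val := Int.natCast_nonneg _
    have hj0' : (0 : ℤ) ≤ j'.val := Int.natCast_nonneg _
    rcases lt_trichotomy (a - a') 0 with h5 | h5 | h5
    · nlinarith
    · exact h5
    · nlinarith
  rw [h4, mul_zero] at h3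
  apply Fin.ext
  omega

theorem ob1_appr {p : ℕ} [Fact p.Prime] (z : ℚ_[p]) (hz : ‖z‖ ≤ 1) :
    ∃ n : ℕ, ‖z - n‖ < 1 := by
  let x : ℤ_[p] := ⟨z, hz⟩
  refine ⟨x.zmodRepr, ?_⟩
  have h := PadicInt.norm_sub_zmodRepr_lt_one x
  simpa [PadicInt.norm_def, x] using h

theorem p_OB1 :
    S_OB1 := by
  intro p _ K L _ _ _ _ _ σ ϖ e f₀ a J₀ u τ y hK hy c i
  classical
  have h0 := hK.u_pos
  have h1 := hK.u_lt
  set r := ‖σ u‖ with hr
  obtain ⟨i₀, -, hi₀⟩ := Finset.exists_max_image (Finset.univ : Finset (Fin e × Fin f₀))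
    (fun i => ‖c i‖ * r ^ (J₀ + i.1.val)) ⟨i, Finset.mem_univ _⟩
  refine (hi₀ i (Finset.mem_univ _)).trans ?_
  by_cases hc : c i₀ = 0
  · rw [hc, norm_zero, zero_mul]
    exact norm_nonneg _
  have hcp : 0 < ‖c i₀‖ := norm_pos_iff.2 hc
  set k := J₀ + i₀.1.val with hk
  have hrk : 0 < r ^ k := pow_pos h0 _
  have hM : 0 < ‖c i₀‖ * r ^ k := mul_pos hcp hrk
  have hsm : ∀ (d : ℚ_[p]) (z : K), ‖σ (d • z)‖ = ‖d‖ * ‖σ z‖ := fun d z => by
    rw [map_smul, norm_smul]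
  have hle : ∀ t, ‖c (i₀.1, t)‖ ≤ ‖c i₀‖ := fun t =>
    le_of_mul_le_mul_right (hi₀ (i₀.1, t) (Finset.mem_univ _)) hrk
  have hn : ∀ t, ∃ n : ℕ, ‖c (i₀.1, t) / c i₀ - n‖ < 1 := fun t =>
    ob1_appr _ (by rw [norm_div]; exact (div_le_one hcp).2 (hle t))
  choose n hn using hn
  have hut : ∀ (m : ℕ) (t : Fin f₀), ‖σ (u ^ m * τ t)‖ ≤ r ^ m := fun m t => by
    rw [map_mul, map_pow, norm_mul, norm_pow]
    exact mul_le_of_le_one_right (pow_nonneg h0.le _) (hK.tau_le t)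
  have hbig : 1 ≤ ‖σ (∑ t, (n t : K) * τ t)‖ := by
    by_contra hlt
    have h2 := hK.indep n (not_le.1 hlt) i₀.2
    have h3 := hn i₀.2
    rw [Prod.mk.eta, div_self hc] at h3
    have h4 : ‖((n i₀.2 : ℕ) : ℚ_[p])‖ < 1 := by
      have := (Padic.norm_intCast_lt_one_iff (p := p) (k := (n i₀.2 : ℤ))).2
        (by exact_mod_cast h2)
      simpa using this
    have h5 : ‖(1 : ℚ_[p])‖ < 1 := by
      have h6 : (1 : ℚ_[p]) = (1 - (n i₀.2 : ℚ_[p])) + (n i₀.2 : ℚ_[p]) := by ring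
      rw [h6]
      exact (IsUltrametricDist.norm_add_le_max _ _).trans_lt (max_lt h3 h4)
    simp at h5
  let g : Fin e × Fin f₀ → K := fun i =>
    if i.1 = i₀.1 then (c i₀ * (n i.2 : ℚ_[p])) • (u ^ k * τ i.2) else 0
  have hg : ∑ i, g i = c i₀ • (u ^ k * ∑ t, (n t : K) * τ t) := by
    rw [Fintype.sum_prod_type, Finset.sum_eq_single i₀.1]
    · rw [Finset.mul_sum, Finset.smul_sum]
      refine Finset.sum_congr rfl fun t _ => ?_
      simp only [g, if_true]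
      rw [mul_smul, Nat.cast_smul_eq_nsmul, nsmul_eq_mul]
      congr 1
      ring
    · intro j _ hj
      exact Finset.sum_eq_zero fun t _ => if_neg hj
    · intro h
      exact absurd (Finset.mem_univ _) h
  have hE : ∀ i, ‖σ (g i - c i • y i)‖ < ‖c i₀‖ * r ^ k := by
    intro i
    by_cases hi : i.1 = i₀.1
    · have hci : c i = c (i₀.1, i.2) := by rw [← hi]
      have hyi := hy i
      rw [hi, ← hk] at hyi
      have h2 : g i - c i • y i = (-(c i₀ * (c i / c i₀ - n i.2))) • (u ^ k * τ i.2) +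
          (-c i) • (y i - u ^ k * τ i.2) := by
        simp only [g, if_pos hi]
        have h3 : c i₀ * (c i / c i₀ - n i.2) = c i - c i₀ * n i.2 := by
          field_simp
        rw [h3]
        module
      rw [h2, map_add]
      refine (IsUltrametricDist.norm_add_le_max _ _).trans_lt (max_lt ?_ ?_)
      · rw [hsm, norm_neg, norm_mul]
        have h3 := hn i.2
        rw [← hci] at h3
        calc ‖c i₀‖ * ‖c i / c i₀ - n i.2‖ * ‖σ (u ^ k * τ i.2)‖
            ≤ ‖c i₀‖ * ‖c i / c i₀ - n i.2‖ * r ^ k :=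
              mul_le_mul_of_nonneg_left (hut _ _) (by positivity)
          _ < ‖c i₀‖ * r ^ k :=
              mul_lt_mul_of_pos_right (mul_lt_of_lt_one_right hcp h3) hrk
      · rw [hsm, norm_neg]
        calc ‖c i‖ * ‖σ (y i - u ^ k * τ i.2)‖ ≤ ‖c i₀‖ * r ^ (k + 1) :=
              mul_le_mul (hci ▸ hle i.2) hyi (norm_nonneg _) hcp.le
          _ < ‖c i₀‖ * r ^ k := by
              refine mul_lt_mul_of_pos_left ?_ hcp
              rw [pow_succ]
              exact mul_lt_of_lt_one_right hrk h1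
    · have h2 : g i - c i • y i = (-c i) • y i := by
        simp only [g, if_neg hi]
        module
      have h3 : ‖σ (y i)‖ ≤ r ^ (J₀ + i.1.val) := by
        have h4 : y i = (y i - u ^ (J₀ + i.1.val) * τ i.2) + u ^ (J₀ + i.1.val) * τ i.2 := by
          ring
        rw [h4, map_add]
        refine (IsUltrametricDist.norm_add_le_max _ _).trans (max_le ((hy i).trans ?_) (hut _ _))
        exact pow_le_pow_of_le_one h0.le h1.le (Nat.le_succ _)
      rw [h2, hsm, norm_neg]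
      refine (mul_le_mul_of_nonneg_left h3 (norm_nonneg _)).trans_lt
        (lt_of_le_of_ne (hi₀ i (Finset.mem_univ _)) fun hw => hi ?_)
      exact ob1_ne h0 h1 hK.norm_p hc J₀ hw
  have hsum : ‖σ (∑ i, (g i - c i • y i))‖ < ‖c i₀‖ * r ^ k := by
    rw [map_sum]
    obtain ⟨i₁, -, hi₁⟩ := Finset.exists_max_image (Finset.univ : Finset (Fin e × Fin f₀))
      (fun i => ‖σ (g i - c i • y i)‖) ⟨i, Finset.mem_univ _⟩
    exact (IsUltrametricDist.norm_sum_le_of_forall_le_of_nonneg (norm_nonneg _) hi₁).trans_lt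
      (hE i₁)
  by_contra hlt
  have h2 : c i₀ • (u ^ k * ∑ t, (n t : K) * τ t) =
      (∑ i, (g i - c i • y i)) + ∑ i', c i' • y i' := by
    rw [Finset.sum_sub_distrib, hg]
    ring
  have h3 : ‖σ (c i₀ • (u ^ k * ∑ t, (n t : K) * τ t))‖ < ‖c i₀‖ * r ^ k := by
    rw [h2, map_add]
    exact (IsUltrametricDist.norm_add_le_max _ _).trans_lt (max_lt hsum (not_le.1 hlt))
  rw [hsm, map_mul, map_pow, norm_mul, norm_pow] at h3
  exact absurd h3 (not_lt.2 (mul_le_mul_of_nonneg_left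
    (le_mul_of_one_le_right hrk.le hbig) hcp.le))

end Pool.Agent.P.MP_7cb106_nt.GK
end

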