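import Pool.Agent.P.MP_7cb106_nt.GK.IfaceB

section
/-! Step OB. -/

set_option autoImplicit false

namespace Pool.Agent.P.MP_7cb106_nt.GK

open Filter Topology

section

variable {p : ℕ} [Fact p.Prime] {K L : Type} [Field K] [Algebra ℚ_[p] K]
  [NormedField L] [NormedAlgebra ℚ_[p] L] [IsUltrametricDist L] {σ : K →ₐ[ℚ_[p]] L} {ϖ : L}
  {e f₀ a J₀ : ℕ} {u : K} {τ : Fin f₀ → K} {y : Fin e × Fin f₀ → K}

theorem ob_sub_le {x z : L} {c : ℝ} (hx : ‖x‖ ≤ c) (hz : ‖z‖ ≤ c) : ‖x - z‖ ≤ c := by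
  rw [sub_eq_add_neg]
  exact (IsUltrametricDist.norm_add_le_max _ _).trans (max_le hx (by simpa using hz))

omit [IsUltrametricDist L] in
theorem ob_norm_pow (h : KD σ ϖ e f₀ a u τ) (m : ℕ) :
    ‖σ ((p : K) ^ m)‖ = ‖σ u‖ ^ (e * m) := by
  rw [map_pow, norm_pow, map_natCast, norm_p_eq, pow_mul, h.norm_p]

theorem ob_step (h : KD σ ϖ e f₀ a u τ)
    (hy : ∀ i, ‖σ (y i - u ^ (J₀ + i.1.val) * τ i.2)‖ ≤ ‖σ u‖ ^ (J₀ + i.1.val + 1))
    (J : ℕ) (z : K) (hz : ‖σ z‖ ≤ ‖σ u‖ ^ (J₀ + J)) :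
    ∃ s ∈ Submodule.span ℚ_[p] (Set.range y), ‖σ (z - s)‖ ≤ ‖σ u‖ ^ (J₀ + J + 1) := by
  have hr := h.u_pos
  set j : Fin e := ⟨J % e, Nat.mod_lt _ h.he⟩ with hj
  set w : K := (p : K) ^ (J / e) * u ^ (J₀ + j.val) with hw
  have hJ : e * (J / e) + (J₀ + j.val) = J₀ + J := by
    have := Nat.div_add_mod J e
    simp only [hj]
    omega
  have hwn : ‖σ w‖ = ‖σ u‖ ^ (J₀ + J) := by
    rw [hw, map_mul, norm_mul, ob_norm_pow h, map_pow, norm_pow, ← pow_add, hJ]
  have hw0 : w ≠ 0 := by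
    intro h0
    rw [h0, map_zero, norm_zero] at hwn
    exact absurd hwn (pow_pos hr _).ne
  have hz' : ‖σ (z / w)‖ ≤ 1 := by
    rw [map_div₀, norm_div, hwn]
    exact (div_le_one (pow_pos hr _)).2 hz
  obtain ⟨c, hc⟩ := h.span _ hz'
  have hc' := h.max _ hc
  refine ⟨∑ t, ((c t * p ^ (J / e) : ℕ) : ℚ_[p]) • y (j, t), Submodule.sum_mem _ fun t _ =>
    Submodule.smul_mem _ _ (Submodule.subset_span ⟨_, rfl⟩), ?_⟩
  have e1 : z - ∑ t, ((c t * p ^ (J / e) : ℕ) : ℚ_[p]) • y (j, t) =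
      w * (z / w - ∑ t, (c t : K) * τ t) -
        ∑ t, (c t : K) * ((p : K) ^ (J / e) * (y (j, t) - u ^ (J₀ + j.val) * τ t)) := by
    rw [mul_sub, mul_div_cancel₀ _ hw0, sub_sub, Finset.mul_sum, ← Finset.sum_add_distrib]
    congr 1
    refine Finset.sum_congr rfl fun t _ => ?_
    rw [Nat.cast_smul_eq_nsmul, nsmul_eq_mul, hw]
    push_cast
    ring
  rw [e1, map_sub]
  refine ob_sub_le ?_ ?_
  · rw [map_mul, norm_mul, hwn, pow_succ]
    exact mul_le_mul_of_nonneg_left hc' (pow_pos hr _).le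
  · rw [map_sum]
    refine IsUltrametricDist.norm_sum_le_of_forall_le_of_nonneg (pow_pos hr _).le fun t _ => ?_
    rw [map_mul, map_mul, norm_mul, norm_mul, ob_norm_pow h, map_natCast, ← hJ, add_assoc,
      pow_add ‖σ u‖ (e * (J / e))]
    refine (mul_le_of_le_one_left (by positivity)
      (IsUltrametricDist.norm_natCast_le_one L _)).trans ?_
    exact mul_le_mul_of_nonneg_left (hy (j, t)) (pow_pos hr _).le

theorem ob_iter (h : KD σ ϖ e f₀ a u τ)
    (hy : ∀ i, ‖σ (y i - u ^ (J₀ + i.1.val) * τ i.2)‖ ≤ ‖σ u‖ ^ (J₀ + i.1.val + 1))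
    (z : K) (hz : ‖σ z‖ ≤ ‖σ u‖ ^ J₀) (N : ℕ) :
    ∃ s ∈ Submodule.span ℚ_[p] (Set.range y), ‖σ (z - s)‖ ≤ ‖σ u‖ ^ (J₀ + N) := by
  induction N with
  | zero => exact ⟨0, Submodule.zero_mem _, by simpa using hz⟩
  | succ N ih =>
    obtain ⟨s, hs, h1⟩ := ih
    obtain ⟨s', hs', h2⟩ := ob_step h hy N _ h1
    exact ⟨s + s', Submodule.add_mem _ hs hs', by rwa [← sub_sub, ← add_assoc]⟩

theorem ob_mem (h : KD σ ϖ e f₀ a u τ)
    (hy : ∀ i, ‖σ (y i - u ^ (J₀ + i.1.val) * τ i.2)‖ ≤ ‖σ u‖ ^ (J₀ + i.1.val + 1))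
    (z : K) (hz : ‖σ z‖ ≤ ‖σ u‖ ^ J₀) : z ∈ Submodule.span ℚ_[p] (Set.range y) := by
  have : FiniteDimensional ℚ_[p] (Submodule.span ℚ_[p] (Set.range y)) :=
    FiniteDimensional.span_of_finite _ (Set.finite_range y)
  have hcl : IsClosed (((Submodule.span ℚ_[p] (Set.range y)).map σ.toLinearMap :
      Submodule ℚ_[p] L) : Set L) := Submodule.closed_of_finiteDimensional _
  have hm : σ z ∈ closure (((Submodule.span ℚ_[p] (Set.range y)).map σ.toLinearMap :
      Submodule ℚ_[p] L) : Set L) := by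
    refine Metric.mem_closure_iff.2 fun ε hε => ?_
    obtain ⟨N, hN⟩ := exists_pow_lt_of_lt_one hε h.u_lt
    obtain ⟨s, hs, h1⟩ := ob_iter h hy z hz N
    refine ⟨σ s, ⟨s, hs, rfl⟩, ?_⟩
    rw [dist_eq_norm, ← map_sub]
    exact (h1.trans (pow_le_pow_of_le_one h.u_pos.le h.u_lt.le (by omega))).trans_lt hN
  rw [hcl.closure_eq] at hm
  obtain ⟨s, hs, h1⟩ := hm
  have h2 : s = z := σ.toRingHom.injective h1
  exact h2 ▸ hs

theorem ob_span (h : KD σ ϖ e f₀ a u τ)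
    (hy : ∀ i, ‖σ (y i - u ^ (J₀ + i.1.val) * τ i.2)‖ ≤ ‖σ u‖ ^ (J₀ + i.1.val + 1)) :
    ⊤ ≤ Submodule.span ℚ_[p] (Set.range y) := by
  intro z _
  have hr := h.u_pos
  have h0 : 0 < ‖σ u‖ ^ J₀ / (‖σ z‖ + 1) := by positivity
  obtain ⟨m, hm⟩ := exists_pow_lt_of_lt_one h0 h.u_lt
  have h1 : ‖σ ((p : K) ^ m * z)‖ ≤ ‖σ u‖ ^ J₀ := by
    rw [map_mul, norm_mul, ob_norm_pow h]
    have h2 : ‖σ u‖ ^ (e * m) ≤ ‖σ u‖ ^ m :=
      pow_le_pow_of_le_one hr.le h.u_lt.le (Nat.le_mul_of_pos_left _ h.he)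
    have h3 := (lt_div_iff₀ (by positivity)).1 hm
    have h4 : 0 < ‖σ u‖ ^ m := pow_pos hr _
    nlinarith [norm_nonneg (σ z)]
  have h5 := ob_mem h hy _ h1
  have hp : ((p ^ m : ℕ) : ℚ_[p]) ≠ 0 := by
    exact_mod_cast (pow_pos (Fact.out : p.Prime).pos m).ne'
  rw [← Submodule.smul_mem_iff _ hp, Nat.cast_smul_eq_nsmul, nsmul_eq_mul]
  push_cast
  exact h5

end

theorem p_OB (hOB1 : S_OB1) :
    S_OB := by
  intro p _ K L _ _ _ _ _ σ ϖ e f₀ a J₀ u τ y h hy
  have ho := hOB1 p K L σ ϖ e f₀ a J₀ u τ y h hy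
  have hr := h.u_pos
  have hli : LinearIndependent ℚ_[p] y := by
    refine Fintype.linearIndependent_iff.2 fun c hc i => ?_
    have h1 := ho c i
    rw [hc, map_zero, norm_zero] at h1
    exact norm_le_zero_iff.1 (nonpos_of_mul_nonpos_left h1 (pow_pos hr _))
  refine ⟨Module.Basis.mk hli (ob_span h hy), fun i => Module.Basis.mk_apply _ _ i,
    fun i => ?_, fun z i => ?_⟩
  · rw [Module.Basis.mk_apply]
    have e1 : y i = (y i - u ^ (J₀ + i.1.val) * τ i.2) - (-(u ^ (J₀ + i.1.val) * τ i.2)) := by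
      ring
    rw [e1, map_sub]
    refine ob_sub_le ((hy i).trans (pow_le_pow_of_le_one hr.le h.u_lt.le (by omega))) ?_
    rw [map_neg, norm_neg, map_mul, norm_mul, map_pow, norm_pow]
    exact mul_le_of_le_one_right (pow_pos hr _).le (h.tau_le _)
  · have h1 := ho (fun i => (Module.Basis.mk hli (ob_span h hy)).repr z i) i
    have h2 := (Module.Basis.mk hli (ob_span h hy)).sum_repr z
    simp only [Module.Basis.mk_apply] at h2
    rwa [h2] at h1

end Pool.Agent.P.MP_7cb106_nt.GK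
end

section
/-! Step DUAL. -/

set_option autoImplicit false

namespace Pool.Agent.P.MP_7cb106_nt.GK

open Filter Topology

theorem dual_repr {F K ι : Type} [Field F] [Field K] [Algebra F K] [FiniteDimensional F K]
    [Algebra.IsSeparable F K] [Finite ι] [DecidableEq ι] (b : Module.Basis ι F K) (z : K) (i : ι) :
    Algebra.trace F K (b.traceDual i * z) = b.repr z i := by
  have h := b.traceDual.traceDual_repr_apply z i
  rw [Module.Basis.traceDual_traceDual, Algebra.traceForm_apply] at h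
  rw [h, mul_comm]

theorem p_DUAL :
    S_DUAL := by
  intro p _ K L _ _ _ _ _ _ σ e f₀ J₀ u bs he hf hu hle hrepr
  have hσ : ∀ z : K, z ≠ 0 → 0 < ‖σ z‖ := fun z hz =>
    norm_pos_iff.mpr (fun h => hz (σ.toRingHom.injective (by simpa using h)))
  have hr : 0 < ‖σ u‖ := hσ u hu
  let γ : Bool × (Fin e × Fin f₀) → K := fun x => (bs x.1).traceDual x.2 * u ^ (J₀ + x.2.1.val)
  have : Nonempty (Bool × (Fin e × Fin f₀)) := ⟨(true, ⟨0, he⟩, ⟨0, hf⟩)⟩
  obtain ⟨x₀, -, hx₀⟩ := Finset.exists_max_image (Finset.univ : Finset (Bool × (Fin e × Fin f₀)))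
    (fun x => ‖σ (γ x)‖) Finset.univ_nonempty
  have hβ : γ x₀ ≠ 0 := mul_ne_zero ((bs x₀.1).traceDual.ne_zero _) (pow_ne_zero _ hu)
  have htr : ∀ z : K, ‖σ z‖ < 1 → ‖Algebra.trace ℚ_[p] K (γ x₀ * z)‖ < 1 := by
    intro z hz
    have h1 : γ x₀ * z = (bs x₀.1).traceDual x₀.2 * (u ^ (J₀ + x₀.2.1.val) * z) := by
      simp only [γ]; ring
    rw [h1, dual_repr]
    have h2 := hrepr x₀.1 (u ^ (J₀ + x₀.2.1.val) * z) x₀.2
    rw [map_mul σ, norm_mul (σ _), map_pow σ, norm_pow] at h2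
    have h3 : 0 < ‖σ u‖ ^ (J₀ + x₀.2.1.val) := pow_pos hr _
    by_contra hc
    push Not at hc
    nlinarith
  refine ⟨γ x₀ / u ^ J₀, fun s j t => γ (s, j, t) / γ x₀, div_ne_zero hβ (pow_ne_zero _ hu),
    ?_, ?_, ?_⟩
  · intro s j t
    rw [map_div₀, norm_div, div_le_one (hσ _ hβ)]
    exact hx₀ _ (Finset.mem_univ _)
  · intro s j t
    have h1 : γ (s, j, t) = (bs s).traceDual (j, t) * u ^ (J₀ + j.val) := rfl
    beta_reduce
    rw [h1, pow_add]
    field_simp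
  · intro s j c hc t
    have hupos : 0 < ‖σ u‖ ^ (J₀ + j.val) := pow_pos hr _
    have hz : ‖σ ((∑ t', (c t' : K) * (γ (s, j, t') / γ x₀)) *
        (bs s (j, t) / u ^ (J₀ + j.val)))‖ < 1 := by
      rw [map_mul, norm_mul]
      have h1 : ‖σ (bs s (j, t) / u ^ (J₀ + j.val))‖ ≤ 1 := by
        rw [map_div₀, norm_div, map_pow, norm_pow, div_le_one hupos]
        exact hle s (j, t)
      exact mul_lt_one_of_nonneg_of_lt_one_left (norm_nonneg _) hc h1
    have h2 := htr _ hz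
    have h3 : γ x₀ * ((∑ t', (c t' : K) * (γ (s, j, t') / γ x₀)) *
        (bs s (j, t) / u ^ (J₀ + j.val))) =
        ∑ t', (c t' : ℚ_[p]) • ((bs s).traceDual (j, t') * bs s (j, t)) := by
      rw [Finset.sum_mul, Finset.mul_sum]
      refine Finset.sum_congr rfl fun t' _ => ?_
      have h1 : γ (s, j, t') = (bs s).traceDual (j, t') * u ^ (J₀ + j.val) := rfl
      rw [h1, Nat.cast_smul_eq_nsmul, nsmul_eq_mul]
      have := pow_ne_zero (J₀ + j.val) hu
      field_simp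
    rw [h3, map_sum] at h2
    have h4 : ∑ t', Algebra.trace ℚ_[p] K ((c t' : ℚ_[p]) • ((bs s).traceDual (j, t') * bs s (j, t)))
        = (c t : ℚ_[p]) := by
      rw [Finset.sum_eq_single t]
      · rw [map_smul, Module.Basis.trace_traceDual_mul]; simp
      · intro t' _ ht'
        rw [map_smul, Module.Basis.trace_traceDual_mul, if_neg, smul_zero]
        intro h
        exact ht' (congrArg Prod.snd h).symm
      · intro h; exact absurd (Finset.mem_univ t) h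
    rw [h4] at h2
    exact Padic.norm_natCast_lt_one_iff.mp h2

end Pool.Agent.P.MP_7cb106_nt.GK
end

section
/-! Step BC. -/

set_option autoImplicit false

namespace Pool.Agent.P.MP_7cb106_nt.GK

open Filter Topology

theorem p_BC :
    S_BC := by
  intro p _ K L B ι ι' _ _ _ _ _ _ _ _ _ _ _ σ ω bs δ hδ
  have h1 : ∀ k, ω k = ∑ i, Algebra.trace ℚ_[p] K (ω k * bs.traceDual i) • bs i := by
    intro k
    conv_lhs => rw [← bs.sum_repr (ω k)]
    refine Finset.sum_congr rfl fun i _ => ?_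
    have h := bs.traceDual.traceDual_repr_apply (ω k) i
    rw [Module.Basis.traceDual_traceDual] at h
    rw [h, Algebra.traceForm_apply]
  have h2 : ∀ i, bs.traceDual i =
      ∑ k, Algebra.trace ℚ_[p] K (ω k * bs.traceDual i) • ω.traceDual k := by
    intro i
    conv_lhs => rw [← ω.traceDual.sum_repr (bs.traceDual i)]
    refine Finset.sum_congr rfl fun k _ => ?_
    rw [ω.traceDual_repr_apply, Algebra.traceForm_apply, mul_comm]
  have h3 : ∀ k, δ (ω k) = ∑ i, algebraMap ℚ_[p] L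
      (Algebra.trace ℚ_[p] K (ω k * bs.traceDual i)) • δ (bs i) := by
    intro k
    conv_lhs => rw [h1 k]
    rw [map_sum]
    exact Finset.sum_congr rfl fun i _ => hδ _ _
  have h4 : ∀ i, σ (bs.traceDual i) = ∑ k, σ (ω.traceDual k) * algebraMap ℚ_[p] L
      (Algebra.trace ℚ_[p] K (ω k * bs.traceDual i)) := by
    intro i
    conv_lhs => rw [h2 i]
    rw [map_sum]
    refine Finset.sum_congr rfl fun k _ => ?_
    rw [map_smul, Algebra.smul_def, mul_comm]
  simp_rw [h3, h4, Finset.smul_sum, Finset.sum_smul, smul_smul]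
  exact Finset.sum_comm

end Pool.Agent.P.MP_7cb106_nt.GK
end

section
/-! Step DEL2. -/

set_option autoImplicit false

namespace Pool.Agent.P.MP_7cb106_nt.GK

open Filter Topology

section
variable {p : ℕ} [Fact p.Prime] {Λ L B : Type} [AddCommGroup Λ] [Module ℚ_[p] Λ]
  [NormedField L] [NormedAlgebra ℚ_[p] L] [NormedAddCommGroup B] [NormedSpace L B]

/-- the hypotheses -/
structure del2_H (p : ℕ) [Fact p.Prime] {Λ B : Type} [AddCommGroup Λ] [Module ℚ_[p] Λ]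
    [NormedAddCommGroup B] (ν : Λ → ℝ) (Φ : Λ → B) (A c₀ : ℝ) : Prop where
  pos : 0 < c₀
  nn : ∀ X, 0 ≤ ν X
  add : ∀ X Y, ν (X + Y) ≤ max (ν X) (ν Y)
  smul : ∀ (c : ℚ_[p]) (X : Λ), ν (c • X) = ‖c‖ * ν X
  est : ∀ c, 0 < c → c ≤ c₀ → ∀ X Y, ν X ≤ c → ν Y ≤ c →
    ‖Φ X‖ ≤ A * c ∧ ‖Φ (X + Y) - Φ X - Φ Y‖ ≤ A * c ^ 2

/-- the difference quotients -/
noncomputable def del2_s (p : ℕ) [Fact p.Prime] (L : Type) {Λ B : Type} [AddCommGroup Λ]
    [Module ℚ_[p] Λ] [NormedField L] [NormedAddCommGroup B] [NormedSpace L B] (Φ : Λ → B) (m : ℕ)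
    (X : Λ) : B :=
  ((p : L) ^ m)⁻¹ • Φ (((p : ℚ_[p]) ^ m) • X)

theorem del2_qpos (p : ℕ) [Fact p.Prime] : (0 : ℝ) < (p : ℝ)⁻¹ :=
  inv_pos.2 (by exact_mod_cast (Fact.out : p.Prime).pos)

theorem del2_qlt (p : ℕ) [Fact p.Prime] : (p : ℝ)⁻¹ < 1 :=
  inv_lt_one_of_one_lt₀ (by exact_mod_cast (Fact.out : p.Prime).one_lt)

variable {ν : Λ → ℝ} {Φ : Λ → B} {A c₀ : ℝ}

theorem del2_zero (h : del2_H p ν Φ A c₀) : ν 0 = 0 := by
  have h1 := h.smul 0 0
  simpa using h1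

theorem del2_A (h : del2_H p ν Φ A c₀) : 0 ≤ A := by
  have h0 : ν 0 ≤ c₀ := by rw [del2_zero h]; exact h.pos.le
  have h1 := (norm_nonneg _).trans (h.est c₀ h.pos le_rfl 0 0 h0 h0).1
  exact nonneg_of_mul_nonneg_left h1 h.pos

theorem del2_nu (h : del2_H p ν Φ A c₀) (m : ℕ) {X : Λ} {c : ℝ} (hX : ν X ≤ c) :
    ν (((p : ℚ_[p]) ^ m) • X) ≤ c * (p : ℝ)⁻¹ ^ m := by
  rw [h.smul, norm_pow, Padic.norm_p, mul_comm]
  exact mul_le_mul_of_nonneg_right hX (pow_pos (del2_qpos p) m).le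

theorem del2_ev (h : del2_H p ν Φ A c₀) (c : ℝ) :
    ∀ᶠ m : ℕ in atTop, c * (p : ℝ)⁻¹ ^ m ≤ c₀ := by
  have h1 := (tendsto_pow_atTop_nhds_zero_of_lt_one (del2_qpos p).le (del2_qlt p)).const_mul c
  rw [mul_zero] at h1
  exact h1.eventually (ge_mem_nhds h.pos)

theorem del2_norm (p : ℕ) [Fact p.Prime] (L : Type) [NormedField L] [NormedAlgebra ℚ_[p] L]
    [NormedSpace L B] (m : ℕ) (v : B) {a : ℝ} (hv : ‖v‖ ≤ a * (p : ℝ)⁻¹ ^ m) :
    ‖((p : L) ^ m)⁻¹ • v‖ ≤ a := by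
  rw [norm_smul, norm_inv, norm_pow, norm_p_eq, inv_mul_le_iff₀ (pow_pos (del2_qpos p) m),
    mul_comm]
  exact hv

theorem del2_nat [IsUltrametricDist B] (h : del2_H p ν Φ A c₀) {c : ℝ} (hc : 0 < c)
    (hc' : c ≤ c₀) {X : Λ} (hX : ν X ≤ c) (k : ℕ) :
    ν (k • X) ≤ c ∧ ‖Φ (k • X) - k • Φ X‖ ≤ A * c ^ 2 := by
  induction k with
  | zero =>
    have h0 : ν 0 ≤ c := by rw [del2_zero h]; exact hc.le
    have h1 := (h.est c hc hc' 0 0 h0 h0).2
    simp only [zero_smul, sub_zero]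
    exact ⟨h0, by simpa using h1⟩
  | succ k ih =>
    rw [succ_nsmul, succ_nsmul]
    refine ⟨(h.add _ _).trans (max_le ih.1 hX), ?_⟩
    have e : Φ (k • X + X) - (k • Φ X + Φ X) =
        (Φ (k • X + X) - Φ (k • X) - Φ X) + (Φ (k • X) - k • Φ X) := by abel
    rw [e]
    exact (IsUltrametricDist.norm_add_le_max _ _).trans
      (max_le (h.est c hc hc' _ _ ih.1 hX).2 ih.2)

theorem del2_le (h : del2_H p ν Φ A c₀) {c : ℝ} (hc : 0 < c) {m : ℕ}
    (hm : c * (p : ℝ)⁻¹ ^ m ≤ c₀) {X : Λ} (hX : ν X ≤ c) : ‖del2_s p L Φ m X‖ ≤ A * c := by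
  refine del2_norm p L m _ ?_
  rw [mul_assoc]
  exact (h.est _ (mul_pos hc (pow_pos (del2_qpos p) m)) hm _ _ (del2_nu h m hX)
    (del2_nu h m hX)).1

theorem del2_err (h : del2_H p ν Φ A c₀) {c : ℝ} (hc : 0 < c) {m : ℕ}
    (hm : c * (p : ℝ)⁻¹ ^ m ≤ c₀) {X Y : Λ} (hX : ν X ≤ c) (hY : ν Y ≤ c) :
    ‖del2_s p L Φ m (X + Y) - del2_s p L Φ m X - del2_s p L Φ m Y‖ ≤
      A * c ^ 2 * (p : ℝ)⁻¹ ^ m := by
  unfold del2_s
  rw [← smul_sub, ← smul_sub, smul_add]
  refine del2_norm p L m _ ?_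
  refine (h.est _ (mul_pos hc (pow_pos (del2_qpos p) m)) hm _ _ (del2_nu h m hX)
    (del2_nu h m hY)).2.trans (le_of_eq ?_)
  ring

theorem del2_err0 (h : del2_H p ν Φ A c₀) {c : ℝ} (hc : 0 < c) {X Y : ℕ → Λ}
    (hX : ∀ᶠ m in atTop, ν (X m) ≤ c) (hY : ∀ᶠ m in atTop, ν (Y m) ≤ c) :
    Tendsto (fun m => del2_s p L Φ m (X m + Y m) - del2_s p L Φ m (X m) - del2_s p L Φ m (Y m))
      atTop (𝓝 0) := by
  have h1 := (tendsto_pow_atTop_nhds_zero_of_lt_one (del2_qpos p).le (del2_qlt p)).const_mul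
    (A * c ^ 2)
  rw [mul_zero] at h1
  refine squeeze_zero_norm' ?_ h1
  filter_upwards [del2_ev h c, hX, hY] with m hm h2 h3 using del2_err h hc hm h2 h3

theorem del2_step [IsUltrametricDist B] (h : del2_H p ν Φ A c₀) {c : ℝ} (hc : 0 < c) {m : ℕ}
    (hm : c * (p : ℝ)⁻¹ ^ m ≤ c₀) {X : Λ} (hX : ν X ≤ c) :
    ‖del2_s p L Φ (m + 1) X - del2_s p L Φ m X‖ ≤ A * c ^ 2 * p * (p : ℝ)⁻¹ ^ m := by
  have hp : (p : L) ≠ 0 := by
    rw [← norm_pos_iff, norm_p_eq p L]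
    exact del2_qpos p
  have hp' : (p : ℝ) ≠ 0 := by exact_mod_cast (Fact.out : p.Prime).ne_zero
  have e : del2_s p L Φ (m + 1) X - del2_s p L Φ m X = ((p : L) ^ (m + 1))⁻¹ •
      (Φ (p • (((p : ℚ_[p]) ^ m) • X)) - p • Φ (((p : ℚ_[p]) ^ m) • X)) := by
    unfold del2_s
    rw [smul_sub, ← Nat.cast_smul_eq_nsmul ℚ_[p], ← Nat.cast_smul_eq_nsmul L, smul_smul, smul_smul,
      ← pow_succ']
    congr 2
    rw [pow_succ]
    field_simp
  rw [e]
  refine del2_norm p L (m + 1) _ ?_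
  refine (del2_nat h (mul_pos hc (pow_pos (del2_qpos p) m)) hm (del2_nu h m hX) p).2.trans
    (le_of_eq ?_)
  rw [pow_succ (p : ℝ)⁻¹ m]
  field_simp

theorem del2_lim [IsUltrametricDist B] [CompleteSpace B] (h : del2_H p ν Φ A c₀) (X : Λ) :
    ∃ d, Tendsto (fun m => del2_s p L Φ m X) atTop (𝓝 d) := by
  have hc : 0 < ν X + 1 := by linarith [h.nn X]
  obtain ⟨m₀, hm₀⟩ := eventually_atTop.1 (del2_ev h (ν X + 1))
  refine cauchySeq_tendsto_of_complete ((cauchySeq_shift m₀).1 ?_)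
  refine cauchySeq_of_le_geometric (p : ℝ)⁻¹ (A * (ν X + 1) ^ 2 * p * (p : ℝ)⁻¹ ^ m₀)
    (del2_qlt p) fun m => ?_
  rw [dist_comm, dist_eq_norm]
  have e : m + 1 + m₀ = m + m₀ + 1 := by ring
  rw [e]
  refine (del2_step h hc (hm₀ _ (by omega)) (by linarith)).trans (le_of_eq ?_)
  ring

end

theorem p_DEL2 :
    S_DEL2 := by
  intro p _ Λ L B _ _ _ _ _ _ _ _ ν Φ A c₀ h1 h2 h3 h4 h5
  have h : del2_H p ν Φ A c₀ := ⟨h1, h2, h3, h4, h5⟩
  choose d hd using del2_lim (L := L) h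
  have hadd : ∀ X Y, d (X + Y) = d X + d Y := by
    intro X Y
    have hc : 0 < ν X + ν Y + 1 := by linarith [h2 X, h2 Y]
    have t1 := del2_err0 (L := L) h hc (X := fun _ => X) (Y := fun _ => Y)
      (Eventually.of_forall fun _ => by linarith [h2 Y])
      (Eventually.of_forall fun _ => by linarith [h2 X])
    have t2 := tendsto_nhds_unique (((hd (X + Y)).sub (hd X)).sub (hd Y)) t1
    rw [sub_sub, sub_eq_zero] at t2
    exact t2
  have hle : ∀ (X : Λ) (c : ℝ), 0 < c → ν X ≤ c → ‖d X‖ ≤ A * c := by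
    intro X c hc hX
    refine le_of_tendsto (hd X).norm ?_
    filter_upwards [del2_ev h c] with m hm using del2_le h hc hm hX
  refine ⟨AddMonoidHom.mk' d hadd, fun c X => ?_, fun X Xs hXs => ?_⟩
  · have hc1 : Continuous fun c : ℚ_[p] => AddMonoidHom.mk' d hadd (c • X) := by
      refine AddMonoidHomClass.continuous_of_bound
        ((AddMonoidHom.mk' d hadd).comp (LinearMap.toSpanSingleton ℚ_[p] Λ X).toAddMonoidHom)
        (A * (ν X + 1)) fun c => ?_
      by_cases hc : c = 0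
      · subst hc
        rw [map_zero]
        simp
      · have hc0 : 0 < ‖c‖ := norm_pos_iff.2 hc
        have hX : 0 < ν X + 1 := by linarith [h2 X]
        refine (hle (c • X) (‖c‖ * (ν X + 1)) (mul_pos hc0 hX) ?_).trans (le_of_eq (by ring))
        rw [h4]
        exact mul_le_mul_of_nonneg_left (by linarith) hc0.le
    have hc2 : Continuous fun c : ℚ_[p] => algebraMap ℚ_[p] L c • AddMonoidHom.mk' d hadd X :=
      (continuous_algebraMap ℚ_[p] L).smul continuous_const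
    refine (Padic.denseRange_ratCast p).induction_on c (isClosed_eq hc1 hc2) fun r => ?_
    rw [map_ratCast]
    exact map_ratCast_smul (AddMonoidHom.mk' d hadd) ℚ_[p] L r X
  · have hc : 0 < ν X + 1 := by linarith [h2 X]
    have t1 := del2_err0 (L := L) h hc (X := fun _ => X) (Y := fun m => Xs m - X)
      (Eventually.of_forall fun _ => by linarith) (hXs.eventually (ge_mem_nhds hc))
    have t2 : Tendsto (fun m => del2_s p L Φ m (Xs m - X)) atTop (𝓝 0) := by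
      rw [NormedAddGroup.tendsto_nhds_zero]
      intro ε hε
      have hA := del2_A h
      have hε' : 0 < ε / (A + 1) := by positivity
      filter_upwards [del2_ev h (ε / (A + 1)), hXs.eventually (ge_mem_nhds hε')] with m hm hm'
      refine (del2_le h hε' hm hm').trans_lt ?_
      rw [← mul_div_assoc, div_lt_iff₀ (by linarith)]
      nlinarith
    have t3 := (t1.add (hd X)).add t2
    simp only [add_sub_cancel, zero_add, add_zero] at t3
    refine t3.congr fun m => ?_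
    unfold del2_s
    abel

end Pool.Agent.P.MP_7cb106_nt.GK
end

section
/-! Step DEL. -/

set_option autoImplicit false

namespace Pool.Agent.P.MP_7cb106_nt.GK

open Filter Topology

theorem del_le {p : ℕ} [Fact p.Prime] {K L : Type} [Field K] [Algebra ℚ_[p] K] [NormedField L]
    [NormedAlgebra ℚ_[p] L] {n : ℕ} (σ : K →ₐ[ℚ_[p]] L) {c : ℝ} (hc : 0 ≤ c) (X : Mat n K) :
    ‖(fun i j => σ (X i j) : Fin n → Fin n → L)‖ ≤ c ↔ Sm σ c X := by
  rw [pi_norm_le_iff_of_nonneg hc]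
  refine forall_congr' fun i => ?_
  rw [pi_norm_le_iff_of_nonneg hc]

theorem del_smul {p : ℕ} [Fact p.Prime] {K : Type} [Field K] [Algebra ℚ_[p] K] {n : ℕ} (m : ℕ)
    (X : Mat n K) : ((p : ℚ_[p]) ^ m) • X = ((p : K) ^ m) • X := by
  ext i j
  simp only [Matrix.smul_apply, smul_eq_mul, Algebra.smul_def, map_pow, map_natCast]

theorem p_DEL (hGM : S_GM) (hDEL2 : S_DEL2) :
    S_DEL := by
  intro p _ K L B _ _ _ _ _ _ _ _ _ σ n U ρ v hiso hLip
  obtain ⟨A, c₀, hc0, hc1, hU, hA⟩ := hLip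
  have hel : ∀ c, 0 < c → c ≤ c₀ → ∀ X : Mat n K, Sm σ c X → (el U (1 + X)).val.val = 1 + X := by
    intro c hc hcc X hX
    obtain ⟨h, hh⟩ := (hGM p K L σ n c hc.le (lt_of_le_of_lt hcc hc1)).1 X hX
    refine el_val U ⟨⟨h, hU h ?_⟩, hh⟩
    rw [hh, add_sub_cancel_left]
    exact hX.mono hcc
  obtain ⟨δ, hδ1, hδ2⟩ := hDEL2 p (Mat n K) L B
    (fun X => ‖(fun i j => σ (X i j) : Fin n → Fin n → L)‖)
    (fun X => ρ (el U (1 + X)) v - v) A c₀ hc0 (fun X => norm_nonneg _)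
    (fun X Y => by
      have h0 : 0 ≤ max ‖(fun i j => σ (X i j) : Fin n → Fin n → L)‖
          ‖(fun i j => σ (Y i j) : Fin n → Fin n → L)‖ := le_max_of_le_left (norm_nonneg _)
      rw [del_le σ h0]
      exact ((del_le σ h0 X).1 (le_max_left _ _)).add ((del_le σ h0 Y).1 (le_max_right _ _)))
    (fun c X => by
      have : (fun i j => σ ((c • X) i j) : Fin n → Fin n → L) =
          c • (fun i j => σ (X i j) : Fin n → Fin n → L) := by
        funext i j
        simp only [Matrix.smul_apply, map_smul, Pi.smul_apply]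
      simp only [this, norm_smul])
    (fun c hc hcc X Y hX hY => by
      have hX' := (del_le σ hc.le X).1 hX
      have hY' := (del_le σ hc.le Y).1 hY
      have ha := hel c hc hcc X hX'
      have hb := hel c hc hcc Y hY'
      have hs := hel c hc hcc (X + Y) (hX'.add hY')
      set a := el U (1 + X) with ha0
      set b := el U (1 + Y) with hb0
      set s := el U (1 + (X + Y)) with hs0
      have ha1 : Sm σ c (a.val.val - 1) := by rw [ha, add_sub_cancel_left]; exact hX'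
      have hb1 : Sm σ c (b.val.val - 1) := by rw [hb, add_sub_cancel_left]; exact hY'
      have hs1 : Sm σ c (s.val.val - 1) := by rw [hs, add_sub_cancel_left]; exact hX'.add hY'
      have hlt : c < 1 := lt_of_le_of_lt hcc hc1
      have hsi := (hGM p K L σ n c hc.le hlt).2 s.val hs1
      have hsi1 : Sm σ 1 (s.val⁻¹).val := by
        have := (hsi.mono hlt.le).add (sm_one σ)
        rwa [sub_add_cancel] at this
      have hz : (s⁻¹ * (a * b)).val.val - 1 = (s.val⁻¹).val * (X * Y) := by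
        have h1 : (s.val⁻¹).val * s.val.val = 1 := Units.inv_mul _
        have h2 : (s⁻¹ * (a * b)).val.val = (s.val⁻¹).val * (a.val.val * b.val.val) := by
          simp only [Subgroup.coe_mul, Subgroup.coe_inv, Units.val_mul]
        rw [h2, ← h1, ha, hb, hs, ← mul_sub]
        congr 1
        noncomm_ring
      have hz1 : Sm σ (c ^ 2) ((s⁻¹ * (a * b)).val.val - 1) := by
        rw [hz]
        have := hsi1.mul (hX'.mul hY' hc.le hc.le) zero_le_one (mul_nonneg hc.le hc.le)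
        rwa [one_mul, ← pow_two] at this
      have hc2 : c ^ 2 ≤ c₀ := by nlinarith
      have h1 := (hA (c ^ 2) (by positivity) hc2 _ _ hz1 hz1).1
      have h2 := hA c hc hcc a b ha1 hb1
      refine ⟨h2.1, ?_⟩
      have h3 : ρ s (ρ (s⁻¹ * (a * b)) v) = ρ a (ρ b v) := by
        rw [← Module.End.mul_apply, ← map_mul, mul_inv_cancel_left, map_mul, Module.End.mul_apply]
      have h4 : ρ s v - v - (ρ a v - v) - (ρ b v - v) =
          -ρ s (ρ (s⁻¹ * (a * b)) v - v) + (ρ a (ρ b v - v) - (ρ b v - v)) := by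
        rw [map_sub, map_sub, h3]
        abel
      show ‖ρ s v - v - (ρ a v - v) - (ρ b v - v)‖ ≤ A * c ^ 2
      rw [h4]
      refine (IsUltrametricDist.norm_add_le_max _ _).trans (max_le ?_ h2.2)
      rw [norm_neg, hiso]
      exact h1)
  refine ⟨δ, hδ1, fun X => ?_, fun h X hX => ?_⟩
  · have := hδ2 X (fun _ => X) (by
      rw [← tendsto_zero_iff_norm_tendsto_zero]
      refine tendsto_pi_nhds.2 fun i => tendsto_pi_nhds.2 fun j => ?_
      simp)
    simp only [del_smul] at this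
    exact this.limUnder_eq
  · have hp : (p : K) ≠ 0 := by
      rw [← map_natCast (algebraMap ℚ_[p] K)]
      exact (map_ne_zero _).2 (Nat.cast_ne_zero.2 (Fact.out : p.Prime).ne_zero)
    have := hδ2 X (fun m => ((p : K) ^ m)⁻¹ • ((h ^ p ^ m).val.val - 1)) (by
      rw [← tendsto_zero_iff_norm_tendsto_zero]
      refine tendsto_pi_nhds.2 fun i => tendsto_pi_nhds.2 fun j => ?_
      exact tendsto_zero_iff_norm_tendsto_zero.2 (hX i j))
    simp only [del_smul, smul_inv_smul₀ (pow_ne_zero _ hp), add_sub_cancel, el_self] at this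
    exact this

end Pool.Agent.P.MP_7cb106_nt.GK
end

section
/-! Step LIP. -/

set_option autoImplicit false

namespace Pool.Agent.P.MP_7cb106_nt.GK

open Filter Topology

theorem lip_pow {p e N' c' J l : ℕ} {r θ : ℝ} (hr : 0 < r) (hr1 : r < 1) (he : 0 < e)
    (hre : r ^ e = (p : ℝ)⁻¹) (hθ : 0 < θ) (hθ1 : θ < 1) (hN : θ ^ N' = (p : ℝ)⁻¹)
    (h : N' * (J / e) ≤ l + c') : θ ^ l * (θ ^ c' * r ^ e) ≤ r ^ (J + 1) := by
  have h1 : θ ^ (l + c') ≤ θ ^ (N' * (J / e)) := pow_le_pow_of_le_one hθ.le hθ1.le h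
  have h2 : θ ^ (N' * (J / e)) = r ^ (e * (J / e)) := by rw [pow_mul, pow_mul, hN, hre]
  have h3 : J + 1 ≤ e * (J / e) + e := by
    have h4 := Nat.div_add_mod J e
    have h5 := Nat.mod_lt J he
    omega
  have h4 : r ^ (e * (J / e) + e) ≤ r ^ (J + 1) := pow_le_pow_of_le_one hr.le hr1.le h3
  calc θ ^ l * (θ ^ c' * r ^ e) = θ ^ (l + c') * r ^ e := by rw [pow_add, mul_assoc]
    _ ≤ r ^ (e * (J / e)) * r ^ e := by
        rw [← h2]
        exact mul_le_mul_of_nonneg_right h1 (pow_pos hr _).le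
    _ = r ^ (e * (J / e) + e) := (pow_add _ _ _).symm
    _ ≤ _ := h4

theorem p_LIP :
    S_LIP := by
  intro p _ K L B _ _ _ _ _ _ _ σ n g e N' J₀ U ρ x Γ w lam Fil r θ M v hr hr1 he hre hθ hθ1 hN
    hJ₀ hU hΓ hl hanti hone hmul hρ hx hB
  have hM : 0 ≤ M := by
    have h := hB 0 1 hone
    rw [pow_zero, mul_one] at h
    exact (norm_nonneg _).trans h
  constructor
  · obtain ⟨c', hc'⟩ := hl.low
    have hE : 0 < θ ^ c' * r ^ e * r ^ J₀ := by positivity
    obtain ⟨D, hD⟩ : ∃ D : ℝ, D = (θ ^ c' * r ^ e * r ^ J₀)⁻¹ := ⟨_, rfl⟩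
    have hD0 : 0 < D := by rw [hD]; exact inv_pos.2 hE
    have hc₀ : 0 < r ^ J₀ := pow_pos hr _
    refine ⟨M * (D + D ^ 2), r ^ J₀, hc₀, pow_lt_one₀ hr.le hr1 (by omega), hU, ?_⟩
    intro c hc hcc h h' hh hh'
    obtain ⟨J, hJ1, hJ2⟩ := exists_nat_pow_near_of_lt_one (div_pos hc hc₀)
      ((div_le_one hc₀).2 hcc) hr hr1
    have hle : c ≤ r ^ (J₀ + J) := by
      rw [div_le_iff₀ hc₀] at hJ2
      rw [pow_add, mul_comm]
      exact hJ2
    have m1 := hρ J h ((hΓ J h).2 (hh.mono hle))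
    have m2 := hρ J h' ((hΓ J h').2 (hh'.mono hle))
    have key : θ ^ lam J ≤ D * c := by
      have k1 := lip_pow hr hr1 he hre hθ hθ1 hN (hc' J)
      rw [lt_div_iff₀ hc₀] at hJ1
      have k2 : θ ^ lam J * (θ ^ c' * r ^ e * r ^ J₀) ≤ c := by
        calc θ ^ lam J * (θ ^ c' * r ^ e * r ^ J₀)
            = θ ^ lam J * (θ ^ c' * r ^ e) * r ^ J₀ := by ring
          _ ≤ r ^ (J + 1) * r ^ J₀ := mul_le_mul_of_nonneg_right k1 hc₀.le
          _ ≤ c := hJ1.le
      rw [hD, mul_comm, ← div_eq_mul_inv, le_div_iff₀ hE]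
      exact k2
    have hp0 : 0 ≤ θ ^ lam J := (pow_pos hθ _).le
    constructor
    · have b1 := hB _ _ m1
      rw [LinearMap.sub_apply, Module.End.one_apply] at b1
      calc _ ≤ M * θ ^ lam J := b1
        _ ≤ M * (D * c) := mul_le_mul_of_nonneg_left key hM
        _ ≤ M * (D * c) + M * (D ^ 2 * c) := le_add_of_nonneg_right (by positivity)
        _ = _ := by ring
    · have b1 := hB _ _ (hmul _ _ _ _ m1 m2)
      rw [Module.End.mul_apply, LinearMap.sub_apply, LinearMap.sub_apply, Module.End.one_apply,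
        Module.End.one_apply, pow_add] at b1
      calc _ ≤ M * (θ ^ lam J * θ ^ lam J) := b1
        _ ≤ M * ((D * c) * (D * c)) :=
            mul_le_mul_of_nonneg_left (mul_le_mul key key hp0 (by positivity)) hM
        _ ≤ M * ((D * c) * (D * c)) + M * (D * c ^ 2) := le_add_of_nonneg_right (by positivity)
        _ = _ := by ring
  · refine ⟨J₀, M, θ, hθ, hθ1, fun wd hw => hB _ _ ?_⟩
    have hle : ((p : ℝ) ^ J₀)⁻¹ ≤ r ^ (J₀ + 0) := by
      rw [← inv_pow, ← hre, ← pow_mul]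
      refine pow_le_pow_of_le_one hr.le hr1.le ?_
      rw [add_zero]
      exact Nat.le_mul_of_pos_left _ he
    induction wd with
    | nil => simpa using hone
    | cons a wd ih =>
      have ha : a ∈ Fil 1 := by
        rcases hw a List.mem_cons_self with ⟨h, h1, rfl⟩ | ⟨j, rfl⟩
        · exact hanti (show 1 ≤ lam 0 from hl.pos)
            (hρ 0 h ((hΓ 0 h).2 (((cong_iff σ J₀ h.val).1 h1).mono hle)))
        · exact hx j
      rw [List.prod_cons, List.length_cons, add_comm]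
      exact hmul _ _ _ _ ha (ih fun b hb => hw b (List.mem_cons_of_mem _ hb))

end Pool.Agent.P.MP_7cb106_nt.GK
end

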