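import Mathlib

/-! Block C, step 1: polynomial growth of a finitely generated algebra, bounded by the
transcendence degree of its residue fields. -/

set_option autoImplicit false

namespace Pool.Agent.P.MP_7cb106_nt.GK

open MvPolynomial

theorem c67_finrank_restrictTotalDegree_le (F : Type) [Field F] (k t : ℕ) :
    Module.finrank F (restrictTotalDegree (Fin k) F t) ≤ (t + 1) ^ k := by
  classical
  let b : (Fin k → Fin (t + 1)) → MvPolynomial (Fin k) F := fun u =>
    monomial (Finsupp.equivFunOnFinite.symm fun i => (u i : ℕ)) 1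
  have hle : restrictTotalDegree (Fin k) F t ≤ Submodule.span F (Set.range b) := by
    intro P hP
    rw [mem_restrictTotalDegree] at hP
    rw [P.as_sum]
    refine Submodule.sum_mem _ fun u hu => ?_
    have hu' : ∀ i, u i ≤ t := fun i =>
      le_trans (monomial_le_degreeOf i hu) ((degreeOf_le_totalDegree P i).trans hP)
    have : monomial u (coeff u P) = coeff u P • b fun i => ⟨u i, Nat.lt_succ_of_le (hu' i)⟩ := by
      simp only [b, smul_monomial, smul_eq_mul, mul_one]
      congr 2
      ext i
      simp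
    rw [this]
    exact Submodule.smul_mem _ _ (Submodule.subset_span ⟨_, rfl⟩)
  have hfin : Module.Finite F (Submodule.span F (Set.range b)) :=
    Module.Finite.span_of_finite F (Set.finite_range b)
  calc Module.finrank F (restrictTotalDegree (Fin k) F t)
      ≤ Module.finrank F (Submodule.span F (Set.range b)) := Submodule.finrank_mono hle
    _ ≤ Fintype.card (Fin k → Fin (t + 1)) := finrank_range_le_card b
    _ = (t + 1) ^ k := by simp

/-- growth of an algebra which is finite over a polynomial ring in `k` variables -/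
theorem c67_growth_of_finite (F : Type) [Field F] (s : Type) [Fintype s] (A : Type) [CommRing A]
    [Algebra F A] (π : MvPolynomial s F →ₐ[F] A) (k : ℕ) (g : MvPolynomial (Fin k) F →ₐ[F] A)
    (hg : g.Finite) : ∃ C : ℕ, ∀ t : ℕ,
      Module.finrank F ((restrictTotalDegree s F t).map π.toLinearMap) ≤ C * (t + 1) ^ k := by
  classical
  letI : Algebra (MvPolynomial (Fin k) F) A := g.toRingHom.toAlgebra
  have hfin : Module.Finite (MvPolynomial (Fin k) F) A := hg
  obtain ⟨m, a, ha⟩ := Module.Finite.exists_fin (R := MvPolynomial (Fin k) F) (M := A)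
  have hrep : ∀ z : A, ∃ β : Fin m → MvPolynomial (Fin k) F, z = ∑ l, g (β l) * a l := by
    intro z
    have hz : z ∈ Submodule.span (MvPolynomial (Fin k) F) (Set.range a) := ha ▸ Submodule.mem_top
    obtain ⟨β, hβ⟩ := (Submodule.mem_span_range_iff_exists_fun _).1 hz
    exact ⟨β, by rw [← hβ]; rfl⟩
  choose ρ hρ using hrep
  let Φ : (Fin m → MvPolynomial (Fin k) F) →ₗ[F] A :=
    { toFun := fun β => ∑ l, g (β l) * a l
      map_add' := fun β γ => by simp [add_mul, Finset.sum_add_distrib]
      map_smul' := fun c β => by simp [Finset.smul_sum] }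
  let W : ℕ → Submodule F A := fun t =>
    (Submodule.pi Set.univ fun _ => restrictTotalDegree (Fin k) F t).map Φ
  have hW : ∀ t z, z ∈ W t ↔ ∃ β : Fin m → MvPolynomial (Fin k) F,
      (∀ l, (β l).totalDegree ≤ t) ∧ z = ∑ l, g (β l) * a l := by
    intro t z
    constructor
    · rintro ⟨β, hβ, rfl⟩
      exact ⟨β, fun l => (mem_restrictTotalDegree _ _ _).1 (hβ l trivial), rfl⟩
    · rintro ⟨β, hβ, rfl⟩
      exact ⟨β, fun l _ => (mem_restrictTotalDegree _ _ _).2 (hβ l), rfl⟩
  have hWmono : ∀ t t', t ≤ t' → W t ≤ W t' := by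
    intro t t' h z hz
    obtain ⟨β, hβ, rfl⟩ := (hW t z).1 hz
    exact (hW t' _).2 ⟨β, fun l => (hβ l).trans h, rfl⟩
  obtain ⟨d, hd1, hd2⟩ : ∃ d : ℕ, (∀ l, (ρ 1 l).totalDegree ≤ d) ∧
      ∀ i j l, (ρ (π (X i) * a j) l).totalDegree ≤ d := by
    obtain ⟨d₁, h₁⟩ := Finite.exists_le fun l => (ρ 1 l).totalDegree
    obtain ⟨d₂, h₂⟩ := Finite.exists_le fun x : s × Fin m × Fin m =>
      (ρ (π (X x.1) * a x.2.1) x.2.2).totalDegree
    exact ⟨max d₁ d₂, fun l => le_max_of_le_left (h₁ l),
      fun i j l => le_max_of_le_right (h₂ (i, j, l))⟩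
  have hstep : ∀ t z i, z ∈ W t → π (X i) * z ∈ W (t + d) := by
    intro t z i hz
    obtain ⟨β, hβ, rfl⟩ := (hW t z).1 hz
    rw [Finset.mul_sum]
    refine Submodule.sum_mem _ fun j _ => ?_
    refine (hW _ _).2 ⟨fun l => β j * ρ (π (X i) * a j) l, fun l => ?_, ?_⟩
    · exact (totalDegree_mul _ _).trans (Nat.add_le_add (hβ j) (hd2 i j l))
    · rw [mul_left_comm, hρ (π (X i) * a j), Finset.mul_sum]
      refine Finset.sum_congr rfl fun l _ => ?_
      rw [← hρ (π (X i) * a j), map_mul, mul_assoc]
  have hmon : ∀ (t : ℕ) (u : s →₀ ℕ), u.degree = t → π (monomial u 1) ∈ W (d * (t + 1)) := by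
    intro t
    induction t with
    | zero =>
      intro u hu
      have : u = 0 := (Finsupp.degree_eq_zero_iff u).1 hu
      subst this
      refine (hW _ _).2 ⟨ρ 1, fun l => by simpa using hd1 l, ?_⟩
      rw [← hρ 1]
      simp
    | succ t ih =>
      intro u hu
      have hne : u ≠ 0 := by
        rintro rfl
        simp at hu
      obtain ⟨i, hi⟩ := Finsupp.support_nonempty_iff.2 hne
      have hi' : u i ≠ 0 := Finsupp.mem_support_iff.1 hi
      have hsub : u = Finsupp.single i 1 + (u - Finsupp.single i 1) := by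
        ext j
        by_cases h : i = j
        · subst h
          simp
          omega
        · simp [Finsupp.single_apply, h]
      have hdeg : (u - Finsupp.single i 1).degree = t := by
        have := congrArg Finsupp.degree hsub
        rw [map_add, Finsupp.degree_single, hu] at this
        omega
      have h1 := hstep _ _ i (ih _ hdeg)
      have h2 : (monomial u 1 : MvPolynomial s F) = X i * monomial (u - Finsupp.single i 1) 1 := by
        rw [X, monomial_mul, mul_one, ← hsub]
      rw [h2, map_mul]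
      have h3 : d * (t + 1 + 1) = d * (t + 1) + d := by ring
      rw [h3]
      exact h1
  refine ⟨m * (d + 1) ^ k, fun t => ?_⟩
  have hle : (restrictTotalDegree s F t).map π.toLinearMap ≤ W (d * (t + 1)) := by
    rintro _ ⟨P, hP, rfl⟩
    have hP' : P.totalDegree ≤ t := (mem_restrictTotalDegree _ _ _).1 hP
    rw [P.as_sum, map_sum]
    refine Submodule.sum_mem _ fun u hu => ?_
    have : monomial u (coeff u P) = coeff u P • (monomial u 1 : MvPolynomial s F) := by
      simp [smul_monomial]
    rw [this, map_smul]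
    refine Submodule.smul_mem _ _ (hWmono _ _ ?_ (hmon _ u rfl))
    have : u.degree ≤ t := by
      refine le_trans ?_ hP'
      have := le_totalDegree hu
      simpa [Finsupp.degree, Finsupp.sum] using this
    exact Nat.mul_le_mul_left _ (by omega)
  let T := d * (t + 1)
  let e : (Fin m → restrictTotalDegree (Fin k) F T) →ₗ[F] A :=
    Φ ∘ₗ LinearMap.pi fun l => (restrictTotalDegree (Fin k) F T).subtype ∘ₗ LinearMap.proj l
  have hWe : W T ≤ LinearMap.range e := by
    intro z hz
    obtain ⟨β, hβ, rfl⟩ := (hW T z).1 hz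
    exact ⟨fun l => ⟨β l, (mem_restrictTotalDegree _ _ _).2 (hβ l)⟩, rfl⟩
  calc Module.finrank F ((restrictTotalDegree s F t).map π.toLinearMap)
      ≤ Module.finrank F (LinearMap.range e) := Submodule.finrank_mono (hle.trans hWe)
    _ ≤ Module.finrank F (Fin m → restrictTotalDegree (Fin k) F T) :=
        LinearMap.finrank_range_le e
    _ = m * Module.finrank F (restrictTotalDegree (Fin k) F T) := by
        rw [Module.finrank_pi_fintype]
        simp
    _ ≤ m * (T + 1) ^ k := Nat.mul_le_mul_left _ (c67_finrank_restrictTotalDegree_le F k T)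
    _ ≤ m * ((d + 1) * (t + 1)) ^ k := by
        refine Nat.mul_le_mul_left _ (Nat.pow_le_pow_left ?_ _)
        simp only [T]
        nlinarith
    _ = m * (d + 1) ^ k * (t + 1) ^ k := by rw [mul_pow, mul_assoc]

/-- every field generated by the image of the polynomial ring in which `I` vanishes has
transcendence degree at most `r` -/
def c67_TrBound (F : Type) [Field F] (s : Type) (I : Ideal (MvPolynomial s F)) (r : ℕ) : Prop :=
  ∀ (E : Type) [Field E] [Algebra F E] (φ : MvPolynomial s F →ₐ[F] E), (∀ P ∈ I, φ P = 0) →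
    (∀ z : E, ∃ P Q, z = φ P / φ Q) →
    ∀ (k : ℕ) (a : Fin k → E), AlgebraicIndependent F a → k ≤ r

theorem c67_growth (F : Type) [Field F] (s : Type) [Fintype s] (I : Ideal (MvPolynomial s F)) (r : ℕ)
    (h : c67_TrBound F s I r) : ∃ C : ℕ, ∀ t : ℕ,
      Module.finrank F ((restrictTotalDegree s F t).map (Ideal.Quotient.mkₐ F I).toLinearMap) ≤
        C * (t + 1) ^ r := by
  classical
  by_cases hI : I = ⊤
  · refine ⟨0, fun t => ?_⟩
    have : Subsingleton (MvPolynomial s F ⧸ I) := Ideal.Quotient.subsingleton_iff.2 hI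
    rw [Module.finrank_zero_of_subsingleton]
    simp
  have : Nontrivial (MvPolynomial s F ⧸ I) := Ideal.Quotient.nontrivial_iff.2 hI
  obtain ⟨k, g, hinj, hg⟩ := exists_finite_inj_algHom_of_fg F (MvPolynomial s F ⧸ I)
  obtain ⟨C, hC⟩ := c67_growth_of_finite F s _ (Ideal.Quotient.mkₐ F I) k g hg
  have hk : k ≤ r := by
    letI : Algebra (MvPolynomial (Fin k) F) (MvPolynomial s F ⧸ I) := g.toRingHom.toAlgebra
    have hfin : Module.Finite (MvPolynomial (Fin k) F) (MvPolynomial s F ⧸ I) := hg
    obtain ⟨Q, -, hQ, hQ0⟩ := Ideal.exists_ideal_over_prime_of_isIntegral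
      (S := MvPolynomial s F ⧸ I) (⊥ : Ideal (MvPolynomial (Fin k) F)) ⊥ (by
        intro x hx
        have hx' : g x = 0 := hx
        exact hinj (by rw [hx', map_zero]))
    let E := FractionRing ((MvPolynomial s F ⧸ I) ⧸ Q)
    let ψ : (MvPolynomial s F ⧸ I) →ₐ[F] E :=
      (IsScalarTower.toAlgHom F ((MvPolynomial s F ⧸ I) ⧸ Q) E).comp (Ideal.Quotient.mkₐ F Q)
    refine h E (ψ.comp (Ideal.Quotient.mkₐ F I)) (fun P hP => ?_) (fun z => ?_) k
      (fun i => ψ (g (X i))) ?_
    · have : Ideal.Quotient.mkₐ F I P = 0 := Ideal.Quotient.eq_zero_iff_mem.2 hP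
      rw [AlgHom.comp_apply, this, map_zero]
    · obtain ⟨x, y, -, rfl⟩ := IsFractionRing.div_surjective ((MvPolynomial s F ⧸ I) ⧸ Q) z
      obtain ⟨x, rfl⟩ := Ideal.Quotient.mk_surjective x
      obtain ⟨x, rfl⟩ := Ideal.Quotient.mk_surjective x
      obtain ⟨y, rfl⟩ := Ideal.Quotient.mk_surjective y
      obtain ⟨y, rfl⟩ := Ideal.Quotient.mk_surjective y
      exact ⟨x, y, rfl⟩
    · rw [algebraicIndependent_iff]
      intro P hP
      have h1 : aeval (fun i => ψ (g (X i))) P = ψ (g P) := by
        have : (aeval fun i => ψ (g (X i)) : MvPolynomial (Fin k) F →ₐ[F] E) = ψ.comp g := by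
          ext i
          simp
        rw [this]
        rfl
      rw [h1] at hP
      have h2 : Ideal.Quotient.mk Q (g P) = 0 :=
        IsFractionRing.injective ((MvPolynomial s F ⧸ I) ⧸ Q) E (by rw [map_zero]; exact hP)
      have h2' : g P ∈ Q := Ideal.Quotient.eq_zero_iff_mem.1 h2
      have h3 : P ∈ Q.comap (algebraMap (MvPolynomial (Fin k) F) (MvPolynomial s F ⧸ I)) := h2'
      rw [hQ0] at h3
      exact h3
  exact ⟨C, fun t => (hC t).trans
    (Nat.mul_le_mul_left _ (Nat.pow_le_pow_right (Nat.succ_pos t) hk))⟩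

end Pool.Agent.P.MP_7cb106_nt.GK
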