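import Pool.Agent.P.MP_7cb106_nt.GK.BaseI
import Pool.Agent.P.MP_7cb106_nt.GK.C67a

/-! Block C, step 2: the ideal of graded relations and the dimension count. -/

set_option autoImplicit false

namespace Pool.Agent.P.MP_7cb106_nt.GK

open MvPolynomial

theorem c67_comp_monomial_mul {ι F : Type} [Field F] (μ : ι → ℕ) (γ : ι →₀ ℕ) (c : F)
    (B : MvPolynomial ι F) (t : ℕ) :
    weightedHomogeneousComponent μ (wt μ γ + t) (monomial γ c * B) =
      monomial γ c * weightedHomogeneousComponent μ t B := by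
  classical
  ext d
  rw [coeff_weightedHomogeneousComponent, coeff_monomial_mul', coeff_monomial_mul',
    coeff_weightedHomogeneousComponent]
  by_cases h : γ ≤ d
  · have hd : Finsupp.weight μ d = Finsupp.weight μ γ + Finsupp.weight μ (d - γ) := by
      rw [← map_add, add_tsub_cancel_of_le h]
    simp only [h, if_true, hd, wt, Nat.add_left_cancel_iff]
    split_ifs <;> simp
  · simp [h]

theorem c67_comp_monomial_mul_of_lt {ι F : Type} [Field F] (μ : ι → ℕ) (γ : ι →₀ ℕ) (c : F)
    (B : MvPolynomial ι F) (t : ℕ) (ht : t < wt μ γ) :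
    weightedHomogeneousComponent μ t (monomial γ c * B) = 0 := by
  classical
  ext d
  rw [coeff_weightedHomogeneousComponent, coeff_monomial_mul']
  by_cases h : γ ≤ d
  · have hd : Finsupp.weight μ d = Finsupp.weight μ γ + Finsupp.weight μ (d - γ) := by
      rw [← map_add, add_tsub_cancel_of_le h]
    have : Finsupp.weight μ d ≠ t := by
      simp only [wt] at ht
      omega
    simp [this]
  · simp [h]

section

variable {ι F V : Type} [Fintype ι] [Field F] [AddCommGroup V] [Module F V]
  {β : ι → Module.End F V} {μ : ι → ℕ}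

theorem c67_mono_mem (W : Submodule F V) (hW : ∀ i, ∀ v ∈ W, β i v ∈ W) (α : ι →₀ ℕ) (v : V)
    (hv : v ∈ W) : mono β α v ∈ W := by
  have hp : ∀ (i : ι) (k : ℕ), ∀ v ∈ W, (β i ^ k) v ∈ W := by
    intro i k
    induction k with
    | zero => intro v hv; simpa using hv
    | succ k ih => intro v hv; rw [pow_succ', Module.End.mul_apply]; exact hW i _ (ih v hv)
  have key : ∀ l : List ι, (l.map fun i => β i ^ α i).prod v ∈ W := by
    intro l
    induction l with
    | nil => simpa using hv
    | cons a l ih => rw [List.map_cons, List.prod_cons, Module.End.mul_apply]; exact hp _ _ _ ih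
  exact key _

theorem c67_mono_Vs (hG : Good β μ) (γ : ι →₀ ℕ) (u : ℕ) (v : V)
    (hv : v ∈ Vs β μ (wt μ γ + u)) : mono β γ v ∈ Vs β μ u := fun α hα =>
  hG.zero α γ _ v hv (by omega)

theorem c67_ev_Vs (hG : Good β μ) (A : MvPolynomial ι F) (t u : ℕ)
    (hA : A.IsWeightedHomogeneous μ t) (v : V) (hv : v ∈ Vs β μ (t + u)) :
    ev F β A v ∈ Vs β μ u := by
  rw [ev_eq_sum, LinearMap.sum_apply]
  refine Submodule.sum_mem _ fun α hα => ?_
  rw [LinearMap.smul_apply]
  refine Submodule.smul_mem _ _ (c67_mono_Vs hG α u v ?_)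
  have : wt μ α = t := hA (mem_support_iff.1 hα)
  rwa [this]

theorem c67_ev_monomial_mul (hG : Good β μ) (γ : ι →₀ ℕ) (c : F) (B : MvPolynomial ι F) (t : ℕ)
    (hB : B.IsWeightedHomogeneous μ t) (v : V) (hv : v ∈ Vs β μ (wt μ γ + t + 1)) :
    ev F β (monomial γ c * B) v = c • ev F β B (mono β γ v) := by
  conv_lhs => rw [B.as_sum, Finset.mul_sum, map_sum, LinearMap.sum_apply]
  rw [ev_eq_sum F β B, LinearMap.sum_apply, Finset.smul_sum]
  refine Finset.sum_congr rfl fun α hα => ?_
  have hα' : wt μ α = t := hB (mem_support_iff.1 hα)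
  rw [monomial_mul, ev_monomial, LinearMap.smul_apply, LinearMap.smul_apply, smul_smul,
    hG.add α γ v (by rw [hα', add_comm t]; exact hv), add_comm α γ]

/-- the ideal of graded relations on the subspace `W` -/
def c67_I (hG : Good β μ) (W : Submodule F V) (hW : ∀ i, ∀ v ∈ W, β i v ∈ W) :
    Ideal (MvPolynomial ι F) where
  carrier := {A | ∀ t, ∀ v ∈ Vs β μ (t + 1), v ∈ W →
    ev F β (weightedHomogeneousComponent μ t A) v = 0}
  add_mem' := fun {a b} ha hb t v hv hw => by
    rw [map_add, map_add, LinearMap.add_apply, ha t v hv hw, hb t v hv hw, add_zero]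
  zero_mem' := fun t v _ _ => by simp
  smul_mem' := fun A B hB t v hv hw => by
    rw [smul_eq_mul, A.as_sum, Finset.sum_mul, map_sum, map_sum, LinearMap.sum_apply]
    refine Finset.sum_eq_zero fun γ _ => ?_
    by_cases h : t < wt μ γ
    · rw [c67_comp_monomial_mul_of_lt μ γ _ B t h]
      simp
    · obtain ⟨u, rfl⟩ : ∃ u, t = wt μ γ + u := ⟨t - wt μ γ, by omega⟩
      rw [c67_comp_monomial_mul, c67_ev_monomial_mul hG γ _ _ u
        (weightedHomogeneousComponent_isWeightedHomogeneous u B) v hv,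
        hB u _ (c67_mono_Vs hG γ (u + 1) v hv) (c67_mono_mem W hW γ v hw), smul_zero]

theorem c67_mem_I (hG : Good β μ) (W : Submodule F V) (hW : ∀ i, ∀ v ∈ W, β i v ∈ W)
    (A : MvPolynomial ι F) : A ∈ c67_I hG W hW ↔ ∀ t, ∀ v ∈ Vs β μ (t + 1), v ∈ W →
      ev F β (weightedHomogeneousComponent μ t A) v = 0 := Iff.rfl

theorem c67_mem_I_of_hom (hG : Good β μ) (W : Submodule F V) (hW : ∀ i, ∀ v ∈ W, β i v ∈ W)
    (A : MvPolynomial ι F) (t : ℕ) (hA : A.IsWeightedHomogeneous μ t) :
    A ∈ c67_I hG W hW ↔ ∀ v ∈ Vs β μ (t + 1), v ∈ W → ev F β A v = 0 := by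
  rw [c67_mem_I]
  constructor
  · intro h v hv hw
    have := h t v hv hw
    rwa [hA.weightedHomogeneousComponent_same] at this
  · intro h u v hv hw
    by_cases hu : u = t
    · subst hu
      rw [hA.weightedHomogeneousComponent_same]
      exact h v hv hw
    · rw [hA.weightedHomogeneousComponent_ne u hu]
      simp

/-- polynomials of weight less than `t` -/
def c67_L (F : Type) [Field F] {ι : Type} (μ : ι → ℕ) (t : ℕ) :
    Submodule F (MvPolynomial ι F) where
  carrier := {A | ∀ α, t ≤ wt μ α → coeff α A = 0}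
  add_mem' := fun {a b} ha hb α h => by rw [coeff_add, ha α h, hb α h, add_zero]
  zero_mem' := fun α _ => coeff_zero α
  smul_mem' := fun c A hA α h => by rw [coeff_smul, hA α h, smul_zero]

theorem c67_L_le (hμ : ∀ i, 0 < μ i) (t : ℕ) : c67_L F μ t ≤ restrictTotalDegree ι F t := by
  intro A hA
  rw [mem_restrictTotalDegree, totalDegree]
  refine Finset.sup_le fun α hα => ?_
  have h1 : wt μ α < t := by
    by_contra h
    exact mem_support_iff.1 hα (hA α (by omega))
  have h2 : (α.sum fun _ e => e) ≤ wt μ α := by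
    rw [wt, Finsupp.weight_apply]
    refine Finset.sum_le_sum fun i _ => ?_
    exact Nat.le_mul_of_pos_right _ (hμ i)
  omega

theorem c67_step (hG : Good β μ) [Module.Finite F (Vs β μ 1)] (W : Submodule F V)
    (hW : ∀ i, ∀ v ∈ W, β i v ∈ W) (t : ℕ) [Module.Finite F ↥(Vs β μ t ⊓ W)]
    [Module.Finite F ((weightedHomogeneousSubmodule F μ t).map
      (Ideal.Quotient.mkₐ F (c67_I hG W hW)).toLinearMap)] :
    Module.Finite F ↥(Vs β μ (t + 1) ⊓ W) ∧
    Module.finrank F ↥(Vs β μ (t + 1) ⊓ W) ≤ Module.finrank F ↥(Vs β μ t ⊓ W) +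
      Module.finrank F ((weightedHomogeneousSubmodule F μ t).map
        (Ideal.Quotient.mkₐ F (c67_I hG W hW)).toLinearMap) * Module.finrank F (Vs β μ 1) := by
  classical
  set N := (weightedHomogeneousSubmodule F μ t).map
    (Ideal.Quotient.mkₐ F (c67_I hG W hW)).toLinearMap with hN
  let b := Module.finBasis F N
  have hb : ∀ j, ∃ A : MvPolynomial ι F, A.IsWeightedHomogeneous μ t ∧
      Ideal.Quotient.mkₐ F (c67_I hG W hW) A = (b j : _) := fun j => by
    obtain ⟨A, hA, hA'⟩ := (b j).2
    exact ⟨A, hA, hA'⟩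
  choose A hA hA' using hb
  let Θ : ↥(Vs β μ (t + 1) ⊓ W) →ₗ[F] (Fin (Module.finrank F N) → Vs β μ 1) :=
    LinearMap.pi fun j => LinearMap.codRestrict (Vs β μ 1)
      ((ev F β (A j) : V →ₗ[F] V) ∘ₗ (Vs β μ (t + 1) ⊓ W).subtype)
      fun v => c67_ev_Vs hG (A j) t 1 (hA j) v v.2.1
  have hker : ∀ v : ↥(Vs β μ (t + 1) ⊓ W), Θ v = 0 → (v : V) ∈ Vs β μ t ⊓ W := by
    intro v hv
    refine ⟨fun α hα => ?_, v.2.2⟩
    by_cases h : wt μ α = t
    · have h0 : ∀ j, ev F β (A j) v = 0 := fun j => congrArg Subtype.val (congrFun hv j)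
      have hm : (monomial α (1 : F)).IsWeightedHomogeneous μ t :=
        isWeightedHomogeneous_monomial μ α 1 h
      let x : N := ⟨Ideal.Quotient.mkₐ F (c67_I hG W hW) (monomial α 1), _, hm, rfl⟩
      have hx : Ideal.Quotient.mkₐ F (c67_I hG W hW)
          (monomial α 1 - ∑ j, b.repr x j • A j) = 0 := by
        rw [map_sub, map_sum]
        have := congrArg Subtype.val (b.sum_repr x)
        rw [Submodule.coe_sum] at this
        simp only [map_smul, hA']
        simp only [Submodule.coe_smul] at this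
        rw [this, sub_self]
      have hhom : (monomial α 1 - ∑ j, b.repr x j • A j).IsWeightedHomogeneous μ t :=
        (weightedHomogeneousSubmodule F μ t).sub_mem hm
          (Submodule.sum_mem _ fun j _ => Submodule.smul_mem _ _ (hA j))
      have h1 := (c67_mem_I_of_hom hG W hW _ t hhom).1
        (Ideal.Quotient.eq_zero_iff_mem.1 hx) v v.2.1 v.2.2
      rw [map_sub, map_sum, LinearMap.sub_apply, LinearMap.sum_apply, ev_monomial] at h1
      simp only [map_smul, LinearMap.smul_apply, h0, smul_zero, Finset.sum_const_zero, sub_zero,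
        one_smul] at h1
      exact h1
    · exact v.2.1 α (by omega)
  let κ : LinearMap.ker Θ →ₗ[F] ↥(Vs β μ t ⊓ W) :=
    LinearMap.codRestrict _ ((Vs β μ (t + 1) ⊓ W).subtype ∘ₗ (LinearMap.ker Θ).subtype)
      fun v => hker v.1 v.2
  have hκ : Function.Injective κ := by
    intro x y h
    have h' : ((κ x : ↥(Vs β μ t ⊓ W)) : V) = κ y := by rw [h]
    exact Subtype.ext (Subtype.ext h')
  have hf1 : Module.Finite F (LinearMap.ker Θ) := Module.Finite.of_injective κ hκ
  have hf2 : Module.Finite F (↥(Vs β μ (t + 1) ⊓ W) ⧸ LinearMap.ker Θ) :=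
    Module.Finite.equiv Θ.quotKerEquivRange.symm
  have hf : Module.Finite F ↥(Vs β μ (t + 1) ⊓ W) :=
    Module.Finite.of_submodule_quotient (LinearMap.ker Θ)
  refine ⟨hf, ?_⟩
  have h1 := Θ.finrank_range_add_finrank_ker
  have h2 := LinearMap.finrank_le_finrank_of_injective hκ
  have h3 := Submodule.finrank_le (LinearMap.range Θ)
  rw [Module.finrank_pi_fintype] at h3
  simp only [Finset.sum_const, Finset.card_univ, Fintype.card_fin, smul_eq_mul] at h3
  omega

theorem c67_count (hG : Good β μ) [Module.Finite F (Vs β μ 1)] (W : Submodule F V)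
    (hW : ∀ i, ∀ v ∈ W, β i v ∈ W) (t : ℕ) :
    Module.Finite F ↥(Vs β μ t ⊓ W) ∧ Module.finrank F ↥(Vs β μ t ⊓ W) ≤
      Module.finrank F ((c67_L F μ t).map (Ideal.Quotient.mkₐ F (c67_I hG W hW)).toLinearMap) *
        Module.finrank F (Vs β μ 1) := by
  have hfinL : ∀ u, Module.Finite F
      ((c67_L F μ u).map (Ideal.Quotient.mkₐ F (c67_I hG W hW)).toLinearMap) := fun u =>
    Submodule.finiteDimensional_of_le (Submodule.map_mono (c67_L_le hG.pos u))
  induction t with
  | zero =>
    have : Vs β μ 0 ⊓ W = ⊥ := by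
      rw [eq_bot_iff]
      intro v hv
      have := hv.1 0 (Nat.zero_le _)
      simpa using this
    rw [this]
    exact ⟨inferInstance, by simp⟩
  | succ t ih =>
    obtain ⟨ih1, ih2⟩ := ih
    have hle1 : weightedHomogeneousSubmodule F μ t ≤ c67_L F μ (t + 1) := by
      intro A hA α hα
      by_contra h
      have : wt μ α = t := hA h
      omega
    have hle2 : c67_L F μ t ≤ c67_L F μ (t + 1) := fun A hA α hα => hA α (by omega)
    have := hfinL (t + 1)
    have := hfinL t
    have hfinN : Module.Finite F ((weightedHomogeneousSubmodule F μ t).map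
        (Ideal.Quotient.mkₐ F (c67_I hG W hW)).toLinearMap) :=
      Submodule.finiteDimensional_of_le (Submodule.map_mono hle1)
    obtain ⟨h1, h2⟩ := c67_step hG W hW t
    refine ⟨h1, ?_⟩
    have hdis : (c67_L F μ t).map (Ideal.Quotient.mkₐ F (c67_I hG W hW)).toLinearMap ⊓
        (weightedHomogeneousSubmodule F μ t).map
          (Ideal.Quotient.mkₐ F (c67_I hG W hW)).toLinearMap = ⊥ := by
      rw [eq_bot_iff]
      rintro z ⟨⟨A, hA, rfl⟩, B, hB, hAB⟩
      have hsub : B - A ∈ c67_I hG W hW := Ideal.Quotient.eq.1 hAB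
      have hB' : B.IsWeightedHomogeneous μ t := hB
      have hA0 : weightedHomogeneousComponent μ t A = 0 := by
        classical
        ext d
        rw [coeff_weightedHomogeneousComponent]
        split_ifs with h
        · exact hA d (le_of_eq h.symm)
        · rfl
      have hBI : B ∈ c67_I hG W hW := by
        refine (c67_mem_I_of_hom hG W hW B t hB').2 fun v hv hw => ?_
        have := hsub t v hv hw
        rwa [map_sub, hA0, sub_zero, hB'.weightedHomogeneousComponent_same] at this
      rw [Submodule.mem_bot, ← hAB]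
      exact Ideal.Quotient.eq_zero_iff_mem.2 hBI
    have h3 := Submodule.finrank_sup_add_finrank_inf_eq
      ((c67_L F μ t).map (Ideal.Quotient.mkₐ F (c67_I hG W hW)).toLinearMap)
      ((weightedHomogeneousSubmodule F μ t).map
        (Ideal.Quotient.mkₐ F (c67_I hG W hW)).toLinearMap)
    rw [hdis, finrank_bot, add_zero] at h3
    have h4 := Submodule.finrank_mono (sup_le (Submodule.map_mono hle2) (Submodule.map_mono hle1) :
      (c67_L F μ t).map (Ideal.Quotient.mkₐ F (c67_I hG W hW)).toLinearMap ⊔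
        (weightedHomogeneousSubmodule F μ t).map
          (Ideal.Quotient.mkₐ F (c67_I hG W hW)).toLinearMap ≤ _)
    rw [h3] at h4
    refine h2.trans (le_trans ?_ (Nat.mul_le_mul_right _ h4))
    rw [add_mul]
    omega

theorem c67_bound (hG : Good β μ) [Module.Finite F (Vs β μ 1)] (W : Submodule F V)
    (hW : ∀ i, ∀ v ∈ W, β i v ∈ W) (r : ℕ) (h : c67_TrBound F ι (c67_I hG W hW) r) :
    ∃ C : ℕ, ∀ (s m : ℕ) (v : Fin m → V), LinearIndependent F v →
      (∀ i, v i ∈ Vs β μ s ∧ v i ∈ W) → m ≤ C * (s + 1) ^ r := by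
  obtain ⟨C, hC⟩ := c67_growth F ι _ r h
  refine ⟨C * Module.finrank F (Vs β μ 1), fun s m v hv hm => ?_⟩
  obtain ⟨h1, h2⟩ := c67_count hG W hW s
  let v' : Fin m → ↥(Vs β μ s ⊓ W) := fun i => ⟨v i, hm i⟩
  have hv' : LinearIndependent F v' :=
    LinearIndependent.of_comp (Vs β μ s ⊓ W).subtype hv
  have h3 := hv'.fintype_card_le_finrank
  rw [Fintype.card_fin] at h3
  have h4 := (Submodule.finrank_mono (Submodule.map_mono
    (f := (Ideal.Quotient.mkₐ F (c67_I hG W hW)).toLinearMap) (c67_L_le (F := F) hG.pos s))).trans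
    (hC s)
  calc m ≤ _ := h3.trans h2
    _ ≤ C * (s + 1) ^ r * Module.finrank F (Vs β μ 1) := Nat.mul_le_mul_right _ h4
    _ = _ := by ring

end

end Pool.Agent.P.MP_7cb106_nt.GK
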