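import Mathlib

/-! Block C, step 3: the Moore matrix. -/

set_option autoImplicit false

namespace Pool.Agent.P.MP_7cb106_nt.GK

open Polynomial

theorem c67_moore_det (p : ℕ) [Fact p.Prime] (F : Type) [Field F] [CharP F p] (f₀ : ℕ)
    (z : Fin f₀ → F) (hz : ∀ c : Fin f₀ → ℕ, ∑ t, (c t : F) * z t = 0 → ∀ t, p ∣ c t) :
    (Matrix.of fun (k t : Fin f₀) => z t ^ p ^ (k : ℕ)).det ≠ 0 := by
  classical
  have hp : p.Prime := Fact.out
  intro hdet
  obtain ⟨c, hc, hc0⟩ := Matrix.exists_vecMul_eq_zero_iff.2 hdet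
  have hc1 : ∀ t, ∑ k : Fin f₀, c k * z t ^ p ^ (k : ℕ) = 0 := fun t => by
    simpa [Matrix.vecMul, dotProduct] using congrFun hc0 t
  let P : F[X] := ∑ k : Fin f₀, monomial (p ^ (k : ℕ)) (c k)
  let ρ : (Fin f₀ → Fin p) → F := fun d => ∑ t, ((d t : ℕ) : F) * z t
  have hρ : Function.Injective ρ := by
    intro d d' h
    have h1 := hz (fun t => d t + (p - d' t)) (by
      have : ∀ t, (((d t : ℕ) + (p - d' t) : ℕ) : F) * z t =
          ((d t : ℕ) : F) * z t - ((d' t : ℕ) : F) * z t := fun t => by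
        rw [Nat.cast_add, Nat.cast_sub (d' t).2.le, CharP.cast_eq_zero F p]
        ring
      simp only [this, Finset.sum_sub_distrib]
      exact sub_eq_zero.2 h)
    funext t
    obtain ⟨m, hm⟩ := h1 t
    have h2 := (d t).2
    have h3 := (d' t).2
    have hm1 : m = 1 := by
      rcases m with _ | _ | m
      · omega
      · rfl
      · have : p * (m + 1 + 1) = p * m + 2 * p := by ring
        omega
    subst hm1
    exact Fin.ext (by omega)
  have hP : P = 0 := by
    refine eq_zero_of_degree_lt_of_eval_finset_eq_zero (Finset.univ.image ρ) ?_ ?_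
    · rw [Finset.card_image_of_injective _ hρ]
      simp only [Finset.card_univ, Fintype.card_pi, Fintype.card_fin, Finset.prod_const]
      refine lt_of_le_of_lt (degree_sum_le _ _) ?_
      rw [Finset.sup_lt_iff (WithBot.bot_lt_coe _)]
      intro k _
      refine lt_of_le_of_lt (degree_monomial_le _ _) ?_
      exact_mod_cast Nat.pow_lt_pow_right hp.one_lt k.2
    · intro x hx
      obtain ⟨d, -, rfl⟩ := Finset.mem_image.1 hx
      have : ∀ k : ℕ, ρ d ^ p ^ k = ∑ t, ((d t : ℕ) : F) * z t ^ p ^ k := fun k => by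
        rw [sum_pow_char_pow]
        refine Finset.sum_congr rfl fun t _ => ?_
        rw [mul_pow]
        congr 1
        exact map_natCast (iterateFrobenius F p k) (d t)
      simp only [P, eval_finset_sum, eval_monomial, this, Finset.mul_sum]
      rw [Finset.sum_comm]
      refine Finset.sum_eq_zero fun t _ => ?_
      simp only [mul_left_comm (c _), ← Finset.mul_sum, hc1, mul_zero]
  apply hc
  funext k
  have := congrArg (fun Q : F[X] => Q.coeff (p ^ (k : ℕ))) hP
  simp only [P, finset_sum_coeff, coeff_monomial, coeff_zero] at this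
  rw [Finset.sum_eq_single k] at this
  · simpa using this
  · intro l _ hl
    rw [if_neg]
    intro h
    exact hl (Fin.ext (Nat.pow_right_injective hp.two_le h))
  · simp

theorem c67_moore (p : ℕ) [Fact p.Prime] (F E : Type) [Field F] [CharP F p] [Field E]
    [Algebra F E] (E₀ : IntermediateField F E) (f₀ m : ℕ) (z : Fin f₀ → F)
    (hz : ∀ c : Fin f₀ → ℕ, ∑ t, (c t : F) * z t = 0 → ∀ t, p ∣ c t) (B : Fin f₀ → E)
    (hB : ∀ i < f₀, ∑ t, algebraMap F E (z t) * B t ^ p ^ (m + i) ∈ E₀) (t : Fin f₀) :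
    IsAlgebraic E₀ (B t) := by
  classical
  have hp : p.Prime := Fact.out
  have : CharP E p := charP_of_injective_algebraMap (algebraMap F E).injective p
  let A : Matrix (Fin f₀) (Fin f₀) F := Matrix.of fun (k t : Fin f₀) => z t ^ p ^ (k : ℕ)
  have hA : A⁻¹ * A = 1 :=
    Matrix.nonsing_inv_mul A (isUnit_iff_ne_zero.2 (c67_moore_det p F f₀ z hz))
  have h1 : ∀ k : Fin f₀, ∑ t, algebraMap F E (A k t) * B t ^ p ^ (m + (f₀ - 1)) ∈ E₀ := by
    intro k
    have hk := k.2
    have := pow_mem (hB (f₀ - 1 - k) (by omega)) (p ^ (k : ℕ))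
    rw [sum_pow_char_pow] at this
    convert this using 2 with t
    rw [mul_pow, ← map_pow, ← pow_mul, ← pow_add]
    congr 3
    omega
  have h2 : B t ^ p ^ (m + (f₀ - 1)) = ∑ k, algebraMap F E (A⁻¹ t k) *
      ∑ t', algebraMap F E (A k t') * B t' ^ p ^ (m + (f₀ - 1)) := by
    simp only [Finset.mul_sum, ← mul_assoc, ← map_mul]
    rw [Finset.sum_comm]
    simp only [← Finset.sum_mul, ← map_sum, ← Matrix.mul_apply, hA]
    rw [Finset.sum_eq_single t]
    · simp
    · intro l _ hl
      simp [Matrix.one_apply_ne (Ne.symm hl)]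
    · simp
  have h3 : B t ^ p ^ (m + (f₀ - 1)) ∈ E₀ := by
    rw [h2]
    exact sum_mem fun k _ => mul_mem (E₀.algebraMap_mem _) (h1 k)
  exact IsAlgebraic.of_pow (pow_pos hp.pos _)
    (isAlgebraic_algebraMap (⟨_, h3⟩ : E₀))

end Pool.Agent.P.MP_7cb106_nt.GK
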