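import Pool.Agent.P.MP_7cb106_nt.GK.IfaceC
import Pool.Agent.P.MP_7cb106_nt.GK.C67b
import Pool.Agent.P.MP_7cb106_nt.GK.C67c

section
/-! Step NIL. -/

set_option autoImplicit false

namespace Pool.Agent.P.MP_7cb106_nt.GK

open Matrix Polynomial

theorem nil_expand {n : ℕ} {R : Type} [CommRing R] (M : Mat n R) :
    (-M).charpoly = ∑ k ∈ Finset.range (n + 1), C (Ek M k) * X ^ (n - k) := by
  classical
  have h1 : ∀ s : Equiv.Perm (Fin n), ∏ j, charmatrix (-M) (s j) j =
      ∑ S ∈ (Finset.univ : Finset (Fin n)).powerset,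
        if ∀ j ∉ S, s j = j then C (∏ j ∈ S, M (s j) j) * X ^ (n - S.card) else 0 := by
    intro s
    have h2 : ∀ j, charmatrix (-M) (s j) j = C (M (s j) j) + if s j = j then X else 0 := by
      intro j
      rw [charmatrix_apply, Matrix.diagonal_apply, Matrix.neg_apply, map_neg, sub_neg_eq_add,
        add_comm]
    simp only [h2]
    rw [Finset.prod_add]
    refine Finset.sum_congr rfl fun S _ => ?_
    split_ifs with h
    · rw [map_prod, Finset.prod_congr rfl (g := fun _ => (X : R[X]))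
        (fun j hj => if_pos (h j (Finset.mem_sdiff.1 hj).2)), Finset.prod_const,
        Finset.card_univ_sdiff, Fintype.card_fin]
    · push Not at h
      obtain ⟨j, hj, hs⟩ := h
      rw [Finset.prod_eq_zero (s := Finset.univ \ S) (i := j) (by simp [hj]) (if_neg hs), mul_zero]
  rw [Matrix.charpoly, Matrix.det_apply]
  simp only [h1, Finset.smul_sum]
  rw [Finset.sum_comm, Finset.sum_powerset, Finset.card_univ, Fintype.card_fin]
  refine Finset.sum_congr rfl fun k _ => ?_
  rw [Ek, map_sum, Finset.sum_mul]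
  refine Finset.sum_congr rfl fun S hS => ?_
  rw [map_sum, Finset.sum_mul, Finset.sum_filter, (Finset.mem_powersetCard.1 hS).2]
  refine Finset.sum_congr rfl fun s _ => ?_
  split_ifs
  · rw [map_zsmul, smul_mul_assoc, Units.smul_def]
  · rw [smul_zero]

theorem nil_zero {n : ℕ} {R : Type} [CommRing R] (M : Mat n R) : Ek M 0 = 1 := by
  have h : (Finset.univ.filter fun s : Equiv.Perm (Fin n) => ∀ j ∉ (∅ : Finset (Fin n)), s j = j)
      = {1} := by
    ext s
    simp [Equiv.ext_iff]
  rw [Ek, Finset.powersetCard_zero, Finset.sum_singleton, h]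
  simp

theorem p_NIL :
    S_NIL := by
  refine ⟨fun n R _ M h => ?_, fun n R R' _ _ φ M k => ?_⟩
  · have h1 : (-M).charpoly = X ^ n := by
      rw [nil_expand, Finset.sum_eq_single 0, nil_zero, map_one, one_mul, Nat.sub_zero]
      · intro k hk h0
        rw [h k (by omega) (by have := Finset.mem_range.1 hk; omega), map_zero, zero_mul]
      · simp
    have h2 := Matrix.aeval_self_charpoly (-M)
    rw [h1, map_pow, aeval_X] at h2
    exact isNilpotent_neg_iff.1 ⟨n, h2⟩
  · simp only [Ek, map_sum, map_zsmul, map_prod, Matrix.map_apply]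

end Pool.Agent.P.MP_7cb106_nt.GK
end

section
/-! Step BOX. -/

set_option autoImplicit false

namespace Pool.Agent.P.MP_7cb106_nt.GK

open Matrix

theorem box_pow {F V : Type} [Field F] [AddCommGroup V] [Module F V] (f : Module.End F V)
    (W : Submodule F V) (h : ∀ v ∈ W, f v ∈ W) (k : ℕ) : ∀ v ∈ W, (f ^ k) v ∈ W := by
  induction k with
  | zero => intro v hv; simpa using hv
  | succ k ih =>
    intro v hv
    rw [pow_succ', Module.End.mul_apply]
    exact h _ (ih v hv)

theorem box_list {ι F V : Type} [Field F] [AddCommGroup V] [Module F V]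
    (β : ι → Module.End F V) (W : Submodule F V) (m : ℕ) (α : ι → ℕ)
    (h : ∀ i, ∀ v ∈ W, β i v ∈ W) (h0 : ∀ i, ∀ v ∈ W, (β i ^ m) v = 0) (l : List ι) :
    ∀ v ∈ W, (l.map fun i => β i ^ α i).prod v ∈ W ∧
      ((∃ i ∈ l, m ≤ α i) → (l.map fun i => β i ^ α i).prod v = 0) := by
  induction l with
  | nil => intro v hv; simpa using hv
  | cons a l ih =>
    intro v hv
    rw [List.map_cons, List.prod_cons, Module.End.mul_apply]
    obtain ⟨h1, h2⟩ := ih v hv
    refine ⟨box_pow _ W (h a) _ _ h1, ?_⟩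
    rintro ⟨i, hi, hm⟩
    rcases List.mem_cons.1 hi with rfl | hi
    · obtain ⟨k, hk⟩ := Nat.exists_eq_add_of_le' hm
      rw [hk, pow_add, Module.End.mul_apply, h0 _ _ h1, map_zero]
    · rw [h2 ⟨i, hi, hm⟩, map_zero]

theorem p_BOX :
    S_BOX := by
  intro ι F V _ _ _ _ β μ W m h h0 v hv α hα
  refine (box_list β W m α h h0 _ v hv).2 ?_
  by_contra hc
  have hlt : ∀ i, α i ≤ m := fun i => by
    by_contra hi
    exact hc ⟨i, by simp, by omega⟩
  have h1 : wt μ α ≤ m * ∑ i, μ i := by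
    rw [wt, Finsupp.weight_apply, Finsupp.sum_fintype _ _ (by simp), Finset.mul_sum]
    exact Finset.sum_le_sum fun i _ => by
      rw [smul_eq_mul]; exact Nat.mul_le_mul_right _ (hlt i)
  omega

end Pool.Agent.P.MP_7cb106_nt.GK
end

section
/-! Step EXT. -/

set_option autoImplicit false

namespace Pool.Agent.P.MP_7cb106_nt.GK

open Matrix

/-- the linear map with prescribed values on the monomials -/
noncomputable def ext_L {ι F V : Type} [Field F] [AddCommGroup V] [Module F V]
    (Ψ : (ι →₀ ℕ) → V) : MvPolynomial ι F →ₗ[F] V :=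
  (MvPolynomial.basisMonomials ι F).constr F Ψ

theorem ext_L_monomial {ι F V : Type} [Field F] [AddCommGroup V] [Module F V]
    (Ψ : (ι →₀ ℕ) → V) (α : ι →₀ ℕ) (c : F) :
    ext_L Ψ (MvPolynomial.monomial α c) = c • Ψ α := by
  have h : MvPolynomial.monomial α c = c • MvPolynomial.basisMonomials ι F α := by
    simp [MvPolynomial.smul_monomial]
  rw [h, map_smul, ext_L, Module.Basis.constr_basis]

theorem ext_L_congr {ι F V : Type} [Field F] [AddCommGroup V] [Module F V]
    (Ψ Ψ' : (ι →₀ ℕ) → V) (P : MvPolynomial ι F) (h : ∀ α ∈ P.support, Ψ α = Ψ' α) :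
    ext_L Ψ P = ext_L Ψ' P := by
  conv_lhs => rw [P.as_sum, map_sum]
  conv_rhs => rw [P.as_sum, map_sum]
  exact Finset.sum_congr rfl fun α hα => by rw [ext_L_monomial, ext_L_monomial, h α hα]

theorem ext_L_zero {ι F V : Type} [Field F] [AddCommGroup V] [Module F V]
    (P : MvPolynomial ι F) : ext_L (fun _ => (0 : V)) P = 0 := by
  rw [P.as_sum, map_sum]
  exact Finset.sum_eq_zero fun α _ => by rw [ext_L_monomial, smul_zero]

theorem ext_L_mul {ι F V : Type} [Field F] [AddCommGroup V] [Module F V]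
    (Ψ : (ι →₀ ℕ) → V) (γ : ι →₀ ℕ) (a : F) (P : MvPolynomial ι F) :
    ext_L Ψ (MvPolynomial.monomial γ a * P) = a • ext_L (fun α => Ψ (α + γ)) P := by
  induction P using MvPolynomial.induction_on' with
  | monomial α c =>
    rw [MvPolynomial.monomial_mul, ext_L_monomial, ext_L_monomial, mul_smul, add_comm]
  | add p q hp hq => rw [mul_add, map_add, map_add, hp, hq, smul_add]

/-- the pairing of a family of vectors with a tuple of polynomials -/
noncomputable def ext_Lam {ι F V : Type} [Field F] [AddCommGroup V] [Module F V] {n : ℕ}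
    (π : V →ₗ[F] (Fin n → F)) (Ψ : (ι →₀ ℕ) → V) (r : Fin n → MvPolynomial ι F) : F :=
  ∑ c, π (ext_L Ψ (r c)) c

theorem ext_Lam_add {ι F V : Type} [Field F] [AddCommGroup V] [Module F V] {n : ℕ}
    (π : V →ₗ[F] (Fin n → F)) (Ψ : (ι →₀ ℕ) → V) (r r' : Fin n → MvPolynomial ι F) :
    ext_Lam π Ψ (r + r') = ext_Lam π Ψ r + ext_Lam π Ψ r' := by
  simp only [ext_Lam, Pi.add_apply, map_add, Finset.sum_add_distrib]

theorem ext_Lam_mul {ι F V : Type} [Field F] [AddCommGroup V] [Module F V] {n : ℕ}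
    (π : V →ₗ[F] (Fin n → F)) (Ψ : (ι →₀ ℕ) → V) (γ : ι →₀ ℕ) (a : F)
    (r : Fin n → MvPolynomial ι F) :
    ext_Lam π Ψ ((MvPolynomial.monomial γ a : MvPolynomial ι F) • r) =
      a * ext_Lam π (fun α => Ψ (α + γ)) r := by
  simp only [ext_Lam, Pi.smul_apply, smul_eq_mul, ext_L_mul, map_smul, Finset.mul_sum]

theorem ext_Lam_congr {ι F V : Type} [Field F] [AddCommGroup V] [Module F V] {n : ℕ}
    (π : V →ₗ[F] (Fin n → F)) (Ψ Ψ' : (ι →₀ ℕ) → V) (r : Fin n → MvPolynomial ι F)
    (h : ∀ c, ∀ α ∈ (r c).support, Ψ α = Ψ' α) : ext_Lam π Ψ r = ext_Lam π Ψ' r :=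
  Finset.sum_congr rfl fun c _ => by rw [ext_L_congr Ψ Ψ' _ (h c)]

theorem ext_Lam_zero {ι F V : Type} [Field F] [AddCommGroup V] [Module F V] {n : ℕ}
    (π : V →ₗ[F] (Fin n → F)) (r : Fin n → MvPolynomial ι F) :
    ext_Lam π (fun _ => (0 : V)) r = 0 := by
  simp only [ext_Lam, ext_L_zero, map_zero, Pi.zero_apply, Finset.sum_const_zero]

/-- the homogeneous relations of weight at most `D` -/
def ext_G {ι F V : Type} [Fintype ι] [Field F] [AddCommGroup V] [Module F V] {n : ℕ}
    (β : ι → Module.End F V) (μ : ι → ℕ) (π : V →ₗ[F] (Fin n → F)) (D : ℕ) :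
    Set (Fin n → MvPolynomial ι F) :=
  {g | ∃ t', t' ≤ D ∧ (∀ c, ∀ α ∈ (g c).support, wt μ α = t') ∧
    ∀ w ∈ Vs β μ (t' + 1), ext_Lam π (fun α => mono β α w) g = 0}

theorem ext_kill {ι F V : Type} [Fintype ι] [Field F] [AddCommGroup V] [Module F V] {n : ℕ}
    (β : ι → Module.End F V) (μ : ι → ℕ) (π : V →ₗ[F] (Fin n → F)) (D t : ℕ)
    (Ψ : (ι →₀ ℕ) → V)
    (hyp : ∀ (γ : ι →₀ ℕ) (t' : ℕ), t' ≤ D → wt μ γ + t' = t → ∃ w ∈ Vs β μ (t' + 1),
      ∀ α, wt μ α = t' → Ψ (α + γ) = mono β α w)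
    (r : Fin n → MvPolynomial ι F)
    (hr : r ∈ Submodule.span (MvPolynomial ι F) (ext_G β μ π D)) :
    ∀ p : MvPolynomial ι F,
      ext_Lam π (fun α => if wt μ α = t then Ψ α else 0) (p • r) = 0 := by
  induction hr using Submodule.span_induction with
  | mem g hg =>
    obtain ⟨t', ht', hh, hw⟩ := hg
    intro p
    induction p using MvPolynomial.induction_on' with
    | monomial γ a =>
      rw [ext_Lam_mul]
      by_cases h : wt μ γ + t' = t
      · obtain ⟨w, hwm, hΨ⟩ := hyp γ t' ht' h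
        rw [ext_Lam_congr π _ (fun α => mono β α w) g, hw w hwm, mul_zero]
        intro c α hα
        have h1 : wt μ (α + γ) = t := by
          rw [wt, map_add]
          have := hh c α hα
          simp only [wt] at this h
          omega
        rw [if_pos h1, hΨ α (hh c α hα)]
      · rw [ext_Lam_congr π _ (fun _ => 0) g, ext_Lam_zero, mul_zero]
        intro c α hα
        have h1 : wt μ (α + γ) ≠ t := by
          rw [wt, map_add]
          have := hh c α hα
          simp only [wt] at this h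
          omega
        rw [if_neg h1]
    | add p q hp hq => rw [add_smul, ext_Lam_add, hp, hq, add_zero]
  | zero =>
    intro p
    simp only [smul_zero, ext_Lam, Pi.zero_apply, map_zero, Finset.sum_const_zero]
  | add x y _ _ hx hy =>
    intro p
    rw [smul_add, ext_Lam_add, hx p, hy p, add_zero]
  | smul a x _ hx =>
    intro p
    rw [smul_smul]
    exact hx _

theorem p_EXT :
    S_EXT := by
  classical
  intro ι F V _ _ _ _ β μ hG hfin
  obtain ⟨π, hπ⟩ := LinearMap.exists_extend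
    ((Module.finBasis F (Vs β μ 1)).equivFun.toLinearMap)
  have hinj : ∀ v ∈ Vs β μ 1, π v = 0 → v = 0 := by
    intro v hv h0
    have h1 := LinearMap.congr_fun hπ ⟨v, hv⟩
    simp only [LinearMap.comp_apply, Submodule.subtype_apply, h0, LinearEquiv.coe_coe] at h1
    have h2 := (Module.finBasis F (Vs β μ 1)).equivFun.map_eq_zero_iff.1 h1.symm
    exact congrArg Subtype.val h2
  clear hπ
  generalize Module.finrank F (Vs β μ 1) = n at π hinj
  let N : ℕ →o Submodule (MvPolynomial ι F) (Fin n → MvPolynomial ι F) :=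
    ⟨fun D => Submodule.span _ (ext_G β μ π D), fun D D' h => Submodule.span_mono (by
      rintro g ⟨t', ht', hg⟩
      exact ⟨t', ht'.trans h, hg⟩)⟩
  obtain ⟨D, hD⟩ := monotone_stabilizes_iff_noetherian.2 inferInstance N
  refine ⟨D, fun t Ψ hΨ hyp => ?_⟩
  have hA : {α : ι →₀ ℕ | wt μ α = t}.Finite :=
    Finsupp.finite_of_nat_weight_eq μ (fun i => (hG.pos i).ne') t
  haveI : Fintype {α : ι →₀ ℕ | wt μ α = t} := hA.fintype
  let T : Vs β μ (t + 1) →ₗ[F] ({α : ι →₀ ℕ | wt μ α = t} × Fin n → F) :=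
    LinearMap.pi fun i => (LinearMap.proj i.2) ∘ₗ π ∘ₗ (mono β i.1.1) ∘ₗ (Vs β μ (t + 1)).subtype
  have hT : ∀ u i, T u i = π (mono β i.1.1 u.1) i.2 := fun _ _ => rfl
  have hmem : (fun i : {α : ι →₀ ℕ | wt μ α = t} × Fin n => π (Ψ i.1.1) i.2) ∈
      LinearMap.range T := by
    by_contra hn
    obtain ⟨φ, hφ, hker⟩ := Submodule.exists_le_ker_of_notMem hn
    let r : Fin n → MvPolynomial ι F := fun c => ∑ α : {α : ι →₀ ℕ | wt μ α = t},
      MvPolynomial.monomial α.1 (φ fun j => if (α, c) = j then 1 else 0)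
    have hr : ∀ Ψ' : (ι →₀ ℕ) → V, ext_Lam π Ψ' r =
        φ (fun i : {α : ι →₀ ℕ | wt μ α = t} × Fin n => π (Ψ' i.1.1) i.2) := by
      intro Ψ'
      rw [LinearMap.pi_apply_eq_sum_univ φ, Fintype.sum_prod_type_right]
      refine Finset.sum_congr rfl fun c _ => ?_
      simp only [r, map_sum, ext_L_monomial, map_smul, Finset.sum_apply, Pi.smul_apply,
        smul_eq_mul, mul_comm]
    have hsupp : ∀ c, ∀ α ∈ (r c).support, wt μ α = t := by
      intro c α hα
      obtain ⟨α', _, h'⟩ := Finset.mem_biUnion.1 (MvPolynomial.support_sum hα)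
      have := Finset.mem_singleton.1 (MvPolynomial.support_monomial_subset h')
      rw [this]
      exact α'.2
    have hrG : r ∈ N (max t D) := Submodule.subset_span ⟨t, le_max_left _ _, hsupp, fun w hw => by
      rw [hr]
      exact hker ⟨⟨w, hw⟩, rfl⟩⟩
    rw [← hD _ (le_max_right _ _)] at hrG
    have h0 := ext_kill β μ π D t Ψ hyp r hrG 1
    rw [one_smul, ext_Lam_congr π _ Ψ r (fun c α hα => if_pos (hsupp c α hα)), hr] at h0
    exact hφ h0
  obtain ⟨u, hu⟩ := hmem
  refine ⟨u.1, u.2, fun α hα => ?_⟩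
  refine sub_eq_zero.1 (hinj _ (Submodule.sub_mem _ ?_ (hΨ α hα)) ?_)
  · intro α' hα'
    exact hG.zero α' α (t + 1) u.1 u.2 (by omega)
  · rw [map_sub, sub_eq_zero]
    funext c
    exact congrFun hu (⟨α, hα⟩, c)

end Pool.Agent.P.MP_7cb106_nt.GK
end

section
/-! Step CC. -/

set_option autoImplicit false

namespace Pool.Agent.P.MP_7cb106_nt.GK

open Matrix

theorem c67_choose (n : ℕ) : 2 * n.choose 2 + n = n * n := by
  induction n with
  | zero => simp
  | succ n ih =>
    rw [Nat.choose_succ_succ' n 1, Nat.choose_one_right]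
    have : (n + 1) * (n + 1) = n * n + 2 * n + 1 := by ring
    have h2 : n.choose (1 + 1) = n.choose 2 := rfl
    omega

theorem c67_Ym_map (p : ℕ) {n e f₀ g : ℕ} [NeZero e] {F E : Type} [Field F] [Field E]
    [Algebra F E] (φ : MvPolynomial (Ix n e f₀ g) F →ₐ[F] E)
    (z : Fin n → Fin n → Fin e → Fin f₀ → F) (α : F) (J : ℕ) (a b : Fin n) :
    φ (Ym p z α J a b) = algebraMap F E (α ^ (J / e)) *
      ∑ t, algebraMap F E (z a b (Fin.ofNat e J) t) *
        φ (MvPolynomial.X (Sum.inl (a, b, Fin.ofNat e J, t))) ^ p ^ (J / e) := by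
  rw [Ym, map_sum, Finset.mul_sum]
  refine Finset.sum_congr rfl fun t _ => ?_
  rw [← MvPolynomial.C_mul_X_pow_eq_monomial, map_mul, map_pow, MvPolynomial.algHom_C, map_mul]
  ring

theorem p_CC (hGER : S_GER) (hNIL : S_NIL) :
    S_CC := by
  intro p _ n e f₀ g _ F V _ _ _ _ _ hf₀ β μ hG hfin hcomm z α J₁ hzq hzi hα hαq hrel
  have hp : p.Prime := Fact.out
  have he : 0 < e := Nat.pos_of_ne_zero (NeZero.ne e)
  let W : Submodule F V := ⨅ j, LinearMap.ker (β (Sum.inr j))
  have hWm : ∀ v, v ∈ W ↔ ∀ j, β (Sum.inr j) v = 0 := fun v => by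
    simp only [W, Submodule.mem_iInf, LinearMap.mem_ker]
  have hW : ∀ i, ∀ v ∈ W, β i v ∈ W := by
    intro i v hv
    rw [hWm] at hv ⊢
    intro j
    rw [← Module.End.mul_apply, (hcomm j i).eq, Module.End.mul_apply, hv j, map_zero]
  have hTr : c67_TrBound F (Ix n e f₀ g) (c67_I hG W hW) (e * f₀ * n.choose 2) := by
    intro E _ _ φ hφ hgen k a ha
    have : CharP E p := charP_of_injective_algebraMap (algebraMap F E).injective p
    let y : ℕ → Mat n E := fun j => (Ym p (g := g) z α (J₁ + j)).map φ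
    have hy : ∀ j a b, y j a b = φ (Ym p z α (J₁ + j) a b) := fun _ _ _ => rfl
    have h1 : ∀ a b, y (e * f₀) a b = (α ^ f₀) • y 0 a b ^ p ^ f₀ := by
      intro a b
      have e1 : Fin.ofNat e (J₁ + e * f₀) = Fin.ofNat e J₁ := Fin.ext (by simp)
      have e2 : (J₁ + e * f₀) / e = J₁ / e + f₀ := Nat.add_mul_div_left _ _ he
      rw [hy, hy, c67_Ym_map, c67_Ym_map, e1, e2, add_zero, mul_pow, sum_pow_char_pow,
        Algebra.smul_def, ← mul_assoc, ← map_pow, ← map_mul, ← pow_mul, mul_comm (J₁ / e),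
        pow_mul, hαq, ← pow_add, add_comm f₀]
      congr 1
      refine Finset.sum_congr rfl fun t _ => ?_
      rw [mul_pow, ← map_pow (algebraMap F E), hzq, ← pow_mul, ← pow_add]
    have h2 : ∀ j < e * f₀, IsNilpotent (pen (y j) (y (j + 1))) := by
      intro j _
      have e1 : pen (y j) (y (j + 1)) =
          (pen (Ym p (g := g) z α (J₁ + j)) (Ym p z α (J₁ + j + 1))).map
            (Polynomial.mapRingHom φ.toRingHom) := by
        ext a b : 2
        simp [pen, y, add_assoc]
      refine hNIL.1 n _ _ fun k hk1 hk2 => ?_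
      rw [e1, hNIL.2]
      ext i
      obtain ⟨s, hs1, hs2⟩ := hrel (J₁ + j) (Nat.le_add_right _ _) k hk1 hk2 i
      rw [Polynomial.coe_mapRingHom, Polynomial.coeff_map, Polynomial.coeff_zero]
      exact hφ _ ((c67_mem_I_of_hom hG W hW _ s hs1).2 fun v hv _ => hs2 v hv)
    have h3 : ∀ x : E, IsAlgebraic
        (IntermediateField.adjoin F {x | ∃ j < e * f₀, ∃ a b, x = y j a b}) x := by
      set E₀ := IntermediateField.adjoin F {x | ∃ j < e * f₀, ∃ a b, x = y j a b} with hE₀
      have hX : ∀ i, IsAlgebraic E₀ (φ (MvPolynomial.X i)) := by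
        rintro (⟨a, b, j, t⟩ | j)
        · obtain ⟨j₀, hj₀, hj⟩ : ∃ j₀ < e, (J₁ + j₀) % e = j := by
            refine ⟨(j + (e - J₁ % e)) % e, Nat.mod_lt _ he, ?_⟩
            have h0 := Nat.mod_lt J₁ he
            have : J₁ % e + (j + (e - J₁ % e)) = j + e := by omega
            rw [Nat.add_mod_mod, ← Nat.mod_add_mod, this, Nat.add_mod_right, Nat.mod_eq_of_lt j.2]
          refine c67_moore p F E E₀ f₀ ((J₁ + j₀) / e) (z a b j) (hzi a b j)
            (fun t => φ (MvPolynomial.X (Sum.inl (a, b, j, t)))) (fun i hi => ?_) t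
          have hlt : j₀ + e * i < e * f₀ := by
            have : e * (i + 1) ≤ e * f₀ := Nat.mul_le_mul_left _ hi
            rw [mul_add, mul_one] at this
            omega
          have hmem : y (j₀ + e * i) a b ∈ E₀ :=
            IntermediateField.subset_adjoin _ _ ⟨_, hlt, a, b, rfl⟩
          have e1 : Fin.ofNat e (J₁ + (j₀ + e * i)) = j := Fin.ext (by
            rw [← hj, ← add_assoc]
            simp)
          have e2 : (J₁ + (j₀ + e * i)) / e = (J₁ + j₀) / e + i := by
            rw [← add_assoc]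
            exact Nat.add_mul_div_left _ _ he
          rw [hy, c67_Ym_map, e1, e2] at hmem
          have hne : algebraMap F E (α ^ ((J₁ + j₀) / e + i)) ≠ 0 :=
            (map_ne_zero _).2 (pow_ne_zero _ hα)
          have := mul_mem (inv_mem (E₀.algebraMap_mem (α ^ ((J₁ + j₀) / e + i)))) hmem
          rwa [inv_mul_cancel_left₀ hne] at this
        · have hI : MvPolynomial.X (Sum.inr j) ∈ c67_I hG W hW := by
            refine (c67_mem_I_of_hom hG W hW _ _
              (MvPolynomial.isWeightedHomogeneous_X F μ (Sum.inr j))).2 fun v _ hv => ?_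
            rw [MvPolynomial.X, ev_monomial, mono_single, one_smul, pow_one]
            exact (hWm v).1 hv j
          rw [hφ _ hI]
          exact isAlgebraic_zero
      have hP : ∀ P, IsAlgebraic E₀ (φ P) := by
        intro P
        induction P using MvPolynomial.induction_on with
        | C c =>
          rw [MvPolynomial.algHom_C]
          exact isAlgebraic_algebraMap (⟨_, E₀.algebraMap_mem c⟩ : E₀)
        | add P Q hP hQ =>
          rw [map_add]
          exact hP.add hQ
        | mul_X P i hP =>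
          rw [map_mul]
          exact hP.mul (hX i)
      intro x
      obtain ⟨P, Q, rfl⟩ := hgen x
      rw [div_eq_mul_inv]
      exact (hP P).mul (hP Q).inv
    have h4 := hGER p n (e * f₀) f₀ F E hf₀ y (α ^ f₀) (pow_ne_zero _ hα) h1 h2 h3 k a ha
    rw [← c67_choose n, mul_add, mul_left_comm] at h4
    omega
  obtain ⟨C, hC⟩ := c67_bound hG W hW _ hTr
  exact ⟨C, fun s m v hv hm => hC s m v hv fun i => ⟨(hm i).1, (hWm _).2 (hm i).2⟩⟩

end Pool.Agent.P.MP_7cb106_nt.GK
end

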