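import Pool.Agent.P.MP_7cb106_nt.GK.IfaceE

section
/-! Step BIN. -/

set_option autoImplicit false

namespace Pool.Agent.P.MP_7cb106_nt.GK

open Filter Topology

theorem bin_one (p m i : ℕ) (hp : p.Prime) (h1 : 1 ≤ i) (h2 : i ≤ p ^ m) :
    ∃ m' c : ℕ, m' ≤ m ∧ i = p ^ m' * c ∧ p ^ (m - m') ∣ (p ^ m).choose i := by
  have hi : i ≠ 0 := by omega
  have h := Nat.factorization_choose_prime_pow_add_factorization hp h2 hi
  refine ⟨i.factorization p, i / p ^ i.factorization p, by omega,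
    (Nat.ordProj_mul_ordCompl_eq_self i p).symm, ?_⟩
  have h3 : m - i.factorization p = ((p ^ m).choose i).factorization p := by omega
  rw [h3]
  exact Nat.ordProj_dvd _ _

theorem bin_sign (p m : ℕ) (hp : p.Prime) (k : ℕ) (hk : k < p ^ m) :
    (p : ℤ) ∣ (((p ^ m - 1).choose k : ℕ) : ℤ) - (-1) ^ k := by
  induction k with
  | zero => simp
  | succ k ih =>
    have h1 := ih (by omega)
    have h2 : p ∣ (p ^ m).choose (k + 1) := hp.dvd_choose_pow (by omega) (by omega)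
    have h3 : (p ^ m).choose (k + 1) = (p ^ m - 1).choose k + (p ^ m - 1).choose (k + 1) := by
      have h4 : p ^ m = (p ^ m - 1) + 1 := by omega
      conv_lhs => rw [h4]
      exact Nat.choose_succ_succ' _ _
    have h5 : (p : ℤ) ∣ (((p ^ m - 1).choose k : ℕ) : ℤ) + (((p ^ m - 1).choose (k + 1) : ℕ) : ℤ) := by
      rw [← Nat.cast_add, ← h3]
      exact Int.natCast_dvd_natCast.2 h2
    have h6 := dvd_sub h5 h1
    have e : (((p ^ m - 1).choose (k + 1) : ℕ) : ℤ) - (-1) ^ (k + 1) =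
        (((p ^ m - 1).choose k : ℕ) : ℤ) + (((p ^ m - 1).choose (k + 1) : ℕ) : ℤ) -
          ((((p ^ m - 1).choose k : ℕ) : ℤ) - (-1) ^ k) := by
      rw [pow_succ]; ring
    rw [e]
    exact h6

theorem bin_par (p m : ℕ) (hp : p.Prime) : (p : ℤ) ∣ (-1) ^ (p ^ m - 1) - 1 := by
  rcases hp.eq_two_or_odd' with h | h
  · subst h
    rcases neg_one_pow_eq_or ℤ (2 ^ m - 1) with h | h <;> rw [h] <;> norm_num
  · have h1 : Odd (p ^ m) := h.pow
    have h2 : Even (p ^ m - 1) := Nat.Odd.sub_odd h1 odd_one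
    rw [h2.neg_one_pow]
    simp

theorem bin_two (p m m' : ℕ) (hp : p.Prime) (h : m' ≤ m) :
    ∃ c : ℤ, ((p ^ m).choose (p ^ m') : ℤ) = (p : ℤ) ^ (m - m') * (1 + p * c) := by
  have hpos : 0 < p ^ m' := pow_pos hp.pos _
  have hpos2 : 0 < p ^ m := pow_pos hp.pos _
  have hle : p ^ m' ≤ p ^ m := Nat.pow_le_pow_right hp.pos h
  have h1 := bin_sign p m hp (p ^ m' - 1) (by omega)
  have h2 := bin_par p m' hp
  obtain ⟨c, hc⟩ := dvd_add h1 h2
  refine ⟨c, ?_⟩
  have h3 := Nat.add_one_mul_choose_eq (p ^ m - 1) (p ^ m' - 1)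
  rw [Nat.sub_add_cancel hpos, Nat.sub_add_cancel hpos2] at h3
  have h4 : (p ^ m).choose (p ^ m') = p ^ (m - m') * (p ^ m - 1).choose (p ^ m' - 1) := by
    apply Nat.eq_of_mul_eq_mul_right hpos
    rw [← h3, mul_right_comm, ← pow_add, Nat.sub_add_cancel h]
  have h5 : (((p ^ m - 1).choose (p ^ m' - 1) : ℕ) : ℤ) = 1 + p * c := by linarith
  rw [h4, Nat.cast_mul, h5]
  push_cast
  ring

theorem bin_three (p e a d J : ℕ) (w : ℕ → ℕ) (hw : Wt p e a w) (hd : w (J + 1) = w J + d)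
    (J' : ℕ) :
    w J + d * J' ≤ w J' + d * J ∧ (J' ≠ J → J' ≠ J + 1 → w J + d * J' + 1 ≤ w J' + d * J) := by
  have hA : ∀ t, w (J + t) + d + t ≤ w (J + t + 1) := by
    intro t
    induction t with
    | zero => simp [hd]
    | succ t ih =>
      have h := hw.conv (J + t)
      have e1 : J + (t + 1) = J + t + 1 := by ring
      have e2 : J + t + 1 + 1 = J + t + 2 := by ring
      rw [e1, e2]
      omega
  have hA2 : ∀ t, w (J + 1) + d * t + t ≤ w (J + 1 + t) := by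
    intro t
    induction t with
    | zero => simp
    | succ t ih =>
      have h := hA (1 + t)
      have e1 : J + (1 + t) = J + 1 + t := by ring
      have e2 : J + 1 + (t + 1) = J + 1 + t + 1 := by ring
      rw [e1] at h
      rw [e2, Nat.mul_succ]
      omega
  have hB : ∀ t K, K + t = J → w (K + 1) + t ≤ w K + d := by
    intro t
    induction t with
    | zero =>
      intro K hK
      have : K = J := by omega
      subst this
      omega
    | succ t ih =>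
      intro K hK
      have h := ih (K + 1) (by omega)
      have h2 := hw.conv K
      have e2 : K + 1 + 1 = K + 2 := by ring
      rw [e2] at h
      omega
  have hC : ∀ t K, K + t = J → w J + t ≤ w K + d * t := by
    intro t
    induction t with
    | zero =>
      intro K hK
      have : K = J := by omega
      subst this
      simp
    | succ t ih =>
      intro K hK
      have h := ih (K + 1) (by omega)
      have h2 := hB (t + 1) K hK
      rw [Nat.mul_succ]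
      omega
  rcases Nat.lt_or_ge J J' with h | h
  · obtain ⟨t, rfl⟩ : ∃ t, J' = J + 1 + t := ⟨J' - (J + 1), by omega⟩
    have h1 := hA2 t
    have e1 : d * (J + 1 + t) = d * J + d + d * t := by ring
    rw [e1]
    refine ⟨by omega, fun _ h3 => ?_⟩
    omega
  · obtain ⟨t, ht⟩ : ∃ t, J' + t = J := ⟨J - J', by omega⟩
    have h1 := hC t J' ht
    have e1 : d * J = d * J' + d * t := by rw [← ht]; ring
    rw [e1]
    refine ⟨by omega, fun h3 _ => ?_⟩
    omega

theorem p_BIN :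
    S_BIN :=
  ⟨bin_one, bin_two, fun p e a d J w hw hd J' => bin_three p e a d J w hw hd J'⟩

end Pool.Agent.P.MP_7cb106_nt.GK
end

section
/-! Step EXP1. -/

set_option autoImplicit false

namespace Pool.Agent.P.MP_7cb106_nt.GK

open Filter Topology

theorem exp1_cmp {θ : ℝ} (h0 : 0 < θ) (h1 : θ ≤ 1) {x₁ y₁ x₂ y₂ : ℕ} (h : x₁ + y₂ ≤ x₂ + y₁) :
    (θ ^ y₂)⁻¹ * θ ^ x₂ ≤ (θ ^ y₁)⁻¹ * θ ^ x₁ := by
  rw [← div_eq_inv_mul, ← div_eq_inv_mul, div_le_div_iff₀ (pow_pos h0 _) (pow_pos h0 _),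
    ← pow_add, ← pow_add]
  exact pow_le_pow_of_le_one h0.le h1 h

theorem exp1_w {p e a : ℕ} {w : ℕ → ℕ} (h : Wt p e a w) (j m : ℕ) :
    w (j + e * m) = p ^ m * w j := by
  induction m with
  | zero => simp
  | succ m ih => rw [Nat.mul_succ, ← add_assoc, h.per, ih, pow_succ]; ring

theorem exp1_pos {p e a : ℕ} {w : ℕ → ℕ} (h : Wt p e a w) (j : ℕ) : 0 < w j := by
  cases j with
  | zero => exact h.pos
  | succ j => exact (Nat.zero_le _).trans_lt (h.lt j)

theorem exp1_pow {A : Type} [Monoid A] (Fil : ℕ → Set A) (h1 : 1 ∈ Fil 0)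
    (hm : ∀ {t u : ℕ} {a a' : A}, a ∈ Fil t → a' ∈ Fil u → a * a' ∈ Fil (t + u)) {y : A} {s : ℕ}
    (hy : y ∈ Fil s) (i : ℕ) : y ^ i ∈ Fil (i * s) := by
  induction i with
  | zero => simpa using h1
  | succ i ih => rw [pow_succ, Nat.succ_mul]; exact hm ih hy

theorem exp1_expand {L B : Type} [Field L] [AddCommGroup B] [Module L B] (y : Module.End L B)
    (v : B) (n : ℕ) :
    ((1 + y) ^ n) v - v = ∑ i ∈ Finset.Icc 1 n, (n.choose i : L) • (y ^ i) v := by
  rw [add_comm, (Commute.one_right y).add_pow, LinearMap.sum_apply,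
    Finset.sum_range_succ', ← Finset.Ico_add_one_right_eq_Icc, Finset.sum_Ico_eq_sum_range]
  simp only [one_pow, mul_one, pow_zero, one_mul, Nat.choose_zero_right, Nat.cast_one,
    Module.End.one_apply, add_sub_cancel_right]
  refine Finset.sum_congr rfl fun i _ => ?_
  rw [add_comm 1 i, Module.End.mul_apply, Module.End.natCast_apply, map_nsmul,
    Nat.cast_smul_eq_nsmul]

section
variable {p : ℕ} [Fact p.Prime] {L : Type} [NormedField L] [NormedAlgebra ℚ_[p] L]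
  [IsUltrametricDist L]

omit [IsUltrametricDist L] in
theorem exp1_ne : (p : L) ≠ 0 := by
  have hp : (0 : ℝ) < p := by exact_mod_cast (Fact.out : p.Prime).pos
  rw [← norm_pos_iff, norm_p_eq p L]
  exact inv_pos.2 hp

omit [IsUltrametricDist L] in
theorem exp1_norm {u β : L} {θ : ℝ} {d e : ℕ} (hu : ‖u‖ = θ ^ d) (he : ‖u‖ ^ e = (p : ℝ)⁻¹)
    (j m : ℕ) : ‖β * (u ^ j)⁻¹ * ((p : L) ^ m)⁻¹‖ = ‖β‖ * (θ ^ (d * (j + e * m)))⁻¹ := by
  rw [norm_mul, norm_mul, norm_inv, norm_inv, norm_pow, norm_pow, norm_p_eq p L, ← he,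
    pow_mul θ, ← hu, pow_add, pow_mul, mul_inv, mul_assoc]

theorem exp1_gen {u β : L} {θ : ℝ} {d e : ℕ} (hu : ‖u‖ = θ ^ d) (he : ‖u‖ ^ e = (p : ℝ)⁻¹)
    (j : ℕ) {m m' x : ℕ} (hm : m' ≤ m) (hx : p ^ (m - m') ∣ x) :
    ‖β * (u ^ j)⁻¹ * (((p : L) ^ m)⁻¹ * (x : L))‖ ≤ ‖β‖ * (θ ^ (d * (j + e * m')))⁻¹ := by
  obtain ⟨c, rfl⟩ := hx
  obtain ⟨r, rfl⟩ := Nat.exists_eq_add_of_le hm
  have hp : (p : L) ≠ 0 := exp1_ne
  have : β * (u ^ j)⁻¹ * (((p : L) ^ (m' + r))⁻¹ * ((p ^ (m' + r - m') * c : ℕ) : L)) =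
      β * (u ^ j)⁻¹ * ((p : L) ^ m')⁻¹ * (c : L) := by
    rw [Nat.add_sub_cancel_left]
    push_cast
    field_simp
    ring
  rw [this, norm_mul, exp1_norm hu he, ← exp1_norm (β := β) hu he]
  exact mul_le_of_le_one_right (norm_nonneg _) (IsUltrametricDist.norm_natCast_le_one L c)

theorem exp1_lead {u β : L} {θ : ℝ} {d e : ℕ} (h0 : 0 < θ) (h1 : θ < 1) (hu : ‖u‖ = θ ^ d)
    (he : ‖u‖ ^ e = (p : ℝ)⁻¹) (j : ℕ) {m m' x : ℕ} (hm : m' ≤ m) {c : ℤ}
    (hx : (x : ℤ) = (p : ℤ) ^ (m - m') * (1 + p * c)) :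
    ‖β * (u ^ j)⁻¹ * (((p : L) ^ m)⁻¹ * (x : L)) - β * (u ^ (j + e * m'))⁻¹ * (u ^ e / p) ^ m'‖ ≤
      ‖β‖ * (θ ^ (d * (j + e * m')))⁻¹ * θ := by
  obtain ⟨r, rfl⟩ := Nat.exists_eq_add_of_le hm
  have hp : (p : L) ≠ 0 := exp1_ne
  have hu0 : u ≠ 0 := by
    rw [← norm_pos_iff, hu]
    exact pow_pos h0 _
  have hx' : (x : L) = (p : L) ^ r * (1 + p * (c : L)) := by
    rw [Nat.add_sub_cancel_left] at hx
    exact_mod_cast congrArg (Int.cast : ℤ → L) hx
  have : β * (u ^ j)⁻¹ * (((p : L) ^ (m' + r))⁻¹ * (x : L)) -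
      β * (u ^ (j + e * m'))⁻¹ * (u ^ e / p) ^ m' =
      β * (u ^ j)⁻¹ * ((p : L) ^ m')⁻¹ * (p * (c : L)) := by
    rw [hx', div_pow, ← pow_mul]
    field_simp
    ring
  rw [this, norm_mul, exp1_norm hu he, ← exp1_norm (β := β) hu he]
  refine mul_le_mul_of_nonneg_left ?_ (norm_nonneg _)
  have hp1 : (1 : ℝ) < p := by exact_mod_cast (Fact.out : p.Prime).one_lt
  have hde : d * e ≠ 0 := by
    intro h
    rw [hu, ← pow_mul, h, pow_zero] at he
    exact absurd he (inv_lt_one_of_one_lt₀ hp1).ne'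
  rw [norm_mul, norm_p_eq p L, ← he, hu, ← pow_mul]
  calc θ ^ (d * e) * ‖(c : L)‖ ≤ θ ^ (d * e) :=
        mul_le_of_le_one_right (pow_pos h0 _).le (IsUltrametricDist.norm_intCast_le_one L c)
    _ ≤ θ := pow_le_of_le_one h0.le h1.le hde

end

theorem p_EXP1 (hBIN : S_BIN) :
    S_EXP1 := by
  intro p _ L B ι _ _ _ _ _ _ ϖ b μ N e a J j Fil w θ M u β y v z hF hW h0 h1 hθ hu he hw hj hy
    hv hz t A hA
  obtain ⟨B1, B2, B3⟩ := hBIN
  have hp : p.Prime := Fact.out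
  have hu' : ‖u‖ = θ ^ (a * N) := by rw [hu, ← hθ, ← pow_mul, mul_comm]
  set d := a * N with hd
  have hM : 0 ≤ M := by
    have h := hv 0 1 hF.one
    rw [pow_zero, mul_one] at h
    exact (norm_nonneg _).trans h
  have hκ : ‖β * (u ^ J)⁻¹‖ = ‖β‖ * (θ ^ (d * J))⁻¹ := by
    rw [norm_mul, norm_inv, norm_pow, hu', ← pow_mul]
  set c₁ : L := β * (u ^ J)⁻¹ * (u ^ e / p) ^ (J / e) with hc₁
  set c₂ : L := β * (u ^ (J + 1))⁻¹ * (u ^ e / p) ^ ((J + 1) / e) with hc₂
  set T₁ : B := if j = J % e then c₁ • (y ^ p ^ (J / e)) v else 0 with hT₁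
  set T₂ : B := if j = (J + 1) % e then c₂ • (y ^ p ^ ((J + 1) / e)) v else 0 with hT₂
  have hcont : Continuous A :=
    AddMonoidHomClass.continuous_of_bound A 1 fun x => by simpa using hF.norm hA x
  have hlim : Tendsto (fun m : ℕ => ‖A ((β * (u ^ j)⁻¹) •
      (((p : L) ^ m)⁻¹ • (((1 + y) ^ p ^ m) v - v)) - T₁ - T₂)‖) atTop
      (𝓝 ‖A ((β * (u ^ j)⁻¹) • z - T₁ - T₂)‖) :=
    ((hcont.tendsto _).comp (((hz.const_smul _).sub_const T₁).sub_const T₂)).norm
  refine le_of_tendsto hlim ?_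
  filter_upwards [eventually_ge_atTop ((J + 1) / e)] with m hm
  have hm' : J / e ≤ m := (Nat.div_le_div_right (Nat.le_succ J)).trans hm
  have hmem : ∀ k, k ≤ m → p ^ k ∈ Finset.Icc 1 (p ^ m) := fun k hk =>
    Finset.mem_Icc.2 ⟨Nat.one_le_pow _ _ hp.pos, Nat.pow_le_pow_right hp.pos hk⟩
  have e₁ : T₁ = ∑ i ∈ Finset.Icc 1 (p ^ m),
      (if i = p ^ (J / e) ∧ j = J % e then c₁ else 0) • (y ^ i) v := by
    rw [Finset.sum_eq_single_of_mem _ (hmem _ hm') (fun i _ hi => by simp [hi]), hT₁]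
    by_cases h : j = J % e <;> simp [h]
  have e₂ : T₂ = ∑ i ∈ Finset.Icc 1 (p ^ m),
      (if i = p ^ ((J + 1) / e) ∧ j = (J + 1) % e then c₂ else 0) • (y ^ i) v := by
    rw [Finset.sum_eq_single_of_mem _ (hmem _ hm) (fun i _ hi => by simp [hi]), hT₂]
    by_cases h : j = (J + 1) % e <;> simp [h]
  rw [exp1_expand, e₁, e₂, Finset.smul_sum, Finset.smul_sum, ← Finset.sum_sub_distrib,
    ← Finset.sum_sub_distrib, map_sum]
  refine IsUltrametricDist.norm_sum_le_of_forall_le_of_nonneg (by positivity) fun i hi => ?_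
  rw [smul_smul, smul_smul, ← sub_smul, ← sub_smul, map_smul, norm_smul, mul_assoc (β * _)]
  have hyi : y ^ i ∈ Fil (i * w j) :=
    exp1_pow (fun t => (Fil t : Set (Module.End L B))) hF.one hF.mul hy i
  have hb : ‖A ((y ^ i) v)‖ ≤ M * θ ^ (t + i * w j) := hv _ _ (hF.mul hA hyi)
  have key : ‖β * (u ^ j)⁻¹ * (((p : L) ^ m)⁻¹ * ((p ^ m).choose i : L)) -
      (if i = p ^ (J / e) ∧ j = J % e then c₁ else 0) -
      (if i = p ^ ((J + 1) / e) ∧ j = (J + 1) % e then c₂ else 0)‖ * θ ^ (i * w j) ≤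
      ‖β‖ * ((θ ^ (d * J))⁻¹ * θ ^ (w J + 1)) := by
    by_cases q₁ : i = p ^ (J / e) ∧ j = J % e
    · have q₂ : ¬ (i = p ^ ((J + 1) / e) ∧ j = (J + 1) % e) := by
        rintro ⟨r₁, r₂⟩
        have r₃ : J / e = (J + 1) / e := Nat.pow_right_injective hp.two_le (q₁.1.symm.trans r₁)
        have r₄ := Nat.mod_add_div J e
        have r₅ := Nat.mod_add_div (J + 1) e
        rw [← r₃, ← r₂, q₁.2] at r₅
        omega
      have hJ : j + e * (J / e) = J := by rw [q₁.2]; exact Nat.mod_add_div J e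
      obtain ⟨c, hc⟩ := B2 p m (J / e) hp hm'
      have h := exp1_lead (β := β) h0 h1 hu' he j hm' hc
      have hwi : i * w j = w J := by rw [q₁.1, ← exp1_w hW, hJ]
      rw [hJ] at h
      rw [if_pos q₁, if_neg q₂, sub_zero, hwi, q₁.1]
      refine (mul_le_mul_of_nonneg_right h (pow_pos h0 _).le).trans (le_of_eq ?_)
      ring
    by_cases q₂ : i = p ^ ((J + 1) / e) ∧ j = (J + 1) % e
    · have hJ : j + e * ((J + 1) / e) = J + 1 := by rw [q₂.2]; exact Nat.mod_add_div (J + 1) e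
      obtain ⟨c, hc⟩ := B2 p m ((J + 1) / e) hp hm
      have h := exp1_lead (β := β) h0 h1 hu' he j hm hc
      have hwi : i * w j = w (J + 1) := by rw [q₂.1, ← exp1_w hW, hJ]
      rw [hJ] at h
      rw [if_neg q₁, if_pos q₂, sub_zero, hwi, q₂.1]
      refine (mul_le_mul_of_nonneg_right h (pow_pos h0 _).le).trans ?_
      rw [mul_assoc, mul_assoc, ← pow_succ']
      refine mul_le_mul_of_nonneg_left (exp1_cmp h0 h1.le ?_) (norm_nonneg _)
      rw [hw, mul_add]
      omega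
    rw [if_neg q₁, if_neg q₂, sub_zero, sub_zero]
    obtain ⟨m', c, hm'', hic, hdv⟩ := B1 p m i hp (Finset.mem_Icc.1 hi).1 (Finset.mem_Icc.1 hi).2
    have h := exp1_gen (β := β) hu' he j hm'' hdv
    refine (mul_le_mul_of_nonneg_right h (pow_pos h0 _).le).trans ?_
    rw [mul_assoc]
    refine mul_le_mul_of_nonneg_left (exp1_cmp h0 h1.le ?_) (norm_nonneg _)
    obtain ⟨b₁, b₂⟩ := B3 p e a d J w hW hw (j + e * m')
    have hwi : i * w j = c * w (j + e * m') := by rw [exp1_w hW, hic]; ring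
    have he0 : 0 < e := (Nat.zero_le j).trans_lt hj
    have hdm : ∀ J', j + e * m' = J' → J' / e = m' ∧ j = J' % e := by
      rintro _ rfl
      rw [Nat.add_mul_div_left _ _ he0, Nat.div_eq_of_lt hj, zero_add, Nat.add_mul_mod_self_left,
        Nat.mod_eq_of_lt hj]
      exact ⟨rfl, rfl⟩
    rw [hwi]
    rcases c with _ | _ | c
    · have := (Finset.mem_Icc.1 hi).1
      omega
    · have b₃ := b₂ (fun h => q₁ ⟨by rw [(hdm _ h).1, hic]; simp, (hdm _ h).2⟩)
        (fun h => q₂ ⟨by rw [(hdm _ h).1, hic]; simp, (hdm _ h).2⟩)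
      omega
    · have b₃ := exp1_pos hW (j + e * m')
      have b₄ : (c + 1 + 1) * w (j + e * m') = c * w (j + e * m') + 2 * w (j + e * m') := by ring
      omega
  refine (mul_le_mul_of_nonneg_left hb (norm_nonneg _)).trans ?_
  have h2 := mul_le_mul_of_nonneg_right key (mul_nonneg hM (pow_pos h0 t).le)
  rw [hκ]
  refine le_of_eq_of_le ?_ (h2.trans (le_of_eq ?_)) <;> ring

end Pool.Agent.P.MP_7cb106_nt.GK
end

section
/-! Step EOP. -/

set_option autoImplicit false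

namespace Pool.Agent.P.MP_7cb106_nt.GK

open Filter Topology

section
variable {L B : Type} [NormedField L] [IsUltrametricDist L] [NormedAddCommGroup B]
  [NormedSpace L B]

theorem eop_bd_sum [IsUltrametricDist B] {κ : Type} {Fil : ℕ → Submodule (Ob L) (Module.End L B)}
    {θ M : ℝ} (s : Finset κ) (f : κ → B) (hθ : 0 ≤ θ) (hM : 0 ≤ M)
    (h : ∀ i ∈ s, Bd Fil θ (f i) M) : Bd Fil θ (∑ i ∈ s, f i) M := by
  intro t a ha
  rw [map_sum]
  exact IsUltrametricDist.norm_sum_le_of_forall_le_of_nonneg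
    (mul_nonneg hM (pow_nonneg hθ _)) fun i hi => h i hi t a ha

theorem eop_bd_smul {Fil : ℕ → Submodule (Ob L) (Module.End L B)} {θ M : ℝ} {v : B} (c : L)
    (hc : ‖c‖ ≤ 1) (h : Bd Fil θ v M) : Bd Fil θ (c • v) M := by
  intro t a ha
  rw [map_smul, norm_smul]
  exact (mul_le_of_le_one_left (norm_nonneg _) hc).trans (h t a ha)

theorem eop_bd_nonneg {Fil : ℕ → Submodule (Ob L) (Module.End L B)} {θ M : ℝ} {v : B}
    (h : Bd Fil θ v M) : 0 ≤ M := by
  simpa using h 0 0 (Fil 0).zero_mem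

theorem eop_lead (p : ℕ) {n e f₀ g : ℕ} [NeZero e] (b : Ix n e f₀ g → Module.End L B)
    (ζ : Fin n → Fin n → Fin e → Fin f₀ → Ob L) (α : Ob L) (c₁ : L) (J : ℕ) (c d : Fin n)
    (v : B) :
    ∑ j : Fin e, ∑ t : Fin f₀, (ζ c d j t : L) •
        (if j.val = J % e then (c₁ * (α : L) ^ (J / e)) •
          (b (Sum.inl (c, d, j, t)) ^ p ^ (J / e)) v else 0) =
      c₁ • ev (Ob L) b (Ym p ζ α J c d) v := by
  rw [Finset.sum_eq_single (Fin.ofNat e J)]
  · simp only [Fin.val_ofNat, if_true, Ym, map_sum, ev_monomial, mono_single,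
      LinearMap.sum_apply, Finset.smul_sum]
    refine Finset.sum_congr rfl fun t _ => ?_
    rw [Subring.smul_def, LinearMap.smul_apply, smul_smul, smul_smul]
    congr 1
    push_cast
    ring
  · intro j _ hj
    have : j.val ≠ J % e := fun h => hj (Fin.ext (by rw [h, Fin.val_ofNat]))
    simp [this]
  · simp

end

theorem p_EOP (hDEL : S_DEL) (hBC : S_BC) (hEXP1 : S_EXP1) :
    S_EOP := by
  intro p _ K L B _ _ _ _ _ _ _ _ _ _ σ n g e f₀ a N J _ U ρ x γ ϖ μ Fil w θ M u β ζ α bs v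
    hFS hμ hW hθ hθ1 hθN hu hue hJ hα hdual hlim hiso hBd hLip c d
  obtain ⟨δ, hδ, hdX, hT⟩ := hDEL p K L B σ n U ρ v hiso hLip
  have hM : 0 ≤ M := eop_bd_nonneg hBd
  have hE : Eop σ ρ c d v = ∑ j : Fin e, ∑ t : Fin f₀, (ζ c d j t : L) •
      ((β * (u ^ j.val)⁻¹) • δ (Matrix.single c d (bs c d (j, t)))) := by
    have h1 := hBC p K L B _ _ σ (Module.finBasis ℚ_[p] K) (bs c d)
      (δ.comp (Matrix.singleAddMonoidHom c d)) (fun r z => by
        simp only [AddMonoidHom.comp_apply, Matrix.singleAddMonoidHom_apply]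
        rw [← hδ, Matrix.smul_single])
    simp only [AddMonoidHom.comp_apply, Matrix.singleAddMonoidHom_apply] at h1
    simp only [Eop, hdX]
    rw [h1, Fintype.sum_prod_type]
    refine Finset.sum_congr rfl fun j _ => Finset.sum_congr rfl fun t _ => ?_
    rw [hdual, smul_smul, mul_comm]
  rw [hE, ← eop_lead, ← eop_lead, ← Finset.sum_sub_distrib, ← Finset.sum_sub_distrib]
  have hκ : 0 ≤ ‖β * (u ^ J)⁻¹‖ * θ ^ w J * θ * M := by positivity
  refine eop_bd_sum _ _ hθ.le hκ fun j _ => ?_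
  rw [← Finset.sum_sub_distrib, ← Finset.sum_sub_distrib]
  refine eop_bd_sum _ _ hθ.le hκ fun t _ => ?_
  rw [← smul_sub, ← smul_sub]
  refine eop_bd_smul _ (Ob.norm_le _) ?_
  have hy : bG ρ γ x (Sum.inl (c, d, j, t)) ∈ Fil (w j.val) := by
    have := hFS.gen (Sum.inl (c, d, j, t))
    rwa [hμ] at this
  rw [hα]
  refine hEXP1 p L B _ ϖ (bG ρ γ x) μ N e a J j.val Fil w θ M u β _ v _ hFS hW hθ hθ1 hθN hu hue
    hJ j.isLt hy hBd ?_
  have e1 : ∀ m : ℕ, (1 + bG ρ γ x (Sum.inl (c, d, j, t))) ^ p ^ m =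
      ρ (γ (c, d, j, t) ^ p ^ m) := by
    intro m
    rw [map_pow]
    simp [bG]
  simp only [e1]
  exact hT _ _ (hlim c d j t)

end Pool.Agent.P.MP_7cb106_nt.GK
end

section
/-! Step HOM. -/

set_option autoImplicit false

namespace Pool.Agent.P.MP_7cb106_nt.GK

open Filter Topology

/-- the property of the coefficients -/
def hom_G {ι A : Type} [CommRing A] (μ : ι → ℕ) (w₁ d k : ℕ)
    (Q : Polynomial (MvPolynomial ι A)) : Prop :=
  ∀ i, (Q.coeff i).IsWeightedHomogeneous μ (k * w₁ + i * d) ∧ (k < i → Q.coeff i = 0)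

theorem hom_one {ι A : Type} [CommRing A] (μ : ι → ℕ) (w₁ d : ℕ) :
    hom_G μ w₁ d 0 (1 : Polynomial (MvPolynomial ι A)) := by
  intro i
  rw [Polynomial.coeff_one]
  refine ⟨?_, fun h => if_neg h.ne'⟩
  split_ifs with h
  · subst h
    simpa using MvPolynomial.isWeightedHomogeneous_one A μ
  · exact MvPolynomial.isWeightedHomogeneous_zero A μ _

theorem hom_step {ι A : Type} [CommRing A] {μ : ι → ℕ} {w₁ d k : ℕ} {a b : MvPolynomial ι A}
    (ha : a.IsWeightedHomogeneous μ w₁) (hb : b.IsWeightedHomogeneous μ (w₁ + d))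
    {Q : Polynomial (MvPolynomial ι A)} (hQ : hom_G μ w₁ d k Q) :
    hom_G μ w₁ d (k + 1) ((Polynomial.C a + Polynomial.X * Polynomial.C b) * Q) := by
  intro i
  rw [add_mul, mul_assoc, Polynomial.coeff_add, Polynomial.coeff_C_mul]
  have h1 : (a * Q.coeff i).IsWeightedHomogeneous μ ((k + 1) * w₁ + i * d) := by
    have h := ha.mul (hQ i).1
    rwa [show w₁ + (k * w₁ + i * d) = (k + 1) * w₁ + i * d by ring] at h
  cases i with
  | zero =>
    rw [Polynomial.coeff_X_mul_zero, add_zero]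
    exact ⟨h1, fun h => absurd h (Nat.not_lt_zero _)⟩
  | succ i =>
    rw [Polynomial.coeff_X_mul, Polynomial.coeff_C_mul]
    refine ⟨h1.add ?_, fun h => ?_⟩
    · have h := hb.mul (hQ i).1
      rwa [show w₁ + d + (k * w₁ + i * d) = (k + 1) * w₁ + (i + 1) * d by ring] at h
    · rw [(hQ (i + 1)).2 (by omega), (hQ i).2 (by omega), mul_zero, mul_zero, add_zero]

theorem hom_sum {ι A κ : Type} [CommRing A] {μ : ι → ℕ} {w₁ d k : ℕ} (T : Finset κ)
    (Q : κ → Polynomial (MvPolynomial ι A)) (h : ∀ t ∈ T, hom_G μ w₁ d k (Q t)) :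
    hom_G μ w₁ d k (∑ t ∈ T, Q t) := by
  intro i
  rw [Polynomial.finsetSum_coeff]
  exact ⟨MvPolynomial.IsWeightedHomogeneous.sum _ _ _ fun t ht => (h t ht i).1,
    fun hi => Finset.sum_eq_zero fun t ht => (h t ht i).2 hi⟩

theorem hom_zsmul {ι A : Type} [CommRing A] {μ : ι → ℕ} {w₁ d k : ℕ} (z : ℤ)
    {Q : Polynomial (MvPolynomial ι A)} (h : hom_G μ w₁ d k Q) : hom_G μ w₁ d k (z • Q) := by
  intro i
  rw [Polynomial.coeff_smul]
  refine ⟨?_, fun hi => by rw [(h i).2 hi, smul_zero]⟩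
  have h1 := (MvPolynomial.mem_weightedHomogeneousSubmodule A μ _ _).2 (h i).1
  exact (MvPolynomial.mem_weightedHomogeneousSubmodule A μ _ _).1 (zsmul_mem h1 z)

theorem hom_pen {n : ℕ} {R : Type} [CommRing R] (y y' : Mat n R) (i j : Fin n) :
    pen y y' i j = Polynomial.C (y i j) + Polynomial.X * Polynomial.C (y' i j) := by
  simp [pen]

theorem p_HOM :
    S_HOM := by
  intro ι A _ n w₁ d μ P P' hP hP'
  have hl : ∀ (l : List (Fin n)) (s : Fin n → Fin n),
      hom_G μ w₁ d l.length (l.map fun j => pen P P' (s j) j).prod := by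
    intro l s
    induction l with
    | nil => simpa using hom_one μ w₁ d
    | cons j l ih =>
      rw [List.map_cons, List.prod_cons, List.length_cons, hom_pen]
      exact hom_step (hP _ _) (hP' _ _) ih
  refine ⟨fun l s i => hl l s i, fun k => ?_⟩
  change hom_G μ w₁ d k (Ek (pen P P') k)
  unfold Ek
  refine hom_sum _ _ fun S hS => hom_sum _ _ fun s _ => hom_zsmul _ ?_
  have h := hl S.toList s
  rwa [Finset.prod_map_toList, Finset.length_toList, (Finset.mem_powersetCard.1 hS).2] at h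

end Pool.Agent.P.MP_7cb106_nt.GK
end

section
/-! Step PROD. -/

set_option autoImplicit false

namespace Pool.Agent.P.MP_7cb106_nt.GK

open Filter Topology

section
variable {L B ι : Type} [NormedField L] [IsUltrametricDist L] [NormedAddCommGroup B]
  [NormedSpace L B] {Fil : ℕ → Submodule (Ob L) (Module.End L B)} {θ M M' : ℝ} {v w : B}

theorem prod_mono (hθ : 0 < θ) (h : Bd Fil θ v M) (hM : M ≤ M') : Bd Fil θ v M' :=
  fun t a ha => (h t a ha).trans (mul_le_mul_of_nonneg_right hM (pow_pos hθ t).le)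

theorem prod_zero (hθ : 0 < θ) (hM : 0 ≤ M) : Bd Fil θ (0 : B) M := fun t a _ => by
  rw [map_zero, norm_zero]
  exact mul_nonneg hM (pow_pos hθ t).le

theorem prod_add [IsUltrametricDist B] (h : Bd Fil θ v M) (h' : Bd Fil θ w M) :
    Bd Fil θ (v + w) M := fun t a ha => by
  rw [map_add]
  exact (IsUltrametricDist.norm_add_le_max _ _).trans (max_le (h t a ha) (h' t a ha))

theorem prod_neg (h : Bd Fil θ v M) : Bd Fil θ (-v) M := fun t a ha => by
  rw [map_neg, norm_neg]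
  exact h t a ha

theorem prod_sub [IsUltrametricDist B] (h : Bd Fil θ v M) (h' : Bd Fil θ w M) :
    Bd Fil θ (v - w) M := by
  rw [sub_eq_add_neg]
  exact prod_add h (prod_neg h')

theorem prod_smul (c : L) (h : Bd Fil θ v M) : Bd Fil θ (c • v) (‖c‖ * M) := fun t a ha => by
  rw [map_smul, norm_smul, mul_assoc]
  exact mul_le_mul_of_nonneg_left (h t a ha) (norm_nonneg _)

theorem prod_sum [IsUltrametricDist B] (hθ : 0 < θ) (hM : 0 ≤ M) {κ : Type} (s : Finset κ)
    (f : κ → B) (h : ∀ i ∈ s, Bd Fil θ (f i) M) : Bd Fil θ (∑ i ∈ s, f i) M :=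
  Finset.sum_induction f (fun u => Bd Fil θ u M) (fun _ _ => prod_add) (prod_zero hθ hM) h

theorem prod_nsmul [IsUltrametricDist B] (hθ : 0 < θ) (hM : 0 ≤ M) (h : Bd Fil θ v M) (k : ℕ) :
    Bd Fil θ (k • v) M := by
  induction k with
  | zero => rw [zero_smul]; exact prod_zero hθ hM
  | succ k ih => rw [succ_nsmul]; exact prod_add ih h

variable [Fintype ι] {ϖ : L} {b : ι → Module.End L B} {μ : ι → ℕ} {N : ℕ}

theorem prod_apply (hF : FS2 ϖ b μ N Fil) {t : ℕ} {a : Module.End L B} (ha : a ∈ Fil t)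
    (h : Bd Fil θ v M) : Bd Fil θ (a v) (θ ^ t * M) := fun u c hc => by
  have := h _ _ (hF.mul hc ha)
  rw [Module.End.mul_apply, pow_add] at this
  exact this.trans_eq (by ring)

theorem prod_ev_mem (hF : FS2 ϖ b μ N Fil) {t : ℕ} {P : MvPolynomial ι (Ob L)}
    (hP : P.IsWeightedHomogeneous μ t) : ev (Ob L) b P ∈ Fil t := by
  rw [ev_eq_sum]
  refine Submodule.sum_mem _ fun α hα => Submodule.smul_mem _ _ ?_
  rw [← hP (MvPolynomial.mem_support_iff.1 hα)]
  exact hF.mono_mem α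

theorem prod_ev_mul (hF : FS2 ϖ b μ N Fil) {t u : ℕ} {P Q : MvPolynomial ι (Ob L)}
    (hP : P.IsWeightedHomogeneous μ t) (hQ : Q.IsWeightedHomogeneous μ u) :
    ev (Ob L) b P * ev (Ob L) b Q - ev (Ob L) b (P * Q) ∈ Fil (t + u + 1) := by
  have e : ev (Ob L) b (P * Q) = ∑ α ∈ P.support, ∑ β ∈ Q.support,
      (P.coeff α * Q.coeff β) • mono b (α + β) := by
    conv_lhs => rw [P.as_sum, Q.as_sum, Finset.sum_mul_sum, map_sum]
    simp only [map_sum, MvPolynomial.monomial_mul, ev_monomial]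
  rw [e, ev_eq_sum, ev_eq_sum, Finset.sum_mul_sum, ← Finset.sum_sub_distrib]
  refine Submodule.sum_mem _ fun α hα => ?_
  rw [← Finset.sum_sub_distrib]
  refine Submodule.sum_mem _ fun β hβ => ?_
  rw [smul_mul_smul_comm, ← smul_sub, ← hP (MvPolynomial.mem_support_iff.1 hα),
    ← hQ (MvPolynomial.mem_support_iff.1 hβ)]
  exact Submodule.smul_mem _ _ (hF.mono_mul α β)

omit [IsUltrametricDist L] in
theorem prod_coef {c₁ c₂ : L} {κ : ℝ} {w₁ d k i : ℕ} (hθ : 0 < θ) (h₁ : ‖c₁‖ * θ ^ w₁ ≤ κ)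
    (h₂ : ‖c₂‖ * θ ^ (w₁ + d) ≤ κ) (hi : i ≤ k) :
    ‖c₁ ^ (k - i) * c₂ ^ i‖ * θ ^ (k * w₁ + i * d) ≤ κ ^ k := by
  obtain ⟨m, rfl⟩ := Nat.exists_eq_add_of_le hi
  have hκ : 0 ≤ κ := le_trans (by positivity) h₁
  calc _ = (‖c₂‖ * θ ^ (w₁ + d)) ^ i * (‖c₁‖ * θ ^ w₁) ^ m := by
        rw [Nat.add_sub_cancel_left, norm_mul, norm_pow, norm_pow]
        ring
    _ ≤ κ ^ i * κ ^ m := by gcongr
    _ = _ := (pow_add _ _ _).symm

theorem prod_one [IsUltrametricDist B] (hF : FS2 ϖ b μ N Fil) (hθ : 0 < θ) (hM : 0 ≤ M)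
    {κ A : ℝ} {s : Finset ℕ} {cf : ℕ → L} {Q : ℕ → MvPolynomial ι (Ob L)} {u : ℕ → ℕ}
    (hQ : ∀ i, (Q i).IsWeightedHomogeneous μ (u i)) (hA : 0 ≤ A)
    (hcf : ∀ i ∈ s, ‖cf i‖ * θ ^ u i ≤ A) (hv : Bd Fil θ v M)
    (hw : Bd Fil θ (w - ∑ i ∈ s, cf i • ev (Ob L) b (Q i) v) (A * θ * M))
    {c : L} {R : MvPolynomial ι (Ob L)} {t : ℕ} (hR : R.IsWeightedHomogeneous μ t)
    (hc : ‖c‖ * θ ^ t ≤ κ) :
    Bd Fil θ (c • ev (Ob L) b R w - ∑ i ∈ s, (c * cf i) • ev (Ob L) b (R * Q i) v)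
      (A * κ * θ * M) := by
  have hκ : 0 ≤ κ := le_trans (by positivity) hc
  have e : c • ev (Ob L) b R w - ∑ i ∈ s, (c * cf i) • ev (Ob L) b (R * Q i) v =
      c • ev (Ob L) b R (w - ∑ i ∈ s, cf i • ev (Ob L) b (Q i) v) + ∑ i ∈ s, (c * cf i) •
        (ev (Ob L) b R * ev (Ob L) b (Q i) - ev (Ob L) b (R * Q i)) v := by
    simp only [map_sub, map_sum, map_smul, smul_sub, Finset.smul_sum, LinearMap.sub_apply,
      Module.End.mul_apply, Finset.sum_sub_distrib, mul_smul]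
    abel
  rw [e]
  refine prod_add (prod_mono hθ (prod_smul c (prod_apply hF (prod_ev_mem hF hR) hw)) ?_)
    (prod_sum hθ (by positivity) _ _ fun i hi =>
      prod_mono hθ (prod_smul _ (prod_apply hF (prod_ev_mul hF hR (hQ i)) hv)) ?_)
  · calc _ = (‖c‖ * θ ^ t) * (A * θ * M) := by ring
      _ ≤ κ * (A * θ * M) := by gcongr
      _ = _ := by ring
  · calc _ = (‖cf i‖ * θ ^ u i) * (‖c‖ * θ ^ t) * (θ * M) := by rw [norm_mul]; ring
      _ ≤ A * κ * (θ * M) := by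
        have := hcf i hi
        gcongr
      _ = _ := by ring

end

theorem p_PROD (hHOM : S_HOM) :
    S_PROD := by
  intro L B ι _ _ _ _ _ _ ϖ b μ N n w₁ d Fil θ κ c₁ c₂ P P' E hF hθ hθ1 hP hP' h₁ h₂ hκθ hE l s
    v M hv
  have hH := (hHOM ι (Ob L) n w₁ d μ P P' hP hP').1
  have hM : 0 ≤ M := by
    have := hv 0 1 hF.one
    rw [pow_zero, mul_one] at this
    exact (norm_nonneg _).trans this
  have hκ : 0 ≤ κ := le_trans (by positivity) h₁
  induction l with
  | nil =>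
    have : ev (Ob L) b (1 : MvPolynomial ι (Ob L)) = 1 := by
      rw [← MvPolynomial.C_1, ← MvPolynomial.monomial_zero', ev_monomial, mono_zero, one_smul]
    simpa [this] using prod_zero (Fil := Fil) hθ (mul_nonneg hθ.le hM)
  | cons j l ih =>
    rw [List.foldr_cons, List.map_cons, List.prod_cons, List.length_cons]
    generalize l.foldr (fun j w => E (s j) j w - if s j = j then (j : ℕ) • w else 0) v = w at ih ⊢
    obtain ⟨hQ, hQ0⟩ := forall_and.1 (hH l s)
    generalize (l.map fun j => pen P P' (s j) j).prod = Q at ih hQ hQ0 ⊢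
    generalize l.length = k at ih hQ hQ0 ⊢
    have hcf : ∀ i ∈ Finset.range (k + 1),
        ‖c₁ ^ (k - i) * c₂ ^ i‖ * θ ^ (k * w₁ + i * d) ≤ κ ^ k := fun i hi =>
      prod_coef hθ h₁ h₂ (Nat.lt_succ_iff.1 (Finset.mem_range.1 hi))
    have hw : Bd Fil θ w (κ ^ k * M) := by
      rw [← sub_add_cancel w (∑ i ∈ Finset.range (k + 1), (c₁ ^ (k - i) * c₂ ^ i) •
        ev (Ob L) b (Q.coeff i) v)]
      refine prod_add (prod_mono hθ ih ?_) (prod_sum hθ (by positivity) _ _ fun i hi =>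
        prod_mono hθ (prod_smul _ (prod_apply hF (prod_ev_mem hF (hQ i)) hv)) ?_)
      · calc _ ≤ κ ^ k * 1 * M := by gcongr
          _ = _ := by ring
      · rw [← mul_assoc]
        exact mul_le_mul_of_nonneg_right (hcf i hi) hM
    have a1 := prod_one hF hθ hM hQ (by positivity) hcf hv ih (hP (s j) j) h₁
    have a2 := prod_one hF hθ hM hQ (by positivity) hcf hv ih (hP' (s j) j) h₂
    have a3 := prod_mono hθ (hE (s j) j w _ hw) (M' := κ ^ k * κ * θ * M) (le_of_eq (by ring))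
    have a4 : Bd Fil θ (if s j = j then (j : ℕ) • w else 0) (κ ^ k * κ * θ * M) := by
      refine prod_mono hθ (M := κ ^ k * M) ?_ ?_
      · split_ifs
        · exact prod_nsmul hθ (by positivity) hw _
        · exact prod_zero hθ (by positivity)
      · calc _ = κ ^ k * 1 * M := by ring
          _ ≤ κ ^ k * (κ * θ) * M := by gcongr
          _ = _ := by ring
    have hpen : pen P P' (s j) j =
        Polynomial.C (P (s j) j) + Polynomial.X * Polynomial.C (P' (s j) j) := rfl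
    have e : ∑ i ∈ Finset.range (k + 1 + 1), (c₁ ^ (k + 1 - i) * c₂ ^ i) •
        ev (Ob L) b ((pen P P' (s j) j * Q).coeff i) v =
        ∑ i ∈ Finset.range (k + 1), (c₁ * (c₁ ^ (k - i) * c₂ ^ i)) •
          ev (Ob L) b (P (s j) j * Q.coeff i) v +
        ∑ i ∈ Finset.range (k + 1), (c₂ * (c₁ ^ (k - i) * c₂ ^ i)) •
          ev (Ob L) b (P' (s j) j * Q.coeff i) v := by
      simp only [hpen, add_mul, Polynomial.coeff_add, map_add, LinearMap.add_apply, smul_add,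
        Finset.sum_add_distrib, Polynomial.coeff_C_mul, mul_assoc Polynomial.X]
      congr 1
      · rw [Finset.sum_range_succ, hQ0 _ k.lt_succ_self, mul_zero, map_zero, LinearMap.zero_apply,
          smul_zero, add_zero]
        refine Finset.sum_congr rfl fun i hi => ?_
        rw [Nat.succ_sub (Nat.lt_succ_iff.1 (Finset.mem_range.1 hi)), pow_succ', mul_assoc]
      · rw [Finset.sum_range_succ', Polynomial.coeff_X_mul_zero, map_zero, LinearMap.zero_apply,
          smul_zero, add_zero]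
        refine Finset.sum_congr rfl fun i _ => ?_
        rw [Polynomial.coeff_X_mul, Polynomial.coeff_C_mul, Nat.add_sub_add_right, pow_succ',
          mul_left_comm]
    rw [e, pow_succ]
    convert prod_sub (prod_add (prod_add a1 a2) a3) a4 using 1
    abel

end Pool.Agent.P.MP_7cb106_nt.GK
end

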