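import Pool.Agent.P.MP_7cb106_nt.GK.IfaceE

section
/-! Step EXTR. -/

set_option autoImplicit false

namespace Pool.Agent.P.MP_7cb106_nt.GK

open Filter Topology

section
variable {L B ι : Type} [NormedField L] [IsUltrametricDist L]
  [NormedAddCommGroup B] [NormedSpace L B] [IsUltrametricDist B]

omit [IsUltrametricDist B] in
theorem extr_bd {ϖ : L} {b : ι → Module.End L B} {μ : ι → ℕ} {N : ℕ}
    {Fil : ℕ → Submodule (Ob L) (Module.End L B)} {θ : ℝ} (hF : FS ϖ b μ N Fil) (h0 : 0 < θ)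
    (h1 : θ < 1) (hθ : θ ^ N = ‖ϖ‖) (hN : 0 < N) {s : ℕ} {v : B} (hv : ‖v‖ ≤ 1)
    (h : ∀ k, ∀ a ∈ Fil (s + k * N + 1), ‖a v‖ ≤ ‖ϖ‖ ^ (k + 1)) : Bd Fil θ v (θ ^ s)⁻¹ := by
  intro t a ha
  have hs : 0 < θ ^ s := pow_pos h0 s
  rw [inv_mul_eq_div, le_div_iff₀ hs]
  by_cases ht : t ≤ s
  · have e1 : ‖a v‖ ≤ 1 := (hF.norm ha v).trans hv
    have e2 : θ ^ s ≤ θ ^ t := pow_le_pow_of_le_one h0.le h1.le ht
    calc ‖a v‖ * θ ^ s ≤ 1 * θ ^ s := mul_le_mul_of_nonneg_right e1 hs.le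
      _ = θ ^ s := one_mul _
      _ ≤ θ ^ t := e2
  · obtain ⟨r, rfl⟩ : ∃ r, t = s + r + 1 := ⟨t - s - 1, by omega⟩
    have d1 : r / N * N ≤ r := Nat.div_mul_le_self r N
    have d2 : r < N * (r / N + 1) := Nat.lt_mul_div_succ r hN
    have ha' : a ∈ Fil (s + r / N * N + 1) := hF.anti (by omega) ha
    have e1 := h _ a ha'
    rw [← hθ, ← pow_mul] at e1
    calc ‖a v‖ * θ ^ s ≤ θ ^ (N * (r / N + 1)) * θ ^ s := mul_le_mul_of_nonneg_right e1 hs.le
      _ = θ ^ (N * (r / N + 1) + s) := (pow_add _ _ _).symm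
      _ ≤ θ ^ (s + r + 1) := pow_le_pow_of_le_one h0.le h1.le (by omega)

theorem extr_ev_le [Fintype ι] {b : ι → Module.End L B} {μ : ι → ℕ} {t : ℕ}
    {Q : MvPolynomial ι (Ob L)} (hQ : Q.IsWeightedHomogeneous μ t) {v : B} {c : ℝ} (hc : 0 ≤ c)
    (h : ∀ α, wt μ α = t → ‖mono b α v‖ ≤ c) : ‖ev (Ob L) b Q v‖ ≤ c := by
  rw [ev_eq_sum, LinearMap.sum_apply]
  refine IsUltrametricDist.norm_sum_le_of_forall_le_of_nonneg hc fun α hα => ?_
  have e : (Q.coeff α • mono b α) v = ((Q.coeff α : Ob L) : L) • mono b α v := rfl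
  rw [e, norm_smul]
  have h2 := h α (hQ (MvPolynomial.mem_support_iff.1 hα))
  calc _ ≤ 1 * ‖mono b α v‖ := mul_le_mul_of_nonneg_right (Ob.norm_le _) (norm_nonneg _)
    _ ≤ c := by rw [one_mul]; exact h2

end

theorem extr_prod {n : ℕ} {A : Type} [CommRing A] (S : Finset (Fin n)) (f : Fin n → A) :
    ∏ j ∈ S, f j = ((S.sort (· ≤ ·)).map f).prod := by
  rw [Finset.prod_eq_multiset_prod, ← Finset.sort_eq S (· ≤ ·), Multiset.map_coe,
    Multiset.prod_coe]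

theorem extr_coeff {n : ℕ} {A : Type} [CommRing A] (M : Mat n (Polynomial A)) (k i : ℕ) :
    (Ek M k).coeff i = ∑ S ∈ Finset.powersetCard k (Finset.univ : Finset (Fin n)),
      ∑ s ∈ Finset.univ.filter (fun s : Equiv.Perm (Fin n) => ∀ j ∉ S, s j = j),
        (Equiv.Perm.sign s : ℤ) • (((S.sort (· ≤ ·)).map fun j => M (s j) j).prod.coeff i) := by
  rw [Ek, Polynomial.finsetSum_coeff]
  refine Finset.sum_congr rfl fun S _ => ?_
  rw [Polynomial.finsetSum_coeff]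
  refine Finset.sum_congr rfl fun s _ => ?_
  rw [Polynomial.coeff_smul, extr_prod]

theorem extr_size {θ κ x y : ℝ} {w₁ d k i : ℕ} (hx : x * θ ^ w₁ = κ) (hy : y * θ ^ (w₁ + d) = κ)
    (hi : i ≤ k) : x ^ (k - i) * y ^ i * θ ^ (k * w₁ + i * d) = κ ^ k := by
  obtain ⟨m, rfl⟩ : ∃ m, k = m + i := ⟨k - i, by omega⟩
  have e1 : κ ^ m = (x * θ ^ w₁) ^ m := by rw [hx]
  have e2 : κ ^ i = (y * θ ^ (w₁ + d)) ^ i := by rw [hy]
  rw [Nat.add_sub_cancel, pow_add κ, e1, e2]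
  ring

theorem p_EXTR (hHOM : S_HOM) (hPROD : S_PROD) (hKILL : S_KILL) :
    S_EXTR := by
  intro L B ι F V _ _ _ _ _ _ _ _ _ R ϖ b μ N n w₁ a k Fil θ κ c₁ c₂ P P' E hF hL h0 h1 hθ hN ha
    hP hP' hc₁ hc₂ hκ hE hCap i
  have hH := (hHOM ι (Ob L) n w₁ (a * N) μ P P' hP hP').2 k
  refine ⟨fun α hα => (hH i).1 fun h => hα (by rw [MvPolynomial.coeff_map, h, map_zero]), ?_⟩
  intro u hu
  by_cases hik : k < i
  · rw [(hH i).2 hik, map_zero, map_zero, LinearMap.zero_apply]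
  have hik' : i ≤ k := not_lt.1 hik
  have hϖ : ‖ϖ‖ < 1 := by
    rw [← hθ]
    exact pow_lt_one₀ h0.le h1 hN.ne'
  obtain ⟨v, hv, rfl, hv1, hv2⟩ := hL _ u hu
  set s := k * w₁ + i * (a * N) with hs
  have hbd : Bd Fil θ v (θ ^ s)⁻¹ := extr_bd hF.toFS h0 h1 hθ hN hv hv1
  have hsp : 0 < θ ^ s := pow_pos h0 s
  have hM : 0 < (θ ^ s)⁻¹ := inv_pos.2 hsp
  have hκ0 : 0 < κ := by
    by_contra hh
    have : κ * θ ≤ 0 := mul_nonpos_of_nonpos_of_nonneg (not_lt.1 hh) h0.le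
    linarith
  have hκk : 0 < κ ^ k := pow_pos hκ0 k
  have hδ0 : 0 ≤ κ ^ k * θ * (θ ^ s)⁻¹ := by positivity
  have hδ : κ ^ k * θ * (θ ^ s)⁻¹ < κ ^ k * (θ ^ s)⁻¹ := by
    refine mul_lt_mul_of_pos_right ?_ hM
    exact mul_lt_of_lt_one_right hκk h1
  set T : ℕ → B := fun j => (c₁ ^ (k - j) * c₂ ^ j) •
    ev (Ob L) b ((Ek (pen P P') k).coeff j) v with hT
  have herr : ‖Cap E k v - ∑ j ∈ Finset.range (k + 1), T j‖ ≤ κ ^ k * θ * (θ ^ s)⁻¹ := by
    have e : ∑ j ∈ Finset.range (k + 1), T j =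
        ∑ S ∈ Finset.powersetCard k (Finset.univ : Finset (Fin n)),
          ∑ σ ∈ Finset.univ.filter (fun σ : Equiv.Perm (Fin n) => ∀ j ∉ S, σ j = j),
            (Equiv.Perm.sign σ : ℤ) • ∑ j ∈ Finset.range (k + 1), (c₁ ^ (k - j) * c₂ ^ j) •
              ev (Ob L) b ((((S.sort (· ≤ ·)).map fun j' => pen P P' (σ j') j').prod).coeff j)
                v := by
      simp only [hT, extr_coeff, map_sum, map_zsmul, LinearMap.sum_apply, LinearMap.smul_apply,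
        Finset.smul_sum]
      rw [Finset.sum_comm]
      refine Finset.sum_congr rfl fun S _ => ?_
      rw [Finset.sum_comm]
      refine Finset.sum_congr rfl fun σ _ => Finset.sum_congr rfl fun j _ => ?_
      rw [smul_comm]
    rw [e, Cap, ← Finset.sum_sub_distrib]
    refine IsUltrametricDist.norm_sum_le_of_forall_le_of_nonneg hδ0 fun S hS => ?_
    rw [← Finset.sum_sub_distrib]
    refine IsUltrametricDist.norm_sum_le_of_forall_le_of_nonneg hδ0 fun σ _ => ?_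
    rw [← smul_sub]
    refine (IsUltrametricDist.norm_zsmul_le _ _).trans ?_
    have hl : (S.sort (· ≤ ·)).length = k := by
      rw [Finset.length_sort]
      exact (Finset.mem_powersetCard.1 hS).2
    have h2 := hPROD L B ι ϖ b μ N n w₁ (a * N) Fil θ κ c₁ c₂ P P' E hF h0 h1.le hP hP' hc₁.le
      hc₂.le hκ hE (S.sort (· ≤ ·)) σ v _ hbd 0 1 hF.one
    rw [hl, pow_zero, mul_one, Module.End.one_apply] at h2
    exact h2
  have hoth : ∀ j ∈ (Finset.range (k + 1)).erase i, ‖T j‖ ≤ κ ^ k * θ * (θ ^ s)⁻¹ := by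
    intro j hj
    obtain ⟨hji, hj⟩ := Finset.mem_erase.1 hj
    have hjk : j ≤ k := Nat.lt_succ_iff.1 (Finset.mem_range.1 hj)
    have hsz := extr_size (k := k) (i := j) hc₁ hc₂ hjk
    have hnn : 0 ≤ ‖c₁‖ ^ (k - j) * ‖c₂‖ ^ j := by positivity
    have key : ‖ev (Ob L) b ((Ek (pen P P') k).coeff j) v‖ * θ ^ s ≤
        θ ^ (k * w₁ + j * (a * N)) * θ := by
      rcases lt_or_gt_of_ne hji with hlt | hgt
      · have e1 : ‖ev (Ob L) b ((Ek (pen P P') k).coeff j) v‖ ≤ 1 :=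
          extr_ev_le (hH j).1 zero_le_one fun α _ => (hF.norm (hF.mono_mem α) v).trans hv
        have e2 : j * (a * N) + 1 ≤ i * (a * N) :=
          Nat.mul_lt_mul_of_pos_right hlt (Nat.mul_pos ha hN)
        calc _ ≤ 1 * θ ^ s := mul_le_mul_of_nonneg_right e1 hsp.le
          _ = θ ^ s := one_mul _
          _ ≤ θ ^ (k * w₁ + j * (a * N) + 1) := pow_le_pow_of_le_one h0.le h1.le (by omega)
          _ = _ := pow_succ _ _
      · obtain ⟨r, rfl⟩ : ∃ r, j = i + (r + 1) := ⟨j - i - 1, by omega⟩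
        have e0 : s + (r + 1) * a * N = k * w₁ + (i + (r + 1)) * (a * N) := by
          rw [hs]
          ring
        have e1 : ‖ev (Ob L) b ((Ek (pen P P') k).coeff (i + (r + 1))) v‖ ≤
            ‖ϖ‖ ^ ((r + 1) * a + 1) :=
          extr_ev_le (hH _).1 (by positivity) fun α hα =>
            hv2 _ (Nat.mul_pos (Nat.succ_pos r) ha) α (by rw [hα, e0])
        rw [← hθ, ← pow_mul] at e1
        have e2 : N * ((r + 1) * a + 1) = (r + 1) * a * N + N := by ring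
        calc _ ≤ θ ^ (N * ((r + 1) * a + 1)) * θ ^ s := mul_le_mul_of_nonneg_right e1 hsp.le
          _ = θ ^ (N * ((r + 1) * a + 1) + s) := (pow_add _ _ _).symm
          _ ≤ θ ^ (k * w₁ + (i + (r + 1)) * (a * N) + 1) :=
              pow_le_pow_of_le_one h0.le h1.le (by omega)
          _ = _ := pow_succ _ _
    rw [← div_eq_mul_inv, le_div_iff₀ hsp, hT]
    simp only [norm_smul, norm_mul, norm_pow]
    calc _ = ‖c₁‖ ^ (k - j) * ‖c₂‖ ^ j *
          (‖ev (Ob L) b ((Ek (pen P P') k).coeff j) v‖ * θ ^ s) := by ring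
      _ ≤ ‖c₁‖ ^ (k - j) * ‖c₂‖ ^ j * (θ ^ (k * w₁ + j * (a * N)) * θ) :=
          mul_le_mul_of_nonneg_left key hnn
      _ = κ ^ k * θ := by rw [← mul_assoc, hsz]
  have hsum : ‖∑ j ∈ (Finset.range (k + 1)).erase i, T j‖ ≤ κ ^ k * θ * (θ ^ s)⁻¹ :=
    IsUltrametricDist.norm_sum_le_of_forall_le_of_nonneg hδ0 hoth
  have hTi : T i = Cap E k v + (-(Cap E k v - ∑ j ∈ Finset.range (k + 1), T j) +
      -∑ j ∈ (Finset.range (k + 1)).erase i, T j) := by
    rw [← Finset.add_sum_erase _ T (Finset.mem_range.2 (Nat.lt_succ_of_le hik'))]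
    abel
  have hlt : ‖T i‖ < κ ^ k * (θ ^ s)⁻¹ := by
    rw [hTi]
    refine (IsUltrametricDist.norm_add_le_max _ _).trans_lt (max_lt (hCap v _ hM hbd) ?_)
    refine ((IsUltrametricDist.norm_add_le_max _ _).trans (max_le ?_ ?_)).trans_lt hδ
    · rw [norm_neg]
      exact herr
    · rw [norm_neg]
      exact hsum
  have hfin : ‖ev (Ob L) b ((Ek (pen P P') k).coeff i) v‖ < 1 := by
    have hsz := extr_size (k := k) (i := i) hc₁ hc₂ hik'
    rw [← div_eq_mul_inv, lt_div_iff₀ hsp, hT] at hlt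
    simp only [norm_smul, norm_mul, norm_pow] at hlt
    have e : ‖c₁‖ ^ (k - i) * ‖c₂‖ ^ i * ‖ev (Ob L) b ((Ek (pen P P') k).coeff i) v‖ * θ ^ s =
        κ ^ k * ‖ev (Ob L) b ((Ek (pen P P') k).coeff i) v‖ := by
      rw [← hsz]
      ring
    rw [e] at hlt
    by_contra hh
    have := mul_le_mul_of_nonneg_left (not_lt.1 hh) hκk.le
    linarith
  rw [(hKILL L B ι F V R ϖ b μ N Fil hϖ hF).2.1 _ v hv]
  exact (R.red_zero _ hfin.le).2 hfin

end Pool.Agent.P.MP_7cb106_nt.GK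
end

section
/-! Step PHI. -/

set_option autoImplicit false

namespace Pool.Agent.P.MP_7cb106_nt.GK

open Filter Topology

theorem phi_num (k N' Nx m : ℕ) (θ : ℝ) (h0 : 0 < θ) (h1 : θ ≤ 1) (h2 : θ ^ N' ≤ 1 / 2)
    (hx : 0 < Nx) : (1 + (m : ℝ)) ^ k * θ ^ (Nx * m) ≤ (1 + (k : ℝ) * N' / Nx) ^ k := by
  rcases Nat.eq_zero_or_pos k with rfl | hk
  · simpa using pow_le_one₀ h0.le h1
  have hN : 0 < N' := by
    rcases Nat.eq_zero_or_pos N' with rfl | h
    · norm_num at h2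
    · exact h
  have hkN : 0 < k * N' := Nat.mul_pos hk hN
  obtain ⟨q, hq⟩ : ∃ q, q = Nx * m / (k * N') := ⟨_, rfl⟩
  have hq1 : k * N' * q ≤ Nx * m := hq ▸ Nat.mul_div_le _ _
  have hq2 : Nx * m < k * N' * (q + 1) := hq ▸ Nat.lt_mul_div_succ _ hkN
  have hx' : (0 : ℝ) < Nx := by exact_mod_cast hx
  obtain ⟨A, hA⟩ : ∃ A : ℝ, A = (k : ℝ) * N' / Nx := ⟨_, rfl⟩
  have hA0 : 0 ≤ A := by rw [hA]; positivity
  have h3 : (m : ℝ) ≤ A * (q + 1) := by
    rw [hA, div_mul_eq_mul_div, le_div_iff₀ hx']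
    have : ((Nx * m : ℕ) : ℝ) ≤ ((k * N' * (q + 1) : ℕ) : ℝ) := by exact_mod_cast hq2.le
    push_cast at this
    linarith
  have h4 : ((q : ℝ) + 1) ≤ 2 ^ q := by exact_mod_cast Nat.lt_two_pow_self (n := q)
  have hq0 : (0 : ℝ) ≤ q := Nat.cast_nonneg q
  have h5 : 1 + (m : ℝ) ≤ (1 + A) * 2 ^ q := by
    have := mul_le_mul_of_nonneg_left h4 (show 0 ≤ 1 + A by linarith)
    nlinarith
  have h6 : θ ^ (Nx * m) ≤ ((1 / 2 : ℝ) ^ q) ^ k := by
    refine (pow_le_pow_of_le_one h0.le h1 hq1).trans ?_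
    rw [show k * N' * q = N' * q * k by ring, pow_mul, pow_mul]
    gcongr
  rw [← hA]
  calc (1 + (m : ℝ)) ^ k * θ ^ (Nx * m) ≤ ((1 + A) * 2 ^ q) ^ k * ((1 / 2 : ℝ) ^ q) ^ k := by gcongr
    _ = (1 + A) ^ k := by
      rw [← mul_pow, mul_assoc, ← mul_pow]
      norm_num

theorem phi_mem {L B : Type} [NormedField L] [IsUltrametricDist L] [NormedAddCommGroup B]
    [NormedSpace L B] (Fil : ℕ → Submodule (Ob L) (Module.End L B)) (h1 : 1 ∈ Fil 0)
    (hm : ∀ (t t' : ℕ) (c c' : Module.End L B), c ∈ Fil t → c' ∈ Fil t' → c * c' ∈ Fil (t + t'))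
    (Nx : ℕ) : ∀ (g : ℕ) (x : Fin g → Module.End L B) (β : Fin g → ℕ), (∀ j, x j ∈ Fil Nx) →
      xp x β ∈ Fil (Nx * ∑ j, β j) := by
  have hp : ∀ (c : Module.End L B), c ∈ Fil Nx → ∀ n : ℕ, c ^ n ∈ Fil (Nx * n) := by
    intro c hc n
    induction n with
    | zero => simpa using h1
    | succ n ih => rw [pow_succ, Nat.mul_succ]; exact hm _ _ _ _ ih hc
  intro g
  induction g with
  | zero => intro x β _; simpa [xp] using h1
  | succ g ih =>
    intro x β hx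
    have := hm _ _ _ _ (hp _ (hx 0) (β 0)) (ih (fun j => x j.succ) (fun j => β j.succ) fun j => hx _)
    rw [Fin.sum_univ_succ, Nat.mul_add]
    simpa [xp, List.ofFn_succ] using this

theorem p_PHI :
    S_PHI := by
  intro L B _ _ _ _ _ g k N' Nx x Fil θ M C φ v y h0 h1 h2 hx hone hm hxj hB hφ hs
  have hM : 0 ≤ M := by
    have := hB 0 1 hone
    rw [pow_zero, mul_one] at this
    exact (norm_nonneg _).trans this
  have hC : 0 ≤ C := by
    have := hφ 0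
    simp only [Pi.zero_apply, Nat.cast_zero, Finset.sum_const_zero, add_zero, one_pow,
      mul_one] at this
    exact (norm_nonneg _).trans this
  have hb : ∀ β : Fin g → ℕ, ‖φ β • xp x β v‖ ≤ C * (1 + (k : ℝ) * N' / Nx) ^ k * M := by
    intro β
    have e1 := hB _ _ (phi_mem Fil hone hm Nx g x β hxj)
    have e2 := hφ β
    have e3 := phi_num k N' Nx (∑ j, β j) θ h0 h1 h2 hx
    rw [← Nat.cast_sum] at e2
    calc ‖φ β • xp x β v‖ = ‖φ β‖ * ‖xp x β v‖ := norm_smul _ _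
      _ ≤ (C * (1 + ((∑ j, β j : ℕ) : ℝ)) ^ k) * (M * θ ^ (Nx * ∑ j, β j)) := by gcongr
      _ = C * ((1 + ((∑ j, β j : ℕ) : ℝ)) ^ k * θ ^ (Nx * ∑ j, β j)) * M := by ring
      _ ≤ _ := by gcongr
  rw [← hs.tsum_eq]
  exact IsUltrametricDist.norm_tsum_le_of_forall_le_of_nonneg (by positivity) hb

end Pool.Agent.P.MP_7cb106_nt.GK
end

section
/-! Step CONST. -/

set_option autoImplicit false

namespace Pool.Agent.P.MP_7cb106_nt.GK

open Filter Topology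

theorem const_per {p e a : ℕ} {w : ℕ → ℕ} (h : Wt p e a w) (j q : ℕ) :
    w (j + e * q) = p ^ q * w j := by
  induction q with
  | zero => simp
  | succ q ih => rw [mul_add, mul_one, ← add_assoc, h.per, ih, pow_succ', mul_assoc]

theorem const_nat {p e a : ℕ} {w : ℕ → ℕ} (h : Wt p e a w) (he : 0 < e) (J : ℕ) :
    ∃ N, w (J + 1) = w J + a * N ∧ p ^ (J / e) ≤ a * N ∧ a * N ≤ w e * p ^ (J / e) ∧
      w J ≤ N * (a * w e) := by
  have hm : StrictMono w := strictMono_nat_of_lt_succ h.lt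
  obtain ⟨N, hN⟩ := Nat.dvd_sub (h.dvd (J + 1)) (h.dvd J)
  have h0 := h.lt J
  have h1 : w J = p ^ (J / e) * w (J % e) := by rw [← const_per h, Nat.mod_add_div]
  have h2 : w (J + 1) = p ^ (J / e) * w (J % e + 1) := by
    rw [← const_per h, add_right_comm, Nat.mod_add_div]
  have h3 : w (J % e + 1) ≤ w e := hm.monotone (Nat.mod_lt J he)
  have h4 := h.lt (J % e)
  have h5 : p ^ (J / e) * (w (J % e) + 1) ≤ p ^ (J / e) * w (J % e + 1) :=
    Nat.mul_le_mul_left _ h4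
  have h6 : p ^ (J / e) * w (J % e + 1) ≤ p ^ (J / e) * w e := Nat.mul_le_mul_left _ h3
  have h7 : p ^ (J / e) ≤ a * N := by
    rw [mul_add, mul_one] at h5
    omega
  refine ⟨N, by omega, h7, by rw [mul_comm (w e)]; omega, ?_⟩
  calc w J ≤ p ^ (J / e) * w e := by omega
    _ ≤ a * N * w e := Nat.mul_le_mul_right _ h7
    _ = N * (a * w e) := by ring

theorem p_CONST :
    S_CONST := by
  intro p e a n w r b₀ C hp he ha hw r0 r1 hr hb
  set c₀ : ℝ := b₀ * r ^ (a * w e) with hc₀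
  have c0 : 0 < c₀ := by positivity
  set C' : ℝ := max C 1 with hC'
  have C1 : 1 ≤ C' := le_max_right _ _
  obtain ⟨Nx, hNx⟩ := exists_nat_gt (2 * C' * (n * e * w e) / c₀)
  have Nx0 : (0 : ℝ) < Nx := lt_of_le_of_lt (by positivity) hNx
  refine ⟨Nx, by exact_mod_cast Nx0, fun D => ?_⟩
  obtain ⟨Q, hQ⟩ := exists_nat_gt (max (max ((a * D : ℕ) : ℝ) (w e)) (max (2 * C' / c₀) (1 / (c₀ * r))))
  refine ⟨e * Q, fun J hJ => ?_⟩
  obtain ⟨N, n1, n2, n3, n4⟩ := const_nat hw he J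
  have q1 : Q ≤ J / e := (Nat.le_div_iff_mul_le he).2 (by rwa [mul_comm])
  have q2 : Q < p ^ (J / e) := q1.trans_lt (Nat.lt_pow_self (by omega))
  have q3 : (Q : ℝ) < (p : ℝ) ^ (J / e) := by exact_mod_cast q2
  simp only [max_lt_iff] at hQ
  obtain ⟨⟨Q1, Q2⟩, Q3, Q4⟩ := hQ
  have Q1' : a * D < Q := by exact_mod_cast Q1
  have Q2' : w e < Q := by exact_mod_cast Q2
  have DN : D < N := Nat.lt_of_mul_lt_mul_left (a := a) (by omega)
  have N0 : N ≠ 0 := by omega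
  set θ : ℝ := r ^ ((N : ℝ)⁻¹) with hθ
  have t0 : 0 < θ := Real.rpow_pos_of_pos r0 _
  have t1 : θ < 1 := Real.rpow_lt_one r0.le r1 (by positivity)
  have tN : θ ^ N = r := Real.rpow_inv_natCast_pow r0.le N0
  have tr : r ≤ θ := by
    rw [← tN]
    exact pow_le_of_le_one t0.le t1.le N0
  have tw : r ^ (a * w e) ≤ θ ^ w J := by
    rw [← tN, ← pow_mul]
    exact pow_le_pow_of_le_one t0.le t1.le n4
  have ra0 : 0 < r ^ a := by positivity
  have rp : (p : ℝ) ^ (J / e) ≤ ((r ^ a) ^ J)⁻¹ := by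
    have h1 : (r ^ a) ^ J ≤ (r ^ a) ^ (e * (J / e)) :=
      pow_le_pow_of_le_one ra0.le (pow_le_one₀ r0.le r1.le) (Nat.mul_div_le J e)
    rw [pow_mul, hr, inv_pow] at h1
    exact (le_inv_comm₀ (by positivity) (by positivity)).1 h1
  set P : ℝ := (p : ℝ) ^ (J / e) with hP
  have P0 : 0 < P := by positivity
  have κ1 : c₀ * P ≤ b₀ * ((r ^ a) ^ J)⁻¹ * θ ^ w J := by
    calc c₀ * P = b₀ * P * r ^ (a * w e) := by rw [hc₀]; ring
      _ ≤ b₀ * ((r ^ a) ^ J)⁻¹ * θ ^ w J := by gcongr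
  refine ⟨N, θ, n1, t0, t1, tN, DN, fun j hj => ?_, ?_, fun k k1 kn => ?_⟩
  · have h1 : w j < w e := strictMono_nat_of_lt_succ hw.lt hj
    have h2 : a * N ≤ e * (a * N) := Nat.le_mul_of_pos_left _ he
    rw [mul_assoc]
    omega
  · have h1 : 1 < P * (c₀ * r) := (div_lt_iff₀ (by positivity)).1 (Q4.trans q3)
    calc (1 : ℝ) ≤ c₀ * P * r := by linarith
      _ ≤ b₀ * ((r ^ a) ^ J)⁻¹ * θ ^ w J * θ := by gcongr
  · set X : ℝ := 1 + k * ((e * a * N : ℕ) : ℝ) / Nx with hX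
    have X0 : 0 ≤ X := by positivity
    have h1 : 2 * C' < P * c₀ := (div_lt_iff₀ c0).1 (Q3.trans q3)
    have h2 : 2 * C' * (n * e * w e) < Nx * c₀ := (div_lt_iff₀ c0).1 hNx
    have h3 : (k : ℝ) * ((e * a * N : ℕ) : ℝ) ≤ n * e * w e * P := by
      have h4 : k * (e * a * N) ≤ n * e * w e * p ^ (J / e) := by
        calc k * (e * a * N) = k * e * (a * N) := by ring
          _ ≤ n * e * (w e * p ^ (J / e)) := by gcongr
          _ = n * e * w e * p ^ (J / e) := by ring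
      rw [hP]
      exact_mod_cast h4
    have h5 : C' * (k * ((e * a * N : ℕ) : ℝ) / Nx) ≤ c₀ * P / 2 := by
      rw [← mul_div_assoc, div_le_iff₀ Nx0]
      calc C' * (k * ((e * a * N : ℕ) : ℝ)) ≤ C' * (n * e * w e * P) := by gcongr
        _ = 2 * C' * (n * e * w e) * (P / 2) := by ring
        _ ≤ Nx * c₀ * (P / 2) := by gcongr
        _ = c₀ * P / 2 * Nx := by ring
    have h6 : C' * X < b₀ * ((r ^ a) ^ J)⁻¹ * θ ^ w J := by
      rw [hX, mul_add, mul_one]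
      linarith
    calc C * X ^ k ≤ C' ^ k * X ^ k :=
          mul_le_mul_of_nonneg_right ((le_max_left C 1).trans (le_self_pow₀ C1 (by omega)))
            (by positivity)
      _ = (C' * X) ^ k := by rw [mul_pow]
      _ < _ := pow_lt_pow_left₀ h6 (by positivity) (by omega)

end Pool.Agent.P.MP_7cb106_nt.GK
end

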