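import Pool.Agent.P.MP_7cb106_nt.GK.IfaceG

section
/-! Step MC. -/

set_option autoImplicit false

namespace Pool.Agent.P.MP_7cb106_nt.GK

open Matrix Polynomial

theorem mc_map_mul {n : ℕ} {F E : Type} [CommRing F] [Field E] [Algebra F E]
    (D : Derivation F E E) (A B : Mat n E) :
    (A * B).map D = A.map D * B + A * B.map D := by
  ext i j
  simp only [Matrix.map_apply, Matrix.mul_apply, Matrix.add_apply, map_sum, Derivation.leibniz,
    smul_eq_mul, ← Finset.sum_add_distrib]
  refine Finset.sum_congr rfl fun k _ => ?_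
  ring

theorem mc_map_trace {n : ℕ} {F E : Type} [CommRing F] [Field E] [Algebra F E]
    (D : Derivation F E E) (A : Mat n E) : D (trace A) = trace (A.map D) := by
  simp only [Matrix.trace, Matrix.diag_apply, Matrix.map_apply, map_sum]

theorem mc_map_const {n : ℕ} {F E : Type} [CommRing F] [Field E] [Algebra F E]
    (D : Derivation F E E) (N : Mat n E) (hN : ∀ i j, N i j = 0 ∨ N i j = 1) : N.map D = 0 := by
  ext i j
  rcases hN i j with h | h <;> simp [Matrix.map_apply, h]

theorem mc_map_inv {n : ℕ} {F E : Type} [CommRing F] [Field E] [Algebra F E]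
    (D : Derivation F E E) (G H : Mat n E) (hGH : G * H = 1) :
    H.map D = - (H * G.map D * H) := by
  have hHG : H * G = 1 := mul_eq_one_comm.mp hGH
  have h1 : (1 : Mat n E).map D = 0 := by
    refine mc_map_const D _ fun i j => ?_
    by_cases h : i = j <;> simp [Matrix.one_apply, h]
  have h2 : G.map D * H + G * H.map D = 0 := by rw [← mc_map_mul, hGH, h1]
  have h3 : H * (G.map D * H + G * H.map D) = H * G.map D * H + (H * G) * H.map D := by
    noncomm_ring
  rw [h2, Matrix.mul_zero, hHG, Matrix.one_mul] at h3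
  exact eq_neg_of_add_eq_zero_right h3.symm

theorem p_MC :
    S_MC := by
  intro n F E _ _ _ D₁ D₂ y G H N hGH hy hN
  have hHG : H * G = 1 := mul_eq_one_comm.mp hGH
  have hDy : ∀ D : Derivation F E E,
      y.map D = G.map D * N * H - G * N * (H * G.map D * H) := by
    intro D
    rw [hy, mc_map_mul, mc_map_mul, mc_map_const D N hN, mc_map_inv D G H hGH]
    noncomm_ring
  have htr : ∀ A : Mat n E, trace (y * A * H) = trace (N * (H * A)) := by
    intro A
    have e : y * A * H = G * (N * (H * A) * H) := by rw [hy]; noncomm_ring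
    rw [e, trace_mul_comm]
    congr 1
    calc N * (H * A) * H * G = N * (H * A) * (H * G) := by noncomm_ring
      _ = _ := by rw [hHG, Matrix.mul_one]
  refine ⟨?_, ?_⟩
  · rw [adM_apply, hDy D₁]
    calc G.map D₁ * H * y - y * (G.map D₁ * H)
        = G.map D₁ * (H * G) * N * H - G * N * (H * G.map D₁ * H) := by
          rw [hy]; noncomm_ring
      _ = _ := by rw [hHG, Matrix.mul_one]
  · have hbr : G.map (⁅D₁, D₂⁆ : Derivation F E E) =
        (G.map D₂).map D₁ - (G.map D₁).map D₂ := by
      ext i j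
      simp only [Matrix.map_apply, Matrix.sub_apply, Derivation.commutator_apply]
    rw [htr, htr, htr, mc_map_trace, mc_map_trace, mc_map_mul, mc_map_mul, mc_map_mul, mc_map_mul,
      mc_map_const D₁ N hN, mc_map_const D₂ N hN, mc_map_inv D₁ G H hGH, mc_map_inv D₂ G H hGH,
      hbr, hDy D₂]
    have e1 : G.map D₁ * H * (G.map D₂ * N * H - G * N * (H * G.map D₂ * H)) =
        (G.map D₁ * H * G.map D₂) * (N * H) - G.map D₁ * (N * (H * G.map D₂ * H)) := by
      calc G.map D₁ * H * (G.map D₂ * N * H - G * N * (H * G.map D₂ * H))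
          = (G.map D₁ * H * G.map D₂) * (N * H) -
            G.map D₁ * (H * G) * (N * (H * G.map D₂ * H)) := by noncomm_ring
        _ = _ := by rw [hHG, Matrix.mul_one]
    rw [e1, trace_sub, trace_mul_comm (G.map D₁ * H * G.map D₂) (N * H),
      trace_mul_comm (G.map D₁) (N * (H * G.map D₂ * H)), ← trace_sub, ← trace_sub, ← trace_sub,
      ← trace_neg]
    congr 1
    noncomm_ring

end Pool.Agent.P.MP_7cb106_nt.GK
end

section
/-! Step KKS. -/

set_option autoImplicit false

namespace Pool.Agent.P.MP_7cb106_nt.GK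

open Matrix Polynomial

theorem kks_skew {n : ℕ} {E : Type} [CommRing E] (y A B : Mat n E) :
    trace (A * adM y B) = - trace (adM y A * B) := by
  rw [adM_apply, adM_apply, mul_sub, sub_mul, trace_sub, trace_sub]
  have h1 : trace (A * (B * y)) = trace (y * A * B) := by
    rw [← mul_assoc, trace_mul_comm, ← mul_assoc]
  have h2 : A * (y * B) = A * y * B := by rw [mul_assoc]
  rw [h1, h2]
  ring

theorem kks_dep {n : ℕ} {E : Type} [CommRing E] (y A A' B : Mat n E)
    (h : adM y A = adM y A') : trace (A * adM y B) = trace (A' * adM y B) := by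
  rw [kks_skew, kks_skew, h]

theorem kks_tri {n : ℕ} {E : Type} [Field E] (y G H N : Mat n E) (hGH : G * H = 1)
    (hy : y = G * N * H) (hN : SU N) : Tri y G H := by
  have hHG : H * G = 1 := mul_eq_one_comm.mp hGH
  refine ⟨hGH, ?_⟩
  have : H * y * G = N := by
    rw [hy]
    calc H * (G * N * H) * G = (H * G) * N * (H * G) := by simp only [mul_assoc]
      _ = N := by rw [hHG, one_mul, mul_one]
  rw [this]
  exact hN

theorem kks_map_add {n : ℕ} {F E : Type} [CommRing F] [Field E] [Algebra F E]
    (D : Derivation F E E) (y y' : Mat n E) : (y + y').map D = y.map D + y'.map D := by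
  ext i j
  simp [Matrix.map_apply]

theorem p_KKS (hREV : S_REV) (hJORD : S_JORD) (hADD : S_ADD) (hMC : S_MC) :
    S_KKS := by
  intro n F E _ _ _ _ hinf y y' hpen
  obtain ⟨-, hy, hy', hyy⟩ := hREV n E y y' hpen
  obtain ⟨G₁, H₁, N₁, g₁, e₁, s₁, z₁⟩ := hJORD n E y hy
  obtain ⟨G₂, H₂, N₂, g₂, e₂, s₂, z₂⟩ := hJORD n E y' hy'
  obtain ⟨G₃, H₃, N₃, g₃, e₃, s₃, z₃⟩ := hJORD n E (y + y') hyy
  have t₁ := kks_tri y G₁ H₁ N₁ g₁ e₁ s₁
  have t₂ := kks_tri y' G₂ H₂ N₂ g₂ e₂ s₂
  have t₃ := kks_tri (y + y') G₃ H₃ N₃ g₃ e₃ s₃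
  have a₁ : ∀ D : Derivation F E E, adM y (G₁.map D * H₁) = y.map D :=
    fun D => (hMC n F E D D y G₁ H₁ N₁ g₁ e₁ z₁).1
  have a₃ : ∀ D : Derivation F E E, adM (y + y') (G₃.map D * H₃) = (y + y').map D :=
    fun D => (hMC n F E D D (y + y') G₃ H₃ N₃ g₃ e₃ z₃).1
  refine ⟨fun D => ⟨⟨_, a₁ D⟩, ⟨_, a₃ D⟩⟩, ?_⟩
  intro D₁ D₂ A C' k₁ k₂ hA hC
  have add : ∀ D : Derivation F E E, trace ((y + y') * G₃.map D * H₃) =
      trace (y * G₁.map D * H₁) + trace (y' * G₂.map D * H₂) :=
    fun D => hADD n F E D (hinf D) y y' hpen G₁ H₁ G₂ H₂ G₃ H₃ t₁ t₂ t₃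
  have m₁ := (hMC n F E D₁ D₂ y G₁ H₁ N₁ g₁ e₁ z₁).2
  have m₂ := (hMC n F E D₁ D₂ y' G₂ H₂ N₂ g₂ e₂ z₂).2
  have m₃ := (hMC n F E D₁ D₂ (y + y') G₃ H₃ N₃ g₃ e₃ z₃).2
  have p₁ : (y + y').map D₁ = y.map D₁ := by rw [kks_map_add, k₁, add_zero]
  have p₂ : (y + y').map D₂ = y.map D₂ := by rw [kks_map_add, k₂, add_zero]
  rw [add D₁, add D₂, add ⁅D₁, D₂⁆, map_add, map_add, p₂] at m₃
  rw [k₂, mul_zero, trace_zero, neg_zero] at m₂
  have key : trace (G₁.map D₁ * H₁ * y.map D₂) = trace (G₃.map D₁ * H₃ * y.map D₂) := by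
    linear_combination m₁ + m₂ - m₃
  have l₁ : trace (A * y.map D₂) = trace (G₁.map D₁ * H₁ * y.map D₂) := by
    rw [← a₁ D₂]
    exact kks_dep y A _ _ (hA.trans (a₁ D₁).symm)
  have l₃ : trace (C' * y.map D₂) = trace (G₃.map D₁ * H₃ * y.map D₂) := by
    rw [← p₂, ← a₃ D₂]
    exact kks_dep (y + y') C' _ _ (hC.trans (p₁.symm.trans (a₃ D₁).symm))
  rw [l₁, l₃, key]

end Pool.Agent.P.MP_7cb106_nt.GK
end

section
/-! Step ISO. -/

set_option autoImplicit false

namespace Pool.Agent.P.MP_7cb106_nt.GK

open Matrix Polynomial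

namespace ISOx

open Module

section general

variable {E V W : Type} [Field E] [AddCommGroup V] [Module E V] [AddCommGroup W] [Module E W]

theorem rn [FiniteDimensional E V] (f : V →ₗ[E] W) (S : Submodule E V) :
    finrank E (S.map f) + finrank E (S ⊓ LinearMap.ker f : Submodule E V) = finrank E S := by
  rw [← (f.domRestrict S).finrank_range_add_finrank_ker, LinearMap.range_domRestrict,
    LinearMap.ker_domRestrict, ← Submodule.map_comap_subtype, Submodule.finrank_map_subtype_eq]

theorem iso [FiniteDimensional E V] (Φ : V →ₗ[E] W) (β : W →ₗ[E] Dual E V)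
    (hβ : Function.Injective β) (U : Submodule E W) (hU : U ≤ LinearMap.range Φ)
    (h : ∀ u ∈ U, ∀ v, Φ v ∈ U → β u v = 0) :
    2 * finrank E U ≤ finrank E (LinearMap.range Φ) := by
  have h1 := rn Φ (U.comap Φ)
  rw [Submodule.map_comap_eq_self hU, inf_eq_right.2 (LinearMap.ker_le_comap Φ)] at h1
  have h2 := Φ.finrank_range_add_finrank_ker
  have h3 := Subspace.finrank_add_finrank_dualAnnihilator_eq (U.comap Φ)
  have h4 : finrank E (U.map β) ≤ finrank E (U.comap Φ).dualAnnihilator := by
    refine Submodule.finrank_mono ?_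
    rintro _ ⟨u, hu, rfl⟩
    exact (Submodule.mem_dualAnnihilator _).2 fun v hv => h u hu v hv
  rw [← (Submodule.equivMapOfInjective β hβ U).finrank_eq] at h4
  omega

theorem prod_le {V' W' : Type} [AddCommGroup V'] [Module E V'] [AddCommGroup W'] [Module E W']
    [FiniteDimensional E V] [FiniteDimensional E V'] (f : V →ₗ[E] W) (g : V' →ₗ[E] W') :
    finrank E (LinearMap.range (f.prodMap g)) ≤
      finrank E (LinearMap.range f) + finrank E (LinearMap.range g) := by
  have : LinearMap.range (f.prodMap g) =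
      LinearMap.range ((LinearMap.range f).subtype.prodMap (LinearMap.range g).subtype) := by
    simp only [LinearMap.range_prodMap, Submodule.range_subtype]
  rw [this, ← finrank_prod]
  exact LinearMap.finrank_range_le _

end general

variable {n : ℕ} {E : Type} [Field E]

theorem skew (y A X : Mat n E) : trace (A * adM y X) = - trace (X * adM y A) := by
  simp only [adM_apply, Matrix.mul_sub, trace_sub, neg_sub, ← Matrix.mul_assoc]
  rw [trace_mul_cycle X y A, trace_mul_cycle A y X]

/-- the pairing on triples of matrices -/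
def pair : (Mat n E × Mat n E × Mat n E) →ₗ[E] Dual E (Mat n E × Mat n E × Mat n E) :=
  LinearMap.mk₂ E (fun u v => trace (v.1 * u.1) + trace (v.2.1 * u.2.1) - trace (v.2.2 * u.2.2))
    (fun a b c => by simp only [Prod.fst_add, Prod.snd_add, Matrix.mul_add, trace_add]; ring)
    (fun a b c => by
      simp only [Prod.smul_fst, Prod.smul_snd, Matrix.mul_smul, trace_smul, smul_eq_mul]; ring)
    (fun a b c => by simp only [Prod.fst_add, Prod.snd_add, Matrix.add_mul, trace_add]; ring)
    (fun a b c => by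
      simp only [Prod.smul_fst, Prod.smul_snd, Matrix.smul_mul, trace_smul, smul_eq_mul]; ring)

theorem pair_apply (u v : Mat n E × Mat n E × Mat n E) :
    pair u v = trace (v.1 * u.1) + trace (v.2.1 * u.2.1) - trace (v.2.2 * u.2.2) := rfl

theorem pair_inj : Function.Injective (pair (n := n) (E := E)) := by
  rw [injective_iff_map_eq_zero]
  rintro ⟨a, b, c⟩ h
  have h1 : a = 0 := ext_iff_trace_mul_left.2 fun x => by
    simpa [pair_apply] using LinearMap.congr_fun h (x, 0, 0)
  have h2 : b = 0 := ext_iff_trace_mul_left.2 fun x => by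
    simpa [pair_apply] using LinearMap.congr_fun h (0, x, 0)
  have h3 : c = 0 := ext_iff_trace_mul_left.2 fun x => by
    simpa [pair_apply] using LinearMap.congr_fun h (0, 0, x)
  rw [h1, h2, h3]
  rfl

end ISOx

open ISOx Module in
theorem p_ISO :
    S_ISO := by
  intro n E _ y y' T h1 h2 h3
  let Φ := (adM y).prodMap ((adM y').prodMap (adM (y + y')))
  let ι : Mat n E →ₗ[E] Mat n E × Mat n E × Mat n E :=
    LinearMap.id.prod ((0 : Mat n E →ₗ[E] Mat n E).prod LinearMap.id)
  let δ : Mat n E →ₗ[E] Mat n E × Mat n E × Mat n E :=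
    (adM y).prod ((adM y').prod (adM (y + y')))
  let U : Submodule E (Mat n E × Mat n E × Mat n E) := T.map ι ⊔ LinearMap.range δ
  have hU : ∀ u ∈ U, ∃ t ∈ T, ∃ X, u = (t + adM y X, adM y' X, t + adM (y + y') X) := by
    intro u hu
    obtain ⟨_, ⟨t, ht, rfl⟩, _, ⟨X, rfl⟩, rfl⟩ := Submodule.mem_sup.1 hu
    exact ⟨t, ht, X, by simp [ι, δ]⟩
  have hle : U ≤ LinearMap.range Φ := by
    intro u hu
    obtain ⟨t, ht, X, rfl⟩ := hU u hu
    obtain ⟨A, hA⟩ := h1 ht
    obtain ⟨C', hC⟩ := h2 ht
    exact ⟨(A + X, X, C' + X), by simp [Φ, hA, hC]⟩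
  have hiso := iso Φ pair pair_inj U hle (by
    intro u hu v hv
    obtain ⟨t₁, ht₁, X₁, rfl⟩ := hU u hu
    obtain ⟨t₂, ht₂, X₂, e⟩ := hU _ hv
    obtain ⟨A, B, C'⟩ := v
    have e1 : adM y A = t₂ + adM y X₂ := congrArg Prod.fst e
    have e2 : adM y' B = adM y' X₂ := congrArg (fun w => w.2.1) e
    have e3 : adM (y + y') C' = t₂ + adM (y + y') X₂ := congrArg (fun w => w.2.2) e
    have e4 := h3 t₂ ht₂ t₁ ht₁ (A - X₂) (C' - X₂) (by rw [map_sub, e1, add_sub_cancel_right])
      (by rw [map_sub, e3, add_sub_cancel_right])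
    have e5 : adM (y + y') X₂ = adM y X₂ + adM y' X₂ := by
      simp only [adM_apply, Matrix.mul_add, Matrix.add_mul]
      abel
    rw [Matrix.sub_mul, Matrix.sub_mul, trace_sub, trace_sub, sub_left_inj] at e4
    rw [pair_apply]
    simp only [Matrix.mul_add, trace_add]
    rw [skew y A, skew y' B, skew (y + y') C', e1, e2, e3, e4, e5]
    simp only [Matrix.mul_add, trace_add]
    ring)
  have hΦ : finrank E (LinearMap.range Φ) ≤ rk y + (rk y' + rk (y + y')) :=
    (prod_le _ _).trans (Nat.add_le_add_left (prod_le _ _) _)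
  let π : (Mat n E × Mat n E × Mat n E) →ₗ[E] Mat n E :=
    (LinearMap.fst E _ _).comp (LinearMap.snd E _ _)
  have h4 := rn π U
  have h5 : rk y' ≤ finrank E (U.map π) := by
    refine Submodule.finrank_mono ?_
    rintro _ ⟨X, rfl⟩
    exact ⟨δ X, Submodule.mem_sup_right ⟨X, rfl⟩, rfl⟩
  have h6 : finrank E (T.map ι) ≤ finrank E (U ⊓ LinearMap.ker π : Submodule E _) := by
    refine Submodule.finrank_mono (le_inf le_sup_left ?_)
    rintro _ ⟨t, _, rfl⟩
    rfl
  have hι : Function.Injective ι := fun a b h => congrArg Prod.fst h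
  rw [← (Submodule.equivMapOfInjective ι hι T).finrank_eq] at h6
  omega

end Pool.Agent.P.MP_7cb106_nt.GK
end

section
/-! Step RK. -/

set_option autoImplicit false

namespace Pool.Agent.P.MP_7cb106_nt.GK

open Matrix Polynomial

theorem rk_le_conj {n : ℕ} {E : Type} [Field E] (G H N : Mat n E) (h : G * H = 1) :
    rk (G * N * H) ≤ rk N := by
  have h' : H * G = 1 := mul_eq_one_comm.mp h
  let c : Mat n E →ₗ[E] Mat n E := (LinearMap.mulRight E H).comp (LinearMap.mulLeft E G)
  have hle : LinearMap.range (adM (G * N * H)) ≤ (LinearMap.range (adM N)).map c := by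
    rintro _ ⟨A, rfl⟩
    refine ⟨adM N (H * A * G), ⟨_, rfl⟩, ?_⟩
    change G * (H * A * G * N - N * (H * A * G)) * H = A * (G * N * H) - G * N * H * A
    have e1 : G * (H * A * G * N) * H = (G * H) * A * (G * N * H) := by
      simp only [mul_assoc]
    have e2 : G * (N * (H * A * G)) * H = G * N * H * A * (G * H) := by
      simp only [mul_assoc]
    rw [mul_sub, sub_mul, e1, e2, h, one_mul, mul_one]
  exact (Submodule.finrank_mono hle).trans (Submodule.finrank_map_le c _)

theorem rk_conj {n : ℕ} {E : Type} [Field E] (G H N : Mat n E) (h : G * H = 1) :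
    rk (G * N * H) = rk N := by
  have h' : H * G = 1 := mul_eq_one_comm.mp h
  refine le_antisymm (rk_le_conj G H N h) ?_
  have e : N = H * (G * N * H) * G := by
    calc N = (H * G) * N * (H * G) := by rw [h', one_mul, mul_one]
      _ = H * (G * N * H) * G := by simp only [mul_assoc]
  calc rk N = rk (H * (G * N * H) * G) := by rw [← e]
    _ ≤ rk (G * N * H) := rk_le_conj H G _ h'

theorem rk_smul {n : ℕ} {E : Type} [Field E] (y : Mat n E) (c : E) (hc : c ≠ 0) :
    rk (c • y) = rk y := by
  have e : adM (c • y) = c • adM y := by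
    refine LinearMap.ext fun A => ?_
    rw [LinearMap.smul_apply, adM_apply, adM_apply, smul_sub, Matrix.mul_smul, Matrix.smul_mul]
  unfold rk
  rw [e, LinearMap.range_smul _ _ hc]

theorem rk_su_ad {n : ℕ} {E : Type} [Field E] (N A : Mat n E) (hN : SU N) (hA : Up A) :
    SU (adM N A) := by
  intro i j hji
  rw [adM_apply, Matrix.sub_apply, Matrix.mul_apply, Matrix.mul_apply]
  rw [Finset.sum_eq_zero, Finset.sum_eq_zero, sub_zero]
  · intro k _
    rcases le_or_gt k i with hk | hk
    · rw [hN i k hk, zero_mul]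
    · rw [hA k j (lt_of_le_of_lt hji hk), mul_zero]
  · intro k _
    rcases lt_or_ge k i with hk | hk
    · rw [hA i k hk, zero_mul]
    · rw [hN k j (hji.trans hk), mul_zero]

/-- the space of upper triangular matrices -/
def rk_U (n : ℕ) (E : Type) [Field E] : Submodule E (Mat n E) where
  carrier := {A | Up A}
  add_mem' := fun {A B} hA hB i j h => by
    rw [Matrix.add_apply, hA i j h, hB i j h, add_zero]
  zero_mem' := fun _ _ _ => rfl
  smul_mem' := fun c A hA i j h => by
    rw [Matrix.smul_apply, hA i j h, smul_zero]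

theorem rk_su {n : ℕ} {E : Type} [Field E] (N : Mat n E) (hN : SU N) : rk N + n ≤ n * n := by
  have hmap : ∀ A ∈ rk_U n E, adM N A ∈ rk_U n E := fun A hA i j h =>
    rk_su_ad N A hN hA i j h.le
  let f : rk_U n E →ₗ[E] rk_U n E := (adM N).restrict hmap
  let d : rk_U n E →ₗ[E] (Fin n → E) := (Matrix.diagLinearMap (Fin n) E E).comp (rk_U n E).subtype
  have hd : LinearMap.range d = ⊤ := by
    rw [LinearMap.range_eq_top]
    intro v
    refine ⟨⟨Matrix.diagonal v, fun i j h => Matrix.diagonal_apply_ne v h.ne'⟩, ?_⟩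
    funext i
    simp [d]
  have h1 := d.finrank_range_add_finrank_ker
  rw [hd, finrank_top, Module.finrank_fin_fun] at h1
  have h2 := f.finrank_range_add_finrank_ker
  have h3 : LinearMap.range f ≤ LinearMap.ker d := by
    rintro _ ⟨A, rfl⟩
    rw [LinearMap.mem_ker]
    funext i
    exact rk_su_ad N A.1 hN A.2 i i le_rfl
  have h4 := Submodule.finrank_mono h3
  have h5 : (LinearMap.ker f).map (rk_U n E).subtype ≤ LinearMap.ker (adM N) := by
    rintro _ ⟨A, hA, rfl⟩
    exact congrArg Subtype.val (LinearMap.mem_ker.mp hA)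
  have h6 := Submodule.finrank_mono h5
  rw [Submodule.finrank_map_subtype_eq] at h6
  have h7 := (adM N).finrank_range_add_finrank_ker
  rw [Module.finrank_matrix, Fintype.card_fin, Module.finrank_self, mul_one] at h7
  unfold rk
  omega

theorem p_RK (hJORD : S_JORD) :
    S_RK := by
  intro n E _ y hy
  obtain ⟨G, H, N, hGH, rfl, hN, h01⟩ := hJORD n E y hy
  refine ⟨?_, fun φ c hc => ?_⟩
  · rw [rk_conj G H N hGH]
    exact rk_su N hN
  · have hNφ : N.map φ = N := by
      ext i j
      rcases h01 i j with h | h <;> simp [Matrix.map_apply, h]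
    have h1 : G.map φ * H.map φ = 1 := by
      rw [← Matrix.map_mul, hGH, Matrix.map_one φ (map_zero φ) (map_one φ)]
    rw [rk_smul _ c hc, Matrix.map_mul, Matrix.map_mul, hNφ, rk_conj _ _ N h1, rk_conj G H N hGH]

end Pool.Agent.P.MP_7cb106_nt.GK
end

section
/-! Step TELE. -/

set_option autoImplicit false

namespace Pool.Agent.P.MP_7cb106_nt.GK

open Matrix Polynomial

namespace TELEx

open Module

theorem rn {E V W : Type} [Field E] [AddCommGroup V] [Module E V] [AddCommGroup W] [Module E W]
    [FiniteDimensional E V] (f : V →ₗ[E] W) (S : Submodule E V) :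
    finrank E (S.map f) + finrank E (S ⊓ LinearMap.ker f : Submodule E V) = finrank E S := by
  rw [← (f.domRestrict S).finrank_range_add_finrank_ker, LinearMap.range_domRestrict,
    LinearMap.ker_domRestrict, ← Submodule.map_comap_subtype, Submodule.finrank_map_subtype_eq]

variable {n : ℕ} (F : Type) {E : Type} [CommRing F] [Field E] [Algebra F E]

/-- apply a derivation to the entries of a matrix -/
def ev (M : Mat n E) : Derivation F E E →ₗ[E] Mat n E where
  toFun D := M.map D
  map_add' _ _ := rfl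
  map_smul' _ _ := rfl

/-- derivations killing `y i` for `j ≤ i ≤ f` -/
def V (y : ℕ → Mat n E) (f j : ℕ) : Submodule E (Derivation F E E) :=
  ⨅ (i : ℕ) (_ : j ≤ i) (_ : i ≤ f), LinearMap.ker (ev F (y i))

theorem mem_V {y : ℕ → Mat n E} {f j : ℕ} {D : Derivation F E E} :
    D ∈ V F y f j ↔ ∀ i, j ≤ i → i ≤ f → (y i).map D = 0 := by
  simp only [V, Submodule.mem_iInf, LinearMap.mem_ker]
  rfl

end TELEx

open TELEx Module in
theorem p_TELE (hREV : S_REV) (hKKS : S_KKS) (hISO : S_ISO) (hRK : S_RK) :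
    S_TELE := by
  intro n f F E _ _ _ _ hinf y φ c hc hy hnil hf h0 r d hd
  have : FiniteDimensional E (Derivation F E E) := by
    refine FiniteDimensional.of_injective (LinearMap.pi fun j : Fin f => ev F (y j)) ?_
    rw [injective_iff_map_eq_zero]
    exact fun D hD => h0 D fun j hj => congrFun hD ⟨j, hj⟩
  have key : ∀ j ≤ f, 2 * finrank E (V F y f j) + rk (y j) + j * n ≤ rk (y 0) + j * (n * n) := by
    intro j
    induction j with
    | zero =>
      intro _
      have : V F y f 0 = ⊥ := eq_bot_iff.2 fun D hD =>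
        h0 D fun j hj => (mem_V F).1 hD j (Nat.zero_le _) hj.le
      simp [this]
    | succ j ih =>
      intro hj
      have ih := ih (by omega)
      obtain ⟨k1, k2⟩ := hKKS n F E hinf (y j) (y (j + 1)) (hnil j hj)
      have h1 := rn (ev F (y j)) (V F y f (j + 1))
      have h2 : V F y f (j + 1) ⊓ LinearMap.ker (ev F (y j)) = V F y f j := by
        ext D
        rw [Submodule.mem_inf, mem_V, mem_V, LinearMap.mem_ker]
        refine ⟨fun h i a b => ?_, fun h => ⟨fun i a b => h i (by omega) b, h j le_rfl (by omega)⟩⟩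
        rcases a.eq_or_lt with rfl | a
        · exact h.2
        · exact h.1 i a b
      have hz : ∀ D ∈ V F y f (j + 1), (y (j + 1)).map D = 0 := fun D hD =>
        (mem_V F).1 hD _ le_rfl hj
      have h3 := hISO n E (y j) (y (j + 1)) ((V F y f (j + 1)).map (ev F (y j)))
        (by rintro _ ⟨D, _, rfl⟩; exact (k1 D).1)
        (by
          rintro _ ⟨D, hD, rfl⟩
          have e : (y j + y (j + 1)).map D = (y j).map D := by
            rw [Matrix.map_add _ (map_add D), hz D hD, add_zero]
          have := (k1 D).2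
          rwa [e] at this)
        (by
          rintro _ ⟨D₁, hD₁, rfl⟩ _ ⟨D₂, hD₂, rfl⟩ A C' a b
          exact k2 D₁ D₂ A C' (hz _ hD₁) (hz _ hD₂) a b)
      have h4 := (hRK n E _ (hREV n E _ _ (hnil j hj)).2.2.2).1
      rw [h2] at h1
      rw [add_mul, add_mul, one_mul, one_mul]
      omega
  have h1 := key f le_rfl
  have h2 : V F y f f = ⊤ := eq_top_iff.2 fun D _ => (mem_V F).2 fun i a b => by
    rw [le_antisymm b a]
    exact hf D
  have h3 : rk (y f) = rk (y 0) := by
    rcases Nat.eq_zero_or_pos f with rfl | hpos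
    · rfl
    · rw [hy]
      exact (hRK n E _ (hREV n E _ _ (hnil 0 hpos)).2.1).2 φ c hc
  have h4 := hd.fintype_card_le_finrank
  rw [Fintype.card_fin] at h4
  rw [h2, finrank_top] at h1
  omega

end Pool.Agent.P.MP_7cb106_nt.GK
end

section
/-! Step DER. -/

set_option autoImplicit false

namespace Pool.Agent.P.MP_7cb106_nt.GK

open Matrix Polynomial

theorem der_extend (R S T : Type) [CommRing R] [CommRing S] [CommRing T] [Algebra R S]
    [Algebra R T] [Algebra S T] [IsScalarTower R S T] [Algebra.FormallyEtale S T]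
    (δ : Derivation R S T) :
    ∃ d : Derivation R T T, ∀ s : S, d (algebraMap S T s) = δ s := by
  refine ⟨((LinearMap.liftBaseChange T δ.liftKaehlerDifferential).comp
    (KaehlerDifferential.tensorKaehlerEquivOfFormallyEtale R S T).symm.toLinearMap).compDer
      (KaehlerDifferential.D R T), fun s => ?_⟩
  change LinearMap.liftBaseChange T δ.liftKaehlerDifferential
    ((KaehlerDifferential.tensorKaehlerEquivOfFormallyEtale R S T).symm
      (KaehlerDifferential.D R T (algebraMap S T s))) = δ s
  rw [KaehlerDifferential.tensorKaehlerEquivOfFormallyEtale_symm_D_algebraMap]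
  simp

open scoped IntermediateField.algebraAdjoinAdjoin in
theorem der_dual (F E ι : Type) [Field F] [Field E] [Algebra F E] [DecidableEq ι] (v : ι → E)
    (hv : AlgebraicIndependent F v)
    [Algebra.IsSeparable (IntermediateField.adjoin F (Set.range v)) E] (i : ι) :
    ∃ d : Derivation F E E, ∀ j, d (v j) = if j = i then 1 else 0 := by
  let : Algebra (MvPolynomial ι F) E := (MvPolynomial.aeval (R := F) v).toRingHom.toAlgebra
  have : IsScalarTower F (MvPolynomial ι F) E :=
    IsScalarTower.of_algebraMap_eq fun x => by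
      change _ = MvPolynomial.aeval v (algebraMap F (MvPolynomial ι F) x)
      simp
  let : Algebra (MvPolynomial ι F) (Algebra.adjoin F (Set.range v)) :=
    hv.aevalEquiv.toRingEquiv.toRingHom.toAlgebra
  have : IsScalarTower (MvPolynomial ι F) (Algebra.adjoin F (Set.range v)) E :=
    IsScalarTower.of_algebraMap_eq fun x => by
      change MvPolynomial.aeval v x = algebraMap _ E (hv.aevalEquiv x)
      rw [hv.algebraMap_aevalEquiv]
  have : Algebra.FormallyEtale (MvPolynomial ι F) (Algebra.adjoin F (Set.range v)) :=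
    Algebra.FormallyEtale.of_equiv (A := MvPolynomial ι F)
      { hv.aevalEquiv.toRingEquiv with commutes' := fun _ => rfl }
  have : Algebra.FormallyEtale (Algebra.adjoin F (Set.range v))
      (IntermediateField.adjoin F (Set.range v)) :=
    Algebra.FormallyEtale.of_isLocalization (nonZeroDivisors _)
  have : Algebra.FormallyEtale (IntermediateField.adjoin F (Set.range v)) E :=
    Algebra.FormallyEtale.of_isSeparable _ E
  have : Algebra.FormallyEtale (Algebra.adjoin F (Set.range v)) E :=
    Algebra.FormallyEtale.comp _ (IntermediateField.adjoin F (Set.range v)) _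
  have : Algebra.FormallyEtale (MvPolynomial ι F) E :=
    Algebra.FormallyEtale.comp _ (Algebra.adjoin F (Set.range v)) _
  obtain ⟨d, hd⟩ := der_extend F (MvPolynomial ι F) E
    (MvPolynomial.mkDerivation F fun j => if j = i then (1 : E) else 0)
  refine ⟨d, fun j => ?_⟩
  have h := hd (MvPolynomial.X j)
  rw [MvPolynomial.mkDerivation_X] at h
  rw [← h]
  congr 1
  change _ = MvPolynomial.aeval v (MvPolynomial.X j)
  simp

theorem p_DER :
    S_DER := by
  classical
  intro F E _ _ _ _ S hS htop r a ha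
  have : Algebra.EssFiniteType F E := by
    rw [← IntermediateField.fg_top_iff]
    exact ⟨hS.toFinset, by simpa using htop⟩
  obtain ⟨s, hs, H⟩ := exists_isTranscendenceBasis_and_isSeparable_of_perfectField F E
  have : Algebra.IsSeparable (IntermediateField.adjoin F (Set.range ((↑) : s → E))) E := by
    convert! H <;> simp
  choose d hd using fun i : s => der_dual F E s ((↑) : s → E) hs.1 i
  have hli : LinearIndependent E d := by
    rw [Fintype.linearIndependent_iff]
    intro c hc j
    have hsum : ∀ t : Finset s, (∑ i ∈ t, c i • d i) (j : E) = ∑ i ∈ t, c i * d i (j : E) := by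
      intro t
      induction t using Finset.induction_on with
      | empty => simp
      | insert x t hx ih =>
        rw [Finset.sum_insert hx, Finset.sum_insert hx, Derivation.add_apply, ih,
          Derivation.smul_apply, smul_eq_mul]
    have h := hsum Finset.univ
    rw [hc] at h
    simpa [hd] using h.symm
  have hle : r ≤ Fintype.card s := by
    have h1 := ha.cardinalMk_le_trdeg
    rw [← hs.cardinalMk_eq_trdeg] at h1
    simpa using h1
  obtain ⟨e⟩ : Nonempty (Fin r ↪ s) := Function.Embedding.nonempty_of_card_le (by simpa using hle)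
  exact ⟨d ∘ e, hli.comp e e.injective⟩

end Pool.Agent.P.MP_7cb106_nt.GK
end

section
/-! Step GER0. -/

set_option autoImplicit false

namespace Pool.Agent.P.MP_7cb106_nt.GK

open Matrix Polynomial

theorem ger0_pow (p : ℕ) {F E : Type} [CommRing F] [Field E] [Algebra F E] [CharP E p]
    (D : Derivation F E E) (x : E) (k : ℕ) (hk : 0 < k) : D (x ^ p ^ k) = 0 := by
  have h : ((p ^ k : ℕ) : E) = 0 := by
    rw [Nat.cast_pow, CharP.cast_eq_zero, zero_pow hk.ne']
  rw [Derivation.leibniz_pow, ← Nat.cast_smul_eq_nsmul E, h, zero_smul]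

theorem ger0_zero {F E : Type} [Field F] [Field E] [Algebra F E] (S : Set E)
    (hS : IntermediateField.adjoin F S = ⊤) (D : Derivation F E E) (h : ∀ z ∈ S, D z = 0) :
    D = 0 := by
  ext x
  have hx : x ∈ IntermediateField.adjoin F S := hS ▸ IntermediateField.mem_top
  change D x = 0
  induction hx using IntermediateField.adjoin_induction with
  | mem x hx => exact h x hx
  | algebraMap x => exact D.map_algebraMap x
  | add x y _ _ h1 h2 => rw [map_add, h1, h2, add_zero]
  | inv x _ h1 => rw [D.leibniz_inv, h1, smul_zero]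
  | mul x y _ _ h1 h2 => rw [D.leibniz, h1, h2, smul_zero, smul_zero, add_zero]

theorem p_GER0 (hTELE : S_TELE) (hDER : S_DER) :
    S_GER0 := by
  intro p _ n f f₀ F E _ _ _ _ _ hf₀ y c hc hy hnil hadj r a ha
  rcases Nat.eq_zero_or_pos r with rfl | hr
  · simpa using Nat.mul_le_mul_left f (Nat.le_mul_self n)
  have : CharP E p := charP_of_injective_algebraMap (algebraMap F E).injective p
  have : ExpChar E p := ExpChar.prime Fact.out
  have : Infinite E := by
    have ht : Transcendental F (a ⟨0, hr⟩) := ha.transcendental _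
    exact Infinite.of_injective _ (transcendental_iff_injective.1 ht)
  have hfin : {z : E | ∃ j < f, ∃ a b, z = y j a b}.Finite := by
    refine (Set.finite_range fun t : Fin f × Fin n × Fin n => y t.1 t.2.1 t.2.2).subset ?_
    rintro z ⟨j, hj, a, b, rfl⟩
    exact ⟨(⟨j, hj⟩, a, b), rfl⟩
  obtain ⟨d, hd⟩ := hDER F E _ hfin hadj r a ha
  refine hTELE n f F E (fun D => ?_) y (iterateFrobenius E p f₀) (algebraMap F E c)
    (by simpa using hc) ?_ hnil (fun D => ?_) (fun D hD => ?_) r d hd
  · refine Set.infinite_of_injective_forall_mem (f := iterateFrobenius E p 1)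
      (iterateFrobenius E p 1).injective fun x => ?_
    exact ger0_pow p D x 1 one_pos
  · ext a b
    rw [hy, Matrix.smul_apply, Matrix.map_apply, iterateFrobenius_def, smul_eq_mul,
      Algebra.smul_def]
  · ext a b
    rw [Matrix.map_apply, hy, Derivation.map_smul, ger0_pow p D _ f₀ hf₀, smul_zero,
      Matrix.zero_apply]
  · refine ger0_zero _ hadj D ?_
    rintro z ⟨j, hj, a, b, rfl⟩
    exact congrFun (congrFun (hD j hj) a) b

end Pool.Agent.P.MP_7cb106_nt.GK
end

section
/-! Step GER. -/

set_option autoImplicit false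

namespace Pool.Agent.P.MP_7cb106_nt.GK

open Matrix Polynomial

theorem ger_ind {F E : Type} [Field F] [Field E] [Algebra F E] (K : IntermediateField F E)
    (h : ∀ z : E, IsAlgebraic K z) {r : ℕ} {a : Fin r → E} (ha : AlgebraicIndependent F a) :
    ∃ a' : Fin r → K, AlgebraicIndependent F a' := by
  have : Algebra.IsAlgebraic K E := ⟨h⟩
  have h1 := trdeg_add_eq F K (A := E)
  rw [trdeg_eq_zero (R := K) (A := E), add_zero] at h1
  obtain ⟨s, hs⟩ := exists_isTranscendenceBasis F K
  have h2 := ha.cardinalMk_le_trdeg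
  rw [← h1, ← hs.cardinalMk_eq_trdeg] at h2
  obtain ⟨e⟩ := Cardinal.le_def _ _ |>.1 h2
  exact ⟨_, hs.1.comp e e.injective⟩

theorem ger_nil {n : ℕ} {K E : Type} [CommRing K] [CommRing E] (φ : K →+* E)
    (hφ : Function.Injective φ) (y y' : Mat n K) (h : IsNilpotent (pen (y.map φ) (y'.map φ))) :
    IsNilpotent (pen y y') := by
  have e : pen (y.map φ) (y'.map φ) = (mapRingHom φ).mapMatrix (pen y y') := by
    ext1 a b
    simp [pen]
  rw [e] at h
  exact (IsNilpotent.map_iff (f := (mapRingHom φ).mapMatrix)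
    (Matrix.map_injective (Polynomial.map_injective φ hφ))).1 h

theorem p_GER (hGER0 : S_GER0) :
    S_GER := by
  classical
  intro p _ n f f₀ F E _ _ _ _ _ hf₀ y c hc hy hn hal r a ha
  set K := IntermediateField.adjoin F {z | ∃ j < f, ∃ a b, z = y j a b} with hK
  obtain ⟨a', ha'⟩ := ger_ind K hal ha
  have hlt : ∀ j < f, ∀ a b, y j a b ∈ K := fun j hj a b =>
    IntermediateField.subset_adjoin _ _ ⟨j, hj, a, b, rfl⟩
  have hf : ∀ a b, y 0 a b ∈ K → y f a b ∈ K := fun a b h => by
    rw [hy]
    exact K.smul_mem (pow_mem h _)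
  obtain ⟨z, hz⟩ : ∃ z : ℕ → Mat n K, ∀ j a b,
      z j a b = if h : y j a b ∈ K then ⟨y j a b, h⟩ else 0 := ⟨fun _ _ _ => _, fun _ _ _ => rfl⟩
  have hz1 : ∀ j a b, y j a b ∈ K → (z j a b : E) = y j a b := fun j a b h => by
    rw [hz, dif_pos h]
  have hz2 : ∀ j ≤ f, 0 < f → (z j).map (algebraMap K E) = y j := fun j hj h0 => by
    ext a b
    refine hz1 j a b ?_
    rcases hj.lt_or_eq with h | rfl
    · exact hlt j h a b
    · exact hf a b (hlt 0 h0 a b)
  refine hGER0 p n f f₀ F K hf₀ z c hc (fun a b => ?_) (fun j hj => ?_) ?_ r a' ha'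
  · by_cases h : y 0 a b ∈ K
    · refine Subtype.ext ?_
      rw [hz1 f a b (hf a b h), hy, IntermediateField.coe_smul, SubmonoidClass.coe_pow,
        hz1 0 a b h]
    · have h0 : f = 0 := by
        by_contra h0
        exact h (hlt 0 (Nat.pos_of_ne_zero h0) a b)
      have h1 : z 0 a b = 0 := by rw [hz, dif_neg h]
      have h2 : z f a b = 0 := by
        rw [hz, dif_neg]
        rwa [h0]
      rw [h1, h2, zero_pow (pow_ne_zero _ (Fact.out : p.Prime).ne_zero), smul_zero]
  · refine ger_nil (algebraMap K E) (algebraMap K E).injective _ _ ?_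
    rw [hz2 j hj.le (by omega), hz2 (j + 1) hj (by omega)]
    exact hn j hj
  · refine IntermediateField.lift_injective K ?_
    rw [IntermediateField.lift_adjoin, IntermediateField.lift_top]
    refine congrArg (IntermediateField.adjoin F) (Set.ext fun x => ⟨?_, ?_⟩)
    · rintro ⟨_, ⟨j, hj, a, b, rfl⟩, rfl⟩
      exact ⟨j, hj, a, b, hz1 j a b (hlt j hj a b)⟩
    · rintro ⟨j, hj, a, b, rfl⟩
      exact ⟨_, ⟨j, hj, a, b, rfl⟩, hz1 j a b (hlt j hj a b)⟩

end Pool.Agent.P.MP_7cb106_nt.GK
end

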