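import Pool.Agent.P.MP_7cb106_nt.GK.IfaceM

section
/-! Step FIN. -/

set_option autoImplicit false

namespace Pool.Agent.P.MP_7cb106_nt.GK

open Filter Topology

section
variable {L B F V : Type} [NormedField L] [IsUltrametricDist L] [NormedAddCommGroup B]
  [NormedSpace L B] [Field F] [AddCommGroup V] [Module F V]

theorem fin_red_sub (R : Red L B F V) {v w : B} (hv : ‖v‖ ≤ 1) (hw : ‖w‖ ≤ 1) :
    R.red (v - w) = R.red v - R.red w := by
  have h1 : R.red (-w) = -R.red w := by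
    have h := R.red_smul (-1) w hw
    simpa using h
  rw [sub_eq_add_neg, R.red_add v (-w) hv (by simpa using hw), h1, sub_eq_add_neg]

theorem fin_mul (R : Red L B F V) {a b : Module.End L B} (ha : ∀ v, ‖a v‖ ≤ ‖v‖)
    (hb : ∀ v, ‖b v‖ ≤ ‖v‖) : R.bar (a * b) = R.bar a * R.bar b := by
  ext u
  obtain ⟨v, hv, rfl⟩ := R.red_surj u
  rw [R.bar_red (a * b) (fun w => (ha _).trans (hb w)) v hv, Module.End.mul_apply,
    Module.End.mul_apply, R.bar_red b hb v hv, R.bar_red a ha _ ((hb v).trans hv)]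

theorem fin_one (R : Red L B F V) : R.bar 1 = 1 := by
  ext u
  obtain ⟨v, hv, rfl⟩ := R.red_surj u
  rw [R.bar_red 1 (fun _ => le_rfl) v hv]
  rfl

omit [IsUltrametricDist L] in
theorem fin_con [IsUltrametricDist B] {a : Module.End L B} (ha : ∀ v, ‖a v‖ ≤ ‖v‖) (v : B) :
    ‖(a - 1) v‖ ≤ ‖v‖ := by
  rw [LinearMap.sub_apply, Module.End.one_apply, sub_eq_add_neg]
  exact (IsUltrametricDist.norm_add_le_max _ _).trans (max_le (ha v) (norm_neg v).le)

theorem fin_sub [IsUltrametricDist B] (R : Red L B F V) {a : Module.End L B}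
    (ha : ∀ v, ‖a v‖ ≤ ‖v‖) : R.bar (a - 1) = R.bar a - 1 := by
  ext u
  obtain ⟨v, hv, rfl⟩ := R.red_surj u
  rw [R.bar_red (a - 1) (fin_con ha) v hv, LinearMap.sub_apply, LinearMap.sub_apply,
    Module.End.one_apply, Module.End.one_apply, R.bar_red a ha v hv,
    fin_red_sub R ((ha v).trans hv) hv]

theorem fin_comm (R : Red L B F V) {a b : Module.End L B} (ha : ∀ v, ‖a v‖ ≤ ‖v‖)
    (hb : ∀ v, ‖b v‖ ≤ ‖v‖) (h : Commute a b) : Commute (R.bar a) (R.bar b) := by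
  change R.bar a * R.bar b = R.bar b * R.bar a
  rw [← fin_mul R ha hb, ← fin_mul R hb ha, h.eq]

end

theorem fin_pow {p e : ℕ} {G ι : Type} [Group G] {Γ : ℕ → Subgroup G} {γ : ι → G} {lev : ι → ℕ}
    (hG : GD p e Γ γ lev) {h : G} (hh : h ∈ Γ 0) (l : ℕ) : h ^ p ^ l ∈ Γ (e * l) := by
  induction l with
  | zero => simpa using hh
  | succ l ih =>
    rw [pow_succ, pow_mul, Nat.mul_succ]
    exact hG.pow _ _ ih

theorem p_FIN (hBOX : S_BOX) :
    S_FIN := by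
  intro p e _ L B G ι F V _ _ _ _ _ _ _ _ _ _ _ R g Γ γ lev ρ x μ hG hR
  have hρ : ∀ h v, ‖ρ h v‖ ≤ ‖v‖ := fun h v => (hR.iso h v).le
  let P : G →* Module.End F V :=
    { toFun := fun h => R.bar (ρ h)
      map_one' := by rw [map_one, fin_one]
      map_mul' := fun a b => by rw [map_mul, fin_mul R (hρ a) (hρ b)] }
  have hP : ∀ h, P h = R.bar (ρ h) := fun _ => rfl
  have hl : ∀ i, R.bar (bG ρ γ x (Sum.inl i)) = P (γ i) - 1 := fun i => fin_sub R (hρ _)
  have hr : ∀ j, R.bar (bG ρ γ x (Sum.inr j)) = R.bar (x j) := fun _ => rfl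
  have hc : ∀ j h, Commute (R.bar (x j)) (P h) := fun j h =>
    fin_comm R (hR.x_le j) (hρ h) (hR.x_rho j h)
  have h0 : ∀ i, γ i ∈ Γ 0 := fun i => hG.anti (Nat.zero_le _) (hG.mem i)
  refine ⟨fun j i => ?_, fun l v hv hx hf => ?_⟩
  · rcases i with i | i
    · rw [hl, hr]
      exact (hc j _).sub_right (Commute.one_right _)
    · exact fin_comm R (hR.x_le j) (hR.x_le i) (hR.x_x j i)
  let W : Submodule F V :=
    { carrier := {u | (∀ j, R.bar (x j) u = 0) ∧ ∀ h ∈ Γ (e * l), P h u = u}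
      add_mem' := fun {a b} ha hb => ⟨fun j => by rw [map_add, ha.1 j, hb.1 j, add_zero],
        fun h hh => by rw [map_add, ha.2 h hh, hb.2 h hh]⟩
      zero_mem' := ⟨fun _ => map_zero _, fun _ _ => map_zero _⟩
      smul_mem' := fun c u hu => ⟨fun j => by rw [map_smul, hu.1 j, smul_zero],
        fun h hh => by rw [map_smul, hu.2 h hh]⟩ }
  have hW : ∀ u, u ∈ W ↔ (∀ j, R.bar (x j) u = 0) ∧ ∀ h ∈ Γ (e * l), P h u = u :=
    fun _ => Iff.rfl
  have hvW : R.red v ∈ W := by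
    refine (hW _).2 ⟨fun j => ?_, fun h hh => ?_⟩
    · rw [R.bar_red _ (hR.x_le j) v hv]
      exact (R.red_zero _ (hx j).le).2 (hx j)
    · rw [hP, R.bar_red _ (hρ h) v hv, ← sub_eq_zero, ← fin_red_sub R ((hρ h v).trans hv) hv]
      exact (R.red_zero _ (hf h hh).le).2 (hf h hh)
  refine ⟨hBOX _ F V _ μ W (p ^ l) (fun i u hu => ?_) (fun i u hu => ?_) hvW,
    fun j => ((hW _).1 hvW).1 j⟩
  · obtain ⟨h1, h2⟩ := (hW u).1 hu
    rcases i with i | i
    · rw [hl, LinearMap.sub_apply, Module.End.one_apply]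
      refine W.sub_mem ((hW _).2 ⟨fun j => ?_, fun h hh => ?_⟩) hu
      · rw [← Module.End.mul_apply, (hc j _).eq, Module.End.mul_apply, h1 j, map_zero]
      · have h3 := h2 _ (hG.conj _ h hh _ (inv_mem (h0 i)))
        have e1 : h * γ i = γ i * ((γ i)⁻¹ * h * (γ i)⁻¹⁻¹) := by group
        rw [← Module.End.mul_apply, ← map_mul, e1, map_mul, Module.End.mul_apply, h3]
    · rw [hr, h1 i]
      exact W.zero_mem
  · obtain ⟨h1, h2⟩ := (hW u).1 hu
    rcases i with i | i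
    · rcases subsingleton_or_nontrivial V with hV | hV
      · exact Subsingleton.elim _ _
      have : CharP (Module.End F V) p :=
        charP_of_injective_algebraMap (algebraMap F (Module.End F V)).injective p
      rw [hl, sub_pow_char_pow_of_commute p l (Commute.one_right _), one_pow, ← map_pow,
        LinearMap.sub_apply, Module.End.one_apply, h2 _ (fin_pow hG (h0 i) l), sub_self]
    · obtain ⟨m, hm⟩ : ∃ m, p ^ l = m + 1 :=
        Nat.exists_eq_succ_of_ne_zero (pow_ne_zero _ (Fact.out : p.Prime).ne_zero)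
      rw [hr, hm, pow_succ, Module.End.mul_apply, h1 i, map_zero]

end Pool.Agent.P.MP_7cb106_nt.GK
end

section
/-! Step XB. -/

set_option autoImplicit false

namespace Pool.Agent.P.MP_7cb106_nt.GK

open Filter Topology

theorem xb_sub {K : Type} [Field K] {n : ℕ} (c d : Fin n) (x y : K) :
    Matrix.single c d x - Matrix.single c d y = Matrix.single c d (x - y) := by
  rw [sub_eq_iff_eq_add, ← Matrix.single_add, sub_add_cancel]

theorem p_XB (hPOW : S_POW) (hOB : S_OB) (hDUAL : S_DUAL) :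
    S_XB := by
  intro p _ K L _ _ _ _ _ _ _ σ ϖ n e f₀ a J₀ u τ U γ hK hJ hγ
  obtain ⟨hP1, hP2⟩ := hPOW p K L σ ‖σ u‖ e hK.u_pos hK.u_lt hK.norm_p
  have hz : ∀ i : Fin e × Fin f₀,
      ‖σ (u ^ (J₀ + i.1.val) * τ i.2)‖ ≤ ‖σ u‖ ^ (J₀ + i.1.val) := by
    intro i
    rw [map_mul, map_pow, norm_mul, norm_pow]
    exact mul_le_of_le_one_right (by positivity) (hK.tau_le _)
  choose y hy1 hy2 using fun i : Fin e × Fin f₀ =>
    (hP2 (J₀ + i.1.val) _ (by omega) (hz i)).2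
  obtain ⟨b1, h11, h12, h13⟩ := hOB p K L σ ϖ e f₀ a J₀ u τ y hK hy1
  obtain ⟨b0, h01, h02, h03⟩ := hOB p K L σ ϖ e f₀ a J₀ u τ
    (fun i => u ^ (J₀ + i.1.val) * τ i.2) hK (fun i => by
      rw [sub_self, map_zero, norm_zero]
      positivity)
  have hu : u ≠ 0 := by
    intro h
    have := hK.u_pos
    rw [h, map_zero, norm_zero] at this
    exact lt_irrefl _ this
  obtain ⟨β, ζ, hβ, hζ1, hζ2, hζ3⟩ := hDUAL p K L σ e f₀ J₀ u (fun s => cond s b1 b0) hK.he hK.hf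
    hu (fun s i => by cases s; exacts [h02 i, h12 i])
    (fun s z i => by cases s; exacts [h03 z i, h13 z i])
  refine ⟨by rw [Module.finrank_eq_card_basis b0]; simp, β, fun c d => ζ (decide (c = d)),
    fun c d => cond (decide (c = d)) b1 b0, hβ, fun c d => hζ1 _, fun c d => hζ2 _,
    fun c d => hζ3 _, fun c d j t i i' => ?_⟩
  have hpK : (p : K) ≠ 0 := by
    rw [← map_natCast (algebraMap ℚ_[p] K)]
    exact (_root_.map_ne_zero _).2 (Nat.cast_ne_zero.2 (Fact.out : p.Prime).ne_zero)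
  have hpow : ∀ m : ℕ, ((p : K) ^ m)⁻¹ • ((γ (c, d, j, t) ^ p ^ m).val.val - 1) -
      Matrix.single c d ((cond (decide (c = d)) b1 b0) (j, t)) =
      Matrix.single c d (if c = d then
        ((p : K) ^ m)⁻¹ * ((1 + u ^ (J₀ + j.val) * τ t) ^ p ^ m - 1) - y (j, t) else 0) := by
    intro m
    rw [SubmonoidClass.coe_pow, Units.val_pow_eq_pow_val, hγ, hP1, add_sub_cancel_left,
      Matrix.smul_single, smul_eq_mul, xb_sub]
    congr 1
    by_cases h : c = d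
    · simp only [h, decide_true, cond_true, if_true, h11]
    · simp only [h, decide_false, cond_false, if_false, h01]
      rw [Nat.cast_pow, inv_mul_cancel_left₀ (pow_ne_zero _ hpK), sub_self]
  simp only [hpow]
  by_cases h : c = d
  · simp only [h, if_true]
    by_cases h' : d = i ∧ d = i'
    · obtain ⟨rfl, rfl⟩ := h'
      simp only [Matrix.single_apply_same]
      exact hy2 (j, t)
    · simp only [Matrix.single_apply_of_ne _ _ _ _ _ h', map_zero, norm_zero]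
      exact tendsto_const_nhds
  · simp only [h, if_false, Matrix.single_zero, Matrix.zero_apply, map_zero, norm_zero]
    exact tendsto_const_nhds

end Pool.Agent.P.MP_7cb106_nt.GK
end

section
/-! Step INT. -/

set_option autoImplicit false

namespace Pool.Agent.P.MP_7cb106_nt.GK

open Filter Topology

theorem int_spec {p : ℕ} [Fact p.Prime] {K L : Type} [Field K] [Algebra ℚ_[p] K]
    [FiniteDimensional ℚ_[p] K] [NormedField L] [NormedAlgebra ℚ_[p] L]
    (σ : K →ₐ[ℚ_[p]] L) (z : K) : ‖σ z‖ = spectralValue (minpoly ℚ_[p] z) := by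
  let f : AbsoluteValue K ℝ :=
    { toFun := fun z => ‖σ z‖
      map_mul' := fun a b => by rw [map_mul, norm_mul]
      nonneg' := fun a => norm_nonneg _
      eq_zero' := fun a => by simp
      add_le' := fun a b => by
        rw [map_add]
        exact norm_add_le _ _ }
  have hf : ∀ x : ℚ_[p], f (algebraMap ℚ_[p] K x) = ‖x‖ := fun x => by
    change ‖σ (algebraMap ℚ_[p] K x)‖ = ‖x‖
    rw [AlgHom.commutes, norm_algebraMap']
  exact spectralNorm_unique_field_norm_ext hf z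

theorem int_iff {p : ℕ} [Fact p.Prime] {K L : Type} [Field K] [Algebra ℚ_[p] K]
    [FiniteDimensional ℚ_[p] K] [Algebra ℤ_[p] K] [IsScalarTower ℤ_[p] ℚ_[p] K] [NormedField L]
    [NormedAlgebra ℚ_[p] L] (σ : K →ₐ[ℚ_[p]] L) (z : K) :
    z ∈ integralClosure ℤ_[p] K ↔ ‖σ z‖ ≤ 1 := by
  have hz : IsIntegral ℚ_[p] z := Algebra.IsIntegral.isIntegral z
  rw [int_spec, spectralValue_le_one_iff (minpoly.monic hz), mem_integralClosure_iff]
  constructor
  · intro h n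
    rw [minpoly.isIntegrallyClosed_eq_field_fractions' ℚ_[p] h, Polynomial.coeff_map]
    exact ((minpoly ℤ_[p] z).coeff n).2
  · intro h
    have hl : minpoly ℚ_[p] z ∈ Polynomial.lifts (algebraMap ℤ_[p] ℚ_[p]) := by
      rw [Polynomial.lifts_iff_coeff_lifts]
      exact fun n => ⟨⟨_, h n⟩, rfl⟩
    obtain ⟨q, hq, -, hm⟩ := Polynomial.lifts_and_natDegree_eq_and_monic hl (minpoly.monic hz)
    refine ⟨q, hm, ?_⟩
    rw [← Polynomial.aeval_def, ← Polynomial.aeval_map_algebraMap ℚ_[p], hq, minpoly.aeval]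

theorem p_INT (hGM : S_GM) :
    S_INT := by
  intro p _ K L _ _ _ _ _ _ _ _ σ
  have hp1 : (1 : ℝ) < p := by exact_mod_cast (Fact.out : p.Prime).one_lt
  have hp0 : (0 : ℝ) < p := zero_lt_one.trans hp1
  have hnp : ∀ l : ℕ, ‖σ ((p : K) ^ l)‖ = ((p : ℝ) ^ l)⁻¹ := fun l => by
    rw [map_pow, map_natCast, norm_pow, norm_p_eq, inv_pow]
  refine ⟨int_iff σ, fun n l h => ⟨?_, fun hl hc => ?_⟩⟩
  · rintro ⟨g, ⟨X, hX⟩, rfl⟩ i j
    have h1 : ((Matrix.GeneralLinearGroup.map (algebraMap (integralClosure ℤ_[p] K) K) g).val - 1)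
        i j = (p : K) ^ l * (X i j : K) := by
      have h2 : (Matrix.GeneralLinearGroup.map (algebraMap (integralClosure ℤ_[p] K) K) g).val i j =
          ((g.val i j : integralClosure ℤ_[p] K) : K) := rfl
      rw [Matrix.sub_apply, h2, hX, Matrix.add_apply, Matrix.smul_apply, smul_eq_mul,
        Matrix.one_apply, Matrix.one_apply]
      split_ifs <;> simp
    rw [h1, map_mul, norm_mul, hnp]
    exact mul_le_of_le_one_right (by positivity) ((int_iff σ _).1 (X i j).2)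
  · have hc0 : (0 : ℝ) ≤ ((p : ℝ) ^ l)⁻¹ := by positivity
    have hc1 : ((p : ℝ) ^ l)⁻¹ < 1 := inv_lt_one_of_one_lt₀ (one_lt_pow₀ hp1 (by omega))
    have hs : Sm σ ((p : ℝ) ^ l)⁻¹ (h.val - 1) := hc
    have hs' : Sm σ ((p : ℝ) ^ l)⁻¹ ((h⁻¹).val - 1) := (hGM p K L σ n _ hc0 hc1).2 h hs
    have hA : Sm σ 1 h.val := by
      have := (hs.mono hc1.le).add (sm_one σ)
      rwa [sub_add_cancel] at this
    have hB : Sm σ 1 (h⁻¹).val := by
      have := (hs'.mono hc1.le).add (sm_one σ)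
      rwa [sub_add_cancel] at this
    have hpK : ((p : K) ^ l) ≠ 0 := fun h0 => by
      have := hnp l
      rw [h0, map_zero, norm_zero] at this
      exact absurd this (by positivity : (0 : ℝ) < ((p : ℝ) ^ l)⁻¹).ne
    have hX : Sm σ 1 (((p : K) ^ l)⁻¹ • (h.val - 1)) := by
      have := hs.smul ((p : K) ^ l)⁻¹
      rwa [map_inv₀, norm_inv, hnp, inv_mul_cancel₀ (by positivity)] at this
    let A : Matrix (Fin n) (Fin n) (integralClosure ℤ_[p] K) :=
      fun i j => ⟨h.val i j, (int_iff σ _).2 (hA i j)⟩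
    let B : Matrix (Fin n) (Fin n) (integralClosure ℤ_[p] K) :=
      fun i j => ⟨(h⁻¹).val i j, (int_iff σ _).2 (hB i j)⟩
    let X : Matrix (Fin n) (Fin n) (integralClosure ℤ_[p] K) :=
      fun i j => ⟨(((p : K) ^ l)⁻¹ • (h.val - 1)) i j, (int_iff σ _).2 (hX i j)⟩
    let φ := (algebraMap (integralClosure ℤ_[p] K) K).mapMatrix (m := Fin n)
    have hφ : Function.Injective φ := Matrix.map_injective Subtype.val_injective
    have eA : φ A = h.val := rfl
    have eB : φ B = (h⁻¹).val := rfl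
    have hAB : A * B = 1 := hφ (by rw [map_mul, map_one, eA, eB, Units.mul_inv])
    have hBA : B * A = 1 := hφ (by rw [map_mul, map_one, eA, eB, Units.inv_mul])
    refine ⟨⟨A, B, hAB, hBA⟩, ⟨X, ?_⟩, Units.ext eA⟩
    ext i j
    change h.val i j = (((1 + (p : integralClosure ℤ_[p] K) ^ l • X) i j :
      integralClosure ℤ_[p] K) : K)
    have eX : ((X i j : integralClosure ℤ_[p] K) : K) =
        ((p : K) ^ l)⁻¹ * (h.val i j - (1 : Matrix (Fin n) (Fin n) K) i j) := rfl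
    rw [Matrix.add_apply, Matrix.smul_apply, smul_eq_mul, Subalgebra.coe_add, Subalgebra.coe_mul,
      eX, Subalgebra.coe_pow, SubringClass.coe_natCast, mul_inv_cancel_left₀ hpK,
      Matrix.one_apply, Matrix.one_apply]
    split_ifs <;> simp

end Pool.Agent.P.MP_7cb106_nt.GK
end

section
/-! Step MAIN. -/

set_option autoImplicit false

namespace Pool.Agent.P.MP_7cb106_nt.GK

open Filter Topology

theorem main_fd {F V : Type} [Field F] [AddCommGroup V] [Module F V] (W : Submodule F V) (m₀ : ℕ)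
    (h : ∀ (m : ℕ) (v : Fin m → V), (∀ i, v i ∈ W) → LinearIndependent F v → m ≤ m₀) :
    Module.Finite F W := by
  have h1 : Module.rank F W ≤ m₀ := by
    refine rank_le fun s hs => ?_
    have h2 : LinearIndependent F fun i : Fin s.card => ((s.equivFin.symm i : W) : V) :=
      (hs.comp _ s.equivFin.symm.injective).map' W.subtype W.ker_subtype
    exact h _ _ (fun i => (s.equivFin.symm i : W).2) h2
  exact Module.rank_lt_aleph0_iff.1 (h1.trans_lt (Cardinal.natCast_lt_aleph0))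

theorem main_ym (p : ℕ) {n e f₀ g : ℕ} [NeZero e] {A A' : Type} [CommRing A] [CommRing A']
    (φ : A →+* A') (z : Fin n → Fin n → Fin e → Fin f₀ → A) (α : A) (J : ℕ) :
    (Ym p (g := g) z α J).map (MvPolynomial.map φ) =
      Ym p (fun a b j t => φ (z a b j t)) (φ α) J := by
  ext1 a b
  simp [Ym, map_sum, MvPolynomial.map_monomial]

theorem main_pen {n : ℕ} {A A' : Type} [CommRing A] [CommRing A'] (φ : A →+* A') (y y' : Mat n A) :
    (pen y y').map (Polynomial.mapRingHom φ) = pen (y.map φ) (y'.map φ) := by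
  ext1 a b
  simp [pen]

theorem main_hom (p : ℕ) {n e f₀ g : ℕ} [NeZero e] {A : Type} [CommRing A] {a : ℕ} {w : ℕ → ℕ}
    (hw : Wt p e a w) (Nx : ℕ) (z : Fin n → Fin n → Fin e → Fin f₀ → A) (α : A) (J : ℕ)
    (c d : Fin n) : (Ym p (g := g) z α J c d).IsWeightedHomogeneous
      (muG g w (fun i : Fin n × Fin n × Fin e × Fin f₀ => i.2.2.1.val) Nx) (w J) := by
  have key : ∀ m j, w (j + e * m) = p ^ m * w j := by
    intro m j
    induction m with
    | zero => simp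
    | succ m ih => rw [Nat.mul_succ, ← add_assoc, hw.per, ih]; ring
  refine MvPolynomial.IsWeightedHomogeneous.sum _ _ _ fun t _ => ?_
  refine MvPolynomial.isWeightedHomogeneous_monomial _ _ _ ?_
  rw [Finsupp.weight_single]
  simp only [muG, Sum.elim_inl, smul_eq_mul, Fin.val_ofNat]
  rw [← key, Nat.mod_add_div]

theorem p_MAIN (hUNI : S_UNI) (hRES : S_RES) (hRED : S_RED) (hORT : S_ORT) (hMUL : S_MUL) (hKILL : S_KILL) (hLIFT : S_LIFT) (hW : S_W) (hFS1 : S_FS1) (hFS2 : S_FS2) (hFS3 : S_FS3) (hKD : S_KD) (hGD0 : S_GD0) (hGD2 : S_GD2) (hXB : S_XB) (hLIP : S_LIP) (hEOP : S_EOP) (hEXTR : S_EXTR) (hPHI : S_PHI) (hCONST : S_CONST) (hNIL : S_NIL) (hEXT : S_EXT) (hCC : S_CC) (hFIN : S_FIN) :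
    S_MAIN := by
  intro p _ K L B _ _ _ _ _ _ _ _ _ _ σ n g U ρ x φ C hval hU iso cont hx1 hx2 hx3 hx4 adm hφ inf
  have : IsUltrametricDist L := IsUltrametricDist.of_normedAlgebra ℚ_[p]
  have : CompleteSpace L := FiniteDimensional.complete ℚ_[p] L
  have hp : p.Prime := Fact.out
  have hp1 : (1 : ℝ) < p := by exact_mod_cast hp.one_lt
  obtain ⟨hnp, ϖ, hϖ0, hϖ1, hϖm, hϖk⟩ := hUNI p L
  have hun : Unif ϖ B := ⟨hϖ0, hϖ1, fun v hv => by
    obtain ⟨c, hc⟩ := hval v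
    rw [hc] at hv ⊢
    exact hϖm c hv⟩
  obtain ⟨F, _, _, _, res, hres1, hres2⟩ := hRES p L
  obtain ⟨V, _, _, R, hR⟩ := hRED L B F res hres1 hres2
  obtain ⟨e, f₀, a, u, τ, kd⟩ := hKD p K L F σ ϖ res hϖ0 hϖ1 hϖk hres2
  have : NeZero e := ⟨kd.he.ne'⟩
  obtain ⟨l₀, hl₀⟩ := hU
  have hr0 := kd.u_pos
  have hr1 := kd.u_lt
  have hre : ∀ l, ‖σ u‖ ^ (e * l) = ((p : ℝ) ^ l)⁻¹ := fun l => by
    rw [pow_mul, kd.norm_p, inv_pow]
  set J₀ := e * l₀ + e + 1 with hJ₀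
  have hJ1 : e + 1 ≤ J₀ := by omega
  have hU' : ∀ h : GL (Fin n) K, Sm σ (‖σ u‖ ^ J₀) (h.val - 1) → h ∈ U := fun h hh =>
    hl₀ h (hh.mono (by rw [← hre]; exact pow_le_pow_of_le_one hr0.le hr1.le (by omega)))
  obtain ⟨Γ, γ, hΓ, hγ⟩ := hGD0 p K L σ ϖ n e f₀ a J₀ u τ U kd (by omega) hU'
  have gd := hGD2 p K L σ ϖ n e f₀ a J₀ u τ U Γ γ kd hJ1 hΓ hγ
  have hΓc : ∀ l, ∀ h ∈ Γ (e * l), Cong σ l h.val := fun l h hh =>
    ((hΓ _ h).1 hh).mono (by rw [← hre]; exact pow_le_pow_of_le_one hr0.le hr1.le (by omega))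
  have rp : Rp Γ ρ x := ⟨iso, fun v ε hε => by
    obtain ⟨l, hl⟩ := cont v ε hε
    exact ⟨e * l, fun h hh => hl h (hΓc l h hh)⟩, hx1, hx2, hx3, hx4⟩
  obtain ⟨hfr, β, ζ, bs, hβ, hζ1, hζ2, hζ3, hconv⟩ := hXB p K L σ ϖ n e f₀ a J₀ u τ U γ kd hJ1 hγ
  obtain ⟨hW1, hW2⟩ := hW p e hp.two_le kd.he
  obtain ⟨w, hw⟩ := hW1 a kd.ha
  have hra : (‖ϖ‖ ^ a) ^ e = (p : ℝ)⁻¹ := by rw [← kd.norm_u, kd.norm_p]
  have hβ0 : 0 < ‖σ β‖ := norm_pos_iff.2 ((map_ne_zero σ).2 hβ)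
  obtain ⟨Nx, hNx, hcon⟩ := hCONST p e a n w ‖ϖ‖ ‖σ β‖ C hp.two_le kd.he kd.ha hw hϖ0 hϖ1 hra hβ0
  set lev : Fin n × Fin n × Fin e × Fin f₀ → ℕ := fun i => i.2.2.1.val with hlev
  set b := bG ρ γ x with hb
  set μ := muG g w lev Nx with hμ
  have hpϖ : ‖(p : L)‖ = ‖ϖ‖ ^ (e * a) := by rw [hnp, mul_comm, pow_mul, hra]
  have mk : ∀ N, (∀ j < e, w j < e * a * N) → ∃ lam, Lam p e (e * a * N) w lam ∧
      FS2 ϖ b μ N (FilG ϖ Γ ρ x lam N Nx) := by
    intro N hN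
    obtain ⟨lam, hlam⟩ := hW2 a _ w hw hN
    obtain ⟨h1, h2, h3, h4, h5, h6, h7, h8⟩ := hFS1 p e a L B U _ g Γ γ lev ρ x ϖ w lam N _ Nx
      hp.two_le gd rp hw hlam hN hNx hϖ1
    refine ⟨lam, hlam, hMUL L B _ ϖ b μ N _ ⟨h1, h2, h3, fun ha ha' => h4 _ _ _ _ ha ha', h5,
      fun ha => h6 _ _ ha, fun ha => h7 _ _ ha, h8, ?_, ?_⟩⟩
    · exact hFS2 p e a L B U _ g Γ γ lev ρ x ϖ w lam N Nx hp gd rp hw hlam hN hNx hϖ0 hϖ1 hpϖ
    · refine hFS3 p e L B U _ g Γ γ lev ρ x ϖ lam N Nx hp kd.he gd rp hlam.mono.monotone hun ?_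
      rw [hpϖ]
      exact pow_le_of_le_one hϖ0.le hϖ1.le (Nat.mul_pos kd.he kd.ha).ne'
  have hgood : Good (fun i => R.bar (b i)) μ ∧
      Module.Finite F (Vs (fun i => R.bar (b i)) μ 1) := by
    obtain ⟨J₁, hJ⟩ := hcon 0
    obtain ⟨N, θ, -, -, -, -, -, hN, -⟩ := hJ J₁ le_rfl
    obtain ⟨lam, hlam, fs⟩ := mk N hN
    obtain ⟨-, -, k3, k4⟩ := hKILL L B _ F V R ϖ b μ N _ hϖ1 fs
    refine ⟨k4, ?_⟩
    obtain ⟨m₀, hm₀⟩ := adm J₀
    refine main_fd _ m₀ fun m v hv hli => ?_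
    choose v' hv1 hv2 using fun i => R.red_surj (v i)
    refine hm₀ m v' (fun i => ⟨hv1 i, fun j => ?_, fun h hh => ?_⟩) ?_
    · exact k3 1 _ (fs.anti hNx (fs.gen (Sum.inr j))) _ (hv1 i) (by rw [hv2]; exact hv i)
    · have h0 : h ∈ Γ 0 := (hΓ 0 h).2 (Sm.mono hh (by
        rw [← hre]
        exact pow_le_pow_of_le_one hr0.le hr1.le (by
          have := Nat.le_mul_of_pos_left J₀ kd.he
          omega)))
      exact k3 1 _ (fs.anti hlam.pos (rho_mem ϖ ρ x lam N Nx h0)) _ (hv1 i)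
        (by rw [hv2]; exact hv i)
    · exact (hORT L B F V R m v' hv1).2 (by simpa only [hv2] using hli)
  obtain ⟨D, hD⟩ := hEXT _ F V _ μ hgood.1 hgood.2
  obtain ⟨J₁, hJ⟩ := hcon D
  have hu0 : σ u ≠ 0 := norm_pos_iff.1 hr0
  have hαn : ‖σ (u ^ e / p)‖ = 1 := by
    rw [map_div₀, map_pow, map_natCast, norm_div, norm_pow, kd.norm_p, hnp]
    exact div_self (by positivity)
  set α : Ob L := ⟨σ (u ^ e / p), hαn.le⟩ with hα
  set ζ' : Fin n → Fin n → Fin e → Fin f₀ → Ob L := fun c d j t => ⟨σ (ζ c d j t), hζ1 c d j t⟩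
    with hζ'
  have frob : ∀ (z : K) (hz : ‖σ z‖ ≤ 1), R.res ⟨σ z, hz⟩ ^ p ^ f₀ = R.res ⟨σ z, hz⟩ := by
    intro z hz
    rw [← map_pow, ← sub_eq_zero, ← map_sub, R.res_zero]
    simpa using kd.frob z hz
  obtain ⟨hcomm, hfin⟩ := hFIN p e L B U _ F V R g Γ γ lev ρ x μ gd rp
  obtain ⟨C₁, hC₁⟩ := hCC p n e f₀ g F V kd.hf (fun i => R.bar (b i)) μ hgood.1 hgood.2 hcomm
    (fun c d j t => R.res (ζ' c d j t)) (R.res α) J₁ (fun c d j t => frob _ _)
    (fun c d j k hk => hζ3 c d j k (by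
      have h1 : R.res (∑ t, (k t : Ob L) * ζ' c d j t) = 0 := by simpa using hk
      rw [R.res_zero] at h1
      simpa [hζ'] using h1))
    (fun h0 => by
      rw [R.res_zero] at h0
      exact absurd hαn h0.ne) (frob _ _) (by
    intro J hJJ k hk1 hk2 i
    obtain ⟨N, θ, c1, c2, c3, c4, c5, c6, c7, c8⟩ := hJ J hJJ
    obtain ⟨lam, hlam, fs⟩ := mk N c6
    have hN0 : 0 < N := by omega
    have hθp : θ ^ (e * a * N) = (p : ℝ)⁻¹ := by
      rw [mul_comm, pow_mul, c4, mul_comm, pow_mul, hra]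
    have hlip : ∀ v M, Bd (FilG ϖ Γ ρ x lam N Nx) θ v M → Lip σ ρ v ∧ An σ ρ x v :=
      fun v M hv => hLIP p K L B σ n g e _ J₀ U ρ x Γ w lam _ ‖σ u‖ θ M v hr0 hr1 kd.he kd.norm_p
        c2 c3 hθp (by omega) hU' hΓ hlam fs.anti fs.one (fun _ _ _ _ => fs.mul)
        (fun J h hh => rho_mem ϖ ρ x lam N Nx hh) (fun j => fs.anti hNx (fs.gen (Sum.inr j))) hv
    have hκ : ‖σ β * (σ u ^ J)⁻¹‖ = ‖σ β‖ * ((‖ϖ‖ ^ a) ^ J)⁻¹ := by
      rw [norm_mul, norm_inv, norm_pow, kd.norm_u]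
    have hex := hEXTR L B _ F V R ϖ b μ N n (w J) a k _ θ (‖σ β * (σ u ^ J)⁻¹‖ * θ ^ w J)
      (σ β * (σ u ^ J)⁻¹) (σ β * (σ u ^ (J + 1))⁻¹) (Ym p ζ' α J) (Ym p ζ' α (J + 1)) (Eop σ ρ)
      fs (hLIFT L B _ F V R ϖ b μ N D _ hun fs hD c5) c2 c3 c4 hN0 kd.ha
      (main_hom p hw Nx ζ' α J) (by rw [← c1]; exact main_hom p hw Nx ζ' α (J + 1)) rfl
      (by
        have h1 : θ ^ (a * N) = ‖σ u‖ := by rw [mul_comm, pow_mul, c4, kd.norm_u]
        simp only [norm_mul, norm_inv, norm_pow]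
        rw [pow_add θ, h1, pow_succ]
        field_simp)
      (by rw [hκ]; exact c7)
      (fun c d v M hv => hEOP p K L B σ n g e f₀ a N J U ρ x γ ϖ μ _ w θ M (σ u) (σ β) ζ' α bs v
        fs.toFS (fun _ => rfl) hw c2 c3 c4 kd.norm_u kd.norm_p c1 (by simp [hα])
        (fun c d j t => by rw [hζ2]; simp [hζ']) hconv iso hv (hlip v M hv).1 c d)
      (fun v M hM hv => by
        have h1 := hPHI L B g k (e * a * N) Nx x _ θ M C (φ k) v _ c2 c3.le
          (by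
            rw [hθp, one_div]
            exact inv_anti₀ (by norm_num) (by exact_mod_cast hp.two_le))
          hNx fs.one (fun _ _ _ _ => fs.mul) (fun j => fs.gen (Sum.inr j)) hv (hφ k)
          (inf k hk1 hk2 v (hlip v M hv).2)
        refine h1.trans_lt (mul_lt_mul_of_pos_right ?_ hM)
        rw [hκ]
        exact c8 k hk1 hk2) i
    have hnat : (Ek (pen (Ym p (g := g) (fun c d j t => R.res (ζ' c d j t)) (R.res α) J)
        (Ym p (fun c d j t => R.res (ζ' c d j t)) (R.res α) (J + 1))) k).coeff i =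
        MvPolynomial.map R.res ((Ek (pen (Ym p ζ' α J) (Ym p ζ' α (J + 1))) k).coeff i) := by
      rw [← main_ym, ← main_ym, ← main_pen, hNIL.2]
      simp
    rw [hnat]
    exact ⟨_, hex⟩)
  refine ⟨C₁ * (∑ i, μ i + 2) ^ (e * f₀ * n.choose 2), fun l m v hv ho => ?_⟩
  have h1 := hC₁ (p ^ l * ∑ i, μ i + 1) m (fun i => R.red (v i))
    ((hORT L B F V R m v fun i => (hv i).1).1 ho)
    fun i => hfin l (v i) (hv i).1 (hv i).2.1 fun h hh => (hv i).2.2 h (hΓc l h hh)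
  refine h1.trans ?_
  rw [hfr, mul_assoc C₁, mul_comm _ l, pow_mul p l, ← mul_pow]
  refine Nat.mul_le_mul_left _ (Nat.pow_le_pow_left ?_ _)
  have : 1 ≤ p ^ l := Nat.one_le_pow _ _ hp.pos
  nlinarith

end Pool.Agent.P.MP_7cb106_nt.GK
end

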