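import Pool.Agent.P.MP_7cb106_nt.GK.BunG1
import Pool.Agent.P.MP_7cb106_nt.GK.BunG2
import Pool.Agent.P.MP_7cb106_nt.GK.BunC
import Pool.Agent.P.MP_7cb106_nt.GK.BunA1
import Pool.Agent.P.MP_7cb106_nt.GK.BunA2
import Pool.Agent.P.MP_7cb106_nt.GK.BunB1
import Pool.Agent.P.MP_7cb106_nt.GK.BunB2
import Pool.Agent.P.MP_7cb106_nt.GK.BunE1
import Pool.Agent.P.MP_7cb106_nt.GK.BunE2
import Pool.Agent.P.MP_7cb106_nt.GK.BunM

/-! All steps assembled. -/

set_option autoImplicit false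

namespace Pool.Agent.P.MP_7cb106_nt.GK

theorem all_UNI : S_UNI := p_UNI
theorem all_RES : S_RES := p_RES
theorem all_RED : S_RED := p_RED
theorem all_ORT : S_ORT := p_ORT
theorem all_MUL : S_MUL := p_MUL
theorem all_KILL : S_KILL := p_KILL
theorem all_LIFT1 : S_LIFT1 := p_LIFT1 all_KILL
theorem all_LIFT2 : S_LIFT2 := p_LIFT2 all_LIFT1
theorem all_LIFT : S_LIFT := p_LIFT all_KILL all_LIFT2
theorem all_W : S_W := p_W
theorem all_FS1 : S_FS1 := p_FS1
theorem all_FS2 : S_FS2 := p_FS2 all_FS1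
theorem all_FS3 : S_FS3 := p_FS3
theorem all_KD : S_KD := p_KD
theorem all_GM : S_GM := p_GM
theorem all_GD0 : S_GD0 := p_GD0 all_GM
theorem all_GD1 : S_GD1 := p_GD1 all_GM
theorem all_POW : S_POW := p_POW
theorem all_GD2 : S_GD2 := p_GD2 all_GM all_GD1 all_POW
theorem all_OB1 : S_OB1 := p_OB1
theorem all_OB : S_OB := p_OB all_OB1
theorem all_DUAL : S_DUAL := p_DUAL
theorem all_BC : S_BC := p_BC
theorem all_DEL2 : S_DEL2 := p_DEL2
theorem all_DEL : S_DEL := p_DEL all_GM all_DEL2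
theorem all_LIP : S_LIP := p_LIP
theorem all_NIL : S_NIL := p_NIL
theorem all_REV : S_REV := p_REV
theorem all_JORB : S_JORB := p_JORB
theorem all_JORD : S_JORD := p_JORD all_JORB
theorem all_PIDB : S_PIDB := p_PIDB
theorem all_PID : S_PID := p_PID all_PIDB
theorem all_BRU : S_BRU := p_BRU
theorem all_ALPHA : S_ALPHA := p_ALPHA all_BRU
theorem all_BETA : S_BETA := p_BETA all_PID all_ALPHA
theorem all_ADD : S_ADD := p_ADD all_PID all_REV all_BETA
theorem all_MC : S_MC := p_MC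
theorem all_KKS : S_KKS := p_KKS all_REV all_JORD all_ADD all_MC
theorem all_ISO : S_ISO := p_ISO
theorem all_RK : S_RK := p_RK all_JORD
theorem all_TELE : S_TELE := p_TELE all_REV all_KKS all_ISO all_RK
theorem all_DER : S_DER := p_DER
theorem all_GER0 : S_GER0 := p_GER0 all_TELE all_DER
theorem all_GER : S_GER := p_GER all_GER0
theorem all_CC : S_CC := p_CC all_GER all_NIL
theorem all_BOX : S_BOX := p_BOX
theorem all_EXT : S_EXT := p_EXT
theorem all_BIN : S_BIN := p_BIN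
theorem all_EXP1 : S_EXP1 := p_EXP1 all_BIN
theorem all_EOP : S_EOP := p_EOP all_DEL all_BC all_EXP1
theorem all_HOM : S_HOM := p_HOM
theorem all_PROD : S_PROD := p_PROD all_HOM
theorem all_EXTR : S_EXTR := p_EXTR all_HOM all_PROD all_KILL
theorem all_PHI : S_PHI := p_PHI
theorem all_CONST : S_CONST := p_CONST
theorem all_FIN : S_FIN := p_FIN all_BOX
theorem all_XB : S_XB := p_XB all_POW all_OB all_DUAL
theorem all_INT : S_INT := p_INT all_GM
theorem all_MAIN : S_MAIN := p_MAIN all_UNI all_RES all_RED all_ORT all_MUL all_KILL all_LIFT all_W all_FS1 all_FS2 all_FS3 all_KD all_GD0 all_GD2 all_XB all_LIP all_EOP all_EXTR all_PHI all_CONST all_NIL all_EXT all_CC all_FIN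

end Pool.Agent.P.MP_7cb106_nt.GK
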