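import Pool.Agent.P.MP_7cb106_nt.GK.IfaceX

section
/-! Step ULG. -/

set_option autoImplicit false

namespace Pool.Agent.P.MP_7cb106_nt.GK

open Filter Topology

theorem ulg_key {ι F V : Type} [Fintype ι] [Field F] [AddCommGroup V] [Module F V]
    {β : ι → Module.End F V} {μ₀ μ₁ : ι → ℕ} {a c T N : ℕ} {v : V} (hv : v ∈ Ul β μ₀ μ₁ a c)
    (hT : v ∈ Vs β (mix μ₀ μ₁ 1) T) (hN : T ≤ N) : v ∈ Vs β (mix μ₀ μ₁ N) (a + N * c + 1) := by
  refine mem_Vs.2 fun α h => ?_
  rw [wt_mix] at h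
  rcases lt_trichotomy c (wt μ₁ α) with h1 | h1 | h1
  · exact mem_Ul.1 hv α (Or.inl h1)
  · refine mem_Ul.1 hv α (Or.inr ⟨h1, ?_⟩)
    rw [← h1] at h
    omega
  · refine mem_Vs.1 hT α ?_
    rw [wt_mix]
    have h2 : N * (wt μ₁ α + 1) ≤ N * c := Nat.mul_le_mul_left N h1
    rw [mul_add, mul_one] at h2
    omega

theorem p_ULG :
    S_ULG := by
  intro ι F V _ _ _ _ β μ₀ μ₁ hG hS
  refine ⟨fun a c v α α' hv h0 h1 => ?_, fun a c a' c' v α' hv h0 h1 => ?_, fun N hN => ?_,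
    fun N a c hN v hv => ?_, fun N hN v => ?_⟩
  · obtain ⟨T, hT⟩ := hS v
    refine (hG (T + 1) (by omega)).add α α' v ?_
    have e : wt (mix μ₀ μ₁ (T + 1)) α + wt (mix μ₀ μ₁ (T + 1)) α' + 1 = a + (T + 1) * c + 1 := by
      rw [wt_mix, wt_mix, ← h0, ← h1]
      ring
    rw [e]
    exact ulg_key hv hT (by omega)
  · obtain ⟨T, hT⟩ := hS v
    refine mem_Ul.2 fun α h => ?_
    refine (hG (T + a + 1) (by omega)).zero α α' _ v (ulg_key hv hT (by omega)) ?_
    rw [wt_mix, wt_mix, ← h1]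
    generalize hN : T + a + 1 = N
    have hN' : a + 1 ≤ N := by omega
    rw [mul_add]
    rcases h with h | ⟨h, h'⟩
    · have h2 : N * (c' + 1) ≤ N * wt μ₁ α := Nat.mul_le_mul_left N h
      rw [mul_add, mul_one] at h2
      omega
    · rw [← h]
      omega
  · ext v
    rw [mem_Vs, mem_Ul]
    refine forall_congr' fun α => imp_congr_left ?_
    rw [wt_mix]
    have h2 : 1 * wt μ₁ α ≤ N * wt μ₁ α := Nat.mul_le_mul_right _ hN
    constructor
    · intro h
      rcases Nat.eq_zero_or_pos (wt μ₁ α) with h1 | h1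
      · rw [h1, mul_zero] at h
        exact Or.inr ⟨h1.symm, by omega⟩
      · exact Or.inl h1
    · intro h
      omega
  · refine mem_Ul.2 fun α h => mem_Vs.1 hv α ?_
    rw [wt_mix]
    rcases h with h | ⟨h, h'⟩
    · have h2 : N * (c + 1) ≤ N * wt μ₁ α := Nat.mul_le_mul_left N h
      rw [mul_add, mul_one] at h2
      omega
    · rw [← h]
      omega
  · obtain ⟨T, hT⟩ := hS v
    refine ⟨N * T, mem_Vs.2 fun α h => mem_Vs.1 hT α ?_⟩
    rw [wt_mix] at h ⊢
    have h2 : 1 * wt μ₀ α ≤ N * wt μ₀ α := Nat.mul_le_mul_right _ hN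
    have h3 : N * T ≤ N * (wt μ₀ α + 1 * wt μ₁ α) := by
      rw [mul_add, one_mul]
      omega
    exact Nat.le_of_mul_le_mul_left h3 hN

end Pool.Agent.P.MP_7cb106_nt.GK
end

section
/-! Step LEX. -/

set_option autoImplicit false

namespace Pool.Agent.P.MP_7cb106_nt.GK

open Filter Topology

/-- the linear map with prescribed values on the monomials -/
noncomputable def lex_L {ι F V : Type} [Field F] [AddCommGroup V] [Module F V]
    (Ψ : (ι →₀ ℕ) → V) : MvPolynomial ι F →ₗ[F] V :=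
  (MvPolynomial.basisMonomials ι F).constr F Ψ

theorem lex_L_monomial {ι F V : Type} [Field F] [AddCommGroup V] [Module F V]
    (Ψ : (ι →₀ ℕ) → V) (α : ι →₀ ℕ) (c : F) :
    lex_L Ψ (MvPolynomial.monomial α c) = c • Ψ α := by
  have h : MvPolynomial.monomial α c = c • MvPolynomial.basisMonomials ι F α := by
    simp [MvPolynomial.smul_monomial]
  rw [h, map_smul, lex_L, Module.Basis.constr_basis]

theorem lex_L_congr {ι F V : Type} [Field F] [AddCommGroup V] [Module F V]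
    (Ψ Ψ' : (ι →₀ ℕ) → V) (P : MvPolynomial ι F) (h : ∀ α ∈ P.support, Ψ α = Ψ' α) :
    lex_L Ψ P = lex_L Ψ' P := by
  conv_lhs => rw [P.as_sum, map_sum]
  conv_rhs => rw [P.as_sum, map_sum]
  exact Finset.sum_congr rfl fun α hα => by rw [lex_L_monomial, lex_L_monomial, h α hα]

theorem lex_L_zero {ι F V : Type} [Field F] [AddCommGroup V] [Module F V]
    (P : MvPolynomial ι F) : lex_L (fun _ => (0 : V)) P = 0 := by
  rw [P.as_sum, map_sum]
  exact Finset.sum_eq_zero fun α _ => by rw [lex_L_monomial, smul_zero]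

theorem lex_L_mul {ι F V : Type} [Field F] [AddCommGroup V] [Module F V]
    (Ψ : (ι →₀ ℕ) → V) (γ : ι →₀ ℕ) (a : F) (P : MvPolynomial ι F) :
    lex_L Ψ (MvPolynomial.monomial γ a * P) = a • lex_L (fun α => Ψ (α + γ)) P := by
  induction P using MvPolynomial.induction_on' with
  | monomial α c =>
    rw [MvPolynomial.monomial_mul, lex_L_monomial, lex_L_monomial, mul_smul, add_comm]
  | add p q hp hq => rw [mul_add, map_add, map_add, hp, hq, smul_add]

/-- the pairing of a family of vectors with a tuple of polynomials -/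
noncomputable def lex_Lam {ι F V : Type} [Field F] [AddCommGroup V] [Module F V] {n : ℕ}
    (π : V →ₗ[F] (Fin n → F)) (Ψ : (ι →₀ ℕ) → V) (r : Fin n → MvPolynomial ι F) : F :=
  ∑ c, π (lex_L Ψ (r c)) c

theorem lex_Lam_add {ι F V : Type} [Field F] [AddCommGroup V] [Module F V] {n : ℕ}
    (π : V →ₗ[F] (Fin n → F)) (Ψ : (ι →₀ ℕ) → V) (r r' : Fin n → MvPolynomial ι F) :
    lex_Lam π Ψ (r + r') = lex_Lam π Ψ r + lex_Lam π Ψ r' := by
  simp only [lex_Lam, Pi.add_apply, map_add, Finset.sum_add_distrib]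

theorem lex_Lam_mul {ι F V : Type} [Field F] [AddCommGroup V] [Module F V] {n : ℕ}
    (π : V →ₗ[F] (Fin n → F)) (Ψ : (ι →₀ ℕ) → V) (γ : ι →₀ ℕ) (a : F)
    (r : Fin n → MvPolynomial ι F) :
    lex_Lam π Ψ ((MvPolynomial.monomial γ a : MvPolynomial ι F) • r) =
      a * lex_Lam π (fun α => Ψ (α + γ)) r := by
  simp only [lex_Lam, Pi.smul_apply, smul_eq_mul, lex_L_mul, map_smul, Finset.mul_sum]

theorem lex_Lam_congr {ι F V : Type} [Field F] [AddCommGroup V] [Module F V] {n : ℕ}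
    (π : V →ₗ[F] (Fin n → F)) (Ψ Ψ' : (ι →₀ ℕ) → V) (r : Fin n → MvPolynomial ι F)
    (h : ∀ c, ∀ α ∈ (r c).support, Ψ α = Ψ' α) : lex_Lam π Ψ r = lex_Lam π Ψ' r :=
  Finset.sum_congr rfl fun c _ => by rw [lex_L_congr Ψ Ψ' _ (h c)]

theorem lex_Lam_zero {ι F V : Type} [Field F] [AddCommGroup V] [Module F V] {n : ℕ}
    (π : V →ₗ[F] (Fin n → F)) (r : Fin n → MvPolynomial ι F) :
    lex_Lam π (fun _ => (0 : V)) r = 0 := by
  simp only [lex_Lam, lex_L_zero, map_zero, Pi.zero_apply, Finset.sum_const_zero]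

/-- the bihomogeneous relations of bidegree at most `(D, D)` -/
def lex_G {ι F V : Type} [Fintype ι] [Field F] [AddCommGroup V] [Module F V] {n : ℕ}
    (β : ι → Module.End F V) (μ₀ μ₁ : ι → ℕ) (π : V →ₗ[F] (Fin n → F)) (D : ℕ) :
    Set (Fin n → MvPolynomial ι F) :=
  {g | ∃ a' c', a' ≤ D ∧ c' ≤ D ∧
    (∀ k, ∀ α ∈ (g k).support, wt μ₀ α = a' ∧ wt μ₁ α = c') ∧
    ∀ w ∈ Ul β μ₀ μ₁ a' c', lex_Lam π (fun α => mono β α w) g = 0}

theorem lex_kill {ι F V : Type} [Fintype ι] [Field F] [AddCommGroup V] [Module F V] {n : ℕ}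
    (β : ι → Module.End F V) (μ₀ μ₁ : ι → ℕ) (π : V →ₗ[F] (Fin n → F)) (D a c : ℕ)
    (Ψ : (ι →₀ ℕ) → V)
    (hyp : ∀ (γ : ι →₀ ℕ) (a' c' : ℕ), a' ≤ D → c' ≤ D → wt μ₀ γ + a' = a → wt μ₁ γ + c' = c →
      Lx β μ₀ μ₁ a' c' fun α => Ψ (α + γ))
    (r : Fin n → MvPolynomial ι F)
    (hr : r ∈ Submodule.span (MvPolynomial ι F) (lex_G β μ₀ μ₁ π D)) :
    ∀ p : MvPolynomial ι F,
      lex_Lam π (fun α => if wt μ₀ α = a ∧ wt μ₁ α = c then Ψ α else 0) (p • r) = 0 := by
  induction hr using Submodule.span_induction with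
  | mem g hg =>
    obtain ⟨a', c', ha', hc', hh, hw⟩ := hg
    intro p
    induction p using MvPolynomial.induction_on' with
    | monomial γ x =>
      rw [lex_Lam_mul]
      by_cases h : wt μ₀ γ + a' = a ∧ wt μ₁ γ + c' = c
      · obtain ⟨w, hwm, hΨ⟩ := hyp γ a' c' ha' hc' h.1 h.2
        rw [lex_Lam_congr π _ (fun α => mono β α w) g, hw w hwm, mul_zero]
        intro k α hα
        have h1 : wt μ₀ (α + γ) = a ∧ wt μ₁ (α + γ) = c := by
          have := hh k α hα
          simp only [wt, map_add] at this h ⊢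
          omega
        rw [if_pos h1, hΨ α (hh k α hα).1 (hh k α hα).2]
      · rw [lex_Lam_congr π _ (fun _ => 0) g, lex_Lam_zero, mul_zero]
        intro k α hα
        have h1 : ¬ (wt μ₀ (α + γ) = a ∧ wt μ₁ (α + γ) = c) := by
          have := hh k α hα
          simp only [wt, map_add] at this h ⊢
          omega
        rw [if_neg h1]
    | add p q hp hq => rw [add_smul, lex_Lam_add, hp, hq, add_zero]
  | zero =>
    intro p
    simp only [smul_zero, lex_Lam, Pi.zero_apply, map_zero, Finset.sum_const_zero]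
  | add x y _ _ hx hy =>
    intro p
    rw [smul_add, lex_Lam_add, hx p, hy p, add_zero]
  | smul x y _ hy =>
    intro p
    rw [smul_smul]
    exact hy _

theorem p_LEX :
    S_LEX := by
  classical
  intro ι F V _ _ _ _ β μ₀ μ₁ hpos _ hmap hfin
  obtain ⟨π, hπ⟩ := LinearMap.exists_extend
    ((Module.finBasis F (Ul β μ₀ μ₁ 0 0)).equivFun.toLinearMap)
  have hinj : ∀ v ∈ Ul β μ₀ μ₁ 0 0, π v = 0 → v = 0 := by
    intro v hv h0
    have h1 := LinearMap.congr_fun hπ ⟨v, hv⟩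
    simp only [LinearMap.comp_apply, Submodule.subtype_apply, h0, LinearEquiv.coe_coe] at h1
    have h2 := (Module.finBasis F (Ul β μ₀ μ₁ 0 0)).equivFun.map_eq_zero_iff.1 h1.symm
    exact congrArg Subtype.val h2
  clear hπ
  generalize Module.finrank F (Ul β μ₀ μ₁ 0 0) = n at π hinj
  let N : ℕ →o Submodule (MvPolynomial ι F) (Fin n → MvPolynomial ι F) :=
    ⟨fun D => Submodule.span _ (lex_G β μ₀ μ₁ π D), fun D D' h => Submodule.span_mono (by
      rintro g ⟨a', c', ha', hc', hg⟩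
      exact ⟨a', c', ha'.trans h, hc'.trans h, hg⟩)⟩
  obtain ⟨D, hD⟩ := monotone_stabilizes_iff_noetherian.2 inferInstance N
  refine ⟨D, fun a c Ψ hΨ hyp => ?_⟩
  have hA : {α : ι →₀ ℕ | wt μ₀ α = a ∧ wt μ₁ α = c}.Finite := by
    refine (Finsupp.finite_of_nat_weight_eq (mix μ₀ μ₁ 1) (fun i => ?_) (a + c)).subset ?_
    · have := hpos i
      simp only [mix]
      omega
    · rintro α ⟨h0, h1⟩
      change wt (mix μ₀ μ₁ 1) α = a + c
      rw [wt_mix, h0, h1, one_mul]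
  haveI : Fintype {α : ι →₀ ℕ | wt μ₀ α = a ∧ wt μ₁ α = c} := hA.fintype
  let T : Ul β μ₀ μ₁ a c →ₗ[F] ({α : ι →₀ ℕ | wt μ₀ α = a ∧ wt μ₁ α = c} × Fin n → F) :=
    LinearMap.pi fun i => (LinearMap.proj i.2) ∘ₗ π ∘ₗ (mono β i.1.1) ∘ₗ (Ul β μ₀ μ₁ a c).subtype
  have hmem : (fun i : {α : ι →₀ ℕ | wt μ₀ α = a ∧ wt μ₁ α = c} × Fin n => π (Ψ i.1.1) i.2) ∈
      LinearMap.range T := by
    by_contra hn
    obtain ⟨φ, hφ, hker⟩ := Submodule.exists_le_ker_of_notMem hn
    let r : Fin n → MvPolynomial ι F := fun k =>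
      ∑ α : {α : ι →₀ ℕ | wt μ₀ α = a ∧ wt μ₁ α = c},
        MvPolynomial.monomial α.1 (φ fun j => if (α, k) = j then 1 else 0)
    have hr : ∀ Ψ' : (ι →₀ ℕ) → V, lex_Lam π Ψ' r =
        φ (fun i : {α : ι →₀ ℕ | wt μ₀ α = a ∧ wt μ₁ α = c} × Fin n => π (Ψ' i.1.1) i.2) := by
      intro Ψ'
      rw [LinearMap.pi_apply_eq_sum_univ φ, Fintype.sum_prod_type_right]
      refine Finset.sum_congr rfl fun k _ => ?_
      simp only [r, map_sum, lex_L_monomial, map_smul, Finset.sum_apply, Pi.smul_apply,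
        smul_eq_mul, mul_comm]
    have hsupp : ∀ k, ∀ α ∈ (r k).support, wt μ₀ α = a ∧ wt μ₁ α = c := by
      intro k α hα
      obtain ⟨α', _, h'⟩ := Finset.mem_biUnion.1 (MvPolynomial.support_sum hα)
      have := Finset.mem_singleton.1 (MvPolynomial.support_monomial_subset h')
      rw [this]
      exact α'.2
    have hrG : r ∈ N (max (max a c) D) := Submodule.subset_span
      ⟨a, c, (le_max_left _ _).trans (le_max_left _ _), (le_max_right _ _).trans (le_max_left _ _),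
        hsupp, fun w hw => by
          rw [hr]
          exact hker ⟨⟨w, hw⟩, rfl⟩⟩
    rw [← hD _ (le_max_right _ _)] at hrG
    have h0 := lex_kill β μ₀ μ₁ π D a c Ψ hyp r hrG 1
    rw [one_smul, lex_Lam_congr π _ Ψ r (fun k α hα => if_pos (hsupp k α hα)), hr] at h0
    exact hφ h0
  obtain ⟨u, hu⟩ := hmem
  refine ⟨u.1, u.2, fun α h0 h1 => ?_⟩
  refine sub_eq_zero.1 (hinj _ (Submodule.sub_mem _ ?_ (hΨ α h0 h1)) ?_)
  · exact hmap a c 0 0 u.1 α u.2 h0 h1
  · rw [map_sub, sub_eq_zero]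
    funext k
    exact congrFun hu (⟨α, h0, h1⟩, k)

end Pool.Agent.P.MP_7cb106_nt.GK
end

section
/-! Step KEY. -/

set_option autoImplicit false

namespace Pool.Agent.P.MP_7cb106_nt.GK

open Filter Topology

theorem p_KEY :
    S_KEY := by
  intro ι F V _ _ _ _ β a c N hN hsm hre
  have hw := wt_mix a c N
  generalize mix a c N = μ at hw hsm hre ⊢
  have Q : ∀ (k t : ℕ) (Ψ : (ι →₀ ℕ) → V), (∀ a' c', a' + N * c' = t → Lx β a c a' c' Ψ) →
      (∀ α, wt μ α = t → k ≤ wt c α → Ψ α = 0) →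
      ∃ u ∈ Vs β μ (t + 1), (∀ α, k ≤ wt c α → mono β α u = 0) ∧
        ∀ α, wt μ α = t → mono β α u = Ψ α := by
    intro k
    induction k with
    | zero =>
      intro t Ψ _ h0
      exact ⟨0, Submodule.zero_mem _, fun α _ => map_zero _, fun α hα => by
        rw [map_zero, h0 α hα (Nat.zero_le _)]⟩
    | succ k ih =>
      intro t Ψ hl h0
      by_cases ht : t < N * k
      · obtain ⟨u, hu, e1, e2⟩ := ih t Ψ hl fun α hα hk => by
          have h2 := hw α
          have h3 : N * k ≤ N * wt c α := Nat.mul_le_mul_left _ hk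
          omega
        exact ⟨u, hu, fun α hα => e1 α (by omega), e2⟩
      obtain ⟨a₀, rfl⟩ : ∃ a₀, t = a₀ + N * k := ⟨t - N * k, by omega⟩
      obtain ⟨u₀, hu₀, e₀⟩ := hl a₀ k rfl
      have down : ∀ (m : ℕ) (v : V), v ∈ Ul β a c a₀ k → v ∈ Vs β μ (a₀ + N * k + 1 + m) →
          ∃ v' ∈ Ul β a c a₀ k, v' ∈ Vs β μ (a₀ + N * k + 1) ∧
            ∀ α, wt c α = k → mono β α v' = mono β α v := by
        intro m
        induction m with
        | zero => exact fun v hv hv' => ⟨v, hv, hv', fun _ _ => rfl⟩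
        | succ m ihm =>
          intro v hv hv'
          have hv2 : v ∈ Vs β μ (a₀ + N * k + 1 + m + 1) := hv'
          obtain ⟨u', hu', e1, e2⟩ := ih _ (fun α => mono β α v) (hre _ v hv2)
            fun α hα hk => hv α (by
              rcases hk.lt_or_eq with h | h
              · exact Or.inl h
              · refine Or.inr ⟨h, ?_⟩
                rw [hw, ← h] at hα
                omega)
          obtain ⟨v', h2, h3, h4⟩ := ihm (v - u')
            (fun α hα => by rw [map_sub, hv α hα, e1 α (by omega), sub_zero])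
            (fun α hα => by
              rw [map_sub]
              rcases hα.lt_or_eq with h | h
              · rw [hv2 α h, hu' α h, sub_zero]
              · rw [e2 α h.symm, sub_self])
          exact ⟨v', h2, h3, fun α hα => by
            rw [h4 α hα, map_sub, e1 α hα.ge, sub_zero]⟩
      obtain ⟨T, hT⟩ := hsm u₀
      obtain ⟨u₁, hU, hV, e₁⟩ := down T u₀ hu₀ fun α hα => hT α (by omega)
      obtain ⟨u₂, hu₂, e1, e2⟩ := ih (a₀ + N * k) (fun α => Ψ α - mono β α u₁)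
        (fun a' c' h => by
          obtain ⟨w, hw1, hw2⟩ := hl a' c' h
          obtain ⟨w', hw1', hw2'⟩ := hre _ u₁ hV a' c' h
          exact ⟨w - w', Submodule.sub_mem _ hw1 hw1', fun α h1 h2 => by
            rw [map_sub, hw2 α h1 h2, hw2' α h1 h2]⟩)
        fun α hα hk => by
          rcases hk.lt_or_eq with h | h
          · rw [h0 α hα h, hU α (Or.inl h), sub_zero]
          · rw [e₁ α h.symm, e₀ α (by rw [hw, ← h] at hα; omega) h.symm, sub_self]
      refine ⟨u₁ + u₂, Submodule.add_mem _ hV hu₂, fun α hα => ?_, fun α hα => ?_⟩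
      · rw [map_add, hU α (Or.inl hα), e1 α (by omega), add_zero]
      · rw [map_add, e2 α hα, add_sub_cancel]
  intro t Ψ hl
  obtain ⟨u, hu, -, e⟩ := Q (t + 1) t Ψ hl fun α hα hk => by
    have h2 := hw α
    have h3 : 1 * wt c α ≤ N * wt c α := Nat.mul_le_mul_right _ hN
    omega
  exact ⟨u, hu, e⟩

end Pool.Agent.P.MP_7cb106_nt.GK
end

section
/-! Step EXT2. -/

set_option autoImplicit false

namespace Pool.Agent.P.MP_7cb106_nt.GK

open Filter Topology

theorem p_EXT2 (hULG : S_ULG) (hLEX : S_LEX) (hKEY : S_KEY) :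
    S_EXT2 := by
  intro ι F V _ _ _ _ β μ₀ μ₁ hG hs hfin
  obtain ⟨u1, u2, u3, u4, u5⟩ := hULG ι F V β μ₀ μ₁ hG hs
  obtain ⟨D, hD⟩ := hLEX ι F V β μ₀ μ₁ (fun i => by simpa [mix] using (hG 1 le_rfl).pos i) u1 u2
    (u3 1 le_rfl ▸ hfin)
  refine ⟨D, fun N hN => ?_⟩
  have hN1 : 1 ≤ N := by omega
  have key : ∀ (t : ℕ) (Ψ : (ι →₀ ℕ) → V),
      (∀ α, wt (mix μ₀ μ₁ N) α = t → Ψ α ∈ Vs β (mix μ₀ μ₁ N) 1) →
      (∀ (γ : ι →₀ ℕ) (t' : ℕ), t' ≤ D + D * N → wt (mix μ₀ μ₁ N) γ + t' = t →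
        ∃ w ∈ Vs β (mix μ₀ μ₁ N) (t' + 1),
          ∀ α, wt (mix μ₀ μ₁ N) α = t' → Ψ (α + γ) = mono β α w) →
      ∀ a c, a + N * c = t → Lx β μ₀ μ₁ a c Ψ := by
    intro t Ψ h1 h2 a c e
    refine hD a c Ψ (fun α ha hc => u3 N hN1 ▸ h1 α (by rw [wt_mix, ha, hc, e]))
      fun γ a' c' ha' hc' e1 e2 => ?_
    obtain ⟨w, hw, h3⟩ := h2 γ (a' + N * c') (by nlinarith)
      (by rw [wt_mix, ← e, ← e1, ← e2]; ring)
    exact ⟨w, u4 N a' c' (by omega) hw, fun α ha hc => (h3 α (by rw [wt_mix, ha, hc])).symm⟩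
  intro t Ψ h1 h2
  refine hKEY ι F V β μ₀ μ₁ N hN1 (u5 N hN1) (fun t u hu => key t _ (fun α hα α' h => ?_)
    fun γ t' _ e => ⟨mono β γ u, fun α h => ?_, fun α hα => ?_⟩) t Ψ (key t Ψ h1 h2)
  · exact (hG N hN1).zero α' α _ u hu (by omega)
  · exact (hG N hN1).zero α γ _ u hu (by omega)
  · exact ((hG N hN1).add α γ u (by rwa [hα, add_comm t', e])).symm

end Pool.Agent.P.MP_7cb106_nt.GK
end

section
/-! Step IND. -/

set_option autoImplicit false

namespace Pool.Agent.P.MP_7cb106_nt.GK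

open Filter Topology

theorem ind_list {κ F V : Type} [Field F] [AddCommGroup V] [Module F V]
    (β : κ → Module.End F V) (α : κ → ℕ) (k : κ) (v : V) (hc : ∀ i, Commute (β k) (β i))
    (hv : β k v = 0) (hα : α k ≠ 0) :
    ∀ l : List κ, k ∈ l → (l.map fun i => β i ^ α i).prod v = 0 := by
  intro l
  induction l with
  | nil => intro h; simp at h
  | cons a l ih =>
    intro h
    rw [List.map_cons, List.prod_cons]
    rcases List.mem_cons.1 h with rfl | h
    · have hcm : Commute (β k ^ α k) (l.map fun i => β i ^ α i).prod := by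
        refine Commute.list_prod_right _ _ fun x hx => ?_
        obtain ⟨i, -, rfl⟩ := List.mem_map.1 hx
        exact (hc i).pow_pow _ _
      obtain ⟨m, hm⟩ := Nat.exists_eq_succ_of_ne_zero hα
      rw [hcm.eq, Module.End.mul_apply, hm, pow_succ, Module.End.mul_apply, hv, map_zero, map_zero]
    · rw [Module.End.mul_apply, ih h, map_zero]

theorem p_IND :
    S_IND := by
  intro ι F V _ _ _ _ g β μ μ' s v hc hμ hv h
  rw [mem_Vs] at h ⊢
  intro α hα
  by_cases h0 : ∀ j, α (Sum.inr j) = 0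
  · refine h α (hα.trans (le_of_eq ?_))
    unfold wt
    rw [Finsupp.weight_apply, Finsupp.weight_apply]
    refine Finsupp.sum_congr fun i hi => ?_
    rcases i with i | j
    · rw [hμ]
    · exact absurd (h0 j) (Finsupp.mem_support_iff.1 hi)
  · push Not at h0
    obtain ⟨j, hj⟩ := h0
    exact ind_list β α (Sum.inr j) v (hc j) (hv j) hj _ (Finset.mem_toList.2 (Finset.mem_univ _))

end Pool.Agent.P.MP_7cb106_nt.GK
end

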