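import Pool.Agent.P.MP_7cb106_nt.GK.IfaceX
import Pool.Agent.P.MP_7cb106_nt.GK.C67b
import Pool.Agent.P.MP_7cb106_nt.GK.C67c
import Pool.Agent.P.MP_7cb106_nt.GK.BunM

section
/-! Step CC2. -/

set_option autoImplicit false

namespace Pool.Agent.P.MP_7cb106_nt.GK

open Filter Topology

theorem cc2_choose (n : ℕ) : 2 * n.choose 2 + n = n * n := by
  induction n with
  | zero => simp
  | succ n ih =>
    rw [Nat.choose_succ_succ' n 1, Nat.choose_one_right]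
    have : (n + 1) * (n + 1) = n * n + 2 * n + 1 := by ring
    have h2 : n.choose (1 + 1) = n.choose 2 := rfl
    omega

theorem cc2_Ym_map (p : ℕ) {n e f₀ g : ℕ} [NeZero e] {F E : Type} [Field F] [Field E]
    [Algebra F E] (φ : MvPolynomial (Ix n e f₀ g) F →ₐ[F] E)
    (z : Fin n → Fin n → Fin e → Fin f₀ → F) (α : F) (J : ℕ) (a b : Fin n) :
    φ (Ym p z α J a b) = algebraMap F E (α ^ (J / e)) *
      ∑ t, algebraMap F E (z a b (Fin.ofNat e J) t) *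
        φ (MvPolynomial.X (Sum.inl (a, b, Fin.ofNat e J, t))) ^ p ^ (J / e) := by
  rw [Ym, map_sum, Finset.mul_sum]
  refine Finset.sum_congr rfl fun t _ => ?_
  rw [← MvPolynomial.C_mul_X_pow_eq_monomial, map_mul, map_pow, MvPolynomial.algHom_C, map_mul]
  ring

theorem p_CC2 (hGER : S_GER) (hNIL : S_NIL) :
    S_CC2 := by
  intro p _ n e f₀ g _ F V _ _ _ _ _ hf₀ β μ hG hfin hcomm z α J₁ hzq hzi hα hαq hrel
  have hp : p.Prime := Fact.out
  have he : 0 < e := Nat.pos_of_ne_zero (NeZero.ne e)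
  let W : Submodule F V := ⨅ j, LinearMap.ker (β (Sum.inr j))
  have hWm : ∀ v, v ∈ W ↔ ∀ j, β (Sum.inr j) v = 0 := fun v => by
    simp only [W, Submodule.mem_iInf, LinearMap.mem_ker]
  have hW : ∀ i, ∀ v ∈ W, β i v ∈ W := by
    intro i v hv
    rw [hWm] at hv ⊢
    intro j
    rw [← Module.End.mul_apply, (hcomm j i).eq, Module.End.mul_apply, hv j, map_zero]
  have hTr : c67_TrBound F (Ix n e f₀ g) (c67_I hG W hW) (e * f₀ * n.choose 2) := by
    intro E _ _ φ hφ hgen k a ha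
    have : CharP E p := charP_of_injective_algebraMap (algebraMap F E).injective p
    let y : ℕ → Mat n E := fun j => (Ym p (g := g) z α (J₁ + j)).map φ
    have hy : ∀ j a b, y j a b = φ (Ym p z α (J₁ + j) a b) := fun _ _ _ => rfl
    have h1 : ∀ a b, y (e * f₀) a b = (α ^ f₀) • y 0 a b ^ p ^ f₀ := by
      intro a b
      have e1 : Fin.ofNat e (J₁ + e * f₀) = Fin.ofNat e J₁ := Fin.ext (by simp)
      have e2 : (J₁ + e * f₀) / e = J₁ / e + f₀ := Nat.add_mul_div_left _ _ he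
      rw [hy, hy, cc2_Ym_map, cc2_Ym_map, e1, e2, add_zero, mul_pow, sum_pow_char_pow,
        Algebra.smul_def, ← mul_assoc, ← map_pow, ← map_mul, ← pow_mul, mul_comm (J₁ / e),
        pow_mul, hαq, ← pow_add, add_comm f₀]
      congr 1
      refine Finset.sum_congr rfl fun t _ => ?_
      rw [mul_pow, ← map_pow (algebraMap F E), hzq, ← pow_mul, ← pow_add]
    have h2 : ∀ j < e * f₀, IsNilpotent (pen (y j) (y (j + 1))) := by
      intro j _
      have e1 : pen (y j) (y (j + 1)) =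
          (pen (Ym p (g := g) z α (J₁ + j)) (Ym p z α (J₁ + j + 1))).map
            (Polynomial.mapRingHom φ.toRingHom) := by
        ext a b : 2
        simp [pen, y, add_assoc]
      refine hNIL.1 n _ _ fun k hk1 hk2 => ?_
      rw [e1, hNIL.2]
      ext i
      obtain ⟨s, hs1, hs2⟩ := hrel (J₁ + j) (Nat.le_add_right _ _) k hk1 hk2 i
      rw [Polynomial.coe_mapRingHom, Polynomial.coeff_map, Polynomial.coeff_zero]
      exact hφ _ ((c67_mem_I_of_hom hG W hW _ s hs1).2 fun v hv hw => hs2 v hv ((hWm v).1 hw))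
    have h3 : ∀ x : E, IsAlgebraic
        (IntermediateField.adjoin F {x | ∃ j < e * f₀, ∃ a b, x = y j a b}) x := by
      set E₀ := IntermediateField.adjoin F {x | ∃ j < e * f₀, ∃ a b, x = y j a b} with hE₀
      have hX : ∀ i, IsAlgebraic E₀ (φ (MvPolynomial.X i)) := by
        rintro (⟨a, b, j, t⟩ | j)
        · obtain ⟨j₀, hj₀, hj⟩ : ∃ j₀ < e, (J₁ + j₀) % e = j := by
            refine ⟨(j + (e - J₁ % e)) % e, Nat.mod_lt _ he, ?_⟩
            have h0 := Nat.mod_lt J₁ he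
            have : J₁ % e + (j + (e - J₁ % e)) = j + e := by omega
            rw [Nat.add_mod_mod, ← Nat.mod_add_mod, this, Nat.add_mod_right, Nat.mod_eq_of_lt j.2]
          refine c67_moore p F E E₀ f₀ ((J₁ + j₀) / e) (z a b j) (hzi a b j)
            (fun t => φ (MvPolynomial.X (Sum.inl (a, b, j, t)))) (fun i hi => ?_) t
          have hlt : j₀ + e * i < e * f₀ := by
            have : e * (i + 1) ≤ e * f₀ := Nat.mul_le_mul_left _ hi
            rw [mul_add, mul_one] at this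
            omega
          have hmem : y (j₀ + e * i) a b ∈ E₀ :=
            IntermediateField.subset_adjoin _ _ ⟨_, hlt, a, b, rfl⟩
          have e1 : Fin.ofNat e (J₁ + (j₀ + e * i)) = j := Fin.ext (by
            rw [← hj, ← add_assoc]
            simp)
          have e2 : (J₁ + (j₀ + e * i)) / e = (J₁ + j₀) / e + i := by
            rw [← add_assoc]
            exact Nat.add_mul_div_left _ _ he
          rw [hy, cc2_Ym_map, e1, e2] at hmem
          have hne : algebraMap F E (α ^ ((J₁ + j₀) / e + i)) ≠ 0 :=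
            (map_ne_zero _).2 (pow_ne_zero _ hα)
          have := mul_mem (inv_mem (E₀.algebraMap_mem (α ^ ((J₁ + j₀) / e + i)))) hmem
          rwa [inv_mul_cancel_left₀ hne] at this
        · have hI : MvPolynomial.X (Sum.inr j) ∈ c67_I hG W hW := by
            refine (c67_mem_I_of_hom hG W hW _ _
              (MvPolynomial.isWeightedHomogeneous_X F μ (Sum.inr j))).2 fun v _ hv => ?_
            rw [MvPolynomial.X, ev_monomial, mono_single, one_smul, pow_one]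
            exact (hWm v).1 hv j
          rw [hφ _ hI]
          exact isAlgebraic_zero
      have hP : ∀ P, IsAlgebraic E₀ (φ P) := by
        intro P
        induction P using MvPolynomial.induction_on with
        | C c =>
          rw [MvPolynomial.algHom_C]
          exact isAlgebraic_algebraMap (⟨_, E₀.algebraMap_mem c⟩ : E₀)
        | add P Q hP hQ =>
          rw [map_add]
          exact hP.add hQ
        | mul_X P i hP =>
          rw [map_mul]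
          exact hP.mul (hX i)
      intro x
      obtain ⟨P, Q, rfl⟩ := hgen x
      rw [div_eq_mul_inv]
      exact (hP P).mul (hP Q).inv
    have h4 := hGER p n (e * f₀) f₀ F E hf₀ y (α ^ f₀) (pow_ne_zero _ hα) h1 h2 h3 k a ha
    rw [← cc2_choose n, mul_add, mul_left_comm] at h4
    omega
  obtain ⟨C, hC⟩ := c67_bound hG W hW _ hTr
  exact ⟨C, fun s m v hv hm => hC s m v hv fun i => ⟨(hm i).1, (hWm _).2 (hm i).2⟩⟩

end Pool.Agent.P.MP_7cb106_nt.GK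
end

section
/-! Step PHI2. -/

set_option autoImplicit false

namespace Pool.Agent.P.MP_7cb106_nt.GK

open Filter Topology

theorem phi2_mem {L B : Type} [NormedField L] [IsUltrametricDist L] [NormedAddCommGroup B]
    [NormedSpace L B] (Fil : ℕ → Submodule (Ob L) (Module.End L B)) (h1 : 1 ∈ Fil 0)
    (hm : ∀ (t t' : ℕ) (c c' : Module.End L B), c ∈ Fil t → c' ∈ Fil t' → c * c' ∈ Fil (t + t'))
    (Nx : ℕ) : ∀ (g : ℕ) (x : Fin g → Module.End L B) (β : Fin g → ℕ), (∀ j, x j ∈ Fil Nx) →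
      xp x β ∈ Fil (Nx * ∑ j, β j) := by
  have hp : ∀ (c : Module.End L B), c ∈ Fil Nx → ∀ n : ℕ, c ^ n ∈ Fil (Nx * n) := by
    intro c hc n
    induction n with
    | zero => simpa using h1
    | succ n ih => rw [pow_succ, Nat.mul_succ]; exact hm _ _ _ _ ih hc
  intro g
  induction g with
  | zero => intro x β _; simpa [xp] using h1
  | succ g ih =>
    intro x β hx
    have := hm _ _ _ _ (hp _ (hx 0) (β 0)) (ih (fun j => x j.succ) (fun j => β j.succ) fun j => hx _)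
    rw [Fin.sum_univ_succ, Nat.mul_add]
    simpa [xp, List.ofFn_succ] using this

theorem p_PHI2 :
    S_PHI2 := by
  intro L B _ _ _ _ _ g Nx x Fil θ M C r φ v y h0 hr hone hm hxj hB hφ hs
  have hM : 0 ≤ M := by
    have := hB 0 1 hone
    rw [pow_zero, mul_one] at this
    exact (norm_nonneg _).trans this
  have hC : 0 ≤ C := by
    have := hφ 0
    simp only [Pi.zero_apply, Finset.sum_const_zero, pow_zero, mul_one] at this
    exact (norm_nonneg _).trans this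
  have hb : ∀ β : Fin g → ℕ, ‖φ β • xp x β v‖ ≤ C * M := by
    intro β
    have e1 := hB _ _ (phi2_mem Fil hone hm Nx g x β hxj)
    have e2 := hφ β
    have e3 : θ ^ (Nx * ∑ j, β j) ≤ r ^ (∑ j, β j) := by
      rw [pow_mul]
      exact pow_le_pow_left₀ (by positivity) hr _
    calc ‖φ β • xp x β v‖ = ‖φ β‖ * ‖xp x β v‖ := norm_smul _ _
      _ ≤ ‖φ β‖ * (M * θ ^ (Nx * ∑ j, β j)) := by gcongr
      _ ≤ ‖φ β‖ * (M * r ^ (∑ j, β j)) := by gcongr
      _ = (‖φ β‖ * r ^ (∑ j, β j)) * M := by ring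
      _ ≤ _ := by gcongr
  rw [← hs.tsum_eq]
  exact IsUltrametricDist.norm_tsum_le_of_forall_le_of_nonneg (by positivity) hb

end Pool.Agent.P.MP_7cb106_nt.GK
end

section
/-! Step CONST2. -/

set_option autoImplicit false

namespace Pool.Agent.P.MP_7cb106_nt.GK

open Filter Topology

theorem p_CONST2 (hCONST : S_CONST) :
    S_CONST2 := by
  intro p e a D w r b₀ hp he ha hw r0 r1 hr hb
  obtain ⟨X, X0, hX⟩ := hCONST p e a 1 w r b₀ 1 hp he ha hw r0 r1 hr hb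
  have m0 : 2 * (D + 1) ≠ 0 := by omega
  refine ⟨r ^ (((2 * (D + 1) : ℕ) : ℝ)⁻¹), Real.rpow_pos_of_pos r0 _,
    Real.rpow_lt_one r0.le r1 (by positivity), fun C => ?_⟩
  obtain ⟨J₁, hJ⟩ := hX (⌈C⌉₊ * X + (D + 1) * (D + 3))
  refine ⟨J₁, fun J hJJ => ?_⟩
  obtain ⟨N, θ, n1, t0, t1, tN, DN, hlow, hone, hk⟩ := hJ J hJJ
  obtain ⟨Nx, hNx⟩ : ∃ Nx, N / (D + 1) = Nx + 1 ∧ D + 2 ≤ Nx := by
    have h1 : D + 3 ≤ N / (D + 1) :=
      (Nat.le_div_iff_mul_le (by omega)).2 (by rw [mul_comm]; omega)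
    exact ⟨N / (D + 1) - 1, by omega, by omega⟩
  have h2 : (D + 1) * (Nx + 1) ≤ N := hNx.1 ▸ Nat.mul_div_le N (D + 1)
  have h3 : N < (D + 1) * (Nx + 1 + 1) := hNx.1 ▸ Nat.lt_mul_div_succ N (by omega)
  have h4 : (D + 1) * (Nx + 1 + 1) ≤ Nx * (2 * (D + 1)) := by
    calc (D + 1) * (Nx + 1 + 1) ≤ (D + 1) * (2 * Nx) := Nat.mul_le_mul_left _ (by omega)
      _ = Nx * (2 * (D + 1)) := by ring
  refine ⟨N, Nx, θ, n1, t0, t1, tN, by omega, by nlinarith, hlow, ?_, hone, fun k k1 => ?_⟩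
  · refine le_of_pow_le_pow_left₀ m0 (Real.rpow_pos_of_pos r0 _).le ?_
    rw [Real.rpow_inv_natCast_pow r0.le m0, ← pow_mul, ← tN]
    exact pow_le_pow_of_le_one t0.le t1.le (by omega)
  · have h5 := hk 1 le_rfl le_rfl
    rw [pow_one, pow_one, one_mul, Nat.cast_one, one_mul] at h5
    have X0' : (0 : ℝ) < X := by exact_mod_cast X0
    have h6 : (⌈C⌉₊ : ℝ) ≤ ((e * a * N : ℕ) : ℝ) / X := by
      rw [le_div_iff₀ X0']
      have h7 : N ≤ e * a * N := Nat.le_mul_of_pos_left _ (Nat.mul_pos he ha)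
      exact_mod_cast (show ⌈C⌉₊ * X ≤ e * a * N by omega)
    have h8 := Nat.le_ceil C
    have h9 : (0 : ℝ) ≤ ⌈C⌉₊ := Nat.cast_nonneg _
    exact lt_of_lt_of_le (by linarith) (le_self_pow₀ (by linarith) (by omega))

end Pool.Agent.P.MP_7cb106_nt.GK
end

section
/-! Step MAIN2. -/

set_option autoImplicit false

namespace Pool.Agent.P.MP_7cb106_nt.GK

open Filter Topology

theorem p_MAIN2 (hUNI : S_UNI) (hRES : S_RES) (hRED : S_RED) (hORT : S_ORT) (hMUL : S_MUL) (hKILL : S_KILL) (hLIFT : S_LIFT) (hW : S_W) (hFS1 : S_FS1) (hFS2 : S_FS2) (hFS3 : S_FS3) (hKD : S_KD) (hGD0 : S_GD0) (hGD2 : S_GD2) (hXB : S_XB) (hLIP : S_LIP) (hEOP : S_EOP) (hEXTR : S_EXTR) (hHOM : S_HOM) (hPHI2 : S_PHI2) (hCONST2 : S_CONST2) (hNIL : S_NIL) (hEXT2 : S_EXT2) (hCC2 : S_CC2) (hIND : S_IND) (hFIN : S_FIN) :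
    S_MAIN2 := by
  intro p _ K L B _ _ _ _ _ _ _ _ _ _ σ n g U ρ x φ hval hU iso cont hx1 hx2 hx3 hx4 adm hφ inf
  have : IsUltrametricDist L := IsUltrametricDist.of_normedAlgebra ℚ_[p]
  have : CompleteSpace L := FiniteDimensional.complete ℚ_[p] L
  have hp : p.Prime := Fact.out
  have hp1 : (1 : ℝ) < p := by exact_mod_cast hp.one_lt
  obtain ⟨hnp, ϖ, hϖ0, hϖ1, hϖm, hϖk⟩ := hUNI p L
  have hun : Unif ϖ B := ⟨hϖ0, hϖ1, fun v hv => by
    obtain ⟨c, hc⟩ := hval v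
    rw [hc] at hv ⊢
    exact hϖm c hv⟩
  obtain ⟨F, _, _, _, res, hres1, hres2⟩ := hRES p L
  obtain ⟨V, _, _, R, hR⟩ := hRED L B F res hres1 hres2
  obtain ⟨e, f₀, a, u, τ, kd⟩ := hKD p K L F σ ϖ res hϖ0 hϖ1 hϖk hres2
  have : NeZero e := ⟨kd.he.ne'⟩
  obtain ⟨l₀, hl₀⟩ := hU
  have hr0 := kd.u_pos
  have hr1 := kd.u_lt
  have hre : ∀ l, ‖σ u‖ ^ (e * l) = ((p : ℝ) ^ l)⁻¹ := fun l => by
    rw [pow_mul, kd.norm_p, inv_pow]
  set J₀ := e * l₀ + e + 1 with hJ₀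
  have hJ1 : e + 1 ≤ J₀ := by omega
  have hU' : ∀ h : GL (Fin n) K, Sm σ (‖σ u‖ ^ J₀) (h.val - 1) → h ∈ U := fun h hh =>
    hl₀ h (hh.mono (by rw [← hre]; exact pow_le_pow_of_le_one hr0.le hr1.le (by omega)))
  obtain ⟨Γ, γ, hΓ, hγ⟩ := hGD0 p K L σ ϖ n e f₀ a J₀ u τ U kd (by omega) hU'
  have gd := hGD2 p K L σ ϖ n e f₀ a J₀ u τ U Γ γ kd hJ1 hΓ hγ
  have hΓc : ∀ l, ∀ h ∈ Γ (e * l), Cong σ l h.val := fun l h hh =>
    ((hΓ _ h).1 hh).mono (by rw [← hre]; exact pow_le_pow_of_le_one hr0.le hr1.le (by omega))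
  have rp : Rp Γ ρ x := ⟨iso, fun v ε hε => by
    obtain ⟨l, hl⟩ := cont v ε hε
    exact ⟨e * l, fun h hh => hl h (hΓc l h hh)⟩, hx1, hx2, hx3, hx4⟩
  obtain ⟨hfr, β, ζ, bs, hβ, hζ1, hζ2, hζ3, hconv⟩ := hXB p K L σ ϖ n e f₀ a J₀ u τ U γ kd hJ1 hγ
  obtain ⟨hW1, hW2⟩ := hW p e hp.two_le kd.he
  obtain ⟨w, hw⟩ := hW1 a kd.ha
  have hra : (‖ϖ‖ ^ a) ^ e = (p : ℝ)⁻¹ := by rw [← kd.norm_u, kd.norm_p]
  have hβ0 : 0 < ‖σ β‖ := norm_pos_iff.2 ((map_ne_zero σ).2 hβ)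
  have hcon := fun D => hCONST2 p e a D w ‖ϖ‖ ‖σ β‖ hp.two_le kd.he kd.ha hw hϖ0 hϖ1 hra hβ0
  set lev : Fin n × Fin n × Fin e × Fin f₀ → ℕ := fun i => i.2.2.1.val with hlev
  set b := bG ρ γ x with hb
  have hmix : ∀ Nx, mix (muG g w lev 0) (muG g (fun _ => 0) lev 1) Nx = muG g w lev Nx := by
    intro Nx
    funext i
    rcases i with i | i <;> simp [mix, muG]
  set μ := muG g w lev 1 with hμ
  have hpϖ : ‖(p : L)‖ = ‖ϖ‖ ^ (e * a) := by rw [hnp, mul_comm, pow_mul, hra]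
  have mk : ∀ N Nx, 0 < Nx → (∀ j < e, w j < e * a * N) → ∃ lam, Lam p e (e * a * N) w lam ∧
      FS2 ϖ b (muG g w lev Nx) N (FilG ϖ Γ ρ x lam N Nx) := by
    intro N Nx hNx hN
    obtain ⟨lam, hlam⟩ := hW2 a _ w hw hN
    obtain ⟨h1, h2, h3, h4, h5, h6, h7, h8⟩ := hFS1 p e a L B U _ g Γ γ lev ρ x ϖ w lam N _ Nx
      hp.two_le gd rp hw hlam hN hNx hϖ1
    refine ⟨lam, hlam, hMUL L B _ ϖ b _ N _ ⟨h1, h2, h3, fun ha ha' => h4 _ _ _ _ ha ha', h5,
      fun ha => h6 _ _ ha, fun ha => h7 _ _ ha, h8, ?_, ?_⟩⟩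
    · exact hFS2 p e a L B U _ g Γ γ lev ρ x ϖ w lam N Nx hp gd rp hw hlam hN hNx hϖ0 hϖ1 hpϖ
    · refine hFS3 p e L B U _ g Γ γ lev ρ x ϖ lam N Nx hp kd.he gd rp hlam.mono.monotone hun ?_
      rw [hpϖ]
      exact pow_le_of_le_one hϖ0.le hϖ1.le (Nat.mul_pos kd.he kd.ha).ne'
  obtain ⟨N₀, hN₀⟩ : ∃ N, ∀ j < e, w j < e * a * N := by
    obtain ⟨r₀, -, -, h1⟩ := hcon 0
    obtain ⟨J₁, hJ⟩ := h1 0
    obtain ⟨N, -, -, -, -, -, -, -, -, hN, -⟩ := hJ J₁ le_rfl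
    exact ⟨N, hN⟩
  have hgd : ∀ Nx, 1 ≤ Nx → Good (fun i => R.bar (b i)) (muG g w lev Nx) := by
    intro Nx hNx
    obtain ⟨lam, hlam, fs⟩ := mk N₀ Nx hNx hN₀
    exact (hKILL L B _ F V R ϖ b _ N₀ _ hϖ1 fs).2.2.2
  have hexh : ∀ v, ∃ T, v ∈ Vs (fun i => R.bar (b i)) μ T := by
    intro v
    obtain ⟨lam, hlam, fs⟩ := mk N₀ 1 one_pos hN₀
    obtain ⟨v', hv1, rfl⟩ := R.red_surj v
    obtain ⟨T, hT⟩ := fs.cont v' (1 / 2) (by norm_num)
    refine ⟨T, fun α hα => ?_⟩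
    rw [(hKILL L B _ F V R ϖ b _ N₀ _ hϖ1 fs).1 α v' hv1,
      R.red_zero _ ((fs.norm (fs.mono_mem α) v').trans hv1)]
    exact (hT _ (fs.anti hα (fs.mono_mem α))).trans_lt (by norm_num)
  have hfin1 : Module.Finite F (Vs (fun i => R.bar (b i)) μ 1) := by
    obtain ⟨lam, hlam, fs⟩ := mk N₀ 1 one_pos hN₀
    obtain ⟨-, -, k3, -⟩ := hKILL L B _ F V R ϖ b _ N₀ _ hϖ1 fs
    obtain ⟨m₀, hm₀⟩ := adm J₀
    refine main_fd _ m₀ fun m v hv hli => ?_
    choose v' hv1 hv2 using fun i => R.red_surj (v i)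
    refine hm₀ m v' (fun i => ⟨hv1 i, fun j => ?_, fun h hh => ?_⟩) ?_
    · exact k3 1 _ (fs.gen (Sum.inr j)) _ (hv1 i) (by rw [hv2]; exact hv i)
    · have h0 : h ∈ Γ 0 := (hΓ 0 h).2 (Sm.mono hh (by
        rw [← hre]
        exact pow_le_pow_of_le_one hr0.le hr1.le (by
          have := Nat.le_mul_of_pos_left J₀ kd.he
          omega)))
      exact k3 1 _ (fs.anti hlam.pos (rho_mem ϖ ρ x lam N₀ 1 h0)) _ (hv1 i)
        (by rw [hv2]; exact hv i)
    · exact (hORT L B F V R m v' hv1).2 (by simpa only [hv2] using hli)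
  obtain ⟨D, hD⟩ := hEXT2 _ F V (fun i => R.bar (b i)) (muG g w lev 0) (muG g (fun _ => 0) lev 1)
    (fun Nx hNx => by rw [hmix]; exact hgd Nx hNx) (by rw [hmix]; exact hexh)
    (by rw [hmix]; exact hfin1)
  obtain ⟨r₀, hr₀, hr₁, hcon'⟩ := hcon D
  choose Cf hCf using fun k => hφ k r₀ hr₀ hr₁
  obtain ⟨J₁, hJ⟩ := hcon' (∑ k ∈ Finset.range (n + 1), |Cf k|)
  have hu0 : σ u ≠ 0 := norm_pos_iff.1 hr0
  have hαn : ‖σ (u ^ e / p)‖ = 1 := by
    rw [map_div₀, map_pow, map_natCast, norm_div, norm_pow, kd.norm_p, hnp]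
    exact div_self (by positivity)
  set α : Ob L := ⟨σ (u ^ e / p), hαn.le⟩ with hα
  set ζ' : Fin n → Fin n → Fin e → Fin f₀ → Ob L := fun c d j t => ⟨σ (ζ c d j t), hζ1 c d j t⟩
    with hζ'
  have frob : ∀ (z : K) (hz : ‖σ z‖ ≤ 1), R.res ⟨σ z, hz⟩ ^ p ^ f₀ = R.res ⟨σ z, hz⟩ := by
    intro z hz
    rw [← map_pow, ← sub_eq_zero, ← map_sub, R.res_zero]
    simpa using kd.frob z hz
  obtain ⟨hcomm, hfin⟩ := hFIN p e L B U _ F V R g Γ γ lev ρ x μ gd rp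
  obtain ⟨C₁, hC₁⟩ := hCC2 p n e f₀ g F V kd.hf (fun i => R.bar (b i)) μ (hgd 1 le_rfl) hfin1 hcomm
    (fun c d j t => R.res (ζ' c d j t)) (R.res α) J₁ (fun c d j t => frob _ _)
    (fun c d j k hk => hζ3 c d j k (by
      have h1 : R.res (∑ t, (k t : Ob L) * ζ' c d j t) = 0 := by simpa using hk
      rw [R.res_zero] at h1
      simpa [hζ'] using h1))
    (fun h0 => by
      rw [R.res_zero] at h0
      exact absurd hαn h0.ne) (frob _ _) (by
    intro J hJJ k hk1 hk2 i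
    obtain ⟨N, Nx, θ, c1, c2, c3, c4, c0, c5, c6, c9, c7, c8⟩ := hJ J hJJ
    have hNx : 0 < Nx := by omega
    obtain ⟨lam, hlam, fs⟩ := mk N Nx hNx c6
    have hD' := hD Nx c0
    rw [hmix] at hD'
    have hN0 : 0 < N := by omega
    have hθp : θ ^ (e * a * N) = (p : ℝ)⁻¹ := by
      rw [mul_comm, pow_mul, c4, mul_comm, pow_mul, hra]
    have hlip : ∀ v M, Bd (FilG ϖ Γ ρ x lam N Nx) θ v M → Lip σ ρ v ∧ An σ ρ x v :=
      fun v M hv => hLIP p K L B σ n g e _ J₀ U ρ x Γ w lam _ ‖σ u‖ θ M v hr0 hr1 kd.he kd.norm_p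
        c2 c3 hθp (by omega) hU' hΓ hlam fs.anti fs.one (fun _ _ _ _ => fs.mul)
        (fun J h hh => rho_mem ϖ ρ x lam N Nx hh) (fun j => fs.anti hNx (fs.gen (Sum.inr j))) hv
    have hκ : ‖σ β * (σ u ^ J)⁻¹‖ = ‖σ β‖ * ((‖ϖ‖ ^ a) ^ J)⁻¹ := by
      rw [norm_mul, norm_inv, norm_pow, kd.norm_u]
    have hex := hEXTR L B _ F V R ϖ b (muG g w lev Nx) N n (w J) a k _ θ (‖σ β * (σ u ^ J)⁻¹‖ * θ ^ w J)
      (σ β * (σ u ^ J)⁻¹) (σ β * (σ u ^ (J + 1))⁻¹) (Ym p ζ' α J) (Ym p ζ' α (J + 1)) (Eop σ ρ)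
      fs (hLIFT L B _ F V R ϖ b _ N _ _ hun fs hD' c5) c2 c3 c4 hN0 kd.ha
      (main_hom p hw Nx ζ' α J) (by rw [← c1]; exact main_hom p hw Nx ζ' α (J + 1)) rfl
      (by
        have h1 : θ ^ (a * N) = ‖σ u‖ := by rw [mul_comm, pow_mul, c4, kd.norm_u]
        simp only [norm_mul, norm_inv, norm_pow]
        rw [pow_add θ, h1, pow_succ]
        field_simp)
      (by rw [hκ]; exact c7)
      (fun c d v M hv => hEOP p K L B σ n g e f₀ a N J U ρ x γ ϖ _ _ w θ M (σ u) (σ β) ζ' α bs v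
        fs.toFS (fun _ => rfl) hw c2 c3 c4 kd.norm_u kd.norm_p c1 (by simp [hα])
        (fun c d j t => by rw [hζ2]; simp [hζ']) hconv iso hv (hlip v M hv).1 c d)
      (fun v M hM hv => by
        have h1 := hPHI2 L B g Nx x _ θ M (Cf k) r₀ (φ k) v _ c2 c9
          fs.one (fun _ _ _ _ => fs.mul) (fun j => fs.gen (Sum.inr j)) hv (hCf k)
          (inf k hk1 hk2 v (hlip v M hv).2)
        refine h1.trans_lt (mul_lt_mul_of_pos_right ?_ hM)
        rw [hκ]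
        refine lt_of_le_of_lt ((le_abs_self _).trans ?_) (c8 k hk1)
        exact Finset.single_le_sum (f := fun k => |Cf k|) (fun _ _ => abs_nonneg _)
          (Finset.mem_range.2 (by omega))) i
    have hnat : (Ek (pen (Ym p (g := g) (fun c d j t => R.res (ζ' c d j t)) (R.res α) J)
        (Ym p (fun c d j t => R.res (ζ' c d j t)) (R.res α) (J + 1))) k).coeff i =
        MvPolynomial.map R.res ((Ek (pen (Ym p ζ' α J) (Ym p ζ' α (J + 1))) k).coeff i) := by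
      rw [← main_ym, ← main_ym, ← main_pen, hNIL.2]
      simp
    refine ⟨k * w J + i * (a * N), ((hHOM _ F n (w J) (a * N) μ _ _ (main_hom p hw 1 _ _ J)
      (by rw [← c1]; exact main_hom p hw 1 _ _ (J + 1))).2 k i).1, fun v hv hv' => ?_⟩
    rw [hnat]
    exact hex.2 v (hIND _ F V g _ μ _ _ v hcomm (fun _ => rfl) hv' hv))
  refine ⟨C₁ * (∑ i, μ i + 2) ^ (e * f₀ * n.choose 2), fun l m v hv ho => ?_⟩
  have h1 := hC₁ (p ^ l * ∑ i, μ i + 1) m (fun i => R.red (v i))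
    ((hORT L B F V R m v fun i => (hv i).1).1 ho)
    fun i => hfin l (v i) (hv i).1 (hv i).2.1 fun h hh => (hv i).2.2 h (hΓc l h hh)
  refine h1.trans ?_
  rw [hfr, mul_assoc C₁, mul_comm _ l, pow_mul p l, ← mul_pow]
  refine Nat.mul_le_mul_left _ (Nat.pow_le_pow_left ?_ _)
  have : 1 ≤ p ^ l := Nat.one_le_pow _ _ hp.pos
  nlinarith

end Pool.Agent.P.MP_7cb106_nt.GK
end

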