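import Pool.Agent.P.MP_7cb106_nt.GK.All
import Pool.Agent.P.MP_7cb106_nt.GK.BunX1
import Pool.Agent.P.MP_7cb106_nt.GK.BunX2

/-! The steps without growth hypothesis assembled. -/

set_option autoImplicit false

namespace Pool.Agent.P.MP_7cb106_nt.GK

theorem all_ULG : S_ULG := p_ULG
theorem all_LEX : S_LEX := p_LEX
theorem all_KEY : S_KEY := p_KEY
theorem all_EXT2 : S_EXT2 := p_EXT2 all_ULG all_LEX all_KEY
theorem all_IND : S_IND := p_IND
theorem all_CC2 : S_CC2 := p_CC2 all_GER all_NIL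
theorem all_PHI2 : S_PHI2 := p_PHI2
theorem all_CONST2 : S_CONST2 := p_CONST2 all_CONST
theorem all_MAIN2 : S_MAIN2 := p_MAIN2 all_UNI all_RES all_RED all_ORT all_MUL all_KILL all_LIFT all_W all_FS1 all_FS2 all_FS3 all_KD all_GD0 all_GD2 all_XB all_LIP all_EOP all_EXTR all_HOM all_PHI2 all_CONST2 all_NIL all_EXT2 all_CC2 all_IND all_FIN

end Pool.Agent.P.MP_7cb106_nt.GK
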