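import Mathlib

/-! Definitions used in the statement of the Gelfand-Kirillov bound. -/

set_option autoImplicit false

namespace Pool.Agent.P.MP_7cb106_nt.GK

open Filter

variable {p : ℕ} [Fact p.Prime] {K L B : Type} [Field K] [Algebra ℚ_[p] K] [NormedField L]
  [NormedAlgebra ℚ_[p] L] [NormedAddCommGroup B] [NormedSpace L B] {n g : ℕ}
  {U : Subgroup (GL (Fin n) K)}

/-- `h ≡ 1 mod p ^ l`, the absolute value of `K` being read through `σ` -/
def Cong (σ : K →ₐ[ℚ_[p]] L) (l : ℕ) (h : GL (Fin n) K) : Prop :=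
  ∀ i j, ‖σ ((h.val - 1) i j)‖ ≤ ((p : ℝ) ^ l)⁻¹

/-- vectors of the unit ball whose class modulo the open unit ball is killed by the `x j` and
fixed by the elements of `U` congruent to `1 mod p ^ l` -/
def Fix (σ : K →ₐ[ℚ_[p]] L) (ρ : U →* Module.End L B) (x : Fin g → Module.End L B) (l : ℕ)
    (v : B) : Prop :=
  ‖v‖ ≤ 1 ∧ (∀ j, ‖x j v‖ < 1) ∧ ∀ h : U, Cong σ l h.val → ‖ρ h v - v‖ < 1

/-- for vectors of the unit ball: linear independence modulo the open unit ball -/
def Orth (L : Type) [NormedField L] [NormedSpace L B] {m : ℕ} (v : Fin m → B) : Prop :=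
  ∀ (c : Fin m → L) (i : Fin m), ‖c i‖ ≤ ‖∑ j, c j • v j‖

/-- locally analytic vectors: geometric decay under products of the `ρ h - 1` and the `x j` -/
def An (σ : K →ₐ[ℚ_[p]] L) (ρ : U →* Module.End L B) (x : Fin g → Module.End L B) (v : B) :
    Prop :=
  ∃ (l : ℕ) (C r : ℝ), 0 < r ∧ r < 1 ∧ ∀ w : List (Module.End L B),
    (∀ a ∈ w, (∃ h : U, Cong σ l h.val ∧ a = ρ h - 1) ∨ ∃ j, a = x j) →
      ‖w.prod v‖ ≤ C * r ^ w.length

/-- the element of `U` with a given matrix -/
noncomputable def el (U : Subgroup (GL (Fin n) K)) (M : Matrix (Fin n) (Fin n) K) : U :=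
  Classical.epsilon fun h : U => h.val.val = M

/-- derivative of `v` in the direction `X` -/
noncomputable def dX (p : ℕ) (ρ : U →* Module.End L B) (X : Matrix (Fin n) (Fin n) K) (v : B) :
    B :=
  limUnder atTop fun m : ℕ => ((p : L) ^ m)⁻¹ • (ρ (el U (1 + (p : K) ^ m • X)) v - v)

/-- the generator `E a b` of the `σ`-component of the Lie algebra -/
noncomputable def Eop [FiniteDimensional ℚ_[p] K] (σ : K →ₐ[ℚ_[p]] L) (ρ : U →* Module.End L B)
    (a b : Fin n) (v : B) : B :=
  ∑ k, σ ((Module.finBasis ℚ_[p] K).traceDual k) •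
    dX p ρ (Matrix.single a b (Module.finBasis ℚ_[p] K k)) v

/-- the coefficient of `u ^ (n - k)` in the Capelli determinant -/
noncomputable def Cap (E : Fin n → Fin n → B → B) (k : ℕ) (v : B) : B :=
  ∑ S ∈ Finset.powersetCard k (Finset.univ : Finset (Fin n)),
    ∑ s ∈ Finset.univ.filter (fun s : Equiv.Perm (Fin n) => ∀ j ∉ S, s j = j),
      (Equiv.Perm.sign s : ℤ) • (S.sort (· ≤ ·)).foldr
        (fun j w => E (s j) j w - if s j = j then (j : ℕ) • w else 0) v

/-- the monomial `x ^ β` -/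
def xp (x : Fin g → Module.End L B) (β : Fin g → ℕ) : Module.End L B :=
  (List.ofFn fun j => x j ^ β j).prod

end Pool.Agent.P.MP_7cb106_nt.GK
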