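import Pool.Agent.P.MP_7cb106_nt.GK.IfaceC
import Pool.Agent.P.MP_7cb106_nt.GK.BaseD

/-! Filtered algebras of operators on a Banach space. -/

set_option autoImplicit false

namespace Pool.Agent.P.MP_7cb106_nt.GK

/-- the ring of integers -/
def Ob (L : Type) [NormedField L] [IsUltrametricDist L] : Subring L where
  carrier := {c | ‖c‖ ≤ 1}
  mul_mem' := fun {a b} ha hb => by
    have ha' : ‖a‖ ≤ 1 := ha
    have hb' : ‖b‖ ≤ 1 := hb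
    change ‖a * b‖ ≤ 1
    rw [norm_mul]
    exact mul_le_one₀ ha' (norm_nonneg _) hb'
  one_mem' := by simp
  add_mem' := fun {a b} ha hb => (IsUltrametricDist.norm_add_le_max a b).trans (max_le ha hb)
  zero_mem' := by simp
  neg_mem' := fun {a} ha => by simpa using ha

theorem mem_Ob {L : Type} [NormedField L] [IsUltrametricDist L] {c : L} :
    c ∈ Ob L ↔ ‖c‖ ≤ 1 := Iff.rfl

theorem Ob.norm_le {L : Type} [NormedField L] [IsUltrametricDist L] (c : Ob L) :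
    ‖(c : L)‖ ≤ 1 := c.2

/-- reduction of the unit balls of `L` and `B` modulo the open unit balls -/
structure Red (L B F V : Type) [NormedField L] [IsUltrametricDist L] [NormedAddCommGroup B]
    [NormedSpace L B] [Field F] [AddCommGroup V] [Module F V] where
  res : Ob L →+* F
  res_surj : Function.Surjective res
  res_zero : ∀ c : Ob L, res c = 0 ↔ ‖(c : L)‖ < 1
  red : B → V
  red_add : ∀ v w, ‖v‖ ≤ 1 → ‖w‖ ≤ 1 → red (v + w) = red v + red w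
  red_smul : ∀ (c : Ob L) (v : B), ‖v‖ ≤ 1 → red ((c : L) • v) = res c • red v
  red_zero : ∀ v, ‖v‖ ≤ 1 → (red v = 0 ↔ ‖v‖ < 1)
  red_surj : ∀ u, ∃ v, ‖v‖ ≤ 1 ∧ red v = u
  bar : Module.End L B → Module.End F V
  bar_red : ∀ a : Module.End L B, (∀ v, ‖a v‖ ≤ ‖v‖) → ∀ v, ‖v‖ ≤ 1 → bar a (red v) = red (a v)

/-- a uniformiser for the norm of `B` -/
structure Unif {L : Type} [NormedField L] (ϖ : L) (B : Type) [NormedAddCommGroup B] : Prop where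
  pos : 0 < ‖ϖ‖
  lt : ‖ϖ‖ < 1
  le : ∀ v : B, ‖v‖ < 1 → ‖v‖ ≤ ‖ϖ‖

section
variable {L B ι : Type} [NormedField L] [IsUltrametricDist L] [NormedAddCommGroup B]
  [NormedSpace L B]

/-- a weight filtration: `ϖ` has weight `N`, `b i` has weight `μ i` -/
structure FS (ϖ : L) (b : ι → Module.End L B) (μ : ι → ℕ) (N : ℕ)
    (Fil : ℕ → Submodule (Ob L) (Module.End L B)) : Prop where
  pos : ∀ i, 0 < μ i
  anti : Antitone Fil
  one : 1 ∈ Fil 0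
  mul : ∀ {t u : ℕ} {a a' : Module.End L B}, a ∈ Fil t → a' ∈ Fil u → a * a' ∈ Fil (t + u)
  gen : ∀ i, b i ∈ Fil (μ i)
  pi : ∀ {t : ℕ} {a : Module.End L B}, a ∈ Fil t → ϖ • a ∈ Fil (t + N)
  norm : ∀ {t : ℕ} {a : Module.End L B}, a ∈ Fil t → ∀ v, ‖a v‖ ≤ ‖v‖
  perm : ∀ i j, b i * b j - b j * b i ∈ Fil (μ i + μ j + 1)
  span : ∀ t, Fil t ≤ Submodule.span (Ob L) {a | ∃ (k : ℕ) (w : List ι),
    t ≤ k * N + (w.map μ).sum ∧ a = ϖ ^ k • (w.map b).prod} ⊔ Fil (t + 1)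
  cont : ∀ (v : B) (ε : ℝ), 0 < ε → ∃ T, ∀ a ∈ Fil T, ‖a v‖ ≤ ε

/-- consequences for ordered monomials -/
structure FS2 [Fintype ι] (ϖ : L) (b : ι → Module.End L B) (μ : ι → ℕ) (N : ℕ)
    (Fil : ℕ → Submodule (Ob L) (Module.End L B)) : Prop extends FS ϖ b μ N Fil where
  mono_mem : ∀ α, mono b α ∈ Fil (wt μ α)
  mono_mul : ∀ α α', mono b α * mono b α' - mono b (α + α') ∈ Fil (wt μ α + wt μ α' + 1)
  span_mono : ∀ t T, Fil t ≤ Submodule.span (Ob L) {a | ∃ (k : ℕ) (α : ι →₀ ℕ),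
    t ≤ k * N + wt μ α ∧ a = ϖ ^ k • mono b α} ⊔ Fil T

/-- geometric decay along the filtration -/
def Bd (Fil : ℕ → Submodule (Ob L) (Module.End L B)) (θ : ℝ) (v : B) (M : ℝ) : Prop :=
  ∀ t, ∀ a ∈ Fil t, ‖a v‖ ≤ M * θ ^ t

/-- the conclusion of the lifting lemma -/
def Lift [Fintype ι] {F V : Type} [Field F] [AddCommGroup V] [Module F V] (R : Red L B F V)
    (ϖ : L) (b : ι → Module.End L B) (μ : ι → ℕ) (N : ℕ)
    (Fil : ℕ → Submodule (Ob L) (Module.End L B)) : Prop :=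
  ∀ (s : ℕ) (u : V), u ∈ Vs (fun i => R.bar (b i)) μ (s + 1) → ∃ v : B, ‖v‖ ≤ 1 ∧ R.red v = u ∧
    (∀ k, ∀ a ∈ Fil (s + k * N + 1), ‖a v‖ ≤ ‖ϖ‖ ^ (k + 1)) ∧
    ∀ k, 1 ≤ k → ∀ α, s + k * N ≤ wt μ α → ‖mono b α v‖ ≤ ‖ϖ‖ ^ (k + 1)

end

/-- the conclusion of `S_EXT` -/
def Ext {ι F V : Type} [Fintype ι] [Field F] [AddCommGroup V] [Module F V]
    (β : ι → Module.End F V) (μ : ι → ℕ) (D : ℕ) : Prop :=
  ∀ (t : ℕ) (Ψ : (ι →₀ ℕ) → V), (∀ α, wt μ α = t → Ψ α ∈ Vs β μ 1) →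
    (∀ (γ : ι →₀ ℕ) (t' : ℕ), t' ≤ D → wt μ γ + t' = t → ∃ w ∈ Vs β μ (t' + 1),
      ∀ α, wt μ α = t' → Ψ (α + γ) = mono β α w) →
    ∃ u ∈ Vs β μ (t + 1), ∀ α, wt μ α = t → mono β α u = Ψ α

/-- strictly convex weights -/
structure Wt (p e a : ℕ) (w : ℕ → ℕ) : Prop where
  pos : 0 < w 0
  per : ∀ J, w (J + e) = p * w J
  dvd : ∀ J, a ∣ w J
  lt : ∀ J, w J < w (J + 1)
  conv : ∀ J, 2 * w (J + 1) < w J + w (J + 2)

/-- weights of the letters of level `J` when `p` has weight `N'` -/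
structure Lam (p e N' : ℕ) (w lam : ℕ → ℕ) : Prop where
  pos : 0 < lam 0
  win : ∀ j < e, lam j = w j
  step : ∀ J, lam (J + e) = min (p * lam J) (lam J + N')
  mono : StrictMono lam
  low : ∃ c, ∀ J, N' * (J / e) ≤ lam J + c

/-- a filtered group with generators -/
structure GD (p e : ℕ) {G ι : Type} [Group G] (Γ : ℕ → Subgroup G) (γ : ι → G) (lev : ι → ℕ) :
    Prop where
  anti : Antitone Γ
  lev_lt : ∀ i, lev i < e
  mem : ∀ i, γ i ∈ Γ (lev i)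
  conj : ∀ J, ∀ h ∈ Γ J, ∀ u ∈ Γ 0, u * h * u⁻¹ ∈ Γ J
  comm : ∀ J J', ∀ h ∈ Γ J, ∀ h' ∈ Γ J', h * h' * h⁻¹ * h'⁻¹ ∈ Γ (J + J' + e + 1)
  pow : ∀ J, ∀ h ∈ Γ J, h ^ p ∈ Γ (J + e)
  gen : ∀ J, ∀ h ∈ Γ J, h ∈ Submonoid.closure
    ((Γ (J + 1) : Set G) ∪ {h | ∃ i m, lev i + e * m = J ∧ h = γ i ^ p ^ m})

section
variable {L B G : Type} [NormedField L] [IsUltrametricDist L] [NormedAddCommGroup B]
  [NormedSpace L B] [Group G] {g : ℕ}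

/-- the hypotheses on the representation -/
structure Rp (Γ : ℕ → Subgroup G) (ρ : G →* Module.End L B) (x : Fin g → Module.End L B) :
    Prop where
  iso : ∀ h v, ‖ρ h v‖ = ‖v‖
  cont : ∀ (v : B) (ε : ℝ), 0 < ε → ∃ J, ∀ h ∈ Γ J, ‖ρ h v - v‖ ≤ ε
  x_le : ∀ j v, ‖x j v‖ ≤ ‖v‖
  x_nil : ∀ j v, Filter.Tendsto (fun m : ℕ => (x j ^ m) v) Filter.atTop (nhds 0)
  x_x : ∀ i j, Commute (x i) (x j)
  x_rho : ∀ j h, Commute (x j) (ρ h)

/-- letters with their weights -/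
def Let (ϖ : L) (Γ : ℕ → Subgroup G) (ρ : G →* Module.End L B) (x : Fin g → Module.End L B)
    (lam : ℕ → ℕ) (N Nx : ℕ) (y : Module.End L B × ℕ) : Prop :=
  y = (ϖ • 1, N) ∨ (∃ j, y = (x j, Nx)) ∨ ∃ J, ∃ h ∈ Γ J, y = (ρ h - 1, lam J)

/-- span of the words of weight at least `t` -/
def FilG (ϖ : L) (Γ : ℕ → Subgroup G) (ρ : G →* Module.End L B) (x : Fin g → Module.End L B)
    (lam : ℕ → ℕ) (N Nx : ℕ) (t : ℕ) : Submodule (Ob L) (Module.End L B) :=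
  Submodule.span (Ob L) {a | ∃ w : List (Module.End L B × ℕ),
    (∀ y ∈ w, Let ϖ Γ ρ x lam N Nx y) ∧ t ≤ (w.map Prod.snd).sum ∧ a = (w.map Prod.fst).prod}

theorem Let.mem {ϖ : L} {Γ : ℕ → Subgroup G} {ρ : G →* Module.End L B}
    {x : Fin g → Module.End L B} {lam : ℕ → ℕ} {N Nx : ℕ} {y : Module.End L B × ℕ}
    (h : Let ϖ Γ ρ x lam N Nx y) : y.1 ∈ FilG ϖ Γ ρ x lam N Nx y.2 :=
  Submodule.subset_span ⟨[y], by simpa using h, by simp, by simp⟩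

theorem rho_mem (ϖ : L) {Γ : ℕ → Subgroup G} (ρ : G →* Module.End L B)
    (x : Fin g → Module.End L B) (lam : ℕ → ℕ) (N Nx : ℕ) {J : ℕ} {h : G} (hh : h ∈ Γ J) :
    ρ h - 1 ∈ FilG ϖ Γ ρ x lam N Nx (lam J) :=
  Let.mem (y := (ρ h - 1, lam J)) (Or.inr (Or.inr ⟨J, h, hh, rfl⟩))

/-- the generators -/
def bG {ι : Type} (ρ : G →* Module.End L B) (γ : ι → G) (x : Fin g → Module.End L B) :
    ι ⊕ Fin g → Module.End L B := Sum.elim (fun i => ρ (γ i) - 1) x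

/-- their weights -/
def muG {ι : Type} (g : ℕ) (w : ℕ → ℕ) (lev : ι → ℕ) (Nx : ℕ) : ι ⊕ Fin g → ℕ :=
  Sum.elim (fun i => w (lev i)) fun _ => Nx

end

end Pool.Agent.P.MP_7cb106_nt.GK
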