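import Pool.Agent.P.MP_7cb106_nt.GK.IfaceA

/-! The field `K`, small matrices, Lipschitz vectors. -/

set_option autoImplicit false

namespace Pool.Agent.P.MP_7cb106_nt.GK

variable {p : ℕ} [Fact p.Prime] {K L B : Type} [Field K] [Algebra ℚ_[p] K] [NormedField L]
  [NormedAlgebra ℚ_[p] L] [NormedAddCommGroup B] [NormedSpace L B] {n : ℕ}

/-- all entries have absolute value at most `c` -/
def Sm (σ : K →ₐ[ℚ_[p]] L) (c : ℝ) (X : Mat n K) : Prop := ∀ i j, ‖σ (X i j)‖ ≤ c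

theorem cong_iff (σ : K →ₐ[ℚ_[p]] L) (l : ℕ) (h : GL (Fin n) K) :
    Cong σ l h ↔ Sm σ ((p : ℝ) ^ l)⁻¹ (h.val - 1) := Iff.rfl

theorem Sm.mono {σ : K →ₐ[ℚ_[p]] L} {c c' : ℝ} {X : Mat n K} (h : Sm σ c X) (hc : c ≤ c') :
    Sm σ c' X := fun i j => (h i j).trans hc

theorem Sm.neg {σ : K →ₐ[ℚ_[p]] L} {c : ℝ} {X : Mat n K} (h : Sm σ c X) : Sm σ c (-X) :=
  fun i j => by simpa using h i j

theorem Sm.add [IsUltrametricDist L] {σ : K →ₐ[ℚ_[p]] L} {c : ℝ} {X Y : Mat n K} (h : Sm σ c X)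
    (h' : Sm σ c Y) : Sm σ c (X + Y) := fun i j => by
  rw [Matrix.add_apply, map_add]
  exact (IsUltrametricDist.norm_add_le_max _ _).trans (max_le (h i j) (h' i j))

theorem Sm.sub [IsUltrametricDist L] {σ : K →ₐ[ℚ_[p]] L} {c : ℝ} {X Y : Mat n K} (h : Sm σ c X)
    (h' : Sm σ c Y) : Sm σ c (X - Y) := by
  rw [sub_eq_add_neg]
  exact h.add h'.neg

theorem Sm.mul [IsUltrametricDist L] {σ : K →ₐ[ℚ_[p]] L} {c c' : ℝ} {X Y : Mat n K}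
    (h : Sm σ c X) (h' : Sm σ c' Y) (hc : 0 ≤ c) (hc' : 0 ≤ c') : Sm σ (c * c') (X * Y) :=
  fun i j => by
  rw [Matrix.mul_apply, map_sum]
  refine IsUltrametricDist.norm_sum_le_of_forall_le_of_nonneg (mul_nonneg hc hc') fun k _ => ?_
  rw [map_mul, norm_mul]
  exact mul_le_mul (h i k) (h' k j) (norm_nonneg _) hc

theorem Sm.smul {σ : K →ₐ[ℚ_[p]] L} {c : ℝ} {X : Mat n K} (h : Sm σ c X) (z : K) :
    Sm σ (‖σ z‖ * c) (z • X) := fun i j => by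
  rw [Matrix.smul_apply, smul_eq_mul, map_mul, norm_mul]
  exact mul_le_mul_of_nonneg_left (h i j) (norm_nonneg _)

theorem sm_one (σ : K →ₐ[ℚ_[p]] L) : Sm σ 1 (1 : Mat n K) := fun i j => by
  rw [Matrix.one_apply]
  split_ifs <;> simp

theorem el_val (U : Subgroup (GL (Fin n) K)) {M : Mat n K} (h : ∃ h : U, h.val.val = M) :
    (el U M).val.val = M := Classical.epsilon_spec h

theorem el_self {U : Subgroup (GL (Fin n) K)} (h : U) : el U h.val.val = h :=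
  Subtype.ext (Units.ext (el_val U ⟨h, rfl⟩))

/-- uniformiser `u`, ramification index `e`, lifts `τ` of a basis of the residue field -/
structure KD (σ : K →ₐ[ℚ_[p]] L) (ϖ : L) (e f₀ a : ℕ) (u : K) (τ : Fin f₀ → K) : Prop where
  he : 0 < e
  hf : 0 < f₀
  ha : 0 < a
  norm_u : ‖σ u‖ = ‖ϖ‖ ^ a
  norm_p : ‖σ u‖ ^ e = (p : ℝ)⁻¹
  max : ∀ z, ‖σ z‖ < 1 → ‖σ z‖ ≤ ‖σ u‖
  tau_le : ∀ t, ‖σ (τ t)‖ ≤ 1
  span : ∀ z, ‖σ z‖ ≤ 1 → ∃ c : Fin f₀ → ℕ, ‖σ (z - ∑ t, (c t : K) * τ t)‖ < 1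
  indep : ∀ c : Fin f₀ → ℕ, ‖σ (∑ t, (c t : K) * τ t)‖ < 1 → ∀ t, p ∣ c t
  frob : ∀ z, ‖σ z‖ ≤ 1 → ‖σ (z ^ p ^ f₀ - z)‖ < 1

theorem KD.u_lt {σ : K →ₐ[ℚ_[p]] L} {ϖ : L} {e f₀ a : ℕ} {u : K} {τ : Fin f₀ → K}
    (h : KD σ ϖ e f₀ a u τ) : ‖σ u‖ < 1 := by
  have hp : (1 : ℝ) < p := by exact_mod_cast (Fact.out : p.Prime).one_lt
  by_contra hc
  have h1 : (1 : ℝ) ≤ ‖σ u‖ ^ e := one_le_pow₀ (not_lt.1 hc)
  rw [h.norm_p] at h1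
  exact absurd (inv_lt_one_of_one_lt₀ hp) (not_lt.2 h1)

theorem KD.u_pos {σ : K →ₐ[ℚ_[p]] L} {ϖ : L} {e f₀ a : ℕ} {u : K} {τ : Fin f₀ → K}
    (h : KD σ ϖ e f₀ a u τ) : 0 < ‖σ u‖ := by
  have hp : (0 : ℝ) < p := by exact_mod_cast (Fact.out : p.Prime).pos
  rcases (norm_nonneg (σ u)).lt_or_eq with h0 | h0
  · exact h0
  · have h1 := h.norm_p
    rw [← h0, zero_pow h.he.ne'] at h1
    exact absurd h1 (inv_pos.2 hp).ne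

theorem norm_p_eq (p : ℕ) [Fact p.Prime] (L : Type) [NormedField L] [NormedAlgebra ℚ_[p] L] :
    ‖(p : L)‖ = (p : ℝ)⁻¹ := by
  rw [← map_natCast (algebraMap ℚ_[p] L), norm_algebraMap', Padic.norm_p]

/-- first and second order estimates for the orbit map of `v` -/
def Lip {U : Subgroup (GL (Fin n) K)} (σ : K →ₐ[ℚ_[p]] L) (ρ : U →* Module.End L B) (v : B) :
    Prop :=
  ∃ A c₀ : ℝ, 0 < c₀ ∧ c₀ < 1 ∧ (∀ h : GL (Fin n) K, Sm σ c₀ (h.val - 1) → h ∈ U) ∧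
    ∀ c, 0 < c → c ≤ c₀ → ∀ h h' : U, Sm σ c (h.val.val - 1) → Sm σ c (h'.val.val - 1) →
      ‖ρ h v - v‖ ≤ A * c ∧ ‖ρ h (ρ h' v - v) - (ρ h' v - v)‖ ≤ A * c ^ 2

end Pool.Agent.P.MP_7cb106_nt.GK
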