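import Pool.Agent.P.MP_7cb106_nt.GK.IfaceG

/-! Ordered monomials, weight filtration, principal minors. -/

set_option autoImplicit false

namespace Pool.Agent.P.MP_7cb106_nt.GK

open Matrix

/-- ordered monomial in the elements `b i` (some fixed order of `ι`) -/
noncomputable def mono {ι A : Type} [Fintype ι] [Monoid A] (b : ι → A) (α : ι →₀ ℕ) : A :=
  (Finset.univ.toList.map fun i => b i ^ α i).prod

@[simp] theorem mono_zero {ι A : Type} [Fintype ι] [Monoid A] (b : ι → A) : mono b 0 = 1 := by
  simp [mono]

theorem mono_single {ι A : Type} [Fintype ι] [Monoid A] (b : ι → A) (i : ι) (k : ℕ) :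
    mono b (Finsupp.single i k) = b i ^ k := by
  classical
  have key : ∀ l : List ι, l.Nodup →
      (l.map fun j => b j ^ (Finsupp.single i k) j).prod = if i ∈ l then b i ^ k else 1 := by
    intro l
    induction l with
    | nil => simp
    | cons a l ih =>
      intro hl
      rw [List.nodup_cons] at hl
      rw [List.map_cons, List.prod_cons, ih hl.2]
      by_cases h : i = a
      · subst h
        simp [hl.1]
      · have h' : (Finsupp.single i k) a = 0 := Finsupp.single_eq_of_ne (Ne.symm h)
        simp [h', h]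
  rw [mono, key _ (Finset.nodup_toList _)]
  simp

theorem map_mono {ι A A' : Type} [Fintype ι] [Monoid A] [Monoid A'] (φ : A →* A') (b : ι → A)
    (α : ι →₀ ℕ) : φ (mono b α) = mono (fun i => φ (b i)) α := by
  simp [mono, map_list_prod, Function.comp_def]

/-- the linear map sending the monomial `X ^ α` to the ordered monomial -/
noncomputable def ev {ι A : Type} (R : Type) [Fintype ι] [CommRing R] [Ring A] [Algebra R A]
    (b : ι → A) : MvPolynomial ι R →ₗ[R] A :=
  (MvPolynomial.basisMonomials ι R).constr R (mono b)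

theorem ev_monomial {ι A : Type} (R : Type) [Fintype ι] [CommRing R] [Ring A] [Algebra R A]
    (b : ι → A) (α : ι →₀ ℕ) (c : R) : ev R b (MvPolynomial.monomial α c) = c • mono b α := by
  have h : MvPolynomial.monomial α c = c • MvPolynomial.basisMonomials ι R α := by
    simp [MvPolynomial.smul_monomial]
  rw [h, map_smul, ev, Module.Basis.constr_basis]

theorem ev_eq_sum {ι A : Type} (R : Type) [Fintype ι] [CommRing R] [Ring A] [Algebra R A]
    (b : ι → A) (P : MvPolynomial ι R) :
    ev R b P = ∑ α ∈ P.support, P.coeff α • mono b α := by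
  conv_lhs => rw [P.as_sum, map_sum]
  simp only [ev_monomial]

/-- weight of a monomial -/
noncomputable abbrev wt {ι : Type} (μ : ι → ℕ) (α : ι →₀ ℕ) : ℕ := Finsupp.weight μ α

/-- vectors killed by all ordered monomials of weight at least `s` -/
def Vs {ι F V : Type} [Fintype ι] [Field F] [AddCommGroup V] [Module F V]
    (β : ι → Module.End F V) (μ : ι → ℕ) (s : ℕ) : Submodule F V where
  carrier := {v | ∀ α, s ≤ wt μ α → mono β α v = 0}
  add_mem' := fun {a b} ha hb α h => by rw [map_add, ha α h, hb α h, add_zero]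
  zero_mem' := fun α _ => map_zero _
  smul_mem' := fun c v hv α h => by rw [map_smul, hv α h, smul_zero]

theorem mem_Vs {ι F V : Type} [Fintype ι] [Field F] [AddCommGroup V] [Module F V]
    {β : ι → Module.End F V} {μ : ι → ℕ} {s : ℕ} {v : V} :
    v ∈ Vs β μ s ↔ ∀ α, s ≤ wt μ α → mono β α v = 0 := Iff.rfl

/-- the ordered monomials multiply like commutative monomials on the graded pieces -/
structure Good {ι F V : Type} [Fintype ι] [Field F] [AddCommGroup V] [Module F V]
    (β : ι → Module.End F V) (μ : ι → ℕ) : Prop where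
  pos : ∀ i, 0 < μ i
  zero : ∀ (α α' : ι →₀ ℕ) (s : ℕ) (v : V), v ∈ Vs β μ s → s ≤ wt μ α + wt μ α' →
    mono β α (mono β α' v) = 0
  add : ∀ (α α' : ι →₀ ℕ) (v : V), v ∈ Vs β μ (wt μ α + wt μ α' + 1) →
    mono β α (mono β α' v) = mono β (α + α') v

/-- sum of the principal `k × k` minors, written as in the Capelli elements -/
noncomputable def Ek {n : ℕ} {R : Type} [CommRing R] (M : Mat n R) (k : ℕ) : R :=
  ∑ S ∈ Finset.powersetCard k (Finset.univ : Finset (Fin n)),
    ∑ s ∈ Finset.univ.filter (fun s : Equiv.Perm (Fin n) => ∀ j ∉ S, s j = j),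
      (Equiv.Perm.sign s : ℤ) • ∏ j ∈ S, M (s j) j

/-- the index set of the generators: `(a, b, j, t)` and the operators `x` -/
abbrev Ix (n e f₀ g : ℕ) := (Fin n × Fin n × Fin e × Fin f₀) ⊕ Fin g

/-- the matrix of the leading terms of level `J = j + e m` -/
noncomputable def Ym (p : ℕ) {n e f₀ g : ℕ} [NeZero e] {A : Type} [CommRing A]
    (z : Fin n → Fin n → Fin e → Fin f₀ → A) (α : A) (J : ℕ) :
    Mat n (MvPolynomial (Ix n e f₀ g) A) := fun a b =>
  ∑ t, MvPolynomial.monomial (Finsupp.single (Sum.inl (a, b, Fin.ofNat e J, t)) (p ^ (J / e)))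
    (z a b (Fin.ofNat e J) t * α ^ (J / e))

end Pool.Agent.P.MP_7cb106_nt.GK
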