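import Pool.Agent.P.MP_7cb106_nt.GK.IfaceG

section
/-! Step BRU. -/

set_option autoImplicit false

namespace Pool.Agent.P.MP_7cb106_nt.GK

open Matrix Polynomial

theorem bru_up_mul {n : ℕ} {E : Type} [Field E] {a b : Mat n E} (ha : Up a) (hb : Up b) :
    Up (a * b) := by
  intro i j hij
  rw [Matrix.mul_apply]
  refine Finset.sum_eq_zero fun k _ => ?_
  by_cases hk : k < i
  · rw [ha i k hk, zero_mul]
  · rw [hb k j (lt_of_lt_of_le hij (not_lt.mp hk)), mul_zero]

theorem bru_up_inv {n : ℕ} {E : Type} [Field E] {a b : Mat n E} (ha : Up a) (hab : a * b = 1) :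
    Up b := by
  have : Invertible a := invertibleOfRightInverse a b hab
  have h1 : a⁻¹ = b := Matrix.inv_eq_right_inv hab
  have h2 : Matrix.BlockTriangular a id := fun i j hij => ha i j hij
  have h3 := Matrix.blockTriangular_inv_of_blockTriangular h2
  rw [h1] at h3
  exact fun i j hij => h3 hij

theorem bru_up_tv {n : ℕ} {E : Type} [Field E] {i j : Fin n} (hij : i < j) (c : E) :
    Up (Matrix.transvection i j c) := by
  intro a b hab
  rw [Matrix.transvection, Matrix.add_apply, Matrix.one_apply_ne hab.ne', zero_add,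
    Matrix.single_apply, if_neg]
  rintro ⟨rfl, rfl⟩
  exact lt_asymm hij hab

open Classical in
/-- the pairs `(i, j)` such that row `i` has a nonzero entry in a column `≤ j` -/
noncomputable def bruSet {n : ℕ} {E : Type} [Field E] (g : Mat n E) : Finset (Fin n × Fin n) :=
  Finset.univ.filter fun x => ∃ j, j ≤ x.2 ∧ g x.1 j ≠ 0

theorem mem_bruSet {n : ℕ} {E : Type} [Field E] (g : Mat n E) (x : Fin n × Fin n) :
    x ∈ bruSet g ↔ ∃ j, j ≤ x.2 ∧ g x.1 j ≠ 0 := by
  simp [bruSet]

theorem bru_drop {n : ℕ} {E : Type} [Field E] (g : Mat n E) (i i' j : Fin n)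
    (h1 : g i j ≠ 0) (h2 : g i' j ≠ 0) (z1 : ∀ k, k < j → g i k = 0)
    (z2 : ∀ k, k < j → g i' k = 0) :
    (bruSet (Matrix.transvection i i' (-(g i j / g i' j)) * g)).card < (bruSet g).card := by
  apply Finset.card_lt_card
  rw [Finset.ssubset_iff_of_subset]
  · refine ⟨(i, j), (mem_bruSet _ _).mpr ⟨j, le_rfl, h1⟩, ?_⟩
    rw [mem_bruSet]
    rintro ⟨k, hk, hne⟩
    apply hne
    rw [Matrix.transvection_mul_apply_same]
    rcases lt_or_eq_of_le hk with hk | hk
    · rw [z1 k hk, z2 k hk]; ring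
    · have hk' : k = j := hk
      rw [hk']; field_simp; ring
  · rintro ⟨a, b⟩ hx
    rw [mem_bruSet] at hx ⊢
    obtain ⟨k, hk, hne⟩ := hx
    by_cases ha : a = i
    · subst ha
      refine ⟨j, ?_, h1⟩
      by_contra hj
      have hkj : k < j := lt_of_le_of_lt hk (not_le.mp hj)
      apply hne
      rw [Matrix.transvection_mul_apply_same, z1 k hkj, z2 k hkj]; ring
    · rw [Matrix.transvection_mul_apply_of_ne _ _ _ _ ha] at hne
      exact ⟨k, hk, hne⟩

theorem p_BRU :
    S_BRU := by
  classical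
  intro n E _ h h' hh
  obtain ⟨b, ⟨hb, b', hbb⟩, hmin⟩ :=
    (measure fun b : Mat n E => (bruSet (b * h)).card).wf.has_min
      {b : Mat n E | Up b ∧ ∃ b', b * b' = 1}
      ⟨1, fun i j hij => Matrix.one_apply_ne hij.ne', 1, one_mul _⟩
  have hb'b : b' * b = 1 := mul_eq_one_comm.mp hbb
  have hg : (b * h) * (h' * b') = 1 := by
    rw [Matrix.mul_assoc, ← Matrix.mul_assoc h, hh, Matrix.one_mul, hbb]
  have hrow : ∀ i, ∃ j, (b * h) i j ≠ 0 ∧ ∀ k, k < j → (b * h) i k = 0 := by
    intro i
    have hex : ∃ j, (b * h) i j ≠ 0 := by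
      by_contra hno
      push Not at hno
      have h1 := congrFun (congrFun hg i) i
      rw [Matrix.mul_apply, Matrix.one_apply_eq] at h1
      simp [hno] at h1
    obtain ⟨j, hj, hjm⟩ := (wellFounded_lt (α := Fin n)).has_min {j | (b * h) i j ≠ 0} hex
    exact ⟨j, hj, fun k hk => by_contra fun hne => hjm k hne hk⟩
  choose l hl hz using hrow
  have key : ∀ i i', i < i' → l i ≠ l i' := by
    intro i i' hii hll
    have hd := bru_drop (b * h) i i' (l i) (hl i) (hll ▸ hl i') (hz i) (hll ▸ hz i')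
    rw [← Matrix.mul_assoc] at hd
    refine hmin _ ⟨bru_up_mul (bru_up_tv hii _) hb,
      b' * Matrix.transvection i i' ((b * h) i (l i) / (b * h) i' (l i)), ?_⟩ hd
    rw [Matrix.mul_assoc, ← Matrix.mul_assoc b, hbb, Matrix.one_mul,
      Matrix.transvection_mul_transvection_same _ _ hii.ne, neg_add_cancel,
      Matrix.transvection_zero]
  have hinj : Function.Injective l := by
    intro i i' hll
    rcases lt_trichotomy i i' with hii | hii | hii
    · exact absurd hll (key i i' hii)
    · exact hii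
    · exact absurd hll.symm (key i' i hii)
  let w : Equiv.Perm (Fin n) := Equiv.ofBijective l hinj.bijective_of_finite
  have hc : Up ((b * h).submatrix w.symm id) := by
    intro i j hij
    rw [Matrix.submatrix_apply]
    apply hz
    have : l (w.symm i) = i := w.apply_symm_apply i
    rw [this]; exact hij
  have hw : w.permMatrix E * (b * h).submatrix w.symm id = b * h := by
    rw [Equiv.Perm.permMatrix, PEquiv.toMatrix_toPEquiv_mul, Matrix.submatrix_submatrix]
    simp
  have hcc : (b * h).submatrix w.symm id * (h' * b' * w.permMatrix E) = 1 := by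
    apply mul_eq_one_comm.mp
    rw [Matrix.mul_assoc, hw]
    exact mul_eq_one_comm.mp hg
  refine ⟨b', b, _, _, w, bru_up_inv hb hbb, hb, hb'b, hc, bru_up_inv hc hcc, hcc, ?_⟩
  rw [Matrix.mul_assoc, hw, ← Matrix.mul_assoc, hb'b, Matrix.one_mul]

end Pool.Agent.P.MP_7cb106_nt.GK
end

section
/-! Step ALPHA. -/

set_option autoImplicit false

namespace Pool.Agent.P.MP_7cb106_nt.GK

open Matrix Polynomial

theorem alpha_map_mul {n : ℕ} {F E : Type} [CommRing F] [Field E] [Algebra F E]
    (D : Derivation F E E) (A B : Mat n E) :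
    (A * B).map D = A.map D * B + A * B.map D := by
  ext i j
  simp only [Matrix.map_apply, Matrix.mul_apply, Matrix.add_apply, map_sum, Derivation.leibniz,
    smul_eq_mul, ← Finset.sum_add_distrib]
  refine Finset.sum_congr rfl fun k _ => ?_
  ring

theorem alpha_trace_zero {n : ℕ} {E : Type} [Field E] (N U : Mat n E) (hN : SU N) (hU : Up U) :
    trace (N * U) = 0 := by
  simp only [Matrix.trace, Matrix.diag_apply, Matrix.mul_apply]
  refine Finset.sum_eq_zero fun i _ => Finset.sum_eq_zero fun j _ => ?_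
  rcases le_or_gt j i with h | h
  · rw [hN i j h, zero_mul]
  · rw [hU j i h, mul_zero]

theorem alpha_up_mul {n : ℕ} {E : Type} [Field E] (A B : Mat n E) (hA : Up A) (hB : Up B) :
    Up (A * B) := by
  intro i j hij
  rw [Matrix.mul_apply]
  refine Finset.sum_eq_zero fun k _ => ?_
  rcases lt_or_ge k i with h | h
  · rw [hA i k h, zero_mul]
  · rw [hB k j (lt_of_lt_of_le hij h), mul_zero]

theorem alpha_up_map {n : ℕ} {F E : Type} [CommRing F] [Field E] [Algebra F E]
    (D : Derivation F E E) (A : Mat n E) (hA : Up A) : Up (A.map D) := by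
  intro i j hij
  rw [Matrix.map_apply, hA i j hij, map_zero]

theorem alpha_step {n : ℕ} {F E : Type} [CommRing F] [Field E] [Algebra F E]
    (D : Derivation F E E) (y G H b b' : Mat n E) (h : Tri y G H) (hb : Up b) (hb' : Up b')
    (hbb : b * b' = 1) :
    trace (y * (G * b).map D * (b' * H)) = trace (y * G.map D * H) := by
  have h0 : trace (H * y * G * (b.map D * b')) = 0 :=
    alpha_trace_zero _ _ h.2 (alpha_up_mul _ _ (alpha_up_map D b hb) hb')
  have h1 : y * (G * b).map D * (b' * H) =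
      y * G.map D * H + (y * G * (b.map D * b')) * H := by
    rw [alpha_map_mul]
    calc y * (G.map D * b + G * b.map D) * (b' * H)
        = y * G.map D * (b * b') * H + (y * G * (b.map D * b')) * H := by noncomm_ring
      _ = _ := by rw [hbb, Matrix.mul_one]
  rw [h1, trace_add, trace_mul_comm (y * G * (b.map D * b')) H]
  have h2 : H * (y * G * (b.map D * b')) = H * y * G * (b.map D * b') := by noncomm_ring
  rw [h2, h0, add_zero]

theorem p_ALPHA (hBRU : S_BRU) :
    S_ALPHA := by
  intro n F E _ _ _ D y G H G' H' hT hT'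
  have hGH : G * H = 1 := hT.1
  have hHG : H * G = 1 := mul_eq_one_comm.mp hGH
  have hGH' : G' * H' = 1 := hT'.1
  have hinv : (H * G') * (H' * G) = 1 := by
    calc (H * G') * (H' * G) = H * (G' * H') * G := by noncomm_ring
      _ = 1 := by rw [hGH', Matrix.mul_one, hHG]
  obtain ⟨b, b', c, c', w, hb, hb', hbb, hc, hc', hcc, hh⟩ := hBRU n E _ _ hinv
  have hcc' : c' * c = 1 := mul_eq_one_comm.mp hcc
  have hbb' : b' * b = 1 := mul_eq_one_comm.mp hbb
  have hP : (w.permMatrix E).map D = 0 := by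
    ext i j
    simp only [Matrix.map_apply, Equiv.Perm.permMatrix, PEquiv.toMatrix_apply, Matrix.zero_apply]
    split_ifs <;> simp
  have e1 : G' * c' = G * b * w.permMatrix E := by
    calc G' * c' = (G * H) * G' * c' := by rw [hGH, Matrix.one_mul]
      _ = G * (H * G') * c' := by noncomm_ring
      _ = G * b * w.permMatrix E * (c * c') := by rw [hh]; noncomm_ring
      _ = _ := by rw [hcc, Matrix.mul_one]
  have e2 : w.permMatrix E * (c * H') = b' * H := by
    calc w.permMatrix E * (c * H') = (b' * b) * w.permMatrix E * (c * H') := by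
          rw [hbb', Matrix.one_mul]
      _ = b' * (b * w.permMatrix E * c) * H' := by noncomm_ring
      _ = b' * H * (G' * H') := by rw [← hh]; noncomm_ring
      _ = _ := by rw [hGH', Matrix.mul_one]
  rw [← alpha_step D y G H b b' hT hb hb' hbb, ← alpha_step D y G' H' c' c hT' hc' hc hcc', e1,
    alpha_map_mul D (G * b), hP, Matrix.mul_zero, add_zero, ← e2]
  congr 1
  noncomm_ring

end Pool.Agent.P.MP_7cb106_nt.GK
end

section
/-! Step PIDB. -/

set_option autoImplicit false

namespace Pool.Agent.P.MP_7cb106_nt.GK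

open Matrix Polynomial

theorem pidb_fun {R M : Type} [CommRing R] [AddCommGroup M] [Module R M] (θ : Module.End R M) :
    ∀ (k : ℕ) (ψ : M →ₗ[R] R), ψ ≠ 0 → θ ^ k = 0 ∨ ψ ∘ₗ (θ ^ k) = 0 →
      ∃ φ : M →ₗ[R] R, φ ≠ 0 ∧ φ ∘ₗ θ = 0 := by
  intro k
  induction k with
  | zero =>
    intro ψ h0 h
    exfalso
    apply h0
    rcases h with h | h
    · ext x
      have := LinearMap.congr_fun h x
      simp only [pow_zero, Module.End.one_apply, LinearMap.zero_apply] at this
      simp [this]
    · ext x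
      simpa using LinearMap.congr_fun h x
  | succ k ih =>
    intro ψ h0 h
    by_cases h1 : ψ ∘ₗ θ = 0
    · exact ⟨ψ, h0, h1⟩
    · refine ih (ψ ∘ₗ θ) h1 (Or.inr ?_)
      have e : (ψ ∘ₗ θ) ∘ₗ (θ ^ k) = ψ ∘ₗ (θ ^ (k + 1)) := by
        rw [pow_succ']; rfl
      rw [e]
      rcases h with h | h
      · rw [h]; simp
      · exact h

theorem p_PIDB :
    S_PIDB := by
  intro R _ _ _ n
  induction n with
  | zero =>
    intro M _ _ _ _ hn θ _
    exact ⟨Module.finBasisOfFinrankEq R M hn, fun i => i.elim0⟩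
  | succ n ih =>
    intro M _ _ _ _ hn θ hθ
    obtain ⟨k, hk⟩ := hθ
    let b0 := Module.finBasisOfFinrankEq R M hn
    have h0 : b0.coord 0 ≠ 0 := fun h => by
      simpa using LinearMap.congr_fun h (b0 0)
    obtain ⟨φ, hφ0, hφ⟩ := pidb_fun θ k (b0.coord 0) h0 (Or.inl hk)
    have hφ' : ∀ x, φ (θ x) = 0 := fun x => LinearMap.congr_fun hφ x
    obtain ⟨a, ha⟩ := (IsPrincipalIdealRing.principal (LinearMap.range φ)).principal
    obtain ⟨y, hy⟩ : a ∈ LinearMap.range φ := by
      rw [ha]; exact Submodule.mem_span_singleton_self a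
    have hx : ∀ x, ∃ c, c * a = φ x := fun x => by
      have : φ x ∈ Submodule.span R {a} := ha ▸ LinearMap.mem_range_self φ x
      exact Submodule.mem_span_singleton.mp this
    have ha0 : a ≠ 0 := fun h => hφ0 (by
      ext x
      obtain ⟨c, hc⟩ := hx x
      simp [← hc, h])
    have hli : ∀ (c : R), ∀ x ∈ LinearMap.ker φ, c • y + x = 0 → c = 0 := fun c x h1 h2 => by
      have := congrArg φ h2
      rw [map_add, map_smul, LinearMap.mem_ker.mp h1, hy, map_zero, add_zero, smul_eq_mul] at this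
      exact (mul_eq_zero.mp this).resolve_right ha0
    have hsp : ∀ z : M, ∃ c : R, z + c • y ∈ LinearMap.ker φ := fun z => by
      obtain ⟨c, hc⟩ := hx z
      refine ⟨-c, LinearMap.mem_ker.mpr ?_⟩
      rw [map_add, map_smul, hy, ← hc, smul_eq_mul]; ring
    have hN : Module.finrank R (LinearMap.ker φ) = n := by
      have := Module.finrank_eq_card_basis
        (Module.Basis.mkFinSnoc (Module.finBasis R (LinearMap.ker φ)) y hli hsp)
      rw [hn, Fintype.card_fin] at this
      omega
    have hm : Set.MapsTo θ (LinearMap.ker φ) (LinearMap.ker φ) := fun x _ =>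
      LinearMap.mem_ker.mpr (hφ' x)
    obtain ⟨b, hb⟩ := ih (LinearMap.ker φ) hN (θ.restrict hm)
      (Module.End.isNilpotent.restrict hm ⟨k, hk⟩)
    refine ⟨Module.Basis.mkFinSnoc b y hli hsp, fun i => ?_⟩
    have key : ∀ (s : Set (Fin n)) (x : LinearMap.ker φ), x ∈ Submodule.span R (b '' s) →
        (∀ j ∈ s, j.castSucc < i) →
        (x : M) ∈ Submodule.span R (Module.Basis.mkFinSnoc b y hli hsp '' {j | j < i}) := by
      intro s x h1 h2
      have h3 := Submodule.mem_map_of_mem (f := (LinearMap.ker φ).subtype) h1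
      rw [Submodule.map_span] at h3
      refine Submodule.span_mono ?_ h3
      rintro _ ⟨_, ⟨j, hj, rfl⟩, rfl⟩
      exact ⟨j.castSucc, h2 j hj, by simp⟩
    induction i using Fin.lastCases with
    | last =>
      refine key Set.univ ⟨θ _, LinearMap.mem_ker.mpr (hφ' _)⟩ ?_ fun j _ => j.castSucc_lt_last
      rw [Set.image_univ, b.span_eq]
      trivial
    | cast i =>
      have := key _ _ (hb i) fun j hj => Fin.castSucc_lt_castSucc_iff.mpr hj
      simpa using this

end Pool.Agent.P.MP_7cb106_nt.GK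
end

section
/-! Step PID. -/

set_option autoImplicit false

namespace Pool.Agent.P.MP_7cb106_nt.GK

open Matrix Polynomial

theorem p_PID (hPIDB : S_PIDB) :
    S_PID := by
  intro R _ _ _ n y hy
  have h1 : IsNilpotent (Matrix.toLinAlgEquiv' y : Module.End R (Fin n → R)) :=
    hy.map (Matrix.toLinAlgEquiv' (n := Fin n) (R := R))
  obtain ⟨b, hb⟩ := hPIDB R n (Fin n → R) (by simp) _ h1
  let e := Pi.basisFun R (Fin n)
  refine ⟨e.toMatrix b, b.toMatrix e, Module.Basis.toMatrix_mul_toMatrix_flip e b, ?_⟩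
  have h2 : b.toMatrix e * y * e.toMatrix b =
      LinearMap.toMatrix b b (Matrix.toLinAlgEquiv' y : Module.End R (Fin n → R)) := by
    rw [← basis_toMatrix_mul_linearMap_toMatrix_mul_basis_toMatrix b e b e]
    congr 2
    ext i j
    simp [e, Matrix.toLinAlgEquiv'_apply]
  intro i j hij
  rw [h2, LinearMap.toMatrix_apply]
  have h3 := (Module.Basis.mem_span_image b).mp (hb j)
  by_contra h4
  have h5 : i < j := h3 (Finsupp.mem_support_iff.mpr h4)
  exact absurd h5 (not_lt.mpr hij)

end Pool.Agent.P.MP_7cb106_nt.GK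
end

section
/-! Step JORB. -/

set_option autoImplicit false

namespace Pool.Agent.P.MP_7cb106_nt.GK

open Matrix Polynomial

namespace JORBx

variable {E M : Type} [Field E] [AddCommGroup M] [Module E M]

/-- an independent set spanning the range of `θ ^ k` which `θ` maps into itself or to zero -/
def Good (θ : Module.End E M) (k : ℕ) : Prop :=
  ∃ s : Set M, LinearIndepOn E id s ∧ Submodule.span E s = LinearMap.range (θ ^ k) ∧
    ∀ x ∈ s, θ x = 0 ∨ θ x ∈ s

theorem step (θ : Module.End E M) (k : ℕ) (h : Good θ (k + 1)) : Good θ k := by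
  obtain ⟨s, h1, h2, h3⟩ := h
  let t : Set M := {x | x ∈ LinearMap.range (θ ^ k) ∧ (θ x = 0 ∨ θ x ∈ s)}
  have hs : ∀ x ∈ s, ∃ v, θ ((θ ^ k) v) = x := by
    intro x hx
    have : x ∈ LinearMap.range (θ ^ (k + 1)) := h2 ▸ Submodule.subset_span hx
    obtain ⟨v, rfl⟩ := this
    exact ⟨v, by rw [pow_succ', Module.End.mul_apply]⟩
  have hst : s ⊆ t := by
    intro x hx
    obtain ⟨v, hv⟩ := hs x hx
    refine ⟨⟨θ v, ?_⟩, h3 x hx⟩
    rw [← hv, ← Module.End.mul_apply, ← pow_succ, pow_succ', Module.End.mul_apply]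
  obtain ⟨b, hbt, hsb, htb, hb⟩ := exists_linearIndepOn_id_extension h1 hst
  have htle : Submodule.span E t ≤ LinearMap.range (θ ^ k) :=
    Submodule.span_le.2 fun x hx => hx.1
  refine ⟨b, hb, le_antisymm ((Submodule.span_mono hbt).trans htle) ?_,
    fun x hx => (hbt hx).2.imp_right fun h => hsb h⟩
  refine le_trans ?_ (Submodule.span_le.2 htb)
  intro x hx
  have hx1 : θ x ∈ Submodule.span E s := by
    obtain ⟨v, rfl⟩ := hx
    rw [h2]
    exact ⟨v, by rw [pow_succ', Module.End.mul_apply]⟩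
  have hx2 : Submodule.span E s ≤ (Submodule.span E t).map θ := by
    refine Submodule.span_le.2 fun z hz => ?_
    obtain ⟨v, hv⟩ := hs z hz
    exact ⟨(θ ^ k) v, Submodule.subset_span ⟨⟨v, rfl⟩, .inr (hv ▸ hz)⟩, hv⟩
  obtain ⟨x', hx', e⟩ := hx2 hx1
  have : x - x' ∈ Submodule.span E t :=
    Submodule.subset_span ⟨sub_mem hx (htle hx'), .inl (by rw [map_sub, e, sub_self])⟩
  simpa using add_mem this hx'

theorem good (θ : Module.End E M) (m : ℕ) (hm : θ ^ m = 0) :
    ∀ j k, k + j = m → Good θ k := by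
  intro j
  induction j with
  | zero =>
    intro k hk
    obtain rfl : k = m := hk
    exact ⟨∅, linearIndepOn_empty _ _, by simp [hm], by simp⟩
  | succ j ih =>
    intro k hk
    exact step θ k (ih (k + 1) (by omega))

end JORBx

theorem p_JORB :
    S_JORB := by
  intro E _ M _ _ _ θ ⟨m, hm⟩
  classical
  obtain ⟨s, h1, h2, h3⟩ := JORBx.good θ m hm m 0 (zero_add m)
  have hsp : ⊤ ≤ Submodule.span E (Set.range fun x : s => (id x : M)) := by
    have : (Set.range fun x : s => (id x : M)) = s := Subtype.range_coe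
    rw [this, h2, pow_zero]
    intro x _
    exact ⟨x, rfl⟩
  let b : Module.Basis s E M := Module.Basis.mk h1 hsp
  have hb : ∀ i : s, b i = (i : M) := fun i => Module.Basis.mk_apply h1 hsp i
  have hex : ∀ x : M, ∃ k, (θ ^ k) x = 0 := fun x => ⟨m, by rw [hm]; rfl⟩
  have : Finite s := Module.Finite.finite_basis b
  refine ⟨s, Fintype.ofFinite s, b, fun i => Nat.find (hex i), fun i => ?_⟩
  rcases h3 i i.2 with h | h
  · exact .inl (by rw [hb, h])
  · refine .inr ⟨⟨θ i, h⟩, ?_, by rw [hb, hb]⟩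
    have h0 : Nat.find (hex i) ≠ 0 := by
      intro h0
      have := Nat.find_spec (hex i)
      rw [h0, pow_zero] at this
      exact b.ne_zero i ((hb i).trans this)
    obtain ⟨k, hk⟩ := Nat.exists_eq_succ_of_ne_zero h0
    have h4 := Nat.find_spec (hex i)
    rw [hk, pow_succ, Module.End.mul_apply] at h4
    have : Nat.find (hex (θ i)) ≤ k := Nat.find_min' _ h4
    change Nat.find (hex (θ i)) < Nat.find (hex i)
    omega

end Pool.Agent.P.MP_7cb106_nt.GK
end

section
/-! Step JORD. -/

set_option autoImplicit false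

namespace Pool.Agent.P.MP_7cb106_nt.GK

open Matrix Polynomial

theorem p_JORD (hJORB : S_JORB) :
    S_JORD := by
  intro n E _ y hy
  classical
  have hθ : IsNilpotent (Matrix.toLin' y : Module.End E (Fin n → E)) :=
    hy.map Matrix.toLinAlgEquiv'
  obtain ⟨ι, _, b, d, hb⟩ := hJORB E (Fin n → E) (Matrix.toLin' y) hθ
  have hc : Fintype.card ι = n := by
    rw [← Module.finrank_eq_card_basis b, Module.finrank_fin_fun]
  let e₀ : Fin n ≃ ι := (Fintype.equivFinOfCardEq hc).symm
  let e : Fin n ≃ ι := (Tuple.sort (d ∘ e₀)).trans e₀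
  have hmono : Monotone (d ∘ e) := Tuple.monotone_sort (d ∘ e₀)
  let c : Module.Basis (Fin n) E (Fin n → E) := b.reindex e.symm
  have hce : ∀ i, c i = b (e i) := fun i => by simp [c]
  let s := Pi.basisFun E (Fin n)
  have hN : ∀ i j, LinearMap.toMatrix c c (Matrix.toLin' y) i j = 0 ∨
      (i < j ∧ LinearMap.toMatrix c c (Matrix.toLin' y) i j = 1) := by
    intro i j
    rw [LinearMap.toMatrix_apply, hce j]
    rcases hb (e j) with h | ⟨k, hk, h⟩
    · exact .inl (by rw [h]; simp)
    · obtain ⟨k, rfl⟩ := e.surjective k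
      rw [h, ← hce, Module.Basis.repr_self]
      by_cases hik : k = i
      · subst hik
        exact .inr ⟨hmono.reflect_lt hk, Finsupp.single_eq_same⟩
      · exact .inl (Finsupp.single_eq_of_ne' hik)
  refine ⟨s.toMatrix c, c.toMatrix s, LinearMap.toMatrix c c (Matrix.toLin' y),
    Module.Basis.toMatrix_mul_toMatrix_flip _ _, ?_, fun i j hij => ?_, fun i j => ?_⟩
  · rw [basis_toMatrix_mul_linearMap_toMatrix_mul_basis_toMatrix, LinearMap.toMatrix_eq_toMatrix',
      LinearMap.toMatrix'_toLin']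
  · exact (hN i j).resolve_right fun h => absurd h.1 (not_lt.2 hij)
  · exact (hN i j).imp_right fun h => h.2

end Pool.Agent.P.MP_7cb106_nt.GK
end

section
/-! Step REV. -/

set_option autoImplicit false

namespace Pool.Agent.P.MP_7cb106_nt.GK

open Matrix Polynomial

theorem rev_eval {n : ℕ} {E : Type} [CommRing E] (y y' : Mat n E) (c : E) :
    (evalRingHom c).mapMatrix (pen y y') = y + c • y' := by
  ext i j
  simp [pen]
  ring

theorem rev_pow {n : ℕ} {E : Type} [CommRing E] (y y' : Mat n E) (m : ℕ)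
    (h : pen y y' ^ m = 0) (c : E) : (y + c • y') ^ m = 0 := by
  rw [← rev_eval, ← map_pow, h, map_zero]

theorem p_REV :
    S_REV := by
  intro n E _ _ y y' h
  obtain ⟨m, hm⟩ := h
  have key : pen y' y ^ m = 0 := by
    ext1 i j
    apply Polynomial.eq_zero_of_infinite_isRoot
    refine Set.Infinite.mono (s := ({0}ᶜ : Set E)) ?_ (Set.finite_singleton (0 : E)).infinite_compl
    intro c hc
    have hc0 : c ≠ 0 := hc
    have h1 : (evalRingHom c).mapMatrix (pen y' y ^ m) = 0 := by
      rw [map_pow, rev_eval]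
      have h2 : y' + c • y = c • (y + c⁻¹ • y') := by
        rw [smul_add, smul_smul, mul_inv_cancel₀ hc0, one_smul, add_comm]
      rw [h2, _root_.smul_pow, rev_pow y y' m hm, smul_zero]
    have h3 := congrFun (congrFun h1 i) j
    simpa using h3
  refine ⟨⟨m, key⟩, ⟨m, ?_⟩, ⟨m, ?_⟩, ⟨m, ?_⟩⟩
  · simpa using rev_pow y y' m hm 0
  · simpa using rev_pow y' y m key 0
  · simpa using rev_pow y y' m hm 1

end Pool.Agent.P.MP_7cb106_nt.GK
end

section
/-! Step BETA. -/

set_option autoImplicit false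

namespace Pool.Agent.P.MP_7cb106_nt.GK

open Matrix Polynomial

namespace BETAx

variable {F E : Type} [CommRing F] [Field E] [Algebra F E]

theorem poly (D : Derivation F E E) (P : E[X]) :
    ∃ Q : E[X], ∀ c : E, D c = 0 → D (P.eval c) = Q.eval c := by
  induction P using Polynomial.induction_on' with
  | add p q hp hq =>
    obtain ⟨p', hp⟩ := hp
    obtain ⟨q', hq⟩ := hq
    exact ⟨p' + q', fun c hc => by rw [eval_add, map_add, hp c hc, hq c hc, eval_add]⟩
  | monomial k a =>
    exact ⟨monomial k (D a), fun c hc => by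
      simp [eval_monomial, Derivation.leibniz, Derivation.leibniz_pow, hc, mul_comm]⟩

end BETAx

theorem p_BETA (hPID : S_PID) (hALPHA : S_ALPHA) :
    S_BETA := by
  intro n F E _ _ _ D y y' hnil
  obtain ⟨G, H, h1, h2⟩ := hPID E[X] n _ hnil
  choose Q hQ using fun i j => BETAx.poly D (G i j)
  refine ⟨trace (pen y y' * Matrix.of Q * H), fun c hc G' H' ht => ?_⟩
  let φ : Mat n E[X] →+* Mat n E := (evalRingHom c).mapMatrix
  have e1 : φ (pen y y') = y + c • y' := by
    ext i j
    change eval c (C (y i j) + X * C (y' i j)) = y i j + c * y' i j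
    rw [eval_add, eval_mul, eval_C, eval_C, eval_X]
  have e2 : φ (Matrix.of Q) = (φ G).map D := by
    ext i j
    exact (hQ i j c hc).symm
  have ht' : Tri (y + c • y') (φ G) (φ H) := by
    refine ⟨by rw [← map_mul, h1, map_one], fun i j hij => ?_⟩
    rw [← e1, ← map_mul, ← map_mul]
    change eval c ((H * pen y y' * G) i j) = 0
    rw [h2 i j hij, eval_zero]
  rw [← hALPHA n F E D _ _ _ _ _ ht' ht, ← e2, ← e1, ← map_mul, ← map_mul]
  exact AddMonoidHom.map_trace (evalRingHom c) _

end Pool.Agent.P.MP_7cb106_nt.GK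
end

section
/-! Step ADD. -/

set_option autoImplicit false

namespace Pool.Agent.P.MP_7cb106_nt.GK

open Matrix Polynomial

theorem add_poly {E : Type} [Field E] (β β' : E[X]) (S : Set E) (hS : S.Infinite)
    (h : ∀ c ∈ S, c ≠ 0 → β'.eval c = c * β.eval c⁻¹) :
    β.eval 1 = β.eval 0 + β'.eval 0 := by
  set m := β.natDegree with hm
  have hpoly : (X : E[X]) ^ m * β' = reflect (m + 1) β := by
    refine Polynomial.eq_of_infinite_eval_eq _ _ ?_
    refine (hS.sdiff (Set.finite_singleton 0)).mono ?_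
    rintro c ⟨hc, hc0⟩
    have hc0' : c ≠ 0 := by simpa using hc0
    have hci : c⁻¹ ≠ 0 := inv_ne_zero hc0'
    let _ : Invertible c⁻¹ := invertibleOfNonzero hci
    have e := Polynomial.eval₂_reflect_mul_pow (RingHom.id E) c⁻¹ (m + 1) β (Nat.le_succ _)
    rw [invOf_eq_inv, inv_inv, eval₂_id, eval₂_id] at e
    simp only [Set.mem_ofPred_eq, eval_mul, eval_pow, eval_X]
    rw [h c hc hc0', ← e]
    generalize eval c (reflect (m + 1) β) = r
    have e3 : c ^ (m + 1) * c⁻¹ ^ (m + 1) = 1 := by
      rw [← mul_pow, mul_inv_cancel₀ hc0', one_pow]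
    calc c ^ m * (c * (r * c⁻¹ ^ (m + 1))) = r * (c ^ (m + 1) * c⁻¹ ^ (m + 1)) := by ring
      _ = r := by rw [e3, mul_one]
  have h1 : β.coeff 1 = β'.coeff 0 := by
    have := congrArg (fun q : E[X] => q.coeff m) hpoly
    simp only [coeff_reflect] at this
    rw [revAt_le (Nat.le_succ _)] at this
    have e2 : m + 1 - m = 1 := by omega
    rw [e2] at this
    rw [← this]
    simpa using Polynomial.coeff_X_pow_mul β' m 0
  have h2 : ∀ j, 2 ≤ j → β.coeff j = 0 := by
    intro j hj
    rcases le_or_gt j m with hjm | hjm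
    · have := congrArg (fun q : E[X] => q.coeff (m + 1 - j)) hpoly
      simp only [coeff_reflect] at this
      rw [revAt_le (Nat.sub_le _ _)] at this
      have e2 : m + 1 - (m + 1 - j) = j := by omega
      rw [e2] at this
      rw [← this, Polynomial.coeff_X_pow_mul', if_neg (by omega)]
    · exact coeff_eq_zero_of_natDegree_lt hjm
  have h3 : β.natDegree ≤ 1 := by
    rw [natDegree_le_iff_coeff_eq_zero]
    intro j hj
    exact h2 j hj
  have h4 := eq_X_add_C_of_natDegree_le_one h3
  rw [← coeff_zero_eq_eval_zero β', ← h1, ← coeff_zero_eq_eval_zero β]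
  conv_lhs => rw [h4]
  simp [add_comm]

theorem add_nil {n : ℕ} {E : Type} [Field E] (y y' : Mat n E) (h : IsNilpotent (pen y y'))
    (c : E) : IsNilpotent (y + c • y') := by
  have h1 := h.map (RingHom.mapMatrix (m := Fin n) (evalRingHom c))
  have e : (RingHom.mapMatrix (m := Fin n) (evalRingHom c)) (pen y y') = y + c • y' := by
    ext i j
    simp [pen]
    ring
  rwa [e] at h1

theorem p_ADD (hPID : S_PID) (hREV : S_REV) (hBETA : S_BETA) :
    S_ADD := by
  intro n F E _ _ _ D hD y y' hnil G₁ H₁ G₂ H₂ G₃ H₃ h₁ h₂ h₃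
  have : Infinite E := Set.infinite_univ_iff.mp (hD.mono (Set.subset_univ _))
  have hnil' : IsNilpotent (pen y' y) := (hREV n E y y' hnil).1
  obtain ⟨β, hβ⟩ := hBETA n F E D y y' hnil
  obtain ⟨β', hβ'⟩ := hBETA n F E D y' y hnil'
  have e1 := hβ 1 D.map_one_eq_zero G₃ H₃ (by rwa [one_smul])
  have e0 := hβ 0 (map_zero D) G₁ H₁ (by rwa [zero_smul, add_zero])
  have e0' := hβ' 0 (map_zero D) G₂ H₂ (by rwa [zero_smul, add_zero])
  rw [one_smul] at e1
  rw [zero_smul, add_zero] at e0 e0'
  rw [← e1, ← e0, ← e0']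
  refine add_poly β β' _ hD fun c hc hc0 => ?_
  have hc' : D c = 0 := hc
  obtain ⟨G, H, hT⟩ := hPID E n _ (add_nil y' y hnil' c)
  have es : y + c⁻¹ • y' = c⁻¹ • (y' + c • y) := by
    rw [smul_add, smul_smul, inv_mul_cancel₀ hc0, one_smul, add_comm]
  have hT' : Tri (y + c⁻¹ • y') G H := by
    refine ⟨hT.1, fun i j hij => ?_⟩
    rw [es, Matrix.mul_smul, Matrix.smul_mul, Matrix.smul_apply, hT.2 i j hij, smul_zero]
  have hci : D c⁻¹ = 0 := by rw [Derivation.leibniz_inv, hc', smul_zero]
  rw [hβ' c hc' G H hT, hβ c⁻¹ hci G H hT', es, Matrix.smul_mul, Matrix.smul_mul, trace_smul,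
    smul_eq_mul, ← mul_assoc, mul_inv_cancel₀ hc0, one_mul]

end Pool.Agent.P.MP_7cb106_nt.GK
end

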