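import Pool.Agent.P.MP_7cb106_nt.GK.IfaceM
import Pool.Agent.P.MP_7cb106_nt.BI.All
import Pool.Agent.P.MP_22cf7a_nt.FL.Fin

/-! Finite length of the reduction of a Banach representation of `GL_2(K)`. -/

set_option autoImplicit false

namespace Pool.Agent.P.MP_7cb106_nt.GK

open Filter Topology

/-- the corollary for `GL_2` -/
def S_COR : Prop := ∀ (p : ℕ) [Fact p.Prime] (K L B : Type) [Field K] [Algebra ℚ_[p] K]
  [FiniteDimensional ℚ_[p] K] [NormedField L] [NormedAlgebra ℚ_[p] L] [FiniteDimensional ℚ_[p] L]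
  [NormedAddCommGroup B] [NormedSpace L B] [IsUltrametricDist B] [CompleteSpace B]
  (σ : K →ₐ[ℚ_[p]] L) (g : ℕ) (ρ : (⊤ : Subgroup (GL (Fin 2) K)) →* Module.End L B)
  (x : Fin g → Module.End L B) (φ : ℕ → (Fin g → ℕ) → L) (C : ℝ),
  (∀ v : B, ∃ c : L, ‖v‖ = ‖c‖) → (∀ h v, ‖ρ h v‖ = ‖v‖) →
  (∀ (v : B) (ε : ℝ), 0 < ε → ∃ l, ∀ h : (⊤ : Subgroup (GL (Fin 2) K)), Cong σ l h.val →
    ‖ρ h v - v‖ ≤ ε) →
  (∀ j v, ‖x j v‖ ≤ ‖v‖) → (∀ j v, Tendsto (fun m : ℕ => (x j ^ m) v) atTop (𝓝 0)) →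
  (∀ i j, Commute (x i) (x j)) → (∀ j h, Commute (x j) (ρ h)) →
  (∀ l, ∃ m₀ : ℕ, ∀ (m : ℕ) (v : Fin m → B), (∀ i, Fix σ ρ x l (v i)) → Orth L v → m ≤ m₀) →
  (∀ k β, ‖φ k β‖ ≤ C * (1 + ∑ j, (β j : ℝ)) ^ k) →
  (∀ k, 1 ≤ k → k ≤ 2 → ∀ v, An σ ρ x v →
    HasSum (fun β => φ k β • xp x β v) (Cap (Eop σ ρ) k v)) →
  (∀ (z : (⊤ : Subgroup (GL (Fin 2) K))) (c : K), z.val.val = Matrix.scalar (Fin 2) c →
    ∃ a : L, ‖a‖ ≤ 1 ∧ ∀ v : B, ‖v‖ ≤ 1 → (∀ j, ‖x j v‖ < 1) → ‖ρ z v - a • v‖ < 1) →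
  ∃ N : ℕ, ∀ (k : ℕ) (M : Fin (k + 1) → AddSubgroup B), StrictMono M →
    (∀ i v, ‖v‖ < 1 → v ∈ M i) → (∀ i, ∀ v ∈ M i, ‖v‖ ≤ 1 ∧ ∀ j, ‖x j v‖ < 1) →
    (∀ i (c : L), ‖c‖ ≤ 1 → ∀ v ∈ M i, c • v ∈ M i) → (∀ i h, ∀ v ∈ M i, ρ h v ∈ M i) → k ≤ N

section
variable {L B F V : Type} [NormedField L] [IsUltrametricDist L]
  [NormedAddCommGroup B] [NormedSpace L B] [IsUltrametricDist B] [Field F]
  [AddCommGroup V] [Module F V]

theorem cor11_red_eq (R : Red L B F V) {x y : B} (hx : ‖x‖ ≤ 1) (hy : ‖y‖ ≤ 1) :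
    R.red x = R.red y ↔ ‖x - y‖ < 1 := by
  have hxy : ‖x - y‖ ≤ 1 := by
    have h := IsUltrametricDist.norm_add_le_max x (-y)
    rw [norm_neg, ← sub_eq_add_neg] at h
    exact h.trans (max_le hx hy)
  have h := R.red_add (x - y) y hxy hy
  rw [sub_add_cancel] at h
  rw [← R.red_zero _ hxy, h]
  simp

/-- the reduction of an isometric representation -/
noncomputable def cor11Rep {G : Type} [Group G] (R : Red L B F V) (ρ : G →* Module.End L B)
    (h : ∀ h v, ‖ρ h v‖ = ‖v‖) : Representation F G V where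
  toFun y := R.bar (ρ y)
  map_one' := by
    ext u
    obtain ⟨v, hv, rfl⟩ := R.red_surj u
    rw [R.bar_red _ (fun v => (h _ v).le) v hv]
    simp
  map_mul' y y' := by
    ext u
    obtain ⟨v, hv, rfl⟩ := R.red_surj u
    rw [Module.End.mul_apply, R.bar_red _ (fun v => (h _ v).le) v hv,
      R.bar_red _ (fun v => (h _ v).le) v hv,
      R.bar_red _ (fun v => (h _ v).le) _ ((h _ v).le.trans hv), map_mul, Module.End.mul_apply]

omit [IsUltrametricDist B] in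
theorem cor11Rep_red {G : Type} [Group G] (R : Red L B F V) (ρ : G →* Module.End L B)
    (h : ∀ h v, ‖ρ h v‖ = ‖v‖) (y : G) {v : B} (hv : ‖v‖ ≤ 1) :
    cor11Rep R ρ h y (R.red v) = R.red (ρ y v) :=
  R.bar_red _ (fun v => (h _ v).le) v hv

omit [IsUltrametricDist B] in
theorem cor11_mem {g : ℕ} (R : Red L B F V) (x : Fin g → Module.End L B)
    (hx : ∀ j v, ‖x j v‖ ≤ ‖v‖) {v : B} (hv : ‖v‖ ≤ 1) :
    R.red v ∈ (⨅ j, LinearMap.ker (R.bar (x j)) : Submodule F V) ↔ ∀ j, ‖x j v‖ < 1 := by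
  rw [Submodule.mem_iInf]
  refine forall_congr' fun j => ?_
  rw [LinearMap.mem_ker, R.bar_red _ (hx j) v hv, R.red_zero _ ((hx j v).trans hv)]

/-- the part killed by the `x j` -/
noncomputable def cor11Sub {G : Type} [Group G] {g : ℕ} (R : Red L B F V)
    (ρ : G →* Module.End L B) (h : ∀ h v, ‖ρ h v‖ = ‖v‖) (x : Fin g → Module.End L B)
    (hx : ∀ j v, ‖x j v‖ ≤ ‖v‖) (hc : ∀ j h, Commute (x j) (ρ h)) :
    Subrepresentation (cor11Rep R ρ h) where
  toSubmodule := ⨅ j, LinearMap.ker (R.bar (x j))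
  apply_mem_toSubmodule y u hu := by
    obtain ⟨v, hv, rfl⟩ := R.red_surj u
    rw [cor11Rep_red R ρ h y hv, cor11_mem R x hx ((h y v).le.trans hv)]
    intro j
    rw [← Module.End.mul_apply, (hc j y).eq, Module.End.mul_apply, h]
    exact (cor11_mem R x hx hv).1 hu j

omit [IsUltrametricDist B] in
theorem cor11_dim (R : Red L B F V) {W : Type} [AddCommGroup W] [Module F W] (ι : W →ₗ[F] V)
    (hι : Function.Injective ι) (P : B → Prop) (hP : ∀ u, ∃ v, P v ∧ R.red v = ι u) (m₀ : ℕ)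
    (hm : ∀ (m : ℕ) (v : Fin m → B), (∀ i, P (v i)) →
      (LinearIndependent F fun i => R.red (v i)) → m ≤ m₀) :
    FiniteDimensional F W ∧ Module.finrank F W ≤ m₀ := by
  have hr : Module.rank F W ≤ m₀ := by
    refine rank_le fun s hs => ?_
    choose f hf using hP
    refine hm s.card (fun i => f (s.equivFin.symm i)) (fun i => (hf _).1) ?_
    simp only [(hf _).2]
    exact (hs.comp _ s.equivFin.symm.injective).map' ι (LinearMap.ker_eq_bot.2 hι)
  exact ⟨Module.rank_lt_aleph0_iff.1 (hr.trans_lt (Cardinal.natCast_lt_aleph0)),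
    Module.finrank_le_of_rank_le hr⟩

end

theorem cor11_chain {F G W : Type} [Field F] [Group G] [AddCommGroup W] [Module F W]
    (τ : Representation F G W) (h : IsFiniteLength (MonoidAlgebra F G) τ.asModule) :
    ∃ N : ℕ, ∀ (k : ℕ) (S : Fin (k + 1) → Subrepresentation τ), StrictMono S → k ≤ N := by
  obtain ⟨N, hN⟩ := ENat.ne_top_iff_exists.1 (Module.length_ne_top_iff.2 h)
  refine ⟨N, fun k S hS => ?_⟩
  have h1 := Order.LTSeries.length_le_krullDim (LTSeries.mk k _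
    (Subrepresentation.subrepresentationSubmoduleOrderIso.strictMono.comp hS))
  rw [← Module.coe_length, ← hN] at h1
  exact_mod_cast h1

open Pool.Agent.P.MP_7cb106_nt.BI in
theorem cor11 (hMAIN : S_MAIN) (hINT : S_INT) (hRES : S_RES) (hRED : S_RED) (hORT : S_ORT) :
    S_COR := by
  intro p _ K L B _ _ _ _ _ _ _ _ _ _ σ g ρ x φ C hn iso cont hx xn xx xr adm hφ hC cen
  have : IsUltrametricDist L := IsUltrametricDist.of_normedAlgebra ℚ_[p]
  let _ : Algebra ℤ_[p] K := ((algebraMap ℚ_[p] K).comp (algebraMap ℤ_[p] ℚ_[p])).toAlgebra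
  have : IsScalarTower ℤ_[p] ℚ_[p] K := IsScalarTower.of_algebraMap_eq' rfl
  obtain ⟨C', hC'⟩ := hMAIN p K L B σ 2 g ⊤ ρ x φ C hn ⟨0, fun _ _ => trivial⟩ iso cont hx xn xx
    xr adm hφ hC
  obtain ⟨F, _, _, _, res, hs, hz⟩ := hRES p L
  obtain ⟨V, _, _, R, -⟩ := hRED L B F res hs hz
  obtain ⟨-, hI⟩ := hINT p K L σ
  let ρ' : GL (Fin 2) K →* Module.End L B := ρ.comp Subgroup.topEquiv.symm.toMonoidHom
  have iso' : ∀ h v, ‖ρ' h v‖ = ‖v‖ := fun h v => iso _ v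
  let π := cor11Sub R ρ' iso' x hx fun j h => xr j _
  let τ := π.toRepresentation
  have hτ : ∀ (y : GL (Fin 2) K) (u : π.toSubmodule) (v : B), ‖v‖ ≤ 1 → R.red v = u →
      (τ y u : V) = R.red (ρ' y v) := by
    intro y u v hv hu
    rw [← cor11Rep_red R ρ' iso' y hv, hu]
    rfl
  let Fx : ℕ → Submodule F π.toSubmodule := fun l =>
    { carrier := {u | ∀ y : GL (Fin 2) (integralClosure ℤ_[p] K),
        (∃ X : Matrix (Fin 2) (Fin 2) (integralClosure ℤ_[p] K),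
          (y : Matrix (Fin 2) (Fin 2) (integralClosure ℤ_[p] K)) =
            1 + (p : integralClosure ℤ_[p] K) ^ l • X) →
        τ (Matrix.GeneralLinearGroup.map (algebraMap (integralClosure ℤ_[p] K) K) y) u = u}
      add_mem' := fun ha hb y hy => by rw [map_add, ha y hy, hb y hy]
      zero_mem' := fun y _ => map_zero _
      smul_mem' := fun c u hu y hy => by rw [map_smul, hu y hy] }
  have hlift : ∀ l (u : Fx l), ∃ v, Fix σ ρ x (l + 1) v ∧
      R.red v = (π.toSubmodule.subtype ∘ₗ (Fx l).subtype) u := by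
    intro l u
    obtain ⟨v, hv, hu⟩ := R.red_surj (u.1 : V)
    refine ⟨v, ⟨hv, (cor11_mem R x hx hv).1 (hu ▸ u.1.2), fun h hh => ?_⟩, hu⟩
    obtain ⟨y, ⟨X, hX⟩, hy⟩ := (hI 2 (l + 1) h.val).2 (Nat.le_add_left 1 l) hh
    have h1 := u.2 y ⟨(p : integralClosure ℤ_[p] K) • X, by rw [hX, smul_smul, pow_succ]⟩
    rw [hy] at h1
    refine (cor11_red_eq R ((iso h v).le.trans hv) hv).1 ?_
    rw [hu, ← congrArg Subtype.val h1]
    exact (hτ h.val u.1 v hv hu).symm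
  have hdim : ∀ l, FiniteDimensional F (Fx l) ∧ Module.finrank F (Fx l) ≤
      C' * p ^ (Module.finrank ℚ_[p] K * Nat.choose 2 2 * (l + 1)) := fun l =>
    cor11_dim R _ (Subtype.val_injective.comp Subtype.val_injective) _ (hlift l) _
      fun m v hv hl => hC' (l + 1) m v hv ((hORT L B F V R m v fun i => (hv i).1).2 hl)
  have hfl : IsFiniteLength (MonoidAlgebra F (GL (Fin (1 + 1)) K)) τ.asModule := by
    refine Pool.Agent.P.MP_22cf7a_nt.FL.final all_WUA all_A1 all_EXH all_GR all_LDA all_SCA all_NH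
      all_A7 all_CORE all_INT p K 1 F _ τ Fx (fun l v => Iff.rfl) ?_ ?_ (fun l => (hdim l).1)
      (C' * p ^ Module.finrank ℚ_[p] K) fun l => (hdim l).2.trans (le_of_eq ?_)
    · intro u
      obtain ⟨v, hv, hu⟩ := R.red_surj (u : V)
      obtain ⟨l, hl⟩ := cont v (1 / 2) (by norm_num)
      refine ⟨l, fun y hy => Subtype.ext ?_⟩
      rw [hτ _ u v hv hu, ← hu]
      refine (cor11_red_eq R ((iso' _ v).le.trans hv) hv).2 ?_
      exact (hl ⟨_, trivial⟩ ((hI 2 l _).1 ⟨y, hy, rfl⟩)).trans_lt (by norm_num)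
    · intro z c hzc
      obtain ⟨a, ha, hav⟩ := cen ⟨z, trivial⟩ c hzc
      refine ⟨R.res ⟨a, ha⟩, fun u => Subtype.ext ?_⟩
      obtain ⟨v, hv, hu⟩ := R.red_surj (u : V)
      have hav' : ‖a • v‖ ≤ 1 := by
        rw [norm_smul]
        exact mul_le_one₀ ha (norm_nonneg _) hv
      rw [hτ _ u v hv hu, Submodule.coe_smul, ← hu, ← R.red_smul ⟨a, ha⟩ v hv]
      exact (cor11_red_eq R ((iso' _ v).le.trans hv) hav').2
        (hav v hv ((cor11_mem R x hx hv).1 (hu ▸ u.2)))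
    · simp only [Nat.choose_self, mul_one, mul_add, pow_add]
      ring
  obtain ⟨N, hN⟩ := cor11_chain τ hfl
  refine ⟨N, fun k M hM h1 h2 h3 h4 => ?_⟩
  let S : Fin (k + 1) → Subrepresentation τ := fun i =>
    { toSubmodule :=
        { carrier := {u | ∃ v ∈ M i, R.red v = u}
          add_mem' := by
            rintro a b ⟨v, hv, ha⟩ ⟨v', hv', hb⟩
            exact ⟨v + v', add_mem hv hv', by
              rw [R.red_add _ _ (h2 i v hv).1 (h2 i v' hv').1, ha, hb]; rfl⟩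
          zero_mem' := ⟨0, zero_mem _, (R.red_zero 0 (by simp)).2 (by simp)⟩
          smul_mem' := by
            rintro c u ⟨v, hv, hu⟩
            obtain ⟨c', rfl⟩ := R.res_surj c
            exact ⟨(c' : L) • v, h3 i _ c'.2 v hv, by
              rw [R.red_smul c' v (h2 i v hv).1, hu]; rfl⟩ }
      apply_mem_toSubmodule := by
        rintro y u ⟨v, hv, hu⟩
        exact ⟨ρ' y v, h4 i _ v hv, (hτ y u v (h2 i v hv).1 hu).symm⟩ }
  refine hN k S fun i j hij => lt_of_le_not_ge ?_ fun hle => (hM hij).not_ge fun v hv => ?_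
  · rintro u ⟨v, hv, hu⟩
    exact ⟨v, (hM hij).le hv, hu⟩
  · obtain ⟨v', hv', hu⟩ : (⟨R.red v, (cor11_mem R x hx (h2 j v hv).1).2 (h2 j v hv).2⟩ :
        π.toSubmodule) ∈ S i := hle ⟨v, hv, rfl⟩
    have h5 := h1 i _ ((cor11_red_eq R (h2 j v hv).1 (h2 i v' hv').1).1 hu.symm)
    simpa using add_mem h5 hv'

end Pool.Agent.P.MP_7cb106_nt.GK
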