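import Pool.Agent.P.MP_7cb106_nt.GK.BaseA

/-! Block A: filtrations and the lifting lemma. -/

set_option autoImplicit false

namespace Pool.Agent.P.MP_7cb106_nt.GK

/-- a uniformiser of `L`. Hint: `L` is proper (`FiniteDimensional.proper ℚ_[p] L`), the open unit
ball is closed in the compact closed unit ball (ultrametric), so the norm has a maximum on it;
`‖(p : L)‖ = p⁻¹` by `norm_algebraMap'`. -/
-- deps:
def S_UNI : Prop := ∀ (p : ℕ) [Fact p.Prime] (L : Type) [NormedField L] [NormedAlgebra ℚ_[p] L]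
  [FiniteDimensional ℚ_[p] L] [IsUltrametricDist L],
  ‖(p : L)‖ = (p : ℝ)⁻¹ ∧ ∃ ϖ : L, 0 < ‖ϖ‖ ∧ ‖ϖ‖ < 1 ∧ (∀ c : L, ‖c‖ < 1 → ‖c‖ ≤ ‖ϖ‖) ∧
    ∀ c : L, c ≠ 0 → ‖c‖ ≤ 1 → ∃ k : ℕ, ‖c‖ = ‖ϖ‖ ^ k

/-- the residue field. Hint: quotient of `Ob L` by the ideal of elements of norm `< 1`, which is
maximal; finite because the compact unit ball is covered by finitely many open unit balls. -/
-- deps:
def S_RES : Prop := ∀ (p : ℕ) [Fact p.Prime] (L : Type) [NormedField L] [NormedAlgebra ℚ_[p] L]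
  [FiniteDimensional ℚ_[p] L] [IsUltrametricDist L],
  ∃ (F : Type) (_ : Field F) (_ : Finite F) (_ : CharP F p) (res : Ob L →+* F),
    Function.Surjective res ∧ ∀ c : Ob L, res c = 0 ↔ ‖(c : L)‖ < 1

/-- the reduction of a Banach space. Hint: `V` = (unit ball, a submodule over `Ob L`) modulo (open
unit ball); `F` acts through a section of `res` (`Function.Surjective.moduleLeft` or
`Module.IsTorsionBySet.module`); `red v = 0` outside the ball; `bar a = 0` if `a` is not a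
contraction. -/
-- deps:
def S_RED : Prop := ∀ (L B F : Type) [NormedField L] [IsUltrametricDist L] [NormedAddCommGroup B]
  [NormedSpace L B] [IsUltrametricDist B] [Field F] (res : Ob L →+* F),
  Function.Surjective res → (∀ c : Ob L, res c = 0 ↔ ‖(c : L)‖ < 1) →
  ∃ (V : Type) (_ : AddCommGroup V) (_ : Module F V) (R : Red L B F V), R.res = res

/-- independence modulo the open ball, for a normed space with norms in `‖L‖`. Hint: scale a
relation by a coefficient of largest norm. -/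
-- deps:
def S_ORT : Prop := ∀ (L B F V : Type) [NormedField L] [IsUltrametricDist L] [NormedAddCommGroup B]
  [NormedSpace L B] [IsUltrametricDist B] [Field F] [AddCommGroup V] [Module F V]
  (R : Red L B F V) (m : ℕ) (v : Fin m → B), (∀ i, ‖v i‖ ≤ 1) →
  (Orth L v ↔ LinearIndependent F fun i => R.red (v i))

/-- reordering words. Hint: products of lists of generators which are permutations of each other
agree modulo `Fil (weight + 1)` (`List.Perm` induction, `perm`); `mono b α` is the product of the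
list `flatMap (fun i => replicate (α i) i)`; iterate `span`. -/
-- deps:
def S_MUL : Prop := ∀ (L B ι : Type) [NormedField L] [IsUltrametricDist L] [NormedAddCommGroup B]
  [NormedSpace L B] [Fintype ι] (ϖ : L) (b : ι → Module.End L B) (μ : ι → ℕ) (N : ℕ)
  (Fil : ℕ → Submodule (Ob L) (Module.End L B)), FS ϖ b μ N Fil → FS2 ϖ b μ N Fil

/-- reduction of the filtration. Hint: `bar` is multiplicative on contractions (`red_surj`); for
`kill` use `cont` with `ε = 1/2` and `span_mono`, terms with `k ≥ 1` have norm `≤ ‖ϖ‖`. -/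
-- deps:
def S_KILL : Prop := ∀ (L B ι F V : Type) [NormedField L] [IsUltrametricDist L]
  [NormedAddCommGroup B] [NormedSpace L B] [IsUltrametricDist B] [Fintype ι] [Field F]
  [AddCommGroup V] [Module F V] (R : Red L B F V) (ϖ : L) (b : ι → Module.End L B) (μ : ι → ℕ)
  (N : ℕ) (Fil : ℕ → Submodule (Ob L) (Module.End L B)), ‖ϖ‖ < 1 → FS2 ϖ b μ N Fil →
  (∀ α v, ‖v‖ ≤ 1 → mono (fun i => R.bar (b i)) α (R.red v) = R.red (mono b α v)) ∧
  (∀ (P : MvPolynomial ι (Ob L)) (v : B), ‖v‖ ≤ 1 →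
    ev F (fun i => R.bar (b i)) (MvPolynomial.map R.res P) (R.red v) = R.red (ev (Ob L) b P v)) ∧
  (∀ s, ∀ a ∈ Fil s, ∀ v, ‖v‖ ≤ 1 → R.red v ∈ Vs (fun i => R.bar (b i)) μ s → ‖a v‖ < 1) ∧
  Good (fun i => R.bar (b i)) μ

/-- one round of the descending induction. Hint: `Ψ α = red ((ϖ ^ (k+1))⁻¹ • mono b α v)` for
`wt α = t`; for `wt γ + t' = t`, `t' ≤ D < N` take `w = red ((ϖ ^ (k+1))⁻¹ • mono b γ v)`
(`wt γ ≥ s + k N + 1`); get `u₀ ∈ Vs (t+1)` from `Ext`, lift it and put `u = - ϖ ^ (k+1) • lift`;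
norms `< ‖ϖ‖ ^ (k+1)` are `≤ ‖ϖ‖ ^ (k+2)` by `Unif.le`. -/
-- deps: KILL
def S_LIFT1 : Prop := ∀ (L B ι F V : Type) [NormedField L] [IsUltrametricDist L]
  [NormedAddCommGroup B] [NormedSpace L B] [IsUltrametricDist B] [Fintype ι] [Field F]
  [AddCommGroup V] [Module F V] (R : Red L B F V) (ϖ : L) (b : ι → Module.End L B) (μ : ι → ℕ)
  (N D : ℕ) (Fil : ℕ → Submodule (Ob L) (Module.End L B)), Unif ϖ B → FS2 ϖ b μ N Fil →
  Ext (fun i => R.bar (b i)) μ D → D < N → ∀ (s k t : ℕ) (v : B), s + (k + 1) * N ≤ t →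
  (∀ a ∈ Fil (s + k * N + 1), ‖a v‖ ≤ ‖ϖ‖ ^ (k + 1)) →
  (∀ a ∈ Fil (t + 1), ‖a v‖ ≤ ‖ϖ‖ ^ (k + 2)) →
  ∃ u : B, ‖u‖ ≤ ‖ϖ‖ ^ (k + 1) ∧ (∀ a ∈ Fil (t + 1), ‖a (v + u)‖ ≤ ‖ϖ‖ ^ (k + 2)) ∧
    ∀ α, wt μ α = t → ‖mono b α (v + u)‖ ≤ ‖ϖ‖ ^ (k + 2)

/-- one power of `ϖ`. Hint: start from `cont`, descend with `LIFT1`; for `t ≥ s + (k+1) N + 1` the
two conclusions of `LIFT1` give the bound on `Fil t` by `span_mono t (t+1)` (a term
`ϖ ^ (j+1) • mono b α` is `ϖ •` an element of `Fil (t - N)`); a last round at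
`t = s + (k+1) N`. -/
-- deps: LIFT1
def S_LIFT2 : Prop := ∀ (L B ι F V : Type) [NormedField L] [IsUltrametricDist L]
  [NormedAddCommGroup B] [NormedSpace L B] [IsUltrametricDist B] [Fintype ι] [Field F]
  [AddCommGroup V] [Module F V] (R : Red L B F V) (ϖ : L) (b : ι → Module.End L B) (μ : ι → ℕ)
  (N D : ℕ) (Fil : ℕ → Submodule (Ob L) (Module.End L B)), Unif ϖ B → FS2 ϖ b μ N Fil →
  Ext (fun i => R.bar (b i)) μ D → D < N → ∀ (s k : ℕ) (v : B),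
  (∀ a ∈ Fil (s + k * N + 1), ‖a v‖ ≤ ‖ϖ‖ ^ (k + 1)) →
  ∃ u : B, ‖u‖ ≤ ‖ϖ‖ ^ (k + 1) ∧
    (∀ a ∈ Fil (s + (k + 1) * N + 1), ‖a (v + u)‖ ≤ ‖ϖ‖ ^ (k + 2)) ∧
    ∀ α, s + (k + 1) * N ≤ wt μ α → ‖mono b α (v + u)‖ ≤ ‖ϖ‖ ^ (k + 2)

/-- the lifting lemma. Hint: `v 0` any lift (`KILL` and `Unif.le` give the clause `k = 0`),
`v (k+1) = v k + u k`, Cauchy, `‖v - v (k+1)‖ ≤ ‖ϖ‖ ^ (k+2)`, elements of `Fil` are
contractions. -/
-- deps: KILL LIFT2
def S_LIFT : Prop := ∀ (L B ι F V : Type) [NormedField L] [IsUltrametricDist L]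
  [NormedAddCommGroup B] [NormedSpace L B] [IsUltrametricDist B] [CompleteSpace B] [Fintype ι]
  [Field F] [AddCommGroup V] [Module F V] (R : Red L B F V) (ϖ : L) (b : ι → Module.End L B)
  (μ : ι → ℕ) (N D : ℕ) (Fil : ℕ → Submodule (Ob L) (Module.End L B)), Unif ϖ B →
  FS2 ϖ b μ N Fil → Ext (fun i => R.bar (b i)) μ D → D < N → Lift R ϖ b μ N Fil

/-- strictly convex weights exist. Hint: differences `d J = a (p-1) p ^ (J / e) (e + J % e)`,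
`w 0 = a ∑ j < e, (e + j)`, `w (J+1) = w J + d J`. Second part: the letter weights,
`lam J = (fun x => min (p x) (x + N'))^[J / e] (w (J % e))`. -/
-- deps:
def S_W : Prop := ∀ p e : ℕ, 2 ≤ p → 0 < e → (∀ a, 0 < a → ∃ w, Wt p e a w) ∧
  ∀ (a N' : ℕ) (w : ℕ → ℕ), Wt p e a w → (∀ j < e, w j < N') → ∃ lam, Lam p e N' w lam

/-- the easy properties of `FilG`. Hint for `perm`:
`ρ u ρ h - ρ h ρ u = (ρ (u h u⁻¹ h⁻¹) - 1) (1 + (ρ (h u) - 1))` and
`lam (j + j' + e + 1) > lam (max j j' + e) ≥ w j + w j'`. -/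
-- deps:
def S_FS1 : Prop := ∀ (p e a : ℕ) (L B G ι : Type) [NormedField L] [IsUltrametricDist L]
  [NormedAddCommGroup B] [NormedSpace L B] [IsUltrametricDist B] [Group G] (g : ℕ)
  (Γ : ℕ → Subgroup G) (γ : ι → G) (lev : ι → ℕ) (ρ : G →* Module.End L B)
  (x : Fin g → Module.End L B) (ϖ : L) (w lam : ℕ → ℕ) (N N' Nx : ℕ), 2 ≤ p →
  GD p e Γ γ lev → Rp Γ ρ x → Wt p e a w → Lam p e N' w lam → (∀ j < e, w j < N') → 0 < Nx →
  ‖ϖ‖ < 1 →
  (∀ i, 0 < muG g w lev Nx i) ∧ Antitone (FilG ϖ Γ ρ x lam N Nx) ∧ 1 ∈ FilG ϖ Γ ρ x lam N Nx 0 ∧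
  (∀ (t u : ℕ) (c c' : Module.End L B), c ∈ FilG ϖ Γ ρ x lam N Nx t →
    c' ∈ FilG ϖ Γ ρ x lam N Nx u → c * c' ∈ FilG ϖ Γ ρ x lam N Nx (t + u)) ∧
  (∀ i, bG ρ γ x i ∈ FilG ϖ Γ ρ x lam N Nx (muG g w lev Nx i)) ∧
  (∀ (t : ℕ) (c : Module.End L B), c ∈ FilG ϖ Γ ρ x lam N Nx t →
    ϖ • c ∈ FilG ϖ Γ ρ x lam N Nx (t + N)) ∧
  (∀ (t : ℕ) (c : Module.End L B), c ∈ FilG ϖ Γ ρ x lam N Nx t → ∀ v, ‖c v‖ ≤ ‖v‖) ∧
  ∀ i j, bG ρ γ x i * bG ρ γ x j - bG ρ γ x j * bG ρ γ x i ∈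
    FilG ϖ Γ ρ x lam N Nx (muG g w lev Nx i + muG g w lev Nx j + 1)

/-- every letter is a combination of words in the generators up to higher weight. Hint: let `P t`
be the span on the right; `P t * P u ≤ P (t+u)`, `P t ≤ FilG t`; `ρ (γ i ^ p ^ m) - 1` lies in
`P (lam (lev i + e m))` by induction on `m` (`(1+y)^p - 1 = y^p + p y z`, `z` a polynomial in `y`,
`p = c ϖ ^ (e a)` with `c ∈ Ob L`); the `h ∈ Γ J` with `ρ h - 1 ∈ P (lam J) ⊔ FilG (lam J + 1)`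
are closed under products; then induction on the word. -/
-- deps: FS1
def S_FS2 : Prop := ∀ (p e a : ℕ) (L B G ι : Type) [NormedField L] [IsUltrametricDist L]
  [NormedAddCommGroup B] [NormedSpace L B] [IsUltrametricDist B] [Group G] (g : ℕ)
  (Γ : ℕ → Subgroup G) (γ : ι → G) (lev : ι → ℕ) (ρ : G →* Module.End L B)
  (x : Fin g → Module.End L B) (ϖ : L) (w lam : ℕ → ℕ) (N Nx : ℕ), p.Prime →
  GD p e Γ γ lev → Rp Γ ρ x → Wt p e a w → Lam p e (e * a * N) w lam →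
  (∀ j < e, w j < e * a * N) → 0 < Nx → 0 < ‖ϖ‖ → ‖ϖ‖ < 1 → ‖(p : L)‖ = ‖ϖ‖ ^ (e * a) →
  ∀ t, FilG ϖ Γ ρ x lam N Nx t ≤ Submodule.span (Ob L) {c | ∃ (k : ℕ) (l : List (ι ⊕ Fin g)),
    t ≤ k * N + (l.map (muG g w lev Nx)).sum ∧ c = ϖ ^ k • (l.map (bG ρ γ x)).prod} ⊔
      FilG ϖ Γ ρ x lam N Nx (t + 1)

/-- continuity of the filtration. Hint: words of large weight contain a deep letter or many
letters; downward induction on the level, or fixed vectors of finite `p`-groups. -/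
-- deps:
def S_FS3 : Prop := ∀ (p e : ℕ) (L B G ι : Type) [NormedField L] [IsUltrametricDist L]
  [NormedAddCommGroup B] [NormedSpace L B] [IsUltrametricDist B] [Group G] [Fintype ι] (g : ℕ)
  (Γ : ℕ → Subgroup G) (γ : ι → G) (lev : ι → ℕ) (ρ : G →* Module.End L B)
  (x : Fin g → Module.End L B) (ϖ : L) (lam : ℕ → ℕ) (N Nx : ℕ), p.Prime → 0 < e →
  GD p e Γ γ lev → Rp Γ ρ x → Monotone lam → Unif ϖ B → ‖(p : L)‖ ≤ ‖ϖ‖ →
  ∀ (v : B) (ε : ℝ), 0 < ε → ∃ T, ∀ c ∈ FilG ϖ Γ ρ x lam N Nx T, ‖c v‖ ≤ ε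

end Pool.Agent.P.MP_7cb106_nt.GK
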