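import Pool.Agent.P.MP_7cb106_nt.GK.BaseB

/-! Block B, first half: the field `K` and the congruence subgroups. -/

set_option autoImplicit false

namespace Pool.Agent.P.MP_7cb106_nt.GK

open Filter Topology

/-- Hint: `a` = least positive `k` with `‖σ z‖ = ‖ϖ‖ ^ k` for some `z` (exists: `z = p`,
`norm_p_eq`); division with remainder shows that every `‖σ z‖ ≤ 1`, `z ≠ 0`, is a power of
`‖σ u‖`; the residues of the `σ z`, `‖σ z‖ ≤ 1`, form a subfield `k` of `F`; `τ` lifts a basis of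
`k` over `ZMod p`; `FiniteField.pow_card`. -/
-- deps:
def S_KD : Prop := ∀ (p : ℕ) [Fact p.Prime] (K L F : Type) [Field K] [Algebra ℚ_[p] K]
  [NormedField L] [NormedAlgebra ℚ_[p] L] [IsUltrametricDist L] [Field F] [Finite F] [CharP F p]
  (σ : K →ₐ[ℚ_[p]] L) (ϖ : L) (res : Ob L →+* F), 0 < ‖ϖ‖ → ‖ϖ‖ < 1 →
  (∀ c : L, c ≠ 0 → ‖c‖ ≤ 1 → ∃ k : ℕ, ‖c‖ = ‖ϖ‖ ^ k) → (∀ c : Ob L, res c = 0 ↔ ‖(c : L)‖ < 1) →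
  ∃ (e f₀ a : ℕ) (u : K) (τ : Fin f₀ → K), KD σ ϖ e f₀ a u τ

/-- matrices close to `1` are invertible. Hint: `‖σ (det (1 + X)) - 1‖ < 1`, the adjugate is
integral, `h⁻¹ - 1 = - h⁻¹ X`. -/
-- deps:
def S_GM : Prop := ∀ (p : ℕ) [Fact p.Prime] (K L : Type) [Field K] [Algebra ℚ_[p] K]
  [NormedField L] [NormedAlgebra ℚ_[p] L] [IsUltrametricDist L] (σ : K →ₐ[ℚ_[p]] L) (n : ℕ)
  (c : ℝ), 0 ≤ c → c < 1 →
  (∀ X : Mat n K, Sm σ c X → ∃ h : GL (Fin n) K, h.val = 1 + X) ∧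
  ∀ h : GL (Fin n) K, Sm σ c (h.val - 1) → Sm σ c ((h⁻¹).val - 1)

/-- the congruence subgroups and the generators exist -/
-- deps: GM
def S_GD0 : Prop := ∀ (p : ℕ) [Fact p.Prime] (K L : Type) [Field K] [Algebra ℚ_[p] K]
  [NormedField L] [NormedAlgebra ℚ_[p] L] [IsUltrametricDist L] (σ : K →ₐ[ℚ_[p]] L) (ϖ : L)
  (n e f₀ a J₀ : ℕ) (u : K) (τ : Fin f₀ → K) (U : Subgroup (GL (Fin n) K)),
  KD σ ϖ e f₀ a u τ → 1 ≤ J₀ → (∀ h : GL (Fin n) K, Sm σ (‖σ u‖ ^ J₀) (h.val - 1) → h ∈ U) →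
  ∃ (Γ : ℕ → Subgroup U) (γ : Fin n × Fin n × Fin e × Fin f₀ → U),
    (∀ J (h : U), h ∈ Γ J ↔ Sm σ (‖σ u‖ ^ (J₀ + J)) (h.val.val - 1)) ∧
    ∀ c d j t, (γ (c, d, j, t)).val.val = 1 + Matrix.single c d (u ^ (J₀ + j.val) * τ t)

/-- conjugates, commutators, powers. Hint: `h h' h⁻¹ h'⁻¹ - 1 = (X X' - X' X) h⁻¹ h'⁻¹` for
`h = 1 + X`, `h' = 1 + X'`; `(1 + X) ^ p = 1 + X ^ p + p (...)` (`Commute.add_pow_prime_eq` or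
the binomial formula), `‖σ p‖ = ‖σ u‖ ^ e`. -/
-- deps: GM
def S_GD1 : Prop := ∀ (p : ℕ) [Fact p.Prime] (K L : Type) [Field K] [Algebra ℚ_[p] K]
  [NormedField L] [NormedAlgebra ℚ_[p] L] [IsUltrametricDist L] (σ : K →ₐ[ℚ_[p]] L) (ϖ : L)
  (n e f₀ a J₀ : ℕ) (u : K) (τ : Fin f₀ → K) (U : Subgroup (GL (Fin n) K)) (Γ : ℕ → Subgroup U),
  KD σ ϖ e f₀ a u τ → e + 1 ≤ J₀ →
  (∀ J (h : U), h ∈ Γ J ↔ Sm σ (‖σ u‖ ^ (J₀ + J)) (h.val.val - 1)) →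
  Antitone Γ ∧ (∀ J, ∀ h ∈ Γ J, ∀ y ∈ Γ 0, y * h * y⁻¹ ∈ Γ J) ∧
  (∀ J J', ∀ h ∈ Γ J, ∀ h' ∈ Γ J', h * h' * h⁻¹ * h'⁻¹ ∈ Γ (J + J' + e + 1)) ∧
  ∀ J, ∀ h ∈ Γ J, h ^ p ∈ Γ (J + e)

/-- powers of elementary matrices, and the logarithm. Hint: if `‖σ z‖ ≤ r ^ i`, `i ≥ e + 1`, then
`‖σ ((1+z)^p - 1 - p z)‖ ≤ r ^ (i+e+1)`; better `≤ r ^ (i + e) * r ^ (i - e)`, so the sequence
`(p^m)⁻¹ ((1+z)^(p^m) - 1)` is Cauchy; the range of `σ` is a finite dimensional, so closed,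
`ℚ_[p]`-subspace of the complete field `L`. -/
-- deps:
def S_POW : Prop := ∀ (p : ℕ) [Fact p.Prime] (K L : Type) [Field K] [Algebra ℚ_[p] K]
  [FiniteDimensional ℚ_[p] K] [NormedField L] [NormedAlgebra ℚ_[p] L] [IsUltrametricDist L]
  [CompleteSpace L] (σ : K →ₐ[ℚ_[p]] L) (r : ℝ) (e : ℕ), 0 < r → r < 1 → r ^ e = (p : ℝ)⁻¹ →
  (∀ (n : ℕ) (c d : Fin n) (z : K) (k : ℕ), (1 + Matrix.single c d z : Mat n K) ^ k =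
    1 + Matrix.single c d (if c = d then (1 + z) ^ k - 1 else k * z)) ∧
  ∀ (i : ℕ) (z : K), e + 1 ≤ i → ‖σ z‖ ≤ r ^ i →
    (∀ m : ℕ, ‖σ ((1 + z) ^ p ^ m - 1 - (p : K) ^ m * z)‖ ≤ r ^ (i + e * m + 1)) ∧
    ∃ y : K, ‖σ (y - z)‖ ≤ r ^ (i + 1) ∧
      Tendsto (fun m : ℕ => ‖σ (((p : K) ^ m)⁻¹ * ((1 + z) ^ p ^ m - 1) - y)‖) atTop (𝓝 0)

/-- the generators generate. Hint: `J = j + e m`; the set of matrices `X` small of order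
`r ^ (J₀+J)` such that every `h ∈ Γ J` with `h - 1 - X` small of order `r ^ (J₀+J+1)` lies in the
closure is closed under sums (given witnesses) and contains `single c d (p ^ m u ^ (J₀+j) τ t)`;
apply `KD.span` to the entries of `(p ^ m u ^ (J₀+j))⁻¹ (h - 1)`, `KD.max`. -/
-- deps: GM GD1 POW
def S_GD2 : Prop := ∀ (p : ℕ) [Fact p.Prime] (K L : Type) [Field K] [Algebra ℚ_[p] K]
  [FiniteDimensional ℚ_[p] K] [NormedField L] [NormedAlgebra ℚ_[p] L] [IsUltrametricDist L]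
  [CompleteSpace L] (σ : K →ₐ[ℚ_[p]] L) (ϖ : L)
  (n e f₀ a J₀ : ℕ) (u : K) (τ : Fin f₀ → K) (U : Subgroup (GL (Fin n) K)) (Γ : ℕ → Subgroup U)
  (γ : Fin n × Fin n × Fin e × Fin f₀ → U), KD σ ϖ e f₀ a u τ → e + 1 ≤ J₀ →
  (∀ J (h : U), h ∈ Γ J ↔ Sm σ (‖σ u‖ ^ (J₀ + J)) (h.val.val - 1)) →
  (∀ c d j t, (γ (c, d, j, t)).val.val = 1 + Matrix.single c d (u ^ (J₀ + j.val) * τ t)) →
  GD p e Γ γ fun i => i.2.2.1.val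

/-- orthogonality. Hint: take `i₀ = (j, t)` maximising `‖c i‖ r ^ j`; the values `‖c i‖` are
integral powers of `p = r ^ (-e)`, so the maximising indices have the same `j`; divide by
`c i₀ u ^ (J₀+j)`, approximate the `p`-adic integers `c (j,t) / c i₀` by natural numbers
(`PadicInt.appr` or `zmodRepr`), `KD.indep`. -/
-- deps:
def S_OB1 : Prop := ∀ (p : ℕ) [Fact p.Prime] (K L : Type) [Field K] [Algebra ℚ_[p] K]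
  [NormedField L] [NormedAlgebra ℚ_[p] L] [IsUltrametricDist L] (σ : K →ₐ[ℚ_[p]] L) (ϖ : L)
  (e f₀ a J₀ : ℕ) (u : K) (τ : Fin f₀ → K) (y : Fin e × Fin f₀ → K), KD σ ϖ e f₀ a u τ →
  (∀ i, ‖σ (y i - u ^ (J₀ + i.1.val) * τ i.2)‖ ≤ ‖σ u‖ ^ (J₀ + i.1.val + 1)) →
  ∀ (c : Fin e × Fin f₀ → ℚ_[p]) (i : Fin e × Fin f₀),
    ‖c i‖ * ‖σ u‖ ^ (J₀ + i.1.val) ≤ ‖σ (∑ i', c i' • y i')‖

/-- orthogonal bases. Hint: if `‖σ z‖ ≤ r ^ (J₀+J)` there is `s` in the span with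
`‖σ (z - s)‖ ≤ r ^ (J₀+J+1)` (`KD.span` for `z / (p ^ (J/e) u ^ (J₀ + J % e))`); the image of the
span in `L` is closed (`Submodule.closed_of_finiteDimensional`); scale `z` by a power of `p`. -/
-- deps: OB1
def S_OB : Prop := ∀ (p : ℕ) [Fact p.Prime] (K L : Type) [Field K] [Algebra ℚ_[p] K]
  [NormedField L] [NormedAlgebra ℚ_[p] L] [IsUltrametricDist L] (σ : K →ₐ[ℚ_[p]] L) (ϖ : L)
  (e f₀ a J₀ : ℕ) (u : K) (τ : Fin f₀ → K) (y : Fin e × Fin f₀ → K), KD σ ϖ e f₀ a u τ →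
  (∀ i, ‖σ (y i - u ^ (J₀ + i.1.val) * τ i.2)‖ ≤ ‖σ u‖ ^ (J₀ + i.1.val + 1)) →
  ∃ bs : Module.Basis (Fin e × Fin f₀) ℚ_[p] K, (∀ i, bs i = y i) ∧
    (∀ i, ‖σ (bs i)‖ ≤ ‖σ u‖ ^ (J₀ + i.1.val)) ∧
    ∀ z i, ‖bs.repr z i‖ * ‖σ u‖ ^ (J₀ + i.1.val) ≤ ‖σ z‖

/-- the dual bases. Hint: `trace (traceDual i * z) = repr z i`; let `β₀` be the element of largest
absolute value among the `traceDual (j,t) * u ^ (J₀+j)`; then `‖trace (β₀ z)‖ < 1` for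
`‖σ z‖ < 1`; `β = β₀ / u ^ J₀`; pair a relation with `bs (j,t)`. -/
-- deps:
def S_DUAL : Prop := ∀ (p : ℕ) [Fact p.Prime] (K L : Type) [Field K] [Algebra ℚ_[p] K]
  [FiniteDimensional ℚ_[p] K] [NormedField L] [NormedAlgebra ℚ_[p] L] [IsUltrametricDist L]
  (σ : K →ₐ[ℚ_[p]] L) (e f₀ J₀ : ℕ) (u : K) (bs : Bool → Module.Basis (Fin e × Fin f₀) ℚ_[p] K),
  0 < e → 0 < f₀ → u ≠ 0 → (∀ s i, ‖σ (bs s i)‖ ≤ ‖σ u‖ ^ (J₀ + i.1.val)) →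
  (∀ s z i, ‖(bs s).repr z i‖ * ‖σ u‖ ^ (J₀ + i.1.val) ≤ ‖σ z‖) →
  ∃ (β : K) (ζ : Bool → Fin e → Fin f₀ → K), β ≠ 0 ∧ (∀ s j t, ‖σ (ζ s j t)‖ ≤ 1) ∧
    (∀ s j t, (bs s).traceDual (j, t) = β * (u ^ j.val)⁻¹ * ζ s j t) ∧
    ∀ s j (c : Fin f₀ → ℕ), ‖σ (∑ t, (c t : K) * ζ s j t)‖ < 1 → ∀ t, p ∣ c t

/-- change of basis in the `σ`-component. Hint: expand `ω k` in the basis `bs`;
`bs.repr (ω k) i = trace (bs.traceDual i * ω k) = ω.traceDual.repr (bs.traceDual i) k`. -/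
-- deps:
def S_BC : Prop := ∀ (p : ℕ) [Fact p.Prime] (K L B ι ι' : Type) [Field K] [Algebra ℚ_[p] K]
  [FiniteDimensional ℚ_[p] K] [NormedField L] [NormedAlgebra ℚ_[p] L] [NormedAddCommGroup B]
  [NormedSpace L B] [Fintype ι] [DecidableEq ι] [Fintype ι'] [DecidableEq ι']
  (σ : K →ₐ[ℚ_[p]] L) (ω : Module.Basis ι ℚ_[p] K) (bs : Module.Basis ι' ℚ_[p] K) (δ : K →+ B),
  (∀ (c : ℚ_[p]) (z : K), δ (c • z) = algebraMap ℚ_[p] L c • δ z) →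
  ∑ k, σ (ω.traceDual k) • δ (ω k) = ∑ i, σ (bs.traceDual i) • δ (bs i)

/-- an approximately additive map has a derivative. Hint: `‖Φ (k • X) - k • Φ X‖ ≤ A c ^ 2` for
natural `k`; `(p^m)⁻¹ Φ (p^m X)` is Cauchy; the limit `δ` is additive, `‖δ X‖ ≤ A ν X`, hence
linear over `ℤ_[p]` (density of `ℕ`) and over `ℚ_[p]`. -/
-- deps:
def S_DEL2 : Prop := ∀ (p : ℕ) [Fact p.Prime] (Λ L B : Type) [AddCommGroup Λ] [Module ℚ_[p] Λ]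
  [NormedField L] [NormedAlgebra ℚ_[p] L] [NormedAddCommGroup B] [NormedSpace L B]
  [IsUltrametricDist B] [CompleteSpace B] (ν : Λ → ℝ) (Φ : Λ → B) (A c₀ : ℝ), 0 < c₀ →
  (∀ X, 0 ≤ ν X) → (∀ X Y, ν (X + Y) ≤ max (ν X) (ν Y)) →
  (∀ (c : ℚ_[p]) (X : Λ), ν (c • X) = ‖c‖ * ν X) →
  (∀ c, 0 < c → c ≤ c₀ → ∀ X Y, ν X ≤ c → ν Y ≤ c →
    ‖Φ X‖ ≤ A * c ∧ ‖Φ (X + Y) - Φ X - Φ Y‖ ≤ A * c ^ 2) →
  ∃ δ : Λ →+ B, (∀ (c : ℚ_[p]) (X : Λ), δ (c • X) = algebraMap ℚ_[p] L c • δ X) ∧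
    ∀ (X : Λ) (Xs : ℕ → Λ), Tendsto (fun m => ν (Xs m - X)) atTop (𝓝 0) →
      Tendsto (fun m : ℕ => ((p : L) ^ m)⁻¹ • Φ (((p : ℚ_[p]) ^ m) • Xs m)) atTop (𝓝 (δ X))

/-- the derivative of a Lipschitz vector. Hint: `DEL2` with `ν X = ‖fun i j => σ (X i j)‖` and
`Φ X = ρ (el U (1 + X)) v - v`; `(1+X)(1+Y) = (1+X+Y)(1+Z)` with `Z = (1+X+Y)⁻¹ X Y` small of
order `c ^ 2`; `el_val`, `el_self`; `Tendsto.limUnder_eq`. -/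
-- deps: GM DEL2
def S_DEL : Prop := ∀ (p : ℕ) [Fact p.Prime] (K L B : Type) [Field K] [Algebra ℚ_[p] K]
  [NormedField L] [NormedAlgebra ℚ_[p] L] [IsUltrametricDist L] [NormedAddCommGroup B]
  [NormedSpace L B] [IsUltrametricDist B] [CompleteSpace B] (σ : K →ₐ[ℚ_[p]] L) (n : ℕ)
  (U : Subgroup (GL (Fin n) K)) (ρ : U →* Module.End L B) (v : B), (∀ h w, ‖ρ h w‖ = ‖w‖) →
  Lip σ ρ v → ∃ δ : Mat n K →+ B,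
    (∀ (c : ℚ_[p]) (X : Mat n K), δ (c • X) = algebraMap ℚ_[p] L c • δ X) ∧
    (∀ X, dX p ρ X v = δ X) ∧
    ∀ (h : U) (X : Mat n K), (∀ i j, Tendsto (fun m : ℕ =>
        ‖σ ((((p : K) ^ m)⁻¹ • ((h ^ p ^ m).val.val - 1) - X) i j)‖) atTop (𝓝 0)) →
      Tendsto (fun m : ℕ => ((p : L) ^ m)⁻¹ • (ρ (h ^ p ^ m) v - v)) atTop (𝓝 (δ X))

/-- bounded vectors are Lipschitz and analytic. Hint: for `c ≤ r ^ J₀` take the largest `J` with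
`c ≤ r ^ (J₀+J)`; `θ ^ lam J ≤ θ ^ (N' (J/e) - c') ≤ θ ^ (-c') p r ^ J`. For `An` take `l` with
`p ^ (-l) ≤ r ^ J₀`, all letters lie in `Fil 1`. -/
-- deps:
def S_LIP : Prop := ∀ (p : ℕ) [Fact p.Prime] (K L B : Type) [Field K] [Algebra ℚ_[p] K]
  [NormedField L] [NormedAlgebra ℚ_[p] L] [IsUltrametricDist L] [NormedAddCommGroup B]
  [NormedSpace L B] (σ : K →ₐ[ℚ_[p]] L) (n g e N' J₀ : ℕ) (U : Subgroup (GL (Fin n) K))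
  (ρ : U →* Module.End L B) (x : Fin g → Module.End L B) (Γ : ℕ → Subgroup U) (w lam : ℕ → ℕ)
  (Fil : ℕ → Submodule (Ob L) (Module.End L B)) (r θ M : ℝ) (v : B), 0 < r → r < 1 → 0 < e →
  r ^ e = (p : ℝ)⁻¹ → 0 < θ → θ < 1 → θ ^ N' = (p : ℝ)⁻¹ → 1 ≤ J₀ →
  (∀ h : GL (Fin n) K, Sm σ (r ^ J₀) (h.val - 1) → h ∈ U) →
  (∀ J (h : U), h ∈ Γ J ↔ Sm σ (r ^ (J₀ + J)) (h.val.val - 1)) → Lam p e N' w lam →
  Antitone Fil → 1 ∈ Fil 0 →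
  (∀ (t t' : ℕ) (c c' : Module.End L B), c ∈ Fil t → c' ∈ Fil t' → c * c' ∈ Fil (t + t')) →
  (∀ J, ∀ h ∈ Γ J, ρ h - 1 ∈ Fil (lam J)) → (∀ j, x j ∈ Fil 1) → Bd Fil θ v M →
  Lip σ ρ v ∧ An σ ρ x v

end Pool.Agent.P.MP_7cb106_nt.GK
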