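import Pool.Agent.P.MP_7cb106_nt.GK.BaseI

/-! Block C: from the relations to the growth bound. -/

set_option autoImplicit false

namespace Pool.Agent.P.MP_7cb106_nt.GK

open Matrix

/-- vanishing sums of principal minors give nilpotency. Hint: `Matrix.charpoly_coeff_eq_sum_minors`
(or expand `det (u + M)` with `Finset.prod_add`), Cayley-Hamilton. Also naturality of `Ek`. -/
-- deps:
def S_NIL : Prop :=
  (∀ (n : ℕ) (R : Type) [CommRing R] (M : Mat n R), (∀ k, 1 ≤ k → k ≤ n → Ek M k = 0) →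
    IsNilpotent M) ∧
  ∀ (n : ℕ) (R R' : Type) [CommRing R] [CommRing R'] (φ : R →+* R') (M : Mat n R) (k : ℕ),
    Ek (M.map φ) k = φ (Ek M k)

/-- The whole of block C. -/
-- deps: GER NIL
def S_CC : Prop := ∀ (p : ℕ) [Fact p.Prime] (n e f₀ g : ℕ) [NeZero e] (F V : Type) [Field F]
  [Finite F] [CharP F p] [AddCommGroup V] [Module F V], 0 < f₀ →
  ∀ (β : Ix n e f₀ g → Module.End F V) (μ : Ix n e f₀ g → ℕ), Good β μ →
  Module.Finite F (Vs β μ 1) → (∀ j i, Commute (β (Sum.inr j)) (β i)) →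
  ∀ (z : Fin n → Fin n → Fin e → Fin f₀ → F) (α : F) (J₁ : ℕ),
  (∀ a b j t, z a b j t ^ p ^ f₀ = z a b j t) →
  (∀ a b j (c : Fin f₀ → ℕ), ∑ t, (c t : F) * z a b j t = 0 → ∀ t, p ∣ c t) →
  α ≠ 0 → α ^ p ^ f₀ = α →
  (∀ J, J₁ ≤ J → ∀ k, 1 ≤ k → k ≤ n → ∀ i, ∃ s,
    ((Ek (pen (Ym p (g := g) z α J) (Ym p z α (J + 1))) k).coeff i).IsWeightedHomogeneous μ s ∧
    ∀ v ∈ Vs β μ (s + 1), ev F β ((Ek (pen (Ym p z α J) (Ym p z α (J + 1))) k).coeff i) v = 0) →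
  ∃ C : ℕ, ∀ (s m : ℕ) (v : Fin m → V), LinearIndependent F v →
    (∀ i, v i ∈ Vs β μ s ∧ ∀ j, β (Sum.inr j) (v i) = 0) →
    m ≤ C * (s + 1) ^ (e * f₀ * n.choose 2)

/-- a stable subspace killed by the `m`-th powers of the generators. Hint: a monomial of weight
more than `m ∑ μ` has an exponent `≥ m`; induction along the list. -/
-- deps:
def S_BOX : Prop := ∀ (ι F V : Type) [Fintype ι] [Field F] [AddCommGroup V] [Module F V]
  (β : ι → Module.End F V) (μ : ι → ℕ) (W : Submodule F V) (m : ℕ),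
  (∀ i, ∀ v ∈ W, β i v ∈ W) → (∀ i, ∀ v ∈ W, (β i ^ m) v = 0) → W ≤ Vs β μ (m * ∑ i, μ i + 1)

/-- Extension lemma (Hilbert basis theorem). Hint: choose coordinates `ℓ c` on `V` injective on
`Vs 1` (`c : Fin n₀`); `R` = the `r : Fin n₀ → MvPolynomial ι F` such that for all `t` and
`v ∈ Vs (t+1)` the sum of `ℓ c (ev (weight t part of r c) v)` vanishes: a submodule (by `Good`);
the spans `R D` of its homogeneous elements of weight `≤ D` stabilise. The functional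
`r ↦ ∑ c, ∑ α of weight t, coeff α (r c) * ℓ c (Ψ α)` kills `X ^ γ * r₀` for such `r₀`, so all
homogeneous elements of `R` of weight `t`; by finite dimensional duality `Ψ` is in the range of
`u ↦ (α ↦ mono β α u)`. -/
-- deps:
def S_EXT : Prop := ∀ (ι F V : Type) [Fintype ι] [Field F] [AddCommGroup V] [Module F V]
  (β : ι → Module.End F V) (μ : ι → ℕ), Good β μ → Module.Finite F (Vs β μ 1) →
  ∃ D : ℕ, ∀ (t : ℕ) (Ψ : (ι →₀ ℕ) → V), (∀ α, wt μ α = t → Ψ α ∈ Vs β μ 1) →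
    (∀ (γ : ι →₀ ℕ) (t' : ℕ), t' ≤ D → wt μ γ + t' = t → ∃ w ∈ Vs β μ (t' + 1),
      ∀ α, wt μ α = t' → Ψ (α + γ) = mono β α w) →
    ∃ u ∈ Vs β μ (t + 1), ∀ α, wt μ α = t → mono β α u = Ψ α

end Pool.Agent.P.MP_7cb106_nt.GK
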