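import Pool.Agent.P.MP_7cb106_nt.GK.IfaceB

/-! Block B, second half: expansion of the Lie algebra action and extraction of relations. -/

set_option autoImplicit false

namespace Pool.Agent.P.MP_7cb106_nt.GK

open Filter Topology

/-- binomial coefficients and convexity. Hint: `Nat.Prime.emultiplicity_choose_prime_pow` or
`Nat.factorization_choose_prime_pow`; `choose (p^m) (k+1) * (k+1) = p^m * choose (p^m - 1) k` and
`choose (p^m - 1) k ≡ (-1)^k mod p`; the differences `w (J+1) - w J` increase strictly. -/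
-- deps:
def S_BIN : Prop :=
  (∀ p m i : ℕ, p.Prime → 1 ≤ i → i ≤ p ^ m → ∃ m' c : ℕ, m' ≤ m ∧ i = p ^ m' * c ∧
    p ^ (m - m') ∣ (p ^ m).choose i) ∧
  (∀ p m m' : ℕ, p.Prime → m' ≤ m → ∃ c : ℤ,
    ((p ^ m).choose (p ^ m') : ℤ) = (p : ℤ) ^ (m - m') * (1 + p * c)) ∧
  ∀ (p e a d J : ℕ) (w : ℕ → ℕ), Wt p e a w → w (J + 1) = w J + d → ∀ J',
    w J + d * J' ≤ w J' + d * J ∧ (J' ≠ J → J' ≠ J + 1 → w J + d * J' + 1 ≤ w J' + d * J)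

/-- two leading terms of the logarithm of one generator. Hint: for `m > (J+1)/e` expand
`(1+y)^(p^m) - 1 = ∑ i ∈ [1, p^m], choose • y^i`, `y^i ∈ Fil (i * w j)`; for `i = p^m' c` and
`J' = j + e m'` one has `w J' = p^m' w j`, `‖β u^(-j)‖ p^m' = ‖β u^(-J')‖`, `‖u‖ = θ^(a N)`, so the
term has size `≤ ‖β u^(-J')‖ θ^(w J')`, one more factor `θ` if `c > 1`; convexity (`BIN`) compares
`J'` with `J`; for `c = 1`, `J' ∈ {J, J+1}` use the second part of `BIN` and `p⁻¹ ≤ θ`. Pass to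
the limit: elements of `Fil t` are contractions. -/
-- deps: BIN
def S_EXP1 : Prop := ∀ (p : ℕ) [Fact p.Prime] (L B ι : Type) [NormedField L] [NormedAlgebra ℚ_[p] L]
  [IsUltrametricDist L] [NormedAddCommGroup B] [NormedSpace L B] [IsUltrametricDist B] (ϖ : L)
  (b : ι → Module.End L B) (μ : ι → ℕ) (N e a J j : ℕ) (Fil : ℕ → Submodule (Ob L) (Module.End L B))
  (w : ℕ → ℕ) (θ M : ℝ) (u β : L) (y : Module.End L B) (v z : B), FS ϖ b μ N Fil → Wt p e a w →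
  0 < θ → θ < 1 → θ ^ N = ‖ϖ‖ → ‖u‖ = ‖ϖ‖ ^ a → ‖u‖ ^ e = (p : ℝ)⁻¹ → w (J + 1) = w J + a * N →
  j < e → y ∈ Fil (w j) → Bd Fil θ v M →
  Tendsto (fun m : ℕ => ((p : L) ^ m)⁻¹ • (((1 + y) ^ p ^ m) v - v)) atTop (𝓝 z) →
  Bd Fil θ ((β * (u ^ j)⁻¹) • z -
      (if j = J % e then (β * (u ^ J)⁻¹ * (u ^ e / p) ^ (J / e)) • (y ^ p ^ (J / e)) v else 0) -
      (if j = (J + 1) % e then
        (β * (u ^ (J + 1))⁻¹ * (u ^ e / p) ^ ((J + 1) / e)) • (y ^ p ^ ((J + 1) / e)) v else 0))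
    (‖β * (u ^ J)⁻¹‖ * θ ^ w J * θ * M)

/-- two leading terms of `E c d`. Hint: `δ` from `DEL`; `BC` for `z ↦ δ (single c d z)`; `EXP1` for
`y = ρ (γ (c,d,j,t)) - 1`, multiply by `ζ c d j t` and sum over `(j, t)`; `ev_monomial`,
`mono_single`; `Bd` is stable under sums and scalars of norm `≤ 1`. -/
-- deps: DEL BC EXP1
def S_EOP : Prop := ∀ (p : ℕ) [Fact p.Prime] (K L B : Type) [Field K] [Algebra ℚ_[p] K]
  [FiniteDimensional ℚ_[p] K] [NormedField L] [NormedAlgebra ℚ_[p] L] [IsUltrametricDist L]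
  [NormedAddCommGroup B] [NormedSpace L B] [IsUltrametricDist B] [CompleteSpace B]
  (σ : K →ₐ[ℚ_[p]] L) (n g e f₀ a N J : ℕ) [NeZero e] (U : Subgroup (GL (Fin n) K))
  (ρ : U →* Module.End L B) (x : Fin g → Module.End L B) (γ : Fin n × Fin n × Fin e × Fin f₀ → U)
  (ϖ : L) (μ : Ix n e f₀ g → ℕ) (Fil : ℕ → Submodule (Ob L) (Module.End L B)) (w : ℕ → ℕ)
  (θ M : ℝ) (u β : L) (ζ : Fin n → Fin n → Fin e → Fin f₀ → Ob L) (α : Ob L)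
  (bs : Fin n → Fin n → Module.Basis (Fin e × Fin f₀) ℚ_[p] K) (v : B),
  FS ϖ (bG ρ γ x) μ N Fil → (∀ i, μ (Sum.inl i) = w i.2.2.1.val) → Wt p e a w →
  0 < θ → θ < 1 → θ ^ N = ‖ϖ‖ → ‖u‖ = ‖ϖ‖ ^ a → ‖u‖ ^ e = (p : ℝ)⁻¹ → w (J + 1) = w J + a * N →
  (α : L) = u ^ e / p →
  (∀ c d j t, σ ((bs c d).traceDual (j, t)) = β * (u ^ j.val)⁻¹ * (ζ c d j t : L)) →
  (∀ c d j t i i', Tendsto (fun m : ℕ => ‖σ ((((p : K) ^ m)⁻¹ •
    ((γ (c, d, j, t) ^ p ^ m).val.val - 1) - Matrix.single c d (bs c d (j, t))) i i')‖)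
      atTop (𝓝 0)) →
  (∀ h v', ‖ρ h v'‖ = ‖v'‖) → Bd Fil θ v M → Lip σ ρ v → ∀ c d,
  Bd Fil θ (Eop σ ρ c d v - (β * (u ^ J)⁻¹) • ev (Ob L) (bG ρ γ x) (Ym p ζ α J c d) v -
      (β * (u ^ (J + 1))⁻¹) • ev (Ob L) (bG ρ γ x) (Ym p ζ α (J + 1) c d) v)
    (‖β * (u ^ J)⁻¹‖ * θ ^ w J * θ * M)

/-- homogeneity of the coefficients. Hint: induction on the list,
`coeff (i+1) ((C P + X * C P') * Q) = P * coeff (i+1) Q + P' * coeff i Q`. -/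
-- deps:
def S_HOM : Prop := ∀ (ι A : Type) [CommRing A] (n w₁ d : ℕ) (μ : ι → ℕ)
  (P P' : Mat n (MvPolynomial ι A)), (∀ i j, (P i j).IsWeightedHomogeneous μ w₁) →
  (∀ i j, (P' i j).IsWeightedHomogeneous μ (w₁ + d)) →
  (∀ (l : List (Fin n)) (s : Fin n → Fin n) (i : ℕ),
    ((l.map fun j => pen P P' (s j) j).prod.coeff i).IsWeightedHomogeneous μ
      (l.length * w₁ + i * d) ∧
    (l.length < i → (l.map fun j => pen P P' (s j) j).prod.coeff i = 0)) ∧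
  ∀ k i, ((Ek (pen P P') k).coeff i).IsWeightedHomogeneous μ (k * w₁ + i * d) ∧
    (k < i → (Ek (pen P P') k).coeff i = 0)

/-- products. Hint: for homogeneous `P`, `Q` of weights `t`, `u`: `ev P ∈ Fil t` and
`ev P * ev Q - ev (P * Q) ∈ Fil (t+u+1)` (`ev_eq_sum`, `mono_mul`); if `a ∈ Fil t` and `Bd v M` then
`Bd (a v) (M θ^t)`; induction on the list (`E` is not assumed linear: apply `hE` to the whole
inner vector, which is `Bd _ (κ^len M)`). -/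
-- deps: HOM
def S_PROD : Prop := ∀ (L B ι : Type) [NormedField L] [IsUltrametricDist L]
  [NormedAddCommGroup B] [NormedSpace L B] [IsUltrametricDist B] [Fintype ι] (ϖ : L)
  (b : ι → Module.End L B) (μ : ι → ℕ) (N n w₁ d : ℕ) (Fil : ℕ → Submodule (Ob L) (Module.End L B))
  (θ κ : ℝ) (c₁ c₂ : L) (P P' : Mat n (MvPolynomial ι (Ob L))) (E : Fin n → Fin n → B → B),
  FS2 ϖ b μ N Fil → 0 < θ → θ ≤ 1 → (∀ i j, (P i j).IsWeightedHomogeneous μ w₁) →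
  (∀ i j, (P' i j).IsWeightedHomogeneous μ (w₁ + d)) → ‖c₁‖ * θ ^ w₁ ≤ κ →
  ‖c₂‖ * θ ^ (w₁ + d) ≤ κ → 1 ≤ κ * θ →
  (∀ i j v M, Bd Fil θ v M → Bd Fil θ (E i j v - c₁ • ev (Ob L) b (P i j) v -
    c₂ • ev (Ob L) b (P' i j) v) (κ * θ * M)) →
  ∀ (l : List (Fin n)) (s : Fin n → Fin n) (v : B) (M : ℝ), Bd Fil θ v M →
    Bd Fil θ (l.foldr (fun j w => E (s j) j w - if s j = j then (j : ℕ) • w else 0) v -
      ∑ i ∈ Finset.range (l.length + 1), (c₁ ^ (l.length - i) * c₂ ^ i) •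
        ev (Ob L) b ((l.map fun j => pen P P' (s j) j).prod.coeff i) v) (κ ^ l.length * θ * M)

/-- extraction of the relations. Hint: `s = k w₁ + i a N`, lift `u` to `v` (`Lift`), then
`Bd v (θ^s)⁻¹`; summing `PROD` over `S`, `s` gives
`Cap E k v = ∑ i', c₁^(k-i') c₂^i' • ev (coeff i') v + err`; the terms `i' < i` and `i' > i` (pure
monomial clause with `(i'-i) a`) have norm `≤ κ^k θ^(-s) ‖ϖ‖`; so `‖ev (coeff i) v‖ < 1`; `KILL`. -/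
-- deps: HOM PROD KILL
def S_EXTR : Prop := ∀ (L B ι F V : Type) [NormedField L] [IsUltrametricDist L]
  [NormedAddCommGroup B] [NormedSpace L B] [IsUltrametricDist B] [Fintype ι] [Field F]
  [AddCommGroup V] [Module F V] (R : Red L B F V) (ϖ : L)
  (b : ι → Module.End L B) (μ : ι → ℕ) (N n w₁ a k : ℕ)
  (Fil : ℕ → Submodule (Ob L) (Module.End L B))
  (θ κ : ℝ) (c₁ c₂ : L) (P P' : Mat n (MvPolynomial ι (Ob L))) (E : Fin n → Fin n → B → B),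
  FS2 ϖ b μ N Fil → Lift R ϖ b μ N Fil → 0 < θ → θ < 1 → θ ^ N = ‖ϖ‖ → 0 < N → 0 < a →
  (∀ i j, (P i j).IsWeightedHomogeneous μ w₁) →
  (∀ i j, (P' i j).IsWeightedHomogeneous μ (w₁ + a * N)) → ‖c₁‖ * θ ^ w₁ = κ →
  ‖c₂‖ * θ ^ (w₁ + a * N) = κ → 1 ≤ κ * θ →
  (∀ i j v M, Bd Fil θ v M → Bd Fil θ (E i j v - c₁ • ev (Ob L) b (P i j) v -
    c₂ • ev (Ob L) b (P' i j) v) (κ * θ * M)) →
  (∀ v M, 0 < M → Bd Fil θ v M → ‖Cap E k v‖ < κ ^ k * M) →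
  ∀ i, (MvPolynomial.map R.res ((Ek (pen P P') k).coeff i)).IsWeightedHomogeneous μ
      (k * w₁ + i * (a * N)) ∧
    ∀ u ∈ Vs (fun i => R.bar (b i)) μ (k * w₁ + i * (a * N) + 1),
      ev F (fun i => R.bar (b i)) (MvPolynomial.map R.res ((Ek (pen P P') k).coeff i)) u = 0

/-- the size of the power series in `x`. Hint: `xp x β ∈ Fil (Nx * ∑ β)`; with
`A = k N' / Nx`, `m = A t`: `1 + m ≤ (1 + A) max 1 t ≤ (1 + A) 2 ^ t` and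
`θ ^ (Nx m) ≤ 2 ^ (-k t)`; ultrametric bound for the sum. -/
-- deps:
def S_PHI : Prop := ∀ (L B : Type) [NormedField L] [IsUltrametricDist L]
  [NormedAddCommGroup B] [NormedSpace L B] [IsUltrametricDist B] (g k N' Nx : ℕ)
  (x : Fin g → Module.End L B) (Fil : ℕ → Submodule (Ob L) (Module.End L B)) (θ M C : ℝ)
  (φ : (Fin g → ℕ) → L) (v y : B), 0 < θ → θ ≤ 1 → θ ^ N' ≤ 1 / 2 → 0 < Nx → 1 ∈ Fil 0 →
  (∀ (t t' : ℕ) (c c' : Module.End L B), c ∈ Fil t → c' ∈ Fil t' → c * c' ∈ Fil (t + t')) →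
  (∀ j, x j ∈ Fil Nx) → Bd Fil θ v M → (∀ β, ‖φ β‖ ≤ C * (1 + ∑ j, (β j : ℝ)) ^ k) →
  HasSum (fun β => φ β • xp x β v) y → ‖y‖ ≤ C * (1 + k * N' / Nx) ^ k * M

/-- choice of the constants. Hint: `d J = w (J+1) - w J` satisfies `d (J+e) = p d J`, so
`w J ≤ C₀ d J` and `p^(J/e) ≤ d J ≤ C₁ p^(J/e)`; `θ = r ^ (1/N)`, `θ ^ w J ≥ r ^ (a C₀)`,
`((r^a)^J)⁻¹ ≥ p^(J/e)`; so `κ ≥ c e a N` with `c > 0` independent of `J`. -/
-- deps: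
def S_CONST : Prop := ∀ (p e a n : ℕ) (w : ℕ → ℕ) (r b₀ C : ℝ), 2 ≤ p → 0 < e → 0 < a →
  Wt p e a w → 0 < r → r < 1 → (r ^ a) ^ e = (p : ℝ)⁻¹ → 0 < b₀ →
  ∃ Nx : ℕ, 0 < Nx ∧ ∀ D : ℕ, ∃ J₁ : ℕ, ∀ J, J₁ ≤ J → ∃ (N : ℕ) (θ : ℝ),
    w (J + 1) = w J + a * N ∧ 0 < θ ∧ θ < 1 ∧ θ ^ N = r ∧ D < N ∧ (∀ j < e, w j < e * a * N) ∧
    1 ≤ b₀ * ((r ^ a) ^ J)⁻¹ * θ ^ w J * θ ∧ ∀ k, 1 ≤ k → k ≤ n →
      C * (1 + k * ((e * a * N : ℕ) : ℝ) / Nx) ^ k < (b₀ * ((r ^ a) ^ J)⁻¹ * θ ^ w J) ^ k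

end Pool.Agent.P.MP_7cb106_nt.GK
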