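import Mathlib

/-! Block G: a Frobenius twisted Gerstenhaber bound. Definitions and statements. -/

set_option autoImplicit false

namespace Pool.Agent.P.MP_7cb106_nt.GK

open Matrix Polynomial

/-- square matrices -/
abbrev Mat (n : ℕ) (R : Type) := Matrix (Fin n) (Fin n) R

/-- strictly upper triangular -/
def SU {n : ℕ} {R : Type} [Zero R] (N : Mat n R) : Prop := ∀ i j, j ≤ i → N i j = 0

/-- upper triangular -/
def Up {n : ℕ} {R : Type} [Zero R] (N : Mat n R) : Prop := ∀ i j, j < i → N i j = 0

/-- `G`, with inverse `H`, triangularises `y` -/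
def Tri {n : ℕ} {R : Type} [CommRing R] (y G H : Mat n R) : Prop := G * H = 1 ∧ SU (H * y * G)

/-- the map `A ↦ A y - y A` -/
def adM {n : ℕ} {E : Type} [CommRing E] (y : Mat n E) : Mat n E →ₗ[E] Mat n E :=
  LinearMap.mulRight E y - LinearMap.mulLeft E y

theorem adM_apply {n : ℕ} {E : Type} [CommRing E] (y A : Mat n E) : adM y A = A * y - y * A := rfl

/-- dimension of the conjugacy class -/
noncomputable def rk {n : ℕ} {E : Type} [Field E] (y : Mat n E) : ℕ :=
  Module.finrank E (LinearMap.range (adM y))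

/-- the pencil `y + T y'` -/
noncomputable def pen {n : ℕ} {R : Type} [CommRing R] (y y' : Mat n R) : Mat n R[X] :=
  y.map C + (X : R[X]) • y'.map C

/-- Bruhat decomposition. Hint: clear the rows from the bottom; invariant after `k` steps: the last
`k` rows of `b h c` have one nonzero entry each and the columns of these entries vanish elsewhere. -/
-- deps:
def S_BRU : Prop := ∀ (n : ℕ) (E : Type) [Field E] (h h' : Mat n E), h * h' = 1 →
  ∃ (b b' c c' : Mat n E) (w : Equiv.Perm (Fin n)), Up b ∧ Up b' ∧ b * b' = 1 ∧ Up c ∧ Up c' ∧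
    c * c' = 1 ∧ h = b * w.permMatrix E * c

/-- The Liouville form does not depend on the flag. Hint: `h = H G'`, `G' = G h`,
`D G' H' = D G H + G (D h h⁻¹) H`; with `h = b w c`: `D h h⁻¹ = D b b' + b w (D c c') w⁻¹ b'`;
the trace of (strictly upper) times (upper) vanishes; `w⁻¹ b' (H y G) b w = c (H' y G') c'`. -/
-- deps: BRU
def S_ALPHA : Prop := ∀ (n : ℕ) (F E : Type) [CommRing F] [Field E] [Algebra F E]
  (D : Derivation F E E) (y G H G' H' : Mat n E), Tri y G H → Tri y G' H' →
  trace (y * G.map D * H) = trace (y * G'.map D * H')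

/-- A nilpotent endomorphism of a finite free module over a principal ideal domain has a
triangular basis. Hint: induction on the rank: the quotient by `ker θ` is isomorphic to the range,
so free; glue a basis of the kernel and lifts of a triangular basis of the quotient. -/
-- deps:
def S_PIDB : Prop := ∀ (R : Type) [CommRing R] [IsDomain R] [IsPrincipalIdealRing R] (n : ℕ)
  (M : Type) [AddCommGroup M] [Module R M] [Module.Free R M] [Module.Finite R M],
  Module.finrank R M = n → ∀ θ : Module.End R M, IsNilpotent θ →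
  ∃ b : Module.Basis (Fin n) R M, ∀ i, θ (b i) ∈ Submodule.span R (b '' {j | j < i})

/-- matrix form of `PIDB` -/
-- deps: PIDB
def S_PID : Prop := ∀ (R : Type) [CommRing R] [IsDomain R] [IsPrincipalIdealRing R] (n : ℕ)
  (y : Mat n R), IsNilpotent y → ∃ G H, Tri y G H

/-- Jordan basis of a nilpotent endomorphism. Hint: `Module.torsion_by_prime_power_decomposition`
for `Module.AEval' θ` and the prime `X`, or induction on the dimension through `range θ`. -/
-- deps:
def S_JORB : Prop := ∀ (E : Type) [Field E] (M : Type) [AddCommGroup M] [Module E M]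
  [Module.Finite E M] (θ : Module.End E M), IsNilpotent θ →
  ∃ (ι : Type) (_ : Fintype ι) (b : Module.Basis ι E M) (d : ι → ℕ),
    ∀ i, θ (b i) = 0 ∨ ∃ j, d j < d i ∧ θ (b i) = b j

/-- Jordan form: a strictly upper triangular matrix with entries `0`, `1`. Hint: sort the index
set of `JORB` by `d` (`Tuple.sort`). -/
-- deps: JORB
def S_JORD : Prop := ∀ (n : ℕ) (E : Type) [Field E] (y : Mat n E), IsNilpotent y →
  ∃ G H N : Mat n E, G * H = 1 ∧ y = G * N * H ∧ SU N ∧ ∀ i j, N i j = 0 ∨ N i j = 1

/-- reversing a nilpotent pencil over an infinite field. Hint: evaluate `(pen y' y) ^ m` at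
`c ≠ 0`: `y' + c y = c (y + c⁻¹ y')`. Also the three specialisations. -/
-- deps:
def S_REV : Prop := ∀ (n : ℕ) (E : Type) [Field E] [Infinite E] (y y' : Mat n E),
  IsNilpotent (pen y y') →
  IsNilpotent (pen y' y) ∧ IsNilpotent y ∧ IsNilpotent y' ∧ IsNilpotent (y + y')

/-- The Liouville form along a pencil is a polynomial. Hint: `PID` over `E[X]`, `β` is the trace of
`pen y y' * G.map (Derivation.mapCoeffs or coefficientwise D) * H`; evaluation at `c` with `D c = 0`
commutes with `D`; then `ALPHA`. -/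
-- deps: PID ALPHA
def S_BETA : Prop := ∀ (n : ℕ) (F E : Type) [CommRing F] [Field E] [Algebra F E]
  (D : Derivation F E E) (y y' : Mat n E), IsNilpotent (pen y y') →
  ∃ β : E[X], ∀ c : E, D c = 0 → ∀ G H : Mat n E, Tri (y + c • y') G H →
    β.eval c = trace ((y + c • y') * G.map D * H)

/-- Additivity of the Liouville forms. Hint: `β` for `(y, y')`, `β'` for `(y', y)`;
`β'(c) = c β(1/c)` for the infinitely many constants `c ≠ 0` (same `G`, which exists by `PID` over
the field `E`), hence `β = β₀ + β₁ X`, `β' = β₁ + β₀ X` (compare with `Polynomial.reflect`);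
evaluate at `0` and `1`. -/
-- deps: PID REV BETA
def S_ADD : Prop := ∀ (n : ℕ) (F E : Type) [CommRing F] [Field E] [Algebra F E]
  (D : Derivation F E E), {c : E | D c = 0}.Infinite → ∀ y y' : Mat n E, IsNilpotent (pen y y') →
  ∀ G₁ H₁ G₂ H₂ G₃ H₃ : Mat n E, Tri y G₁ H₁ → Tri y' G₂ H₂ → Tri (y + y') G₃ H₃ →
    trace ((y + y') * G₃.map D * H₃) = trace (y * G₁.map D * H₁) + trace (y' * G₂.map D * H₂)

/-- Maurer-Cartan: the differential of the Liouville form is the Kirillov-Kostant form.
Hint: `trace (y * D G * H) = trace (N * (H * D G))`, `D H = - H (D G) H`. -/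
-- deps:
def S_MC : Prop := ∀ (n : ℕ) (F E : Type) [CommRing F] [Field E] [Algebra F E]
  (D₁ D₂ : Derivation F E E) (y G H N : Mat n E), G * H = 1 → y = G * N * H →
  (∀ i j, N i j = 0 ∨ N i j = 1) →
  adM y (G.map D₁ * H) = y.map D₁ ∧
  D₁ (trace (y * G.map D₂ * H)) - D₂ (trace (y * G.map D₁ * H)) -
      trace (y * G.map (⁅D₁, D₂⁆ : Derivation F E E) * H) = - trace (G.map D₁ * H * y.map D₂)

/-- Additivity of the Kirillov-Kostant forms. Hint: Jordan forms of `y`, `y'`, `y + y'` (`H y G = N`
so `Tri`), `ADD` for `D₁`, `D₂`, `⁅D₁, D₂⁆`, `MC`; `trace (A * adM y A₂)` only depends on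
`adM y A`. -/
-- deps: REV JORD ADD MC
def S_KKS : Prop := ∀ (n : ℕ) (F E : Type) [CommRing F] [Field E] [Algebra F E] [Infinite E],
  (∀ D : Derivation F E E, {c : E | D c = 0}.Infinite) → ∀ y y' : Mat n E, IsNilpotent (pen y y') →
  (∀ D : Derivation F E E, y.map D ∈ LinearMap.range (adM y) ∧
    (y + y').map D ∈ LinearMap.range (adM (y + y'))) ∧
  ∀ (D₁ D₂ : Derivation F E E) (A C' : Mat n E), y'.map D₁ = 0 → y'.map D₂ = 0 →
    adM y A = y.map D₁ → adM (y + y') C' = y.map D₁ →
    trace (A * y.map D₂) = trace (C' * y.map D₂)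

/-- Isotropy. Hint: in `M³` let `U` be spanned by `(t, 0, t)`, `t ∈ T`, and
`(adM y X, adM y' X, adM (y+y') X)`; `dim U ≥ dim T + rk y'` (project to the middle factor); the
preimage `U'` of `U` under the product of the three `adM` has dimension
`dim U + 3 n² - rk y - rk y' - rk (y+y')` and is orthogonal to `U` for the nondegenerate form
`tr (A a) + tr (B b) - tr (C c)`, so `dim U' + dim U ≤ 3 n²`. -/
-- deps:
def S_ISO : Prop := ∀ (n : ℕ) (E : Type) [Field E] (y y' : Mat n E) (T : Submodule E (Mat n E)),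
  T ≤ LinearMap.range (adM y) → T ≤ LinearMap.range (adM (y + y')) →
  (∀ t₁ ∈ T, ∀ t₂ ∈ T, ∀ A C' : Mat n E, adM y A = t₁ → adM (y + y') C' = t₁ →
    trace (A * t₂) = trace (C' * t₂)) →
  2 * Module.finrank E T + rk y' ≤ rk y + rk (y + y')

/-- Nilpotent classes have dimension at most `n² - n`; the dimension is unchanged by field
endomorphisms and scalars. Hint: `rk` is invariant under conjugation; for `N` strictly upper,
`adM N` maps upper triangular matrices to strictly upper ones (the diagonal of `adM N A` vanishes),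
so its kernel has dimension at least `n`; `N.map φ = N`. -/
-- deps: JORD
def S_RK : Prop := ∀ (n : ℕ) (E : Type) [Field E] (y : Mat n E), IsNilpotent y →
  rk y + n ≤ n * n ∧ ∀ (φ : E →+* E) (c : E), c ≠ 0 → rk (c • y.map φ) = rk y

/-- Telescoping. Hint: `V j` = derivations killing `y i` for `j ≤ i ≤ f`; `V 0 = ⊥`, `V f = ⊤`;
`D ↦ (y j).map D` on `V (j+1)` has kernel `V j` and range `T j`; `ISO` for `y j`, `y (j+1)`;
induction: `2 dim V j + rk (y j) + j n ≤ rk (y 0) + j n²`. -/
-- deps: REV KKS ISO RK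
def S_TELE : Prop := ∀ (n f : ℕ) (F E : Type) [CommRing F] [Field E] [Algebra F E] [Infinite E],
  (∀ D : Derivation F E E, {c : E | D c = 0}.Infinite) → ∀ (y : ℕ → Mat n E) (φ : E →+* E) (c : E),
  c ≠ 0 → y f = c • (y 0).map φ → (∀ j < f, IsNilpotent (pen (y j) (y (j + 1)))) →
  (∀ D : Derivation F E E, (y f).map D = 0) →
  (∀ D : Derivation F E E, (∀ j < f, (y j).map D = 0) → D = 0) →
  ∀ (r : ℕ) (d : Fin r → Derivation F E E), LinearIndependent E d → 2 * r + f * n ≤ f * (n * n)

/-- Enough derivations. Hint: `exists_isTranscendenceBasis_and_isSeparable_of_perfectField` gives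
`s` with `r ≤ s.card`; the derivations `∂/∂s` extend to `E` (for example `Ω[E⁄F]` has the basis
`d s`: `KaehlerDifferential.mvPolynomialBasis`, localisation and separable extensions are formally
etale, `KaehlerDifferential.tensorKaehlerEquivOfFormallyEtale`; or lift to dual numbers). -/
-- deps:
def S_DER : Prop := ∀ (F E : Type) [Field F] [PerfectField F] [Field E] [Algebra F E] (S : Set E),
  S.Finite → IntermediateField.adjoin F S = ⊤ → ∀ (r : ℕ) (a : Fin r → E),
  AlgebraicIndependent F a → ∃ d : Fin r → Derivation F E E, LinearIndependent E d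

/-- the bound when `E` is generated by the entries. Hint: `r = 0` is trivial (`n ≤ n * n`); else
`E` is infinite, `p`-th powers are killed by every derivation, `φ = iterateFrobenius E p f₀`. -/
-- deps: TELE DER
def S_GER0 : Prop := ∀ (p : ℕ) [Fact p.Prime] (n f f₀ : ℕ) (F E : Type) [Field F] [Finite F]
  [CharP F p] [Field E] [Algebra F E], 0 < f₀ → ∀ (y : ℕ → Mat n E) (c : F), c ≠ 0 →
  (∀ a b, y f a b = c • y 0 a b ^ p ^ f₀) → (∀ j < f, IsNilpotent (pen (y j) (y (j + 1)))) →
  IntermediateField.adjoin F {z | ∃ j < f, ∃ a b, z = y j a b} = ⊤ →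
  ∀ (r : ℕ) (a : Fin r → E), AlgebraicIndependent F a → 2 * r + f * n ≤ f * (n * n)

/-- The twisted Gerstenhaber bound. Hint: let `E₀` be the intermediate field, lift the `y j`
(`j ≤ f`; `f = 0` separately: `E₀ = ⊥`, so `r = 0`) to `E₀`; a transcendence basis of `E₀` over `F`
is one of `E` (`trdeg_add_eq`, `trdeg_eq_zero`), so `E₀` contains `r` independent elements. -/
-- deps: GER0
def S_GER : Prop := ∀ (p : ℕ) [Fact p.Prime] (n f f₀ : ℕ) (F E : Type) [Field F] [Finite F]
  [CharP F p] [Field E] [Algebra F E], 0 < f₀ → ∀ (y : ℕ → Mat n E) (c : F), c ≠ 0 →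
  (∀ a b, y f a b = c • y 0 a b ^ p ^ f₀) → (∀ j < f, IsNilpotent (pen (y j) (y (j + 1)))) →
  (∀ z : E, IsAlgebraic (IntermediateField.adjoin F {z | ∃ j < f, ∃ a b, z = y j a b}) z) →
  ∀ (r : ℕ) (a : Fin r → E), AlgebraicIndependent F a → 2 * r + f * n ≤ f * (n * n)

end Pool.Agent.P.MP_7cb106_nt.GK
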