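import Pool.Agent.P.MP_7cb106_nt.GK.IfaceE

/-! Glue statements. -/

set_option autoImplicit false

namespace Pool.Agent.P.MP_7cb106_nt.GK

open Filter Topology

/-- invariants lie in a bounded step of the filtration. Hint: `bar` is multiplicative and additive
on contractions (`red_surj`, `bar_red`), so `h ↦ bar (ρ h)` is a representation and
`bar (ρ h - 1) = bar (ρ h) - 1`; `W` = vectors of `V` killed by the `bar (x j)` and fixed by
`Γ (e l)`; it is stable (`GD.conj`), `(bar (ρ h) - 1) ^ p ^ l = bar (ρ (h ^ p ^ l)) - 1` in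
characteristic `p` (treat `Subsingleton V` apart), `GD.pow`; then `BOX`. -/
-- deps: BOX
def S_FIN : Prop := ∀ (p e : ℕ) [Fact p.Prime] (L B G ι F V : Type) [NormedField L]
  [IsUltrametricDist L] [NormedAddCommGroup B] [NormedSpace L B] [IsUltrametricDist B] [Group G]
  [Fintype ι] [Field F] [CharP F p] [AddCommGroup V] [Module F V] (R : Red L B F V) (g : ℕ)
  (Γ : ℕ → Subgroup G) (γ : ι → G) (lev : ι → ℕ) (ρ : G →* Module.End L B)
  (x : Fin g → Module.End L B) (μ : ι ⊕ Fin g → ℕ), GD p e Γ γ lev → Rp Γ ρ x →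
  (∀ j i, Commute (R.bar (bG ρ γ x (Sum.inr j))) (R.bar (bG ρ γ x i))) ∧
  ∀ (l : ℕ) (v : B), ‖v‖ ≤ 1 → (∀ j, ‖x j v‖ < 1) → (∀ h ∈ Γ (e * l), ‖ρ h v - v‖ < 1) →
    R.red v ∈ Vs (fun i => R.bar (bG ρ γ x i)) μ (p ^ l * ∑ i, μ i + 1) ∧
    ∀ j, R.bar (bG ρ γ x (Sum.inr j)) (R.red v) = 0

/-- the adapted bases of `K`. Hint: `y true (j,t)` = the logarithm from `POW` for
`z = u ^ (J₀+j) * τ t`, `y false (j,t) = z`; `OB` twice, `DUAL`; `bs c d` = the basis for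
`decide (c = d)`; first part of `POW` for the powers of `γ`. -/
-- deps: POW OB DUAL
def S_XB : Prop := ∀ (p : ℕ) [Fact p.Prime] (K L : Type) [Field K] [Algebra ℚ_[p] K]
  [FiniteDimensional ℚ_[p] K] [NormedField L] [NormedAlgebra ℚ_[p] L] [IsUltrametricDist L]
  [CompleteSpace L] (σ : K →ₐ[ℚ_[p]] L) (ϖ : L) (n e f₀ a J₀ : ℕ) (u : K) (τ : Fin f₀ → K)
  (U : Subgroup (GL (Fin n) K)) (γ : Fin n × Fin n × Fin e × Fin f₀ → U),
  KD σ ϖ e f₀ a u τ → e + 1 ≤ J₀ →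
  (∀ c d j t, (γ (c, d, j, t)).val.val = 1 + Matrix.single c d (u ^ (J₀ + j.val) * τ t)) →
  Module.finrank ℚ_[p] K = e * f₀ ∧
  ∃ (β : K) (ζ : Fin n → Fin n → Fin e → Fin f₀ → K)
    (bs : Fin n → Fin n → Module.Basis (Fin e × Fin f₀) ℚ_[p] K), β ≠ 0 ∧
    (∀ c d j t, ‖σ (ζ c d j t)‖ ≤ 1) ∧
    (∀ c d j t, (bs c d).traceDual (j, t) = β * (u ^ j.val)⁻¹ * ζ c d j t) ∧
    (∀ c d j (k : Fin f₀ → ℕ), ‖σ (∑ t, (k t : K) * ζ c d j t)‖ < 1 → ∀ t, p ∣ k t) ∧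
    ∀ c d j t i i', Tendsto (fun m : ℕ => ‖σ ((((p : K) ^ m)⁻¹ •
      ((γ (c, d, j, t) ^ p ^ m).val.val - 1) - Matrix.single c d (bs c d (j, t))) i i')‖)
        atTop (𝓝 0)

/-- the ring of integers. Hint: integral elements have norm `≤ 1` (ultrametric inequality in a
monic equation); conversely the ball is a `ℤ_[p]`-subalgebra contained in a finitely generated
`ℤ_[p]`-module (its coordinates in a basis of `K` are bounded: all linear maps from a finite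
dimensional normed space over `ℚ_[p]` are continuous; use `NormedField.induced K L σ`), so it is
finite over the noetherian ring `ℤ_[p]`; or `spectralNorm`. Second part: `GM`-like argument, the
inverse of an integral matrix `≡ 1 mod p` is integral. -/
-- deps: GM
def S_INT : Prop := ∀ (p : ℕ) [Fact p.Prime] (K L : Type) [Field K] [Algebra ℚ_[p] K]
  [FiniteDimensional ℚ_[p] K] [Algebra ℤ_[p] K] [IsScalarTower ℤ_[p] ℚ_[p] K] [NormedField L]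
  [NormedAlgebra ℚ_[p] L] [IsUltrametricDist L] (σ : K →ₐ[ℚ_[p]] L),
  (∀ z : K, z ∈ integralClosure ℤ_[p] K ↔ ‖σ z‖ ≤ 1) ∧
  ∀ (n l : ℕ) (h : GL (Fin n) K),
    ((∃ g : GL (Fin n) (integralClosure ℤ_[p] K),
      (∃ X : Matrix (Fin n) (Fin n) (integralClosure ℤ_[p] K),
        (g : Matrix (Fin n) (Fin n) (integralClosure ℤ_[p] K)) =
          1 + (p : integralClosure ℤ_[p] K) ^ l • X) ∧
      Matrix.GeneralLinearGroup.map (algebraMap (integralClosure ℤ_[p] K) K) g = h) →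
      Cong σ l h) ∧
    (1 ≤ l → Cong σ l h → ∃ g : GL (Fin n) (integralClosure ℤ_[p] K),
      (∃ X : Matrix (Fin n) (Fin n) (integralClosure ℤ_[p] K),
        (g : Matrix (Fin n) (Fin n) (integralClosure ℤ_[p] K)) =
          1 + (p : integralClosure ℤ_[p] K) ^ l • X) ∧
      Matrix.GeneralLinearGroup.map (algebraMap (integralClosure ℤ_[p] K) K) g = h)

/-- the main theorem -/
-- deps: UNI RES RED ORT MUL KILL LIFT W FS1 FS2 FS3 KD GD0 GD2 XB LIP EOP EXTR PHI CONST NIL EXT CC FIN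
def S_MAIN : Prop := ∀ (p : ℕ) [Fact p.Prime] (K L B : Type) [Field K] [Algebra ℚ_[p] K]
  [FiniteDimensional ℚ_[p] K] [NormedField L] [NormedAlgebra ℚ_[p] L] [FiniteDimensional ℚ_[p] L]
  [NormedAddCommGroup B] [NormedSpace L B] [IsUltrametricDist B] [CompleteSpace B]
  (σ : K →ₐ[ℚ_[p]] L) (n g : ℕ) (U : Subgroup (GL (Fin n) K)) (ρ : U →* Module.End L B)
  (x : Fin g → Module.End L B) (φ : ℕ → (Fin g → ℕ) → L) (C : ℝ),
  (∀ v : B, ∃ c : L, ‖v‖ = ‖c‖) → (∃ l, ∀ h : GL (Fin n) K, Cong σ l h → h ∈ U) →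
  (∀ h v, ‖ρ h v‖ = ‖v‖) →
  (∀ (v : B) (ε : ℝ), 0 < ε → ∃ l, ∀ h : U, Cong σ l h.val → ‖ρ h v - v‖ ≤ ε) →
  (∀ j v, ‖x j v‖ ≤ ‖v‖) → (∀ j v, Tendsto (fun m : ℕ => (x j ^ m) v) atTop (𝓝 0)) →
  (∀ i j, Commute (x i) (x j)) → (∀ j h, Commute (x j) (ρ h)) →
  (∀ l, ∃ m₀ : ℕ, ∀ (m : ℕ) (v : Fin m → B), (∀ i, Fix σ ρ x l (v i)) → Orth L v → m ≤ m₀) →
  (∀ k β, ‖φ k β‖ ≤ C * (1 + ∑ j, (β j : ℝ)) ^ k) →
  (∀ k, 1 ≤ k → k ≤ n → ∀ v, An σ ρ x v →
    HasSum (fun β => φ k β • xp x β v) (Cap (Eop σ ρ) k v)) →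
  ∃ C' : ℕ, ∀ (l m : ℕ) (v : Fin m → B), (∀ i, Fix σ ρ x l (v i)) → Orth L v →
    m ≤ C' * p ^ (Module.finrank ℚ_[p] K * n.choose 2 * l)

end Pool.Agent.P.MP_7cb106_nt.GK
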