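import Pool.Agent.P.MP_7cb106_nt.GK.IfaceM

/-! Removing the growth hypothesis: the weight of the `x j` is taken proportional to `N`. -/

set_option autoImplicit false

namespace Pool.Agent.P.MP_7cb106_nt.GK

open Filter Topology

/-- mixed weights -/
def mix {ι : Type} (μ₀ μ₁ : ι → ℕ) (N : ℕ) : ι → ℕ := fun i => μ₀ i + N * μ₁ i

theorem wt_mix {ι : Type} (μ₀ μ₁ : ι → ℕ) (N : ℕ) (α : ι →₀ ℕ) :
    wt (mix μ₀ μ₁ N) α = wt μ₀ α + N * wt μ₁ α := by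
  simp only [wt, Finsupp.weight_apply, Finsupp.sum, mix, smul_eq_mul, Finset.mul_sum,
    ← Finset.sum_add_distrib]
  exact Finset.sum_congr rfl fun i _ => by ring

/-- vectors killed by the monomials of bidegree lexicographically above `(c, a)` -/
def Ul {ι F V : Type} [Fintype ι] [Field F] [AddCommGroup V] [Module F V]
    (β : ι → Module.End F V) (μ₀ μ₁ : ι → ℕ) (a c : ℕ) : Submodule F V where
  carrier := {v | ∀ α, (c < wt μ₁ α ∨ (c = wt μ₁ α ∧ a < wt μ₀ α)) → mono β α v = 0}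
  add_mem' := fun {x y} hx hy α h => by rw [map_add, hx α h, hy α h, add_zero]
  zero_mem' := fun α _ => map_zero _
  smul_mem' := fun r v hv α h => by rw [map_smul, hv α h, smul_zero]

theorem mem_Ul {ι F V : Type} [Fintype ι] [Field F] [AddCommGroup V] [Module F V]
    {β : ι → Module.End F V} {μ₀ μ₁ : ι → ℕ} {a c : ℕ} {v : V} : v ∈ Ul β μ₀ μ₁ a c ↔
      ∀ α, (c < wt μ₁ α ∨ (c = wt μ₁ α ∧ a < wt μ₀ α)) → mono β α v = 0 := Iff.rfl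

/-- `Ψ` is realised in bidegree `(a, c)` -/
def Lx {ι F V : Type} [Fintype ι] [Field F] [AddCommGroup V] [Module F V]
    (β : ι → Module.End F V) (μ₀ μ₁ : ι → ℕ) (a c : ℕ) (Ψ : (ι →₀ ℕ) → V) : Prop :=
  ∃ u ∈ Ul β μ₀ μ₁ a c, ∀ α, wt μ₀ α = a → wt μ₁ α = c → mono β α u = Ψ α

/-- the lexicographic filtration. Hint: if `v ∈ Ul a c` and `v ∈ Vs (mix 1) T` then
`v ∈ Vs (mix N) (a + N c + 1)` for `N > a + T`; use `Good` for such an `N` (also larger than the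
`μ₀`-weights that occur). -/
-- deps:
def S_ULG : Prop := ∀ (ι F V : Type) [Fintype ι] [Field F] [AddCommGroup V] [Module F V]
  (β : ι → Module.End F V) (μ₀ μ₁ : ι → ℕ), (∀ N, 1 ≤ N → Good β (mix μ₀ μ₁ N)) →
  (∀ v, ∃ T, v ∈ Vs β (mix μ₀ μ₁ 1) T) →
  (∀ (a c : ℕ) (v : V) (α α' : ι →₀ ℕ), v ∈ Ul β μ₀ μ₁ a c → wt μ₀ α + wt μ₀ α' = a →
    wt μ₁ α + wt μ₁ α' = c → mono β α (mono β α' v) = mono β (α + α') v) ∧
  (∀ (a c a' c' : ℕ) (v : V) (α' : ι →₀ ℕ), v ∈ Ul β μ₀ μ₁ a c → wt μ₀ α' + a' = a →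
    wt μ₁ α' + c' = c → mono β α' v ∈ Ul β μ₀ μ₁ a' c') ∧
  (∀ N, 1 ≤ N → Vs β (mix μ₀ μ₁ N) 1 = Ul β μ₀ μ₁ 0 0) ∧
  (∀ N a c, a < N → Vs β (mix μ₀ μ₁ N) (a + N * c + 1) ≤ Ul β μ₀ μ₁ a c) ∧
  ∀ N, 1 ≤ N → ∀ v, ∃ T, v ∈ Vs β (mix μ₀ μ₁ N) T

/-- the bigraded extension lemma. Hint: copy the proof of `p_EXT` (file `BunC.lean` on main, or
`TEXT` in the table) with the weight `i ↦ (μ₀ i, μ₁ i)` in `ℕ × ℕ` and `Ul a c` in place of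
`Vs (t+1)`; the spans of the bihomogeneous relations of bidegree `≤ (D, D)` stabilise; finitely
many monomials have a given bidegree because `0 < μ₀ i + μ₁ i`. -/
-- deps:
def S_LEX : Prop := ∀ (ι F V : Type) [Fintype ι] [Field F] [AddCommGroup V] [Module F V]
  (β : ι → Module.End F V) (μ₀ μ₁ : ι → ℕ), (∀ i, 0 < μ₀ i + μ₁ i) →
  (∀ (a c : ℕ) (v : V) (α α' : ι →₀ ℕ), v ∈ Ul β μ₀ μ₁ a c → wt μ₀ α + wt μ₀ α' = a →
    wt μ₁ α + wt μ₁ α' = c → mono β α (mono β α' v) = mono β (α + α') v) →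
  (∀ (a c a' c' : ℕ) (v : V) (α' : ι →₀ ℕ), v ∈ Ul β μ₀ μ₁ a c → wt μ₀ α' + a' = a →
    wt μ₁ α' + c' = c → mono β α' v ∈ Ul β μ₀ μ₁ a' c') →
  Module.Finite F (Ul β μ₀ μ₁ 0 0) →
  ∃ D : ℕ, ∀ (a c : ℕ) (Ψ : (ι →₀ ℕ) → V),
    (∀ α, wt μ₀ α = a → wt μ₁ α = c → Ψ α ∈ Ul β μ₀ μ₁ 0 0) →
    (∀ (γ : ι →₀ ℕ) (a' c' : ℕ), a' ≤ D → c' ≤ D → wt μ₀ γ + a' = a → wt μ₁ γ + c' = c →
      Lx β μ₀ μ₁ a' c' fun α => Ψ (α + γ)) → Lx β μ₀ μ₁ a c Ψ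

/-- from the lexicographic filtration to the mixed one. Hint: induction on `c` of the claim: for
all `t`, `Ψ` realised in all bidegrees of weight `t` and zero on the monomials of weight `t` with
`wt μ₁ ≥ c`, there is `u ∈ Vs (t+1)` killed by all monomials with `wt μ₁ ≥ c` and realising `Ψ` in
weight `t`. Step `c + 1`: take `u₀ ∈ Ul (t - N c) c`, it lies in some `Vs T`; downward induction on
`T ≥ t + 1`, subtracting the vector given by the claim for `c` and `α ↦ mono β α u`; at the end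
apply the claim for `c` to `Ψ - mono β α u`. Finally `c = t + 1`. -/
-- deps:
def S_KEY : Prop := ∀ (ι F V : Type) [Fintype ι] [Field F] [AddCommGroup V] [Module F V]
  (β : ι → Module.End F V) (μ₀ μ₁ : ι → ℕ) (N : ℕ), 1 ≤ N →
  (∀ v, ∃ T, v ∈ Vs β (mix μ₀ μ₁ N) T) →
  (∀ t, ∀ u ∈ Vs β (mix μ₀ μ₁ N) (t + 1), ∀ a c, a + N * c = t →
    Lx β μ₀ μ₁ a c fun α => mono β α u) →
  ∀ (t : ℕ) (Ψ : (ι →₀ ℕ) → V), (∀ a c, a + N * c = t → Lx β μ₀ μ₁ a c Ψ) →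
    ∃ u ∈ Vs β (mix μ₀ μ₁ N) (t + 1), ∀ α, wt (mix μ₀ μ₁ N) α = t → mono β α u = Ψ α

/-- the degree bound is linear in `N`. Hint: `D` from `LEX`; for `N > D` the local condition of
`Ext` for `t' = a' + N c' ≤ D + D N` gives `w ∈ Vs (t'+1) ≤ Ul a' c'`, so `LEX` realises every
bidegree; this applies to `α ↦ mono β α u`, `u ∈ Vs (t+1)`, with `w = mono β γ u` (`Good`); `KEY`. -/
-- deps: ULG LEX KEY
def S_EXT2 : Prop := ∀ (ι F V : Type) [Fintype ι] [Field F] [AddCommGroup V] [Module F V]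
  (β : ι → Module.End F V) (μ₀ μ₁ : ι → ℕ), (∀ N, 1 ≤ N → Good β (mix μ₀ μ₁ N)) →
  (∀ v, ∃ T, v ∈ Vs β (mix μ₀ μ₁ 1) T) → Module.Finite F (Vs β (mix μ₀ μ₁ 1) 1) →
  ∃ D : ℕ, ∀ N, D < N → Ext β (mix μ₀ μ₁ N) (D + D * N)

/-- on vectors killed by the `x j` the filtration does not depend on their weights. Hint: if
`α (inr j) ≠ 0` for some `j` then `mono β α v = 0` (induction along the list, commutation);
otherwise the two weights of `α` agree. -/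
-- deps:
def S_IND : Prop := ∀ (ι F V : Type) [Fintype ι] [Field F] [AddCommGroup V] [Module F V] (g : ℕ)
  (β : ι ⊕ Fin g → Module.End F V) (μ μ' : ι ⊕ Fin g → ℕ) (s : ℕ) (v : V),
  (∀ j i, Commute (β (Sum.inr j)) (β i)) → (∀ i, μ (Sum.inl i) = μ' (Sum.inl i)) →
  (∀ j, β (Sum.inr j) v = 0) → v ∈ Vs β μ s → v ∈ Vs β μ' s

/-- block C with the relations only on vectors killed by the `x j`. -/
-- deps: GER NIL
def S_CC2 : Prop := ∀ (p : ℕ) [Fact p.Prime] (n e f₀ g : ℕ) [NeZero e] (F V : Type) [Field F]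
  [Finite F] [CharP F p] [AddCommGroup V] [Module F V], 0 < f₀ →
  ∀ (β : Ix n e f₀ g → Module.End F V) (μ : Ix n e f₀ g → ℕ), Good β μ →
  Module.Finite F (Vs β μ 1) → (∀ j i, Commute (β (Sum.inr j)) (β i)) →
  ∀ (z : Fin n → Fin n → Fin e → Fin f₀ → F) (α : F) (J₁ : ℕ),
  (∀ a b j t, z a b j t ^ p ^ f₀ = z a b j t) →
  (∀ a b j (c : Fin f₀ → ℕ), ∑ t, (c t : F) * z a b j t = 0 → ∀ t, p ∣ c t) →
  α ≠ 0 → α ^ p ^ f₀ = α →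
  (∀ J, J₁ ≤ J → ∀ k, 1 ≤ k → k ≤ n → ∀ i, ∃ s,
    ((Ek (pen (Ym p (g := g) z α J) (Ym p z α (J + 1))) k).coeff i).IsWeightedHomogeneous μ s ∧
    ∀ v ∈ Vs β μ (s + 1), (∀ j, β (Sum.inr j) v = 0) →
      ev F β ((Ek (pen (Ym p z α J) (Ym p z α (J + 1))) k).coeff i) v = 0) →
  ∃ C : ℕ, ∀ (s m : ℕ) (v : Fin m → V), LinearIndependent F v →
    (∀ i, v i ∈ Vs β μ s ∧ ∀ j, β (Sum.inr j) (v i) = 0) →
    m ≤ C * (s + 1) ^ (e * f₀ * n.choose 2)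

/-- the size of a series in `x` converging on the closed polydisc of radius `r`. Hint:
`xp x β ∈ Fil (Nx * ∑ β)`; see `p_PHI` in `BunE2.lean` on main. -/
-- deps:
def S_PHI2 : Prop := ∀ (L B : Type) [NormedField L] [IsUltrametricDist L]
  [NormedAddCommGroup B] [NormedSpace L B] [IsUltrametricDist B] (g Nx : ℕ)
  (x : Fin g → Module.End L B) (Fil : ℕ → Submodule (Ob L) (Module.End L B)) (θ M C r : ℝ)
  (φ : (Fin g → ℕ) → L) (v y : B), 0 < θ → θ ^ Nx ≤ r → 1 ∈ Fil 0 →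
  (∀ (t t' : ℕ) (c c' : Module.End L B), c ∈ Fil t → c' ∈ Fil t' → c * c' ∈ Fil (t + t')) →
  (∀ j, x j ∈ Fil Nx) → Bd Fil θ v M → (∀ β, ‖φ β‖ * r ^ (∑ j, β j) ≤ C) →
  HasSum (fun β => φ β • xp x β v) y → ‖y‖ ≤ C * M

/-- choice of the constants. Hint: `r₀ = r ^ (1 / (2 (D+1)))`, `Nx = (N - D - 1) / (D + 1)`, so
`2 (D+1) Nx ≥ N` for large `N`; `S_CONST` (with `C = 1`, say, and a large `D`) gives `N`, `θ` and
`κ > 1 + e a N / Nx₀` with `Nx₀` fixed when `n ≥ 1` (use it with `n = 1`), so `κ` is large. -/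
-- deps: CONST
def S_CONST2 : Prop := ∀ (p e a D : ℕ) (w : ℕ → ℕ) (r b₀ : ℝ), 2 ≤ p → 0 < e → 0 < a →
  Wt p e a w → 0 < r → r < 1 → (r ^ a) ^ e = (p : ℝ)⁻¹ → 0 < b₀ →
  ∃ r₀ : ℝ, 0 < r₀ ∧ r₀ < 1 ∧ ∀ C : ℝ, ∃ J₁ : ℕ, ∀ J, J₁ ≤ J → ∃ (N Nx : ℕ) (θ : ℝ),
    w (J + 1) = w J + a * N ∧ 0 < θ ∧ θ < 1 ∧ θ ^ N = r ∧ D < Nx ∧ D + D * Nx < N ∧
    (∀ j < e, w j < e * a * N) ∧ θ ^ Nx ≤ r₀ ∧ 1 ≤ b₀ * ((r ^ a) ^ J)⁻¹ * θ ^ w J * θ ∧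
    ∀ k, 1 ≤ k → C < (b₀ * ((r ^ a) ^ J)⁻¹ * θ ^ w J) ^ k

/-- the main theorem without growth hypothesis -/
-- deps: UNI RES RED ORT MUL KILL LIFT W FS1 FS2 FS3 KD GD0 GD2 XB LIP EOP EXTR HOM PHI2 CONST2 NIL EXT2 CC2 IND FIN
def S_MAIN2 : Prop := ∀ (p : ℕ) [Fact p.Prime] (K L B : Type) [Field K] [Algebra ℚ_[p] K]
  [FiniteDimensional ℚ_[p] K] [NormedField L] [NormedAlgebra ℚ_[p] L] [FiniteDimensional ℚ_[p] L]
  [NormedAddCommGroup B] [NormedSpace L B] [IsUltrametricDist B] [CompleteSpace B]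
  (σ : K →ₐ[ℚ_[p]] L) (n g : ℕ) (U : Subgroup (GL (Fin n) K)) (ρ : U →* Module.End L B)
  (x : Fin g → Module.End L B) (φ : ℕ → (Fin g → ℕ) → L),
  (∀ v : B, ∃ c : L, ‖v‖ = ‖c‖) → (∃ l, ∀ h : GL (Fin n) K, Cong σ l h → h ∈ U) →
  (∀ h v, ‖ρ h v‖ = ‖v‖) →
  (∀ (v : B) (ε : ℝ), 0 < ε → ∃ l, ∀ h : U, Cong σ l h.val → ‖ρ h v - v‖ ≤ ε) →
  (∀ j v, ‖x j v‖ ≤ ‖v‖) → (∀ j v, Tendsto (fun m : ℕ => (x j ^ m) v) atTop (𝓝 0)) →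
  (∀ i j, Commute (x i) (x j)) → (∀ j h, Commute (x j) (ρ h)) →
  (∀ l, ∃ m₀ : ℕ, ∀ (m : ℕ) (v : Fin m → B), (∀ i, Fix σ ρ x l (v i)) → Orth L v → m ≤ m₀) →
  (∀ (k : ℕ) (r : ℝ), 0 < r → r < 1 → ∃ C : ℝ, ∀ β, ‖φ k β‖ * r ^ (∑ j, β j) ≤ C) →
  (∀ k, 1 ≤ k → k ≤ n → ∀ v, An σ ρ x v →
    HasSum (fun β => φ k β • xp x β v) (Cap (Eop σ ρ) k v)) →
  ∃ C' : ℕ, ∀ (l m : ℕ) (v : Fin m → B), (∀ i, Fix σ ρ x l (v i)) → Orth L v →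
    m ≤ C' * p ^ (Module.finrank ℚ_[p] K * n.choose 2 * l)

end Pool.Agent.P.MP_7cb106_nt.GK
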